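import Pool.Agent.H910.Cf.Defs

/-!
Specialisation of algebraic relations.
-/

set_option autoImplicit false
set_option linter.unusedSectionVars false
set_option linter.unusedVariables false
set_option linter.overlappingInstances false

open FF MvPolynomial
open Pool.Agent.W602.GT (val IsForm coords val_smul)
open Pool.Agent.H916
open Pool.Agent.Y216 (OnVar)
open Pool.Agent.H910.Vf

namespace Pool.Agent.H910.Cf

variable {F K : Type} [Field F] [Field K] [Algebra F K] {M N : ℕ} {x : Fin (M + 1) → K}
  {y : Fin (N + 1) → K}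

/-- an algebraic relation over the ring of the affine coordinates -/
theorem exists_relation {j0 : Fin (N + 1)} (hj0 : y j0 ≠ 0) {z : K}
    (hz : IsAlgebraic (coords F y) z) :
    ∃ (m : ℕ) (P : ℕ → MvPolynomial (Fin (N + 1)) F), aeval (fun c => y c / y j0) (P m) ≠ 0 ∧
      ∑ l ∈ Finset.range (m + 1), aeval (fun c => y c / y j0) (P l) * z ^ l = 0 := by
  classical
  rw [Pool.Agent.H916.coords_eq hj0, IntermediateField.isAlgebraic_adjoin_iff] at hz
  obtain ⟨p, hp, hpz⟩ := hz
  have h1 : ∀ l, ∃ P : MvPolynomial (Fin (N + 1)) F,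
      aeval (fun c => y c / y j0) P = ((p.coeff l : Algebra.adjoin F
        (Set.range fun i => y i / y j0)) : K) := by
    intro l
    obtain ⟨c, hc⟩ : ∃ c, c = p.coeff l := ⟨_, rfl⟩
    rw [← hc]
    have h2 : (c : K) ∈ (aeval (R := F) fun i => y i / y j0).range := by
      rw [← Algebra.adjoin_range_eq_range_aeval]
      exact c.2
    obtain ⟨P, hP⟩ := h2
    exact ⟨P, hP⟩
  choose P hP using h1
  refine ⟨p.natDegree, P, ?_, ?_⟩
  · rw [hP]
    intro h0
    apply hp
    have h3 : p.leadingCoeff = 0 := Subtype.ext h0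
    exact Polynomial.leadingCoeff_eq_zero.1 h3
  · rw [Polynomial.aeval_eq_sum_range] at hpz
    rw [← hpz]
    refine Finset.sum_congr rfl fun l _ => ?_
    rw [hP, Algebra.smul_def]
    rfl

/-- **The coordinates of the points are algebraic over the coordinates of their images.** -/
theorem alg_close (hx : x ≠ 0) (hgen : coords F x = ⊤) (hy : y ≠ 0)
    (halg : Algebra.IsAlgebraic (coords F y) K) :
    ∃ G : MvPolynomial (Fin (M + 1)) F, IsForm G ∧ val x G ≠ 0 ∧ ∀ (E : Type) [Field E]
      [Algebra F E] (f : Fin (M + 1) → E) (g : Fin (N + 1) → E), InClosure F x y f g →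
        val f G ≠ 0 → ∀ i j, f j ≠ 0 → IsAlgebraic (coords F g) (f i / f j) := by
  classical
  obtain ⟨i0, hi0⟩ := Function.ne_iff.1 hx
  have hi0 : x i0 ≠ 0 := hi0
  obtain ⟨j0, hj0⟩ := Function.ne_iff.1 hy
  have hj0 : y j0 ≠ 0 := hj0
  obtain ⟨e, H, hH, hne, heq⟩ := exists_forms (k := F) hi0 hj0 (by rw [hgen]; exact le_top)
  have hR : RMap x y j0 e H := ⟨hH, hne, hj0, heq⟩
  have hrel := fun i => exists_relation hj0 (halg.isAlgebraic (x i / x i0))
  choose m P hP hs using hrel
  have hform : ∀ i, IsForm (Pool.Agent.H916.hz j0 (P i (m i))) := fun i => ⟨_, hz_hom j0 _⟩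
  refine ⟨X i0 * H j0 * ∏ i, aeval H (Pool.Agent.H916.hz j0 (P i (m i))),
    isForm_mul0 (isForm_mul0 ⟨1, isHomogeneous_X F i0⟩ ⟨e, hH j0⟩)
      (isForm_prod0 fun i => isForm_comp0 hH (hform i)), ?_, fun E _ _ f g hfg hfG => ?_⟩
  · rw [val_mul_ne0, val_mul_ne0, val_prod_ne0]
    refine ⟨⟨?_, hne⟩, fun i h0 => ?_⟩
    · unfold Pool.Agent.W602.GT.val
      rw [aeval_X]
      exact hi0
    · have h1 := (hR.val_iff (hform i)).1 h0
      unfold Pool.Agent.W602.GT.val at h1
      rw [hz_val y hj0] at h1
      exact mul_ne_zero (pow_ne_zero _ hj0) (hP i) h1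
  · rw [val_mul_ne0, val_mul_ne0, val_prod_ne0] at hfG
    obtain ⟨⟨hf1, hf2⟩, hf3⟩ := hfG
    have hfi0 : f i0 ≠ 0 := by
      unfold Pool.Agent.W602.GT.val at hf1
      rwa [aeval_X] at hf1
    obtain ⟨c, hc0, hc⟩ := closure_smul hfg hR hf2
    have hgj0 : g j0 ≠ 0 := by
      rw [hc]
      exact mul_ne_zero hc0 hf2
    have hall := closure_all hfg hR hf2 i0 j0 hfi0 hgj0
    -- each coordinate is algebraic
    have hone : ∀ i, IsAlgebraic (coords F g) (f i / f i0) := by
      intro i
      have hmem : ∀ l, aeval (fun c => g c / g j0) (P i l) ∈ coords F g := by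
        intro l
        rw [Pool.Agent.H916.coords_eq hgj0]
        have h1 : aeval (fun c => g c / g j0) (P i l) ∈
            Algebra.adjoin F (Set.range fun i => g i / g j0) := by
          rw [Algebra.adjoin_range_eq_range_aeval]
          exact ⟨P i l, rfl⟩
        exact IntermediateField.algebra_adjoin_le_adjoin _ _ h1
      let p : Polynomial (coords F g) := ∑ l ∈ Finset.range (m i + 1),
        Polynomial.C (⟨_, hmem l⟩ : coords F g) * Polynomial.X ^ l
      refine ⟨p, fun hp0 => ?_, ?_⟩
      · -- the leading coefficient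
        have h1 : p.coeff (m i) = ⟨_, hmem (m i)⟩ := by
          simp only [p, Polynomial.finsetSum_coeff, Polynomial.coeff_C_mul_X_pow]
          rw [Finset.sum_ite_eq, if_pos (Finset.mem_range.2 (Nat.lt_succ_self _))]
        rw [hp0, Polynomial.coeff_zero] at h1
        have h2 : aeval (fun c => g c / g j0) (P i (m i)) = 0 := (congrArg Subtype.val h1).symm
        apply hf3 i
        rw [val_comp0]
        refine (val_scale_iff0 hc0 hc (hform i)).1 ?_
        unfold Pool.Agent.W602.GT.val
        rw [hz_val g hgj0, h2, mul_zero]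
      · have h1 := hall (∑ l ∈ Finset.range (m i + 1), rename Sum.inr (P i l) *
          X (Sum.inl i) ^ l) (by
          rw [map_sum, ← hs i]
          refine Finset.sum_congr rfl fun l _ => ?_
          rw [map_mul, map_pow, aeval_X, aeval_rename]
          rfl)
        simp only [p, map_sum, map_mul, map_pow, Polynomial.aeval_X, Polynomial.aeval_C]
        rw [← h1, map_sum]
        refine Finset.sum_congr rfl fun l _ => ?_
        rw [map_mul, map_pow, aeval_X, aeval_rename]
        rfl
    intro i j hj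
    have h1 : f i / f j = (f i / f i0) * (f j / f i0)⁻¹ := by
      field_simp
    rw [h1]
    exact (hone i).mul (hone j).inv

end Pool.Agent.H910.Cf
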