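import Pool.Agent.H910.Cf.Cdf
import Pool.Graph.R_pool_sql_team_seeded_3997aac3.Q103.SF.Defs2

/-!
Definitions: classes of complex projective varieties.
-/

set_option autoImplicit false
set_option linter.overlappingInstances false

namespace Pool.Agent.H910.Cf

open FF
open Pool.Agent.W602.GT
open Pool.Agent.Y221.PD
open Pool.Agent.Y221.BD (EntireCurve)
open Pool.Agent.Y216 (OnVar)
open Pool.Agent.W603.LV (canDeg)
open Pool.Agent.W603.PV (pht)
open Pool.Agent.TH466.QG (SubOf)
open Pool.Agent.Q271.RC (Nonconst)
open Pool.Agent.Q103.SF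

/-- `x` is the generic point, in the function field `K`, of a complex projective surface with a
ramified map to a space of binary forms, which is generically finite; or the surface is of general
type and the ramified map is not constant. -/
def RamSurface {M : ℕ} {K : Type} [Field K] [Algebra ℂ K] (x : Fin (M + 1) → K) : Prop :=
  x ≠ 0 ∧ coords ℂ x = ⊤ ∧ Algebra.trdeg ℂ K = (2 : ℕ) ∧ ∃ (n : ℕ) (y : Fin (n + 2) → K),
    RamP ℂ x y ∧ (Algebra.IsAlgebraic (coords ℂ y) K ∨ (GeneralType ℂ K 2 ∧ coords ℂ y ≠ ⊥))

/-- The exceptional curves of the projective variety `X` with the generic point `x`: the closed curves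
of geometric genus `≤ 1` in `X`. -/
structure CurveSets {M : ℕ} {K : Type} [Field K] [Algebra ℂ K] (x : Fin (M + 1) → K) : Prop where
  /-- they are finite in number -/
  finite : (lowCurves x).Finite
  /-- the Zariski closure of every nonconstant entire curve is one of them -/
  entire : ∀ f, EntireCurve x f → vanOn Set.univ (fun t i => f i t) ∈ lowCurves x
  /-- each of them is the Zariski closure of an entire curve -/
  curves : ∀ V ∈ lowCurves x, ∃ f, EntireCurve x f ∧ vanOn Set.univ (fun t i => f i t) = V
  /-- all other closed subvarieties of positive dimension are of general type -/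
  sub : ∀ (E : Type) [Field E] [Algebra ℂ E] (w : ℕ) (z : Fin (M + 1) → E), SubOf ℂ x z → 1 ≤ w →
    Algebra.trdeg ℂ E = w → GeneralType ℂ E w ∨ van z ∈ lowCurves x
  /-- for every map from a curve of genus `g` to `X`, the degree is at most `A * (2 * g - 2)`, or the
  image is one of these curves -/
  degree : ∃ A : ℕ, ∀ (L : Type) [Field L] [Algebra ℂ L] [IsFF ℂ L] (v : Fin (M + 1) → L),
    OnVar ℂ x v → Nonconst v → pht ℂ v ≤ A * canDeg ℂ L ∨ van v ∈ lowCurves x

/-- All closed subvarieties of dimension at least `d` of the projective variety with the generic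
point `x` have a generically finite ramified map to a space of binary forms. -/
def Hered (d : ℕ) {M : ℕ} {K : Type} [Field K] [Algebra ℂ K] (x : Fin (M + 1) → K) : Prop :=
  ∀ (E : Type) [Field E] [Algebra ℂ E] (z : Fin (M + 1) → E) (t : ℕ), SubOf ℂ x z →
    Algebra.trdeg ℂ E = t → d ≤ t → ∃ (n : ℕ) (y : Fin (n + 2) → E), RamP ℂ z y ∧
      Algebra.IsAlgebraic (coords ℂ y) E

/-- Every closed subvariety `Z` of dimension at least two of the projective variety with the generic
point `x` has a generically finite ramified map to a space of binary forms; or `Z` is of general type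
and has finitely many ramified maps to spaces of binary forms such that the dimension of the image of
`Z` in the product of these spaces is at least `dim Z - 1`. -/
def BinaryClass {M : ℕ} {K : Type} [Field K] [Algebra ℂ K] (x : Fin (M + 1) → K) : Prop :=
  ∀ (E : Type) [Field E] [Algebra ℂ E] (z : Fin (M + 1) → E) (t : ℕ), SubOf ℂ x z →
    Algebra.trdeg ℂ E = t → 2 ≤ t →
    (∃ (n : ℕ) (y : Fin (n + 2) → E), RamP ℂ z y ∧ Algebra.IsAlgebraic (coords ℂ y) E) ∨
    (GeneralType ℂ E t ∧ ∃ (r : ℕ) (n : Fin r → ℕ) (y : ∀ l, Fin (n l + 2) → E),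
      (∀ l, RamP ℂ z (y l)) ∧ (t : Cardinal) ≤ Algebra.trdeg ℂ ↥(⨆ l, coords ℂ (y l)) + 1)

/-- The exceptional curves of the projective variety `X` with the generic point `x`, with the maps from
elliptic curves and the meromorphic maps from `ℂ ^ g`. -/
structure CurveSets2 {M : ℕ} {K : Type} [Field K] [Algebra ℂ K] (x : Fin (M + 1) → K) : Prop
    extends CurveSets x where
  /-- each curve of genus `≤ 1` is the image of an elliptic curve -/
  elliptic : ∀ V ∈ lowCurves x, ∃ (E : Type) (_ : Field E) (_ : Algebra ℂ E) (_ : IsFF ℂ E)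
    (v : Fin (M + 1) → E), IsElliptic E ∧ OnVar ℂ x v ∧ Nonconst v ∧ van v = V
  /-- the Zariski closure of a meromorphic image of `ℂ ^ g` is a curve of genus `≤ 1` -/
  mero : ∀ g u, MeroMap x g u → vanOn Set.univ (fun t i => u i t) ∈ lowCurves x

end Pool.Agent.H910.Cf
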