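import Pool.Agent.H910.Cf.Pst

/-!
The cyclic coverings have generically finite ramified maps.
-/

set_option autoImplicit false
set_option linter.unusedSectionVars false
set_option linter.unusedVariables false
set_option linter.overlappingInstances false

open FF MvPolynomial Pool.Agent.W603.LV Pool.Agent.W603.PV
open Pool.Agent.W602.GT (val IsForm coords val_smul LogGeneralType GeneralType)
open Pool.Agent.H916
open Pool.Agent.Y216 (OnVar)
open Pool.Agent.H910.Vf

namespace Pool.Agent.H910.Cf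

variable {k : Type} [Field k] [CharZero k] [IsAlgClosed k] {n r m : ℕ} {a : Fin (r + 1) → k}
  {Y : Fin (n + 2) → MvPolynomial (Fin (r + 1)) k}

theorem contact_smul {E : Type} [Field E] [Algebra k E] {N d : ℕ}
    {Φ : MvPolynomial (Fin (N + 1)) k} (hΦ : Φ.IsHomogeneous d) {g h : Fin (N + 1) → E}
    (hg : ∃ j, h j ≠ 0) {c : E} (hc : c ≠ 0) (hgh : ∀ j, g j = c * h j) (h0 : aeval h Φ ≠ 0)
    (P : Place k E) : contact d Φ g P = contact d Φ h P := by
  unfold contact
  have h1 : g = fun j => c * h j := funext hgh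
  have h2 : aeval g Φ = c ^ d * aeval h Φ := by
    rw [h1]
    exact val_smul hΦ c h
  have h3 : pord P g = P.ord c + pord P h := by
    rw [h1]
    exact pord_scale P hg hc
  rw [h2, P.ord_mul (pow_ne_zero _ hc) h0, P.ord_pow, h3]
  ring

/-- **The cyclic coverings are ramified.** -/
theorem cyc_ramP (hm : n + r + 2 < m * (r - 1)) (hc : Covering m a Y) (hr : n + 1 ≤ r)
    (hn : 1 ≤ n) {K : Type} [Field K] [Algebra k K] {f : Fin (r + 2) → K}
    (hf : OnCyclic m a Y f) :
    RamP k f (fun j => aeval (fun l : Fin (r + 1) => f l.castSucc) (Y j)) := by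
  classical
  have hm0 : 1 ≤ m := by
    by_contra h
    have : m = 0 := by omega
    rw [this, zero_mul] at hm
    omega
  have hgd := cyc_disc hf
  have hf' := hf
  obtain ⟨h0, h1, h2⟩ := hf'
  have hgh := pow_hyp h1
  obtain ⟨j0, hj0⟩ := pow_ne (fun i => h0 i.castSucc) h1
  have hnum : (n + 1) * (∑ _i : Fin (r + 1), 0 + 2 * n * 1) + 2 * (2 * n * m) <
      ∑ _i : Fin (r + 1), (2 * n * (m - 1)) := by
    rw [Finset.sum_const, Finset.sum_const, Finset.card_univ, Fintype.card_fin]
    simp only [smul_eq_mul, mul_zero, zero_add, mul_one]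
    obtain ⟨r', rfl⟩ : ∃ r', r = r' + 2 := ⟨r - 2, by omega⟩
    obtain ⟨m', rfl⟩ : ∃ m', m = m' + 1 := ⟨m - 1, by omega⟩
    have e1 : r' + 2 - 1 = r' + 1 := by omega
    rw [e1] at hm
    rw [Nat.add_sub_cancel]
    have h4 : (n + 1) + 2 * (m' + 1) < (r' + 2 + 1) * m' := by nlinarith
    calc (n + 1) * (2 * n) + 2 * (2 * n * (m' + 1)) = 2 * n * ((n + 1) + 2 * (m' + 1)) := by ring
      _ < 2 * n * ((r' + 2 + 1) * m') := Nat.mul_lt_mul_of_pos_left h4 (by omega)
      _ = (r' + 2 + 1) * (2 * n * m') := by ring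
  -- the rational map
  have hR : RMap f (fun j => aeval (fun l : Fin (r + 1) => f l.castSucc) (Y j)) j0 m
      (fun j => rename Fin.castSucc (Y j)) := by
    refine ⟨fun j => (hc.2 j).rename_isHomogeneous, ?_, hj0, fun j => ?_⟩
    · rw [← aeval_cs]
      exact hj0
    · rw [← aeval_cs, ← aeval_cs]
  refine ⟨r + 1, a, 2 * n * m, fun _ => 2 * n * (m - 1), fun _ => 0, 1,
    (∏ i, X i) * rename Fin.castSucc (Y j0), ⟨hc.1, ⟨fun _ => Nat.mul_le_mul_left _ (Nat.sub_le _ _),
      hnum⟩, ⟨?_, fun i => ?_⟩, isForm_mul0 (isForm_prod0 fun i => ⟨1, isHomogeneous_X k i⟩)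
      ⟨m, (hc.2 j0).rename_isHomogeneous⟩, ?_, ?_⟩⟩
  · rw [hgd]
    exact pow_ne_zero _ (h0 _)
  · rw [hgh]
    exact pow_ne_zero _ (h0 _)
  · rw [val_mul_ne0, val_prod_ne0]
    refine ⟨fun i => ?_, ?_⟩
    · unfold Pool.Agent.W602.GT.val
      rw [aeval_X]
      exact h0 i
    · unfold Pool.Agent.W602.GT.val
      rw [← aeval_cs]
      exact hj0
  · intro E _ _ f' g' hcl hfG hg' P _
    rw [val_mul_ne0, val_prod_ne0] at hfG
    obtain ⟨hfX, hfj⟩ := hfG
    have hf0 : ∀ i, f' i ≠ 0 := fun i => by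
      have h3 := hfX i
      unfold Pool.Agent.W602.GT.val at h3
      rwa [aeval_X] at h3
    have hcyc : OnCyclic m a Y f' := hf.trans hc.2 (closure_on hcl) hf0
    obtain ⟨c, hc0, hcg⟩ := closure_smul hcl hR hfj
    have hcg' : ∀ j, g' j = c * aeval (fun l : Fin (r + 1) => f' l.castSucc) (Y j) := fun j => by
      rw [hcg j, ← aeval_cs]
    obtain ⟨hp1, hp2, hp3, hp4⟩ := cyc_ord hc.1 hr hn hm0 hcyc P
    have hne' := pow_ne (fun i => hcyc.1 i.castSucc) hcyc.2.1
    have hdd : aeval (fun j => aeval (fun l : Fin (r + 1) => f' l.castSucc) (Y j)) (dsc k n) ≠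
        0 := by
      rw [cyc_disc hcyc]
      exact pow_ne_zero _ (hf0 _)
    have hct : contact (2 * n) (dsc k n) g' P =
        2 * n * m * (P.ord (f' (Fin.last (r + 1))) - pord P f') := by
      rw [contact_smul (dsc_hom k n) hne' hc0 hcg' hdd, hp3]
    have hcs : ∀ i, contact 1 (hyp k (n + 1) 1 (a i)) g' P =
        m * (P.ord (f' i.castSucc) - pord P f') := by
      intro i
      have h4 := pow_hyp hcyc.2.1 i
      rw [contact_smul (hyp_hom k (n + 1) (1 : k) (a i)) hne' hc0 hcg' (by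
        rw [h4]
        exact pow_ne_zero _ (hf0 _))]
      unfold contact
      rw [h4, P.ord_pow, hp1, ← hp2]
      push_cast
      ring
    have hM0 : (0 : ℤ) ≤ 2 * n * m := by positivity
    unfold ConC
    rcases eq_or_lt_of_le hp4 with h4 | h4
    · left
      refine ⟨by rw [hct, h4, sub_self, mul_zero], fun i => ?_⟩
      rw [hcs]
      have h2 := pord_le P (f := f') (hf0 i.castSucc)
      rcases eq_or_lt_of_le h2 with h3 | h3
      · left
        rw [h3, sub_self, mul_zero]
      · right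
        have h5 : (1 : ℤ) ≤ P.ord (f' i.castSucc) - pord P f' := by linarith
        have h6 : ((2 * n * m : ℕ) : ℤ) - ((2 * n * (m - 1) : ℕ) : ℤ) = 2 * n := by
          push_cast [Nat.cast_sub hm0]
          ring
        rw [h6]
        push_cast
        calc (2 * n * m : ℤ) = 2 * n * m * 1 := by ring
          _ ≤ 2 * n * m * (P.ord (f' i.castSucc) - pord P f') := mul_le_mul_of_nonneg_left h5 hM0
          _ = _ := by ring
    · right
      rw [hct]
      have h5 : (1 : ℤ) ≤ P.ord (f' (Fin.last (r + 1))) - pord P f' := by linarith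
      have h7 : (2 * n * m : ℤ) * 1 ≤ 2 * n * m * (P.ord (f' (Fin.last (r + 1))) - pord P f') :=
        mul_le_mul_of_nonneg_left h5 hM0
      simp only [Nat.cast_zero, zero_mul, Finset.sum_const_zero, zero_add]
      push_cast
      linarith

theorem cyc_ram (hm : n + r + 2 < m * (r - 1)) (hc : Covering m a Y) (hr : n + 1 ≤ r)
    (hn : 1 ≤ n) {K : Type} [Field K] [Algebra k K] {f : Fin (r + 2) → K}
    (hf : OnCyclic m a Y f) (hgen : coords k f = ⊤) :
    RamP k f (fun j => aeval (fun l : Fin (r + 1) => f l.castSucc) (Y j)) ∧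
      Algebra.IsAlgebraic
        (coords k fun j => aeval (fun l : Fin (r + 1) => f l.castSucc) (Y j)) K := by
  have hm0 : 1 ≤ m := by
    by_contra h
    have : m = 0 := by omega
    rw [this, zero_mul] at hm
    omega
  exact ⟨cyc_ramP hm hc hr hn hf, cyc_alg hn hm0 hf hgen⟩

end Pool.Agent.H910.Cf
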