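import Pool.Agent.H910.Cf.Srf
import Pool.Agent.H910.Cf.Cyr
import Pool.Agent.H910.Cf.Bdf

/-!
Statements for surfaces.
-/

set_option autoImplicit false
set_option linter.unusedSectionVars false
set_option linter.unusedVariables false
set_option linter.overlappingInstances false

open Filter Topology Set Metric

namespace Pool.Agent.H910.Cf

open FF
open Pool.Agent.W602.GT
open Pool.Agent.W602.RG (PointedMaps)
open Pool.Agent.Y221.PD
open Pool.Agent.Y221.BD (EntireCurve)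
open Pool.Agent.Y216 (OnVar CurveBound)
open Pool.Agent.W603.LV (canDeg)
open Pool.Agent.W603.PV (pht)
open Pool.Agent.TH466.QG (SubOf)
open Pool.Agent.Q271.RC (Nonconst)
open Pool.Agent.Q103.SF
open Pool.Agent.Q103.KO (IsPoint SameP Chain)
open Pool.Agent.H916 (InClosure Meets RMap)
open Pool.Agent.H910.Vf (hyp dsc)

variable {M : ℕ} {K : Type} [Field K] [Algebra ℂ K] {x : Fin (M + 1) → K}

theorem bot_ne (htr : Algebra.trdeg ℂ K = (2 : ℕ)) {n : ℕ} {y : Fin (n + 2) → K}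
    (halg : Algebra.IsAlgebraic (coords ℂ y) K) : coords ℂ y ≠ ⊥ := by
  intro h0
  rw [h0] at halg
  have h4 : Algebra.IsAlgebraic ℂ (⊥ : IntermediateField ℂ K) :=
    (IntermediateField.botEquiv ℂ K).symm.isAlgebraic
  have h5 : Algebra.IsAlgebraic ℂ K := Algebra.IsAlgebraic.trans ℂ (⊥ : IntermediateField ℂ K) K
  have h6 : Algebra.trdeg ℂ K = 0 := trdeg_eq_zero
  rw [h6] at htr
  norm_num at htr

/-- **General type, linear bounds and entire curves.** -/
theorem RamSurface.facts (h : RamSurface x) : GeneralType ℂ K 2 ∧ CurveBound ℂ x ∧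
    ∀ f, EntireCurve x f → vanOn Set.univ (fun t i => f i t) ∈ lowCurves x := by
  obtain ⟨hx, hgen, htr, n, y, hy, halg | ⟨hgt, hnc⟩⟩ := h
  · obtain ⟨G, hG, hGx, A, hgt, hA⟩ := prj_all hx hgen hy halg
    have hxon : OnVar ℂ x x := ⟨Function.ne_iff.1 hx, fun G _ hGx => hGx⟩
    exact ⟨hgt K x hxon hgen hGx 2 (by norm_num) htr, ⟨G, hG, hGx, A, hA⟩,
      fun f hf => entire_srf htr hx hgen hy (bot_ne htr halg) hf⟩
  · refine ⟨hgt, ?_, fun f hf => entire_srf htr hx hgen hy hnc hf⟩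
    have h1 := prj_mixed hx hgen 0 1 (fun _ => 0) (fun l => l.elim0) (fun _ => n) (fun _ => y)
      (fun l => l.elim0) (fun _ => hy) (by
        have h2 : (⨆ l : Fin 0, coords ℂ ((fun l => l.elim0 : ∀ l : Fin 0, Fin 1 → K) l)) ⊔
            (⨆ _ : Fin 1, coords ℂ y) = coords ℂ y := by
          rw [iSup_of_empty, bot_sup_eq, ciSup_const]
        rw [h2, htr]
        have h3 : (1 : Cardinal) ≤ Algebra.trdeg ℂ (coords ℂ y) := by
          rw [Cardinal.one_le_iff_ne_zero]
          intro h0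
          rw [trdeg_eq_zero_iff] at h0
          apply hnc
          rw [eq_bot_iff]
          intro z hz
          have h4 : IsAlgebraic ℂ (⟨z, hz⟩ : coords ℂ y) := h0.isAlgebraic _
          have h5 : IsAlgebraic ℂ (algebraMap (coords ℂ y) K ⟨z, hz⟩) := h4.algebraMap
          have h7 : IsIntegral ℂ (algebraMap (coords ℂ y) K ⟨z, hz⟩) := h5.isIntegral
          have h8 := IsAlgClosed.degree_eq_one_of_irreducible ℂ (minpoly.irreducible h7)
          obtain ⟨c, hc⟩ := minpoly.mem_range_of_degree_eq_one ℂ _ h8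
          have h9 : z = algebraMap ℂ K c := hc.symm
          rw [h9]
          exact IntermediateField.algebraMap_mem _ c
        have h4 : ((2 : ℕ) : Cardinal) = 1 + 1 := by
          rw [Nat.cast_ofNat]
          exact one_add_one_eq_two.symm
        rw [h4]
        exact add_le_add_left h3 1)
    exact (h1.2.2 fun l => l.elim0).1 ⟨2, hgt⟩

theorem RamSurface.curveSets (h : RamSurface x) : CurveSets x := by
  have hlow : S_low := Pool.Agent.Q24.SF.low_curve Pool.Agent.Q95.SF.wei Pool.Agent.Q111.SF.cls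
  obtain ⟨hgt, hcb, hent⟩ := h.facts
  obtain ⟨hx, hgen, htr, -⟩ := h
  obtain ⟨h1, h2, h3⟩ := alg2 htr hx hgen hgt hcb
  exact ⟨h1, hent, fun V hV => curve_of_low hlow hV, h3, h2⟩

/-- **Hyperbolicity.** -/
theorem CurveSets.tfae (h : CurveSets x) :
    List.TFAE [KobayashiHyp x, BrodyHyp x, AllGeneral x, AlgHyp x, GeomHyp x,
      lowCurves x = ∅] := by
  have hk : S_kob := Pool.Agent.Q239.SF.kob
  have hp : S_ptd := Pool.Agent.Q239.SF.ptd
  tfae_have 1 ↔ 2 := (hk M K x).symm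
  tfae_have 6 → 2 := by
    intro h0 f hf
    have := h.entire f hf
    rw [h0] at this
    exact this
  tfae_have 2 → 6 := by
    intro h0
    rw [Set.eq_empty_iff_forall_notMem]
    intro V hV
    obtain ⟨f, hf, -⟩ := h.curves V hV
    exact h0 f hf
  tfae_have 6 → 4 := by
    intro h0
    obtain ⟨A, hA⟩ := h.degree
    refine ⟨A, fun L _ _ _ v hv hn => ?_⟩
    rcases hA L v hv hn with h1 | h1
    · exact h1
    · rw [h0] at h1
      exact h1.elim
  tfae_have 4 → 6 := by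
    rintro ⟨A, hA⟩
    rw [Set.eq_empty_iff_forall_notMem]
    rintro V ⟨L, _, _, _, v, hv, hgen, hc, rfl⟩
    have hn := nonconst_of_low hv hgen
    have h1 := hA L v hv hn
    have h2 := Pool.Agent.Q96.LS.pht_pos v hn
    have h3 : (A : ℤ) * canDeg ℂ L ≤ 0 := mul_nonpos_of_nonneg_of_nonpos (by positivity) hc
    omega
  tfae_have 6 → 3 := by
    intro h0 E _ _ w z hz hw ht
    rcases h.sub E w z hz hw ht with h1 | h1
    · exact h1
    · rw [h0] at h1
      exact h1.elim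
  tfae_have 3 → 6 := by
    intro h0
    rw [Set.eq_empty_iff_forall_notMem]
    rintro V ⟨L, _, _, _, v, hv, hgen, hc, rfl⟩
    have hne : v ≠ 0 := by
      obtain ⟨j, hj⟩ := hv.1
      intro h
      exact hj (congrFun h j)
    have h1 := h0 L 1 v ⟨hne, hgen, hv.2⟩ le_rfl (by
      rw [IsFF.trdeg (k := ℂ) (K := L)]
      simp)
    have h2 := pos_of_gt h1
    omega
  tfae_have 4 → 5 := by
    rintro ⟨A, hA⟩ E _ _ _ c a ha
    refine pointed_all (B := A) (fun L _ _ _ f hf => ?_) E c a ha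
    by_cases hn : Nonconst f
    · have h1 := hA L f hf hn
      have h2 : (A : ℤ) * canDeg ℂ L ≤ A * max (canDeg ℂ L) 0 :=
        mul_le_mul_of_nonneg_left (le_max_left _ _) (by positivity)
      exact h1.trans h2
    · exact (pht_const hf.1 hn).trans (by positivity)
  tfae_have 5 → 6 := by
    intro h0
    rw [Set.eq_empty_iff_forall_notMem]
    rintro V ⟨L, _, _, _, v, hv, hgen, hc, rfl⟩
    obtain ⟨c, a, ha, hinf⟩ := hp L hc M v (nonconst_of_low hv hgen)
    apply hinf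
    refine (h0 L c a ⟨ha.1, fun G hG hGx => ha.2 G hG (hv.2 G hG hGx)⟩).subset ?_
    rintro φ ⟨f, hf, h1, h2, h3⟩
    exact ⟨f, hf, fun H hH hHx => h1 H hH (hv.2 H hH hHx), h2, h3⟩
  tfae_finish

/-- **The numerical criterion.** -/
theorem surface_criterion (hx : x ≠ 0) (hgen : coords ℂ x = ⊤)
    (htr : Algebra.trdeg ℂ K = (2 : ℕ)) {n q r : ℕ}
    {y : Fin (n + 2) → K} {a : Fin q → ℂ} (ha : Function.Injective a) (hy : Gen a y)
    {m : Fin r → ℕ} {c : Fin r → Fin q → ℕ} {d : Fin r → ℕ}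
    (hroot : ∀ l, Root a y (m l) (c l) (d l))
    (hnum : Wts n fun s t => ∀ l, m l ∣ ∑ i, c l i * s i + d l * t)
    (h : Algebra.IsAlgebraic (coords ℂ y) K ∨ (GeneralType ℂ K 2 ∧ coords ℂ y ≠ ⊥)) :
    RamSurface x :=
  ⟨hx, hgen, htr, n, y, ramP_criterion hx hgen ha hy hroot hnum, h⟩

/-- **Examples.** -/
theorem cyc_surface {n r m : ℕ} {a : Fin (r + 1) → ℂ}
    {Y : Fin (n + 2) → MvPolynomial (Fin (r + 1)) ℂ} (hc : Covering m a Y) (hr : n + 1 ≤ r)
    (hn : 1 ≤ n) (hm : n + r + 2 < m * (r - 1)) {E : Type} [Field E] [Algebra ℂ E]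
    {f : Fin (r + 2) → E} (hf : OnCyclic m a Y f) (hgen : coords ℂ f = ⊤)
    (htr : Algebra.trdeg ℂ E = (2 : ℕ)) :
    RamSurface f ∧ ∀ V ∈ lowCurves f, ∏ i, MvPolynomial.X i ∈ V := by
  obtain ⟨h1, h2⟩ := cyc_ram hm hc hr hn hf hgen
  have hf0 : f ≠ 0 := fun h0 => hf.1 0 (congrFun h0 0)
  refine ⟨⟨hf0, hgen, htr, n, _, h1, Or.inl h2⟩, ?_⟩
  rintro V ⟨L, _, _, _, v, hv, hvgen, hcan, rfl⟩
  have hform : IsForm (∏ i : Fin (r + 2), MvPolynomial.X (R := ℂ) i) :=
    Pool.Agent.H916.isForm_prod0 fun i => ⟨1, MvPolynomial.isHomogeneous_X ℂ i⟩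
  refine ⟨hform, ?_⟩
  by_contra hne
  rw [← ne_eq, Pool.Agent.H916.val_prod_ne0] at hne
  have hv0 : ∀ i, v i ≠ 0 := fun i => by
    have h3 := hne i
    unfold Pool.Agent.W602.GT.val at h3
    rwa [MvPolynomial.aeval_X] at h3
  have hm0 : 1 ≤ m := by
    by_contra h
    have : m = 0 := by omega
    rw [this, zero_mul] at hm
    omega
  have h3 := cyc_curve hm0 hc.1 hr hn (hf.trans hc.2 hv hv0)
  rw [max_eq_right hcan, mul_zero] at h3
  have h4 := Pool.Agent.Q96.LS.pht_pos v (nonconst_of_low hv hvgen)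
  have h5 : (1 : ℤ) ≤ (m : ℤ) * (r - 1) - (n + r + 1) := by
    have h6 : ((r - 1 : ℕ) : ℤ) = (r : ℤ) - 1 := by
      rw [Nat.cast_sub (by omega), Nat.cast_one]
    zify at hm
    rw [h6] at hm
    linarith
  nlinarith

end Pool.Agent.H910.Cf
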