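import Pool.Agent.H910.Cf.Her
import Pool.Agent.H910.Cf.Sst

/-!
Projective varieties of arbitrary dimension with many ramified maps to spaces of binary forms.
-/

set_option autoImplicit false
set_option linter.unusedSectionVars false
set_option linter.unusedVariables false
set_option linter.overlappingInstances false

open Filter Topology Set Metric

namespace Pool.Agent.H910.Cf

open FF
open Pool.Agent.W602.GT
open Pool.Agent.Y221.PD
open Pool.Agent.Y221.BD (EntireCurve)
open Pool.Agent.Y216 (OnVar CurveBound)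
open Pool.Agent.W603.LV (canDeg)
open Pool.Agent.W603.PV (pht)
open Pool.Agent.TH466.QG (SubOf)
open Pool.Agent.Q96.HE (IsMap eul vanForms surface)
open Pool.Agent.Q96.LS (CentreIn LiesIn nonconst_of Norm)
open Pool.Agent.Q271.RC (IsGeneric Nonconst)
open Pool.Agent.Q103.SF
open Pool.Agent.H916 (InClosure Meets RMap)
open Pool.Agent.W603.BP (sin_point)

variable {M : ℕ} {K : Type} [Field K] [Algebra ℂ K] {x : Fin (M + 1) → K}

/-- ramified maps are constant if there is a dense entire curve -/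
theorem entire_const (hx : x ≠ 0) (hgen : coords ℂ x = ⊤) {n : ℕ} {y : Fin (n + 2) → K}
    (h : RamP ℂ x y) {f : Fin (M + 1) → ℂ → ℂ} (hf : EntireCurve x f)
    (hd : ∀ G : MvPolynomial (Fin (M + 1)) ℂ, IsForm G →
      (∀ t, MvPolynomial.eval (fun i => f i t) G = 0) → val x G = 0) : coords ℂ y = ⊥ := by
  classical
  have hy := h.ne
  obtain ⟨i0, hi0⟩ := Function.ne_iff.1 hx
  have hi0 : x i0 ≠ 0 := hi0
  obtain ⟨j0, hj0⟩ := Function.ne_iff.1 hy
  have hj0 : y j0 ≠ 0 := hj0
  obtain ⟨e, H, hH, hne, heq⟩ := Pool.Agent.H916.exists_forms (k := ℂ) hi0 hj0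
    (by rw [hgen]; exact le_top)
  have hR : RMap x y j0 e H := ⟨hH, hne, hj0, heq⟩
  obtain ⟨G, hG, hGx, hmain⟩ := Ram.entire h hR
  have hfG : ∃ t, MvPolynomial.eval (fun i => f i t) G ≠ 0 := by
    by_contra hcon
    push Not at hcon
    exact hGx (hd G hG hcon)
  obtain ⟨⟨b, hb⟩, hc⟩ := hmain _ (entire_of hf) hfG
  have hconst : ∀ i, ∃ c : ℂ, y i / y j0 = algebraMap ℂ K c := by
    intro i
    set c0 := MvPolynomial.eval (fun i => f i b) (H j0) with hc0
    set c1 := MvPolynomial.eval (fun i => f i b) (H i) with hc1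
    refine ⟨c1 / c0, ?_⟩
    have h0 := hd (MvPolynomial.C c0 * H i - MvPolynomial.C c1 * H j0) ⟨e, by
      refine MvPolynomial.IsHomogeneous.sub ?_ ?_
      · have := (MvPolynomial.isHomogeneous_C (Fin (M + 1)) c0).mul (hH i)
        rwa [zero_add] at this
      · have := (MvPolynomial.isHomogeneous_C (Fin (M + 1)) c1).mul (hH j0)
        rwa [zero_add] at this⟩ (fun t => by
      rw [map_sub, map_mul, map_mul, MvPolynomial.eval_C, MvPolynomial.eval_C]
      have h1 := hc i j0 t b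
      linear_combination h1)
    unfold Pool.Agent.W602.GT.val at h0
    rw [map_sub, map_mul, map_mul, MvPolynomial.aeval_C, MvPolynomial.aeval_C,
      sub_eq_zero] at h0
    rw [heq, map_div₀, div_eq_div_iff hne ((_root_.map_ne_zero _).2 hb)]
    linear_combination h0
  rw [eq_bot_iff]
  unfold Pool.Agent.W602.GT.coords
  rw [IntermediateField.adjoin_le_iff]
  rintro _ ⟨i, j, hj, rfl⟩
  obtain ⟨c, hc⟩ := hconst i
  obtain ⟨d, hd⟩ := hconst j
  have h1 : y i / y j = (y i / y j0) / (y j / y j0) := by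
    rw [div_div_div_cancel_right₀ hj0]
  rw [h1, hc, hd, ← map_div₀]
  exact IntermediateField.algebraMap_mem _ _

/-- the closure of an entire curve -/
theorem entire_sub {f : Fin (M + 1) → ℂ → ℂ} (hf : EntireCurve x f) :
    ∃ (E : Type) (_ : Field E) (_ : Algebra ℂ E) (z : Fin (M + 1) → E) (t : ℕ), SubOf ℂ x z ∧
      Algebra.trdeg ℂ E = t ∧ 1 ≤ t ∧
      (∀ G : MvPolynomial (Fin (M + 1)) ℂ, IsForm G →
        (val z G = 0 ↔ ∀ t, MvPolynomial.eval (fun i => f i t) G = 0)) ∧
      (t = 1 → ∀ _ : IsFF ℂ E, canDeg ℂ E ≤ 0) := by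
  obtain ⟨E, i1, i2, z, t, hz, ht, ht1, hiff, hlow⟩ := disc_sub (disc_of_entire hf)
  refine ⟨E, i1, i2, z, t, hz, ht, ht1, fun G hG => ?_, hlow⟩
  rw [hiff G hG]
  constructor
  · intro h t
    obtain ⟨w, hw, hws⟩ := sin_point t
    have h3 := h w hw
    simp only [hws] at h3
    exact h3
  · intro h w _
    exact h _

theorem BinaryClass.gt (h : BinaryClass x) {E : Type} [Field E] [Algebra ℂ E]
    {z : Fin (M + 1) → E} {t : ℕ} (hz : SubOf ℂ x z) (ht : Algebra.trdeg ℂ E = t) (hdt : 2 ≤ t) :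
    GeneralType ℂ E t ∧ CurveBound ℂ z := by
  rcases h E z t hz ht hdt with ⟨n, y, hy, halg⟩ | ⟨hgt, r, n, y, hy, htr⟩
  · obtain ⟨G, hG, hGz, A, hgt, hA⟩ := prj_all hz.ne hz.gen hy halg
    exact ⟨hgt E z ⟨Function.ne_iff.1 hz.ne, fun G _ h => h⟩ hz.gen hGz t
      ((by norm_num : 1 ≤ 2).trans hdt) ht, ⟨G, hG, hGz, A, hA⟩⟩
  · refine ⟨hgt, ?_⟩
    have h1 := prj_mixed hz.ne hz.gen 0 r (fun _ => 0) (fun l => l.elim0) n y
      (fun l => l.elim0) hy (by
        have h2 : (⨆ l : Fin 0, coords ℂ ((fun l => l.elim0 : ∀ l : Fin 0, Fin 1 → E) l)) ⊔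
            (⨆ l, coords ℂ (y l)) = ⨆ l, coords ℂ (y l) := by
          rw [iSup_of_empty, bot_sup_eq]
        rw [h2, ht]
        exact htr)
    exact (h1.2.2 fun l => l.elim0).1 ⟨t, hgt⟩

theorem BinaryClass.entire (h : BinaryClass x) {f : Fin (M + 1) → ℂ → ℂ}
    (hf : EntireCurve x f) : vanOn Set.univ (fun t i => f i t) ∈ lowCurves x := by
  obtain ⟨E, i1, i2, z, t, hz, ht, ht1, hiff, hlow⟩ := entire_sub hf
  rcases (by omega : t = 1 ∨ 2 ≤ t) with h1 | h2
  · subst h1
    have hff : IsFF ℂ E := ⟨Pool.Agent.Q72.NA.ess_of_adjoin hz.gen, by rw [ht]; simp⟩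
    refine ⟨E, i1, i2, hff, z, SubOf.on hz, hz.gen, hlow rfl hff, ?_⟩
    ext G
    constructor
    · rintro ⟨hG, h⟩
      exact ⟨hG, (hiff G hG).2 fun t => h t (Set.mem_univ t)⟩
    · rintro ⟨hG, h⟩
      exact ⟨hG, fun t _ => (hiff G hG).1 h t⟩
  · exfalso
    have hfz : EntireCurve z f :=
      ⟨hf.hol, hf.ne, fun G hG hGz t => (hiff G hG).1 hGz t, hf.nonconst⟩
    have hd : ∀ G : MvPolynomial (Fin (M + 1)) ℂ, IsForm G →
        (∀ t, MvPolynomial.eval (fun i => f i t) G = 0) → val z G = 0 :=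
      fun G hG h => (hiff G hG).2 h
    have hzero : Algebra.trdeg ℂ (⊥ : IntermediateField ℂ E) = 0 := by
      have h4 : Algebra.IsAlgebraic ℂ (⊥ : IntermediateField ℂ E) :=
        (IntermediateField.botEquiv ℂ E).symm.isAlgebraic
      exact trdeg_eq_zero
    rcases h E z t hz ht h2 with ⟨n, y, hy, halg⟩ | ⟨hgt, r, n, y, hy, htr⟩
    · have h3 := entire_const hz.ne hz.gen hy hfz hd
      rw [h3] at halg
      have h4 : Algebra.IsAlgebraic ℂ (⊥ : IntermediateField ℂ E) :=
        (IntermediateField.botEquiv ℂ E).symm.isAlgebraic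
      have h5 : Algebra.IsAlgebraic ℂ E :=
        Algebra.IsAlgebraic.trans ℂ (⊥ : IntermediateField ℂ E) E
      have h6 : Algebra.trdeg ℂ E = 0 := trdeg_eq_zero
      rw [h6] at ht
      have h7 : t = 0 := by exact_mod_cast ht.symm
      omega
    · have h3 : (⨆ l, coords ℂ (y l)) = ⊥ := by
        rw [iSup_eq_bot]
        exact fun l => entire_const hz.ne hz.gen (hy l) hfz hd
      rw [h3, hzero, zero_add] at htr
      have h7 : t ≤ 1 := by exact_mod_cast htr
      omega

/-- **Special sets.** -/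
theorem BinaryClass.curveSets (h : BinaryClass x) (hx : x ≠ 0) (hgen : coords ℂ x = ⊤) :
    CurveSets2 x := by
  classical
  have hlow : S_low := Pool.Agent.Q24.SF.low_curve Pool.Agent.Q95.SF.wei Pool.Agent.Q111.SF.cls
  obtain ⟨d, hd⟩ := exists_trdeg_of_gen hgen
  obtain ⟨h1, A', h2⟩ := any_dim (D := ({1} : Set (MvPolynomial (Fin (M + 1)) ℂ))) (by
      intro F hF
      rw [Set.mem_singleton_iff] at hF
      rw [hF]
      exact ⟨0, MvPolynomial.isHomogeneous_one _ _⟩) d K x hx hgen hd (by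
    intro E _ _ z t hz hzgen ht h2t _
    obtain ⟨-, G, hG, hGz, A, hA⟩ := h.gt (sub_of_on hz hzgen) ht h2t
    refine ⟨G, hG, hGz, A, fun L _ _ _ v hv hvG => ?_⟩
    have hv0 := ne_of_nonconst hv.nonconst
    rw [eul_one hv0]
    have h3 := hA L v (onVar_of_point hv.point hv0) hvG
    have h4 := Pool.Agent.Q96.LS.pht_pos v hv.nonconst
    rcases le_or_gt (canDeg ℂ L) 0 with h5 | h5
    · rw [max_eq_right h5, mul_zero] at h3
      omega
    · rwa [max_eq_left h5.le] at h3)
  have hfin : (lowCurves x).Finite := by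
    rw [low_eq]
    exact h1
  exact
    { finite := hfin
      entire := fun f hf => h.entire hf
      curves := fun V hV => curve_of_low hlow hV
      elliptic := fun V hV => ell_of_low hV
      mero := fun g u hu => mero_low2 (fun f hf => h.entire hf) hfin hu
      sub := fun E _ _ w z hz hw ht => by
        rcases (by omega : w = 1 ∨ 2 ≤ w) with rfl | hw2
        · have hff : IsFF ℂ E := ⟨Pool.Agent.Q72.NA.ess_of_adjoin hz.gen, by rw [ht]; simp⟩
          rcases le_or_gt (canDeg ℂ E) 0 with h3 | h3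
          · right
            exact ⟨E, inferInstance, inferInstance, hff, z, SubOf.on hz, hz.gen, h3, rfl⟩
          · left
            exact gt_of_canDeg h3
        · exact Or.inl (h.gt hz ht hw2).1
      degree := by
        refine ⟨A', fun L _ _ _ v hv hnc => ?_⟩
        have hm : IsMap x ({1} : Set (MvPolynomial (Fin (M + 1)) ℂ)) v :=
          ⟨fun G D hG hGx => hv.2 G ⟨D, hG⟩ hGx, not_lies, hnc⟩
        rw [low_eq, van_eq]
        have h3 := h2 L v hm
        rwa [eul_one hv.1] at h3 }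

/-- **Hyperbolicity and maps from tori.** -/
theorem CurveSets2.tfae (h : CurveSets2 x) :
    List.TFAE [KobayashiHyp x, BrodyHyp x, NoMero x, NoElliptic x, AllGeneral x, AlgHyp x,
      GeomHyp x, lowCurves x = ∅] := by
  have h0 := h.toCurveSets.tfae
  have e1 : KobayashiHyp x ↔ lowCurves x = ∅ := h0.out 0 5
  have e2 : BrodyHyp x ↔ lowCurves x = ∅ := h0.out 1 5
  have e3 : AllGeneral x ↔ lowCurves x = ∅ := h0.out 2 5
  have e4 : AlgHyp x ↔ lowCurves x = ∅ := h0.out 3 5
  have e5 : GeomHyp x ↔ lowCurves x = ∅ := h0.out 4 5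
  tfae_have 1 ↔ 8 := e1
  tfae_have 2 ↔ 8 := e2
  tfae_have 5 ↔ 8 := e3
  tfae_have 6 ↔ 8 := e4
  tfae_have 7 ↔ 8 := e5
  tfae_have 8 → 3 := by
    intro h0 g u hu
    have := h.mero g u hu
    rw [h0] at this
    exact this
  tfae_have 3 → 2 := by
    intro h0 f hf
    obtain ⟨i, j, a, b, hab⟩ := hf.nonconst
    refine h0 1 (fun i t => f i (t 0)) ⟨fun i => ?_, fun G hG hGx t => hf.mem G hG hGx _, i, j,
      fun _ => a, fun _ => b, hab⟩
    exact (hf.hol i).comp (by fun_prop)
  tfae_have 4 → 8 := by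
    intro h0
    rw [Set.eq_empty_iff_forall_notMem]
    intro V hV
    obtain ⟨E, _, _, _, v, hE, hv, hn, -⟩ := h.elliptic V hV
    exact h0 E hE v hv hn
  tfae_have 2 → 4 := by
    intro h0 E _ _ _ hE v hv hn
    obtain ⟨f, hf, -⟩ := curve_of_ell Pool.Agent.Q95.SF.wei hE hv hn
    exact h0 f hf
  tfae_finish

end Pool.Agent.H910.Cf
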