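import Pool.Agent.H910.Cf.Defs

/-!
Definitions: projective varieties with ramified maps to the space of the binary forms, and examples.
-/

set_option autoImplicit false
set_option linter.overlappingInstances false

open FF MvPolynomial
open Pool.Agent.H910.Vf (hyp dsc)

namespace Pool.Agent.H910.Cf

/-- The rational map `y` from the projective variety with the generic point `x` to the space of the
binary forms of degree `n + 1` is ramified. -/
def RamP (k : Type) {K : Type} [Field k] [Field K] [Algebra k K] {N n : ℕ} (x : Fin (N + 1) → K)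
    (y : Fin (n + 2) → K) : Prop :=
  Ram k x (fun _ : Unit => (1 : MvPolynomial (Fin (N + 1)) k)) y

/-- `a i` are distinct numbers and `Y j` are forms of degree `m` in `r + 1` variables. -/
def Covering {k : Type} [Field k] {n r : ℕ} (m : ℕ) (a : Fin (r + 1) → k)
    (Y : Fin (n + 2) → MvPolynomial (Fin (r + 1)) k) : Prop :=
  Function.Injective a ∧ ∀ j, (Y j).IsHomogeneous m

/-- The point `(f 0 : ... : f r : f (r + 1))` with nonzero coordinates is a point of the projective
variety with the equations `Y(x) (1 : a i) = x i ^ m`, for `i ≤ r`, and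
`disc Y(x) = x (r + 1) ^ (2 n m)`, where `Y(x)` is the binary form of degree `n + 1` with the
coefficients `Y j (x 0, ..., x r)`. -/
def OnCyclic {k E : Type} [Field k] [Field E] [Algebra k E] {n r : ℕ} (m : ℕ)
    (a : Fin (r + 1) → k) (Y : Fin (n + 2) → MvPolynomial (Fin (r + 1)) k)
    (f : Fin (r + 2) → E) : Prop :=
  (∀ i, f i ≠ 0) ∧
    (∀ i : Fin (r + 1), aeval (fun l : Fin (r + 1) => f l.castSucc)
      (aeval Y (hyp k (n + 1) 1 (a i))) = f i.castSucc ^ m) ∧
    aeval (fun l : Fin (r + 1) => f l.castSucc) (aeval Y (dsc k n)) =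
      f (Fin.last (r + 1)) ^ (2 * n * m)

/-- The vector `σ v`. -/
def lin {k E : Type} [Field k] [Field E] [Algebra k E] {N : ℕ} (σ : Matrix (Fin N) (Fin N) k)
    (v : Fin N → E) : Fin N → E := fun i => ∑ j, algebraMap k E (σ i j) * v j

/-- The first coordinates. -/
def xs {n s : ℕ} (j : Fin (n + 2)) : Fin (n + 2 + s + 1) := ⟨j.1, by omega⟩

/-- The last coordinates. -/
def ws {n s : ℕ} (l : Fin (s + 1)) : Fin (n + 2 + s + 1) := ⟨n + 2 + l.1, by omega⟩

/-- The point `(x : w) = (x 0 : ... : x (n + 1) : w 0 : ... : w s)` lies on the projective variety with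
the equations `disc Y(σ l x) = (w l) ^ (2 n m)`, `l = 0, ..., s`, where `Y(x)` is the binary form of
degree `n + 1` with the coefficients `Y j (x)`. -/
def OnFib {k E : Type} [Field k] [Field E] [Algebra k E] {n s : ℕ} (m : ℕ)
    (Y : Fin (n + 2) → MvPolynomial (Fin (n + 2)) k)
    (σ : Fin (s + 1) → Matrix (Fin (n + 2)) (Fin (n + 2)) k) (f : Fin (n + 2 + s + 1) → E) :
    Prop :=
  ∀ l, aeval (lin (σ l) fun j => f (xs j)) (aeval Y (dsc k n)) = f (ws l) ^ (2 * n * m)

end Pool.Agent.H910.Cf
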