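import Pool.Agent.H910.Cf.Crit
import Pool.Agent.H916.LBd

/-!
The class of pairs which are built from hyperbolic curves and ramified maps to the spaces of the
binary forms.
-/

set_option autoImplicit false
set_option linter.unusedSectionVars false
set_option linter.unusedVariables false
set_option linter.overlappingInstances false

open FF MvPolynomial Pool.Agent.W603.LV Pool.Agent.W603.PV
open Pool.Agent.W602.GT (val IsForm coords val_smul LogGeneralType GeneralType)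
open Pool.Agent.H916
open Pool.Agent.Y216 (OnVar)
open Pool.Agent.H910.Vf

namespace Pool.Agent.H910.Cf

open Pool.Agent.Y216 Pool.Agent.H910.Dsc Pool.Agent.H910.Ff

/-- a linear bound for the heights of the image points -/
def HB (k : Type) {K : Type} [Field k] [Field K] [Algebra k K] {M N : ℕ}
    (x : Fin (M + 1) → K) {ι : Type} (Q : ι → MvPolynomial (Fin (M + 1)) k)
    (y : Fin (N + 1) → K) : Prop :=
  ∃ G : MvPolynomial (Fin (M + 1)) k, IsForm G ∧ val x G ≠ 0 ∧ ∃ A : ℕ,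
    ∀ (E : Type) [Field E] [Algebra k E] [IsFF k E] (f : Fin (M + 1) → E) (g : Fin (N + 1) → E),
      InClosure k x y f g → val f G ≠ 0 → (∃ i, aeval f (Q i) ≠ 0) →
        pht k g ≤ A * (max (canDeg k E) 0 + {P : Place k E | Meets Q f P}.ncard)

/-- The smallest class of pairs `(X, D)` over `k`, where `X` is a projective variety over `k` with
the generic point `x` and `D` is a proper closed subset given by forms `Q i`, such that `(X, D)`
belongs to the class whenever there are finitely many members `(Y l, D' l)` of the class and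
dominant rational maps of pairs from `(X, D)` to `(Y l, D' l)` (given by embeddings `φ l` of the
function fields), and finitely many ramified maps `z l` from `(X, D)` to spaces of binary forms, such
that the map from `X` to the product of the `Y l` and of these spaces has relative dimension zero
over its image, or its geometric generic fibre is a curve which is hyperbolic after removing the
points of `D`. -/
inductive Tower (k : Type) [Field k] :
    ∀ {K : Type} [Field K] [Algebra k K] {M : ℕ} (_ : Fin (M + 1) → K) {ι : Type}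
      (_ : ι → MvPolynomial (Fin (M + 1)) k), Prop
  | step {K : Type} [Field K] [Algebra k K] {M : ℕ} {x : Fin (M + 1) → K} {ι : Type} [Finite ι]
      {Q : ι → MvPolynomial (Fin (M + 1)) k} {r r' : ℕ} {B : Fin r → Type}
      [iB : ∀ l, Field (B l)] [iA : ∀ l, Algebra k (B l)] {N : Fin r → ℕ}
      {y : ∀ l, Fin (N l + 1) → B l} {κ : Fin r → Type}
      {Q' : ∀ l, κ l → MvPolynomial (Fin (N l + 1)) k} {n : Fin r' → ℕ}
      {z : ∀ l, Fin (n l + 2) → K} (hx : x ≠ 0)
      (hgen : coords k x = ⊤) (hQ : ∀ i, IsForm (Q i)) (hQx : ∃ i, aeval x (Q i) ≠ 0)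
      (hY : ∀ l, Tower k (y l) (Q' l)) (φ : ∀ l, B l →ₐ[k] K)
      (hmap : ∀ l, PairMap x Q (fun j => φ l (y l j)) (Q' l))
      (hz : ∀ l, Ram k x Q (z l))
      (h : LogHypFibres ((⨆ l, (φ l).fieldRange) ⊔ ⨆ l, coords k (z l)).toSubfield
        (cuspFun x Q)) : Tower k x Q

theorem Tower.facts {k : Type} [Field k] {K : Type} [Field K]
    [Algebra k K] {M : ℕ} {x : Fin (M + 1) → K}
    {ι : Type} {Q : ι → MvPolynomial (Fin (M + 1)) k} (h : Tower k x Q) :
    x ≠ 0 ∧ coords k x = ⊤ ∧ Finite ι ∧ (∀ i, IsForm (Q i)) ∧ ∃ i, aeval x (Q i) ≠ 0 := by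
  obtain ⟨hx, hgen, hQ, hQx, -, -, -, -, -⟩ := h
  exact ⟨hx, hgen, inferInstance, hQ, hQx⟩

section

variable {k : Type} [Field k] [IsAlgClosed k] [CharZero k]

/-- ramified maps -/
theorem Ram.hb {K : Type} [Field K] [Algebra k K] {M n : ℕ} {x : Fin (M + 1) → K} (hx : x ≠ 0)
    (hgen : coords k x = ⊤) {ι : Type} {Q : ι → MvPolynomial (Fin (M + 1)) k}
    {y : Fin (n + 2) → K} (h : Ram k x Q y) : HB k x Q y := by
  classical
  obtain ⟨q, a, M', μ, c, cD, G1, h⟩ := h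
  have hy := h.ney
  obtain ⟨i0, hi0⟩ := Function.ne_iff.1 hx
  have hi0 : x i0 ≠ 0 := hi0
  obtain ⟨j0, hj0⟩ := Function.ne_iff.1 hy
  have hj0 : y j0 ≠ 0 := hj0
  obtain ⟨e, H, hH, hne, heq⟩ := exists_forms (k := k) hi0 hj0 (by rw [hgen]; exact le_top)
  have hR : RMap x y j0 e H := ⟨hH, hne, hj0, heq⟩
  have hdf : IsForm (dsc k n) ∧ ∀ i, IsForm (hyp k (n + 1) 1 (a i)) :=
    ⟨⟨2 * n, dsc_hom k n⟩, fun i => ⟨1, hyp_hom k (n + 1) _ _⟩⟩
  refine ⟨G1 * H j0 * (aeval H (dsc k n) * ∏ i, aeval H (hyp k (n + 1) 1 (a i))),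
    isForm_mul0 (isForm_mul0 h.form ⟨e, hH j0⟩) (isForm_mul0
      (isForm_comp0 hR.hom hdf.1) (isForm_prod0 fun i => isForm_comp0 hR.hom (hdf.2 i))), ?_,
    M' * (n + 1), fun E _ _ _ f g hfg hfG hfQ => ?_⟩
  · rw [val_mul_ne0, val_mul_ne0, val_mul_ne0, val_prod_ne0]
    exact ⟨⟨h.ne, hne⟩, fun h0 => h.gen.1 ((hR.val_iff hdf.1).1 h0),
      fun i h0 => h.gen.2 i ((hR.val_iff (hdf.2 i)).1 h0)⟩
  · rw [val_mul_ne0, val_mul_ne0, val_mul_ne0, val_prod_ne0] at hfG
    obtain ⟨⟨hf1, hf3⟩, hf4, hf5⟩ := hfG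
    obtain ⟨c, hc0, hc⟩ := closure_smul hfg hR hf3
    have hg : Gen a g := ⟨fun h1 => hf4 (by
      rw [val_comp0]
      exact (val_scale_iff0 hc0 hc hdf.1).1 h1), fun i h1 => hf5 i (by
      rw [val_comp0]
      exact (val_scale_iff0 hc0 hc (hdf.2 i)).1 h1)⟩
    refine (h.curve' hfg hf1 hg hfQ).trans ?_
    have h3 : (0 : ℤ) ≤ M' * (n + 1) := by positivity
    have hN0 : (0 : ℤ) ≤ ({P : Place k E | Meets Q f P}.ncard : ℤ) := Int.natCast_nonneg _
    push_cast
    refine mul_le_mul_of_nonneg_left ?_ h3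
    omega

/-- maps of pairs -/
theorem PairMap.hb {K : Type} [Field K] [Algebra k K] {M N : ℕ} {x : Fin (M + 1) → K}
    (hx : x ≠ 0) (hgen : coords k x = ⊤) {ι : Type} [Finite ι]
    {Q : ι → MvPolynomial (Fin (M + 1)) k}
    {y : Fin (N + 1) → K} (hy : y ≠ 0) {κ : Type} [Finite κ]
    {Q' : κ → MvPolynomial (Fin (N + 1)) k} (hQ : ∀ i, IsForm (Q i)) (hQ' : ∀ i, IsForm (Q' i))
    (hQ'y : ∃ c, aeval y (Q' c) ≠ 0) (h : PairMap x Q y Q') (hV : LinearOff k y Q') :
    HB k x Q y := by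
  classical
  obtain ⟨i0, hi0⟩ := Function.ne_iff.1 hx
  have hi0 : x i0 ≠ 0 := hi0
  obtain ⟨j0, hj0⟩ := Function.ne_iff.1 hy
  have hj0 : y j0 ≠ 0 := hj0
  obtain ⟨e, H, hH, hne, heq⟩ := exists_forms (k := k) hi0 hj0 (by rw [hgen]; exact le_top)
  have hR : RMap x y j0 e H := ⟨hH, hne, hj0, heq⟩
  obtain ⟨G', hG', hG'y, A, hV⟩ := hV
  obtain ⟨c, hc⟩ := hQ'y
  refine ⟨H j0 * (aeval H G' * aeval H (Q' c)), isForm_mul0 ⟨e, hH j0⟩
    (isForm_mul0 (isForm_comp0 hH hG') (isForm_comp0 hH (hQ' c))), ?_, A,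
    fun L _ _ _ f g hfg hfG hfQ => ?_⟩
  · rw [val_mul_ne0, val_mul_ne0]
    exact ⟨hne, fun h0 => hG'y ((hR.val_iff hG').1 h0), fun h0 => hc ((hR.val_iff (hQ' c)).1 h0)⟩
  · rw [val_mul_ne0, val_mul_ne0] at hfG
    obtain ⟨hf2, hf3, hf4⟩ := hfG
    obtain ⟨r, hr0, hr⟩ := closure_smul hfg hR hf2
    have hon := closure_on hfg
    have h1 := hV L (fun i => aeval f (H i)) (hR.on hon hf2) (by rw [← val_comp0]; exact hf3)
      ⟨c, by rw [val_comp0] at hf4; exact hf4⟩
    have h3 : pht k g = pht k fun i => aeval f (H i) := by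
      rw [funext hr]
      exact pht_scale ⟨j0, hf2⟩ hr0
    rw [h3]
    refine h1.trans (mul_le_mul_of_nonneg_left ?_ (Int.natCast_nonneg _))
    have h6 : {P : Place k L | Meets Q' (fun j => aeval f (H j)) P}.ncard ≤
        {P : Place k L | Meets Q f P}.ncard :=
      Set.ncard_le_ncard (fun P hP => h.meets hQ hQ' hR hon hf2 hP) (meets_finite0 hon.1 hfQ)
    have h7 : ({P : Place k L | Meets Q' (fun j => aeval f (H j)) P}.ncard : ℤ) ≤
        {P : Place k L | Meets Q f P}.ncard := by exact_mod_cast h6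
    linarith

/-- **Linear bounds from bounds for the images.** -/
theorem linear_of_hb {K : Type} [Field K] [Algebra k K] {M r : ℕ} {x : Fin (M + 1) → K}
    (hx : x ≠ 0) (hgen : coords k x = ⊤) {ι : Type} [Finite ι]
    {Q : ι → MvPolynomial (Fin (M + 1)) k} (hQ : ∀ i, IsForm (Q i))
    (hQx : ∃ i, aeval x (Q i) ≠ 0) {N : Fin r → ℕ} {y : ∀ l, Fin (N l + 1) → K}
    (hy : ∀ l, y l ≠ 0)
    (hfib : LogHypFibres (⨆ l, coords k (y l)).toSubfield (cuspFun x Q))
    (hB : ∀ l, HB k x Q (y l)) : LinearOff k x Q := by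
  classical
  have ht : IntermediateField.adjoin k (Set.range (Fin.elim0 : Fin 0 → k)) = ⊤ := by
    rw [eq_top_iff]
    rintro z -
    exact IntermediateField.algebraMap_mem _ z
  obtain ⟨j, e, H, hH, G, hG, hGx, hGj, A, hA⟩ :=
    rel_log_rat (k := k) (k0 := k) ht hx hgen hy hQ hQx hfib
  choose G' hG' hG'x A' hA' using hB
  refine ⟨G * ∏ l, G' l, isForm_mul0 hG (isForm_prod0 hG'), ?_, A * (1 + ∑ l, A' l),
    fun E _ _ _ f hf hfG hfQ => ?_⟩
  · rw [val_mul_ne0, val_prod_ne0]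
    exact ⟨hGx, hG'x⟩
  · rw [val_mul_ne0, val_prod_ne0] at hfG
    obtain ⟨h1, h2⟩ := hfG
    obtain ⟨b, hb⟩ := hf.1
    have h3 := hA E f hf h1
    rw [Fin.sum_univ_zero, add_zero] at h3
    refine h3.trans ?_
    have h5 : ∑ l, (pht k fun i => aeval f (H l i)) ≤
        (∑ l, (A' l : ℤ)) * (max (canDeg k E) 0 + {P : Place k E | Meets Q f P}.ncard) := by
      rw [Finset.sum_mul]
      refine Finset.sum_le_sum fun l _ => ?_
      have hj := hGj E f hf h1 l
      exact hA' l E f _ ⟨b, j l, hb, hj, ((hH l).graph hf hb hj).2.2⟩ (h2 l) hfQ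
    have h7 := mul_le_mul_of_nonneg_left (add_le_add (le_refl (max (canDeg k E) 0 +
      ({P : Place k E | Meets Q f P}.ncard : ℤ))) h5) (Int.natCast_nonneg A)
    refine h7.trans (le_of_eq ?_)
    push_cast
    ring

/-- **Ascent.** -/
theorem ascend {K : Type} [Field K] [Algebra k K] {M : ℕ} {x : Fin (M + 1) → K} (hx : x ≠ 0)
    (hgen : coords k x = ⊤) {ι : Type} [Finite ι] {Q : ι → MvPolynomial (Fin (M + 1)) k}
    (hQ : ∀ i, IsForm (Q i)) (hQx : ∃ i, aeval x (Q i) ≠ 0) {r r' : ℕ} {B : Fin r → Type}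
    [iB : ∀ l, Field (B l)] [iA : ∀ l, Algebra k (B l)] {N : Fin r → ℕ}
    {y : ∀ l, Fin (N l + 1) → B l} {κ : Fin r → Type}
    {Q' : ∀ l, κ l → MvPolynomial (Fin (N l + 1)) k} {n : Fin r' → ℕ}
    {z : ∀ l, Fin (n l + 2) → K}
    (hY : ∀ l, y l ≠ 0 ∧ coords k (y l) = ⊤ ∧ Finite (κ l) ∧ (∀ c, IsForm (Q' l c)) ∧
        ∃ c, aeval (y l) (Q' l c) ≠ 0) (φ : ∀ l, B l →ₐ[k] K)
    (hmap : ∀ l, PairMap x Q (fun j => φ l (y l j)) (Q' l))
    (hz : ∀ l, Ram k x Q (z l))
    (h : LogHypFibres ((⨆ l, (φ l).fieldRange) ⊔ ⨆ l, coords k (z l)).toSubfield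
        (cuspFun x Q)) (hV : ∀ l, LinearOff k (y l) (Q' l)) : LinearOff k x Q := by
  classical
  have hy : ∀ l, (fun i => φ l (y l i)) ≠ 0 := by
    intro l h0
    apply (hY l).1
    funext i
    have h1 := congrFun h0 i
    exact (φ l).injective (by rw [Pi.zero_apply, map_zero]; exact h1)
  have hB1 : ∀ l, HB k x Q fun i => φ l (y l i) := by
    intro l
    have hκ := (hY l).2.2.1
    obtain ⟨c, hc⟩ := (hY l).2.2.2.2
    exact PairMap.hb hx hgen (hy l) hQ (hY l).2.2.2.1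
      ⟨c, fun h0 => hc ((val_hom_eq (φ l) (y l) (Q' l c)).1 h0)⟩ (hmap l) (linear_homL (φ l) (hV l))
  have hB2 : ∀ l, HB k x Q (z l) := fun l => (hz l).hb hx hgen
  have hzn : ∀ l, z l ≠ 0 := fun l => by
    obtain ⟨q, a, M', μ, c, cD, G1, h⟩ := hz l
    exact h.ney
  -- the two families together
  let NN : Fin r ⊕ Fin r' → ℕ := Sum.elim N fun l => n l + 1
  let YY : ∀ s : Fin r ⊕ Fin r', Fin (NN s + 1) → K :=
    fun s => Sum.rec (motive := fun s => Fin (NN s + 1) → K) (fun l i => φ l (y l i))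
      (fun l => z l) s
  let e : Fin (Fintype.card (Fin r ⊕ Fin r')) ≃ Fin r ⊕ Fin r' := (Fintype.equivFin _).symm
  have hYY : ∀ s, YY s ≠ 0 ∧ HB k x Q (YY s) := by
    rintro (l | l)
    · exact ⟨hy l, hB1 l⟩
    · exact ⟨hzn l, hB2 l⟩
  have hsup : (⨆ s, coords k (YY (e s))) = (⨆ l, (φ l).fieldRange) ⊔ ⨆ l, coords k (z l) := by
    rw [Equiv.iSup_comp (g := fun s => coords k (YY s)) e, iSup_sum]
    congr 1
    congr 1
    funext l
    change coords k (fun i => φ l (y l i)) = _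
    rw [coords_map, (hY l).2.1, ← AlgHom.fieldRange_eq_map]
  exact linear_of_hb (y := fun s => YY (e s)) hx hgen hQ hQx (fun s => (hYY (e s)).1)
    (by rw [hsup]; exact h) fun s => (hYY (e s)).2

/-- Linear bounds for all members of the class. -/
theorem Tower.linear {K : Type} [Field K] [Algebra k K] {M : ℕ} {x : Fin (M + 1) → K}
    {ι : Type} {Q : ι → MvPolynomial (Fin (M + 1)) k} (h : Tower k x Q) : LinearOff k x Q := by
  induction h with
  | @step K _ _ M x ι _ Q r r' B iB iA N y κ Q' n z hx hgen hQ hQx hY φ hmap hz h ih =>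
    exact ascend hx hgen hQ hQx (fun l => (hY l).facts) φ hmap hz h ih

end

end Pool.Agent.H910.Cf
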