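import Pool.Agent.H910.Cf.Gt

/-!
A numerical criterion for ramified maps to the space of the binary forms.
-/

set_option autoImplicit false
set_option linter.unusedSectionVars false
set_option linter.unusedVariables false
set_option linter.overlappingInstances false

open FF MvPolynomial Pool.Agent.W603.LV Pool.Agent.W603.PV
open Pool.Agent.W602.GT (val IsForm coords val_smul LogGeneralType GeneralType)
open Pool.Agent.H916
open Pool.Agent.Y216 (OnVar)
open Pool.Agent.H910.Vf

namespace Pool.Agent.H910.Cf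

open Pool.Agent.Y216 Pool.Agent.H910.Dsc Pool.Agent.H910.Ff
open Pool.Agent.Y190.BV (cnt ct cnt_unique)
open Pool.Agent.Y216.LG (pol_ne)

/-- Up to a constant factor, the product of the powers with the exponents `c i` of the values of
the binary form `y` at the points `(1 : a i)` and of the power with the exponent `d` of its
discriminant is a power with the exponent `m` of an element of `K`, and `m` divides its degree. -/
def Root {k K : Type} [Field k] [Field K] [Algebra k K] {n q : ℕ} (a : Fin q → k)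
    (y : Fin (n + 2) → K) (m : ℕ) (c : Fin q → ℕ) (d : ℕ) : Prop :=
  0 < m ∧ m ∣ ∑ i, c i + 2 * n * d ∧ ∃ l : k, l ≠ 0 ∧ ∃ w : K, w ^ m = algebraMap k K l *
    (∏ i, aeval y (hyp k (n + 1) 1 (a i)) ^ c i) * aeval y (dsc k n) ^ d

/-- The numerical condition for the orders of contact: there are weights for which all possible
orders of contact `s i` and `t` satisfy the condition in the definition of the ramified maps. -/
def Wts (n : ℕ) {q : ℕ} (A : (Fin q → ℕ) → ℕ → Prop) : Prop :=
  ∃ (M : ℕ) (μ c : Fin q → ℕ) (cD : ℕ), Num n M μ c cD ∧ ∀ (s : Fin q → ℕ) (t : ℕ), A s t →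
    (t = 0 ∧ ∀ i, s i = 0 ∨ M ≤ (M - μ i) * s i) ∨ M ≤ ∑ i, c i * s i + cD * t

section pairs

variable {k K : Type} [Field k] [IsAlgClosed k] [CharZero k] [Field K] [Algebra k K] {M N : ℕ}
  {x : Fin (M + 1) → K} {ι : Type} [Finite ι] {Q : ι → MvPolynomial (Fin (M + 1)) k}
  {y : Fin (N + 1) → K} {κ : Type} [Finite κ] {Q' : κ → MvPolynomial (Fin (N + 1)) k}

/-- Maps of pairs map points which do not meet `D` to points which do not meet `D'`. -/
theorem PairMap.const (h : PairMap x Q y Q') (hQ : ∀ i, IsForm (Q i)) (hQ' : ∀ i, IsForm (Q' i))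
    {j0 : Fin (N + 1)} {e : ℕ} {H : Fin (N + 1) → MvPolynomial (Fin (M + 1)) k}
    (hR : RMap x y j0 e H) {E : Type} [Field E] [Algebra k E] {f : Fin (M + 1) → E}
    {g : Fin (N + 1) → E} (hfg : InClosure k x y f g) (hf : aeval f (H j0) ≠ 0) {P : Place k E}
    (hm : ¬ Meets Q f P) : ¬ Meets Q' g P := by
  classical
  cases nonempty_fintype κ
  intro hmg
  apply hm
  intro i
  by_cases hi : aeval f (Q i) = 0
  · exact Or.inl hi
  right
  have hon := closure_on hfg
  have hon' := closure_on' hfg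
  obtain ⟨a, ha, hao⟩ := exists_pord P hon.1
  obtain ⟨b, hb', hbo⟩ := exists_pord P hon'.1
  have hrel := closure_all hfg hR hf a b ha hb'
  have hxa : x a ≠ 0 := by
    intro h0
    have h1 := hrel (X (Sum.inl a)) (by rw [aeval_X, Sum.elim_inl, h0, div_zero])
    rw [aeval_X, Sum.elim_inl, div_self ha] at h1
    exact one_ne_zero h1
  have hyb : y b ≠ 0 := by
    intro h0
    have h1 := hrel (X (Sum.inr b)) (by rw [aeval_X, Sum.elim_inr, h0, div_zero])
    rw [aeval_X, Sum.elim_inr, div_self hb'] at h1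
    exact one_ne_zero h1
  obtain ⟨n, A, hA⟩ := h.null hxa hyb i
  have h5 := hA E (fun c => f c / f a) (fun c => g c / g b) hrel
  rw [finsum_eq_sum_of_fintype] at h5
  -- all terms are in the maximal ideal
  have hu : ∀ s, Ge P 0 ((Sum.elim (fun c => f c / f a) fun c => g c / g b :
      Fin (M + 1) ⊕ Fin (N + 1) → E) s) := by
    rintro (c | c)
    · rw [Sum.elim_inl]
      by_cases hc : f c = 0
      · exact Or.inl (by rw [hc, zero_div])
      · right
        rw [P.ord_div hc ha, hao]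
        have := pord_le P hc
        omega
    · rw [Sum.elim_inr]
      by_cases hc : g c = 0
      · exact Or.inl (by rw [hc, zero_div])
      · right
        rw [P.ord_div hc hb', hbo]
        have := pord_le P hc
        omega
  have hconst : ∀ c : k, Ge P 0 (algebraMap k E c) := by
    intro c
    by_cases hc : c = 0
    · exact Or.inl (by rw [hc, map_zero])
    · exact Or.inr (P.ord_const hc).ge
  have h6 : Ge P 1 (∑ c, aeval (Sum.elim (fun c => f c / f a) fun c => g c / g b) (A c) *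
        aeval (fun c => g c / g b) (Q' c)) := by
    refine Ge.sum _ _ fun c _ => ?_
    have h7 := ge_aevalF (P := P) hu (A := A c) fun m hm => hconst _
    have h8 : Ge P 1 (aeval (fun c => g c / g b) (Q' c)) := by
      obtain ⟨d, hd⟩ := hQ' c
      rw [aeval_div hd hb']
      rcases hmg c with h10 | h10
      · exact Or.inl (by rw [h10, zero_div])
      · by_cases h11 : aeval g (Q' c) = 0
        · exact Or.inl (by rw [h11, zero_div])
        right
        have h12 : Q' c ≠ 0 := by
          intro h0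
          rw [h0, map_zero] at h11
          exact h11 rfl
        rw [hd.totalDegree h12] at h10
        rw [P.ord_div h11 (pow_ne_zero _ hb'), P.ord_pow, hbo]
        omega
    simpa using h7.mul h8
  rw [← h5] at h6
  obtain ⟨d, hd⟩ := hQ i
  have hQi : Q i ≠ 0 := by
    intro h0
    rw [h0, map_zero] at hi
    exact hi rfl
  have h9 := aeval_div hd (u := f) ha
  have h10 : aeval (fun c => f c / f a) (Q i) ≠ 0 := by
    rw [h9]
    exact div_ne_zero hi (pow_ne_zero _ ha)
  have h11 := h6.resolve_left (pow_ne_zero _ h10)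
  rw [P.ord_pow] at h11
  have h12 : 0 < P.ord (aeval (fun c => f c / f a) (Q i)) := by
    by_contra h13
    push Not at h13
    have h14 : (n : ℤ) * P.ord (aeval (fun c => f c / f a) (Q i)) ≤ 0 :=
      mul_nonpos_of_nonneg_of_nonpos (Int.natCast_nonneg _) h13
    omega
  rw [h9, P.ord_div hi (pow_ne_zero _ ha), P.ord_pow, hao] at h12
  rw [hd.totalDegree hQi]
  omega

/-- contact numbers are not negative -/
theorem contact_nonneg {E : Type} [Field E] [Algebra k E] {n d : ℕ} {P : Place k E}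
    {g : Fin (n + 1) → E} {Φ : MvPolynomial (Fin (n + 1)) k} (hΦ : Φ.IsHomogeneous d)
    (h : aeval g Φ ≠ 0) : 0 ≤ contact d Φ g P := by
  have hconst : ∀ c : k, Ge P 0 (algebraMap k E c) := by
    intro c
    by_cases hc : c = 0
    · exact Or.inl (by rw [hc, map_zero])
    · exact Or.inr (P.ord_const hc).ge
  have h1 := (ge_form P g hΦ fun α _ => hconst _).resolve_left h
  unfold contact
  omega

/-- divisibility of contact numbers -/
theorem dvd_contact0 {E : Type} [Field E] [Algebra k E] {n q : ℕ} {a : Fin q → k}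
    {g : Fin (n + 2) → E} {P : Place k E} {m : ℕ} {c : Fin q → ℕ} {d : ℕ} {l : E} {W : E}
    (hdeg : m ∣ ∑ i, c i + 2 * n * d) (hl0 : l ≠ 0) (hl : P.ord l = 0) (hg : Gen a g)
    (hW : W ^ m = l * (∏ i, aeval g (hyp k (n + 1) 1 (a i)) ^ c i) * aeval g (dsc k n) ^ d) :
    (m : ℤ) ∣ ∑ i, c i * contact 1 (hyp k (n + 1) 1 (a i)) g P +
      d * contact (2 * n) (dsc k n) g P := by
  have hp : ∏ i, aeval g (hyp k (n + 1) 1 (a i)) ^ c i ≠ 0 :=
    Finset.prod_ne_zero_iff.2 fun i _ => pow_ne_zero _ (hg.2 i)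
  have h1 := congrArg P.ord hW
  rw [P.ord_pow, P.ord_mul (mul_ne_zero hl0 hp) (pow_ne_zero _ hg.1), P.ord_mul hl0 hp, hl,
    zero_add, P.ord_pow, Pool.Agent.W602.GT.ord_prod' P _ _ fun i _ => pow_ne_zero _ (hg.2 i)]
    at h1
  simp only [P.ord_pow] at h1
  obtain ⟨e, he⟩ := hdeg
  have he' : (∑ i, (c i : ℤ)) + 2 * n * d = m * e := by exact_mod_cast he
  refine ⟨P.ord W - e * pord P g, ?_⟩
  unfold contact
  simp only [mul_sub, Finset.sum_sub_distrib]
  push_cast
  simp only [one_mul]
  rw [← Finset.sum_mul]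
  linear_combination (-1 : ℤ) * h1 - pord P g * he'

end pairs

section crit

variable {k : Type} [Field k] [CharZero k] [IsAlgClosed k] {K : Type} [Field K] [Algebra k K]
  {M : ℕ} {x : Fin (M + 1) → K} {ι : Type} [Finite ι] {Q : ι → MvPolynomial (Fin (M + 1)) k}

theorem ram_q {n q : ℕ} {M : ℕ} {μ c : Fin q → ℕ} {cD : ℕ} (h : Num n M μ c cD) : 0 < q := by
  by_contra hq
  have : q = 0 := by omega
  subst this
  have := h.bound
  simp at this

/-- **The numerical criterion.** -/
theorem ram_of_numeric (hx : x ≠ 0) (hgen : coords k x = ⊤) (hQ : ∀ i, IsForm (Q i))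
    {n q r : ℕ} {y : Fin (n + 2) → K} {a : Fin q → k} (ha : Function.Injective a)
    (hy : Gen a y) {m : Fin r → ℕ} {c : Fin r → Fin q → ℕ} {d : Fin r → ℕ}
    (hroot : ∀ l, Root a y (m l) (c l) (d l))
    (J : Set (Fin q)) (hJ : ∀ i ∈ J, PairMap x Q y fun _ : Unit => hyp k (n + 1) 1 (a i))
    (b : Prop) (hb : b → PairMap x Q y fun _ : Unit => dsc k n)
    (hnum : Wts n fun s t => (∀ l, m l ∣ ∑ i, c l i * s i + d l * t) ∧ (∀ i ∈ J, s i = 0) ∧
      (b → t = 0)) : Ram k x Q y := by
  classical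
  obtain ⟨M', μ', c', cD, hN, hnum⟩ := hnum
  have hy0 : y ≠ 0 := by
    intro hcon
    refine hy.2 ⟨0, ram_q hN⟩ ?_
    unfold hyp
    rw [map_sum]
    refine Finset.sum_eq_zero fun l _ => ?_
    rw [map_mul, aeval_X, hcon, Pi.zero_apply, mul_zero]
  obtain ⟨i0, hi0⟩ := Function.ne_iff.1 hx
  have hi0 : x i0 ≠ 0 := hi0
  obtain ⟨j0, hj0⟩ := Function.ne_iff.1 hy0
  have hj0 : y j0 ≠ 0 := hj0
  obtain ⟨e, H, hH, hne, heq⟩ := exists_forms (k := k) hi0 hj0 (by rw [hgen]; exact le_top)
  have hR : RMap x y j0 e H := ⟨hH, hne, hj0, heq⟩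
  choose hm hdeg l hl w hw using hroot
  have hk : ∀ j, ∃ G : MvPolynomial (Fin (M + 1)) k, IsForm G ∧ val x G ≠ 0 ∧ ∀ (E : Type)
      [Field E] [Algebra k E] (f : Fin (M + 1) → E) (g : Fin (n + 2) → E), InClosure k x y f g →
        val f G ≠ 0 → ∃ W : E, W ^ m j = algebraMap k E (l j) *
          (∏ i, aeval g (hyp k (n + 1) 1 (a i)) ^ c j i) * aeval g (dsc k n) ^ d j := by
    intro j
    obtain ⟨e', he'⟩ := hdeg j
    have hhom : (C (l j) * (∏ i, hyp k (n + 1) 1 (a i) ^ c j i) * dsc k n ^ d j :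
        MvPolynomial (Fin (n + 2)) k).IsHomogeneous (e' * m j) := by
      have h1 : (∏ i, hyp k (n + 1) 1 (a i) ^ c j i : MvPolynomial (Fin (n + 2)) k).IsHomogeneous
          (∑ i, c j i) := by
        refine IsHomogeneous.prod _ _ _ fun i _ => ?_
        have := (hyp_hom k (n + 1) (1 : k) (a i)).pow (c j i)
        rwa [one_mul] at this
      have h2 := ((isHomogeneous_C (Fin (n + 2)) (l j)).mul h1).mul ((dsc_hom k n).pow (d j))
      rw [zero_add, he', mul_comm (m j) e'] at h2
      exact h2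
    obtain ⟨G, hG, hGx, hGf⟩ := kummer (w := w j) hx hgen hy0 (hm j) hhom (by
      rw [hw j, map_mul, map_mul, aeval_C, map_prod, map_pow]
      simp only [map_pow])
    refine ⟨G, hG, hGx, fun E _ _ f g hfg hfG => ?_⟩
    obtain ⟨W, hW⟩ := hGf E f g hfg hfG
    refine ⟨W, ?_⟩
    rw [hW, map_mul, map_mul, aeval_C, map_prod, map_pow]
    simp only [map_pow]
  choose G hG hGx hGf using hk
  refine ⟨q, a, M', μ', c', cD, H j0 * ∏ j, G j, ha, hN, hy,
    isForm_mul0 ⟨e, hH j0⟩ (isForm_prod0 hG), ?_, ?_⟩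
  · rw [val_mul_ne0, val_prod_ne0]
    exact ⟨hne, hGx⟩
  intro E _ _ f g hfg hfG hg P hmP
  rw [val_mul_ne0, val_prod_ne0] at hfG
  obtain ⟨hf1, hf2⟩ := hfG
  -- contact numbers
  have hs0 : ∀ i, 0 ≤ contact 1 (hyp k (n + 1) 1 (a i)) g P := fun i =>
    contact_nonneg (hyp_hom k (n + 1) (1 : k) (a i)) (hg.2 i)
  have ht0 : 0 ≤ contact (2 * n) (dsc k n) g P := contact_nonneg (dsc_hom k n) hg.1
  obtain ⟨s, hs⟩ : ∃ s : Fin q → ℕ, ∀ i, (s i : ℤ) =
      contact 1 (hyp k (n + 1) 1 (a i)) g P :=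
    ⟨fun i => (contact 1 (hyp k (n + 1) 1 (a i)) g P).toNat,
      fun i => Int.toNat_of_nonneg (hs0 i)⟩
  obtain ⟨t, ht⟩ : ∃ t : ℕ, (t : ℤ) = contact (2 * n) (dsc k n) g P :=
    ⟨(contact (2 * n) (dsc k n) g P).toNat, Int.toNat_of_nonneg ht0⟩
  have h1 := hnum s t ⟨fun j => by
      obtain ⟨W, hW⟩ := hGf j E f g hfg (hf2 j)
      have h2 := dvd_contact0 (P := P) (hdeg j) ((_root_.map_ne_zero _).2 (hl j))
        (P.ord_const (hl j)) hg hW
      simp only [← hs, ← ht] at h2
      exact_mod_cast h2,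
    fun i hi => by
      have h2 := PairMap.const (hJ i hi) hQ (fun _ => ⟨1, hyp_hom k (n + 1) (1 : k) (a i)⟩) hR hfg
        hf1 hmP
      unfold Meets at h2
      push Not at h2
      obtain ⟨-, -, h3⟩ := h2
      have h4 : hyp k (n + 1) 1 (a i) ≠ 0 := fun h5 => hg.2 i (by rw [h5, map_zero])
      rw [(hyp_hom k (n + 1) (1 : k) (a i)).totalDegree h4] at h3
      have h5 := hs i
      unfold contact at h5
      omega,
    fun hbb => by
      have h2 := PairMap.const (hb hbb) hQ (fun _ => ⟨2 * n, dsc_hom k n⟩) hR hfg hf1 hmP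
      unfold Meets at h2
      push Not at h2
      obtain ⟨-, -, h3⟩ := h2
      have h4 : dsc k n ≠ 0 := fun h5 => hg.1 (by rw [h5, map_zero])
      rw [(dsc_hom k n).totalDegree h4] at h3
      unfold contact at ht
      omega⟩
  unfold ConC
  simp only [← hs, ← ht]
  rcases h1 with ⟨h2, h3⟩ | h2
  · left
    refine ⟨by rw [h2, Nat.cast_zero], fun i => ?_⟩
    rcases h3 i with h4 | h4
    · left
      rw [h4, Nat.cast_zero]
    · right
      rw [← Nat.cast_sub (hN.le i)]
      exact_mod_cast h4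
  · right
    exact_mod_cast h2

end crit

end Pool.Agent.H910.Cf
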