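import Pool.Agent.H910.Cf.Defs

/-!
The logarithmic inequality for curves over an algebraically closed field.
-/

set_option autoImplicit false
set_option linter.unusedSectionVars false
set_option linter.unusedVariables false
set_option linter.overlappingInstances false

open FF Polynomial Pool.Agent.W603.LV Pool.Agent.W603.PV Pool.Agent.W602.GT

namespace Pool.Agent.H910.Cf

open Pool.Agent.Y190.BV Pool.Agent.H910.Dsc Pool.Agent.Y216 Pool.Agent.H910.Ff

variable {k L : Type} [Field k] [CharZero k] [IsAlgClosed k] [Field L] [Algebra k L] [IsFF k L]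
  {n q : ℕ} {x : Fin (n + 1) → L} {u v : Fin q → k}

open Classical in
/-- the inequality, with a bound for the local terms -/
theorem ineq' (h0 : ∀ i, u i ≠ 0 ∨ v i ≠ 0) (huv : ∀ i j, i ≠ j → u i * v j ≠ u j * v i)
    (hsq : Squarefree (pol x)) (hdeg : n ≤ (pol x).natDegree + 1) :
    ∃ (n' : ℕ) (T0 : Finset (Place k L)), n' ≤ n ∧
      (∀ P : Place k L, (n : ℤ) - (zst P x).ncard + (Pool.Agent.H910.Ff.mt u v P x).card ≤ n') ∧
      ∀ T, T0 ⊆ T → ((q : ℤ) - 2) * pht k x ≤
        ∑ P ∈ T, ((n : ℤ) - (zst P x).ncard + (Pool.Agent.H910.Ff.mt u v P x).card) +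
          n' * canDeg k L := by
  obtain ⟨Pc, G, h⟩ := exists_fac (k := k) hsq hdeg
  obtain ⟨D, hD⟩ := exists_der (k := k) (K := L)
  obtain ⟨y, hy0, hy⟩ := local_ineq h h0 huv hD
  have hl : G.leadingCoeff ≠ 0 := leadingCoeff_ne_zero.2 h.G0
  obtain ⟨T1, hT1⟩ := exists_supp (k := k) Finset.univ x
  obtain ⟨T2, hT2⟩ := exists_supp (k := k) (fin u v) fun a => G.eval (algebraMap k L a)
  obtain ⟨T3, hT3⟩ := exists_supp (k := k) (Finset.univ : Finset (Fin 2)) ![y, G.leadingCoeff]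
  refine ⟨G.natDegree, T1 ∪ T2 ∪ T3 ∪ (vo_finite hD).toFinset, ?_, fun P => ?_, fun T hT => ?_⟩
  · have := h.n_eq
    omega
  · obtain ⟨g, r, hr⟩ := exists_red P h.x0
    have h1 := zeros_eq h h0 huv hr
    have h2 : (0 : ℤ) ≤ (1 - (if ∃ i, u i = 0 then 1 else 0)) *
        (if r (Fin.last n) = 0 ∧ x (Fin.last n) ≠ 0 then 1 else 0) := by
      split_ifs <;> norm_num
    have h3 : (0 : ℤ) ≤ ((((pol r).roots.toFinset \ Pc.roots.toFinset) \ fin u v).card : ℤ) :=
      Int.natCast_nonneg _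
    linarith
  have hp : ∀ P : Place k L, pord P x ≠ 0 → P ∈ T := by
    intro P hP
    obtain ⟨j, _, hj⟩ := exists_pord P h.x0
    rw [← hj] at hP
    have := hT1 j (Finset.mem_univ _) P hP
    exact hT (by simp [this])
  have hv : ∀ P : Place k L, vo P D ≠ 0 → P ∈ T := by
    intro P hP
    exact hT (by simp [hP])
  have hyT : ∀ P : Place k L, P.ord y ≠ 0 → P ∈ T := by
    intro P hP
    have := hT3 0 (Finset.mem_univ _) P hP
    exact hT (by simp [this])
  have hlT : ∀ P : Place k L, P.ord G.leadingCoeff ≠ 0 → P ∈ T := by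
    intro P hP
    have := hT3 1 (Finset.mem_univ _) P hP
    exact hT (by simp [this])
  have haT : ∀ a ∈ fin u v, ∀ P : Place k L, P.ord (G.eval (algebraMap k L a)) ≠ 0 → P ∈ T := by
    intro a ha P hP
    have := hT2 a ha P hP
    exact hT (by simp [this])
  have hs1 : ∑ P ∈ T, pord P x = - pht k x := by
    unfold pht
    rw [neg_neg, finsum_eq_sum_of_support_subset (s := T)]
    intro P hP
    exact Finset.mem_coe.2 (hp P hP)
  have hs2 : ∑ P ∈ T, vo P D = - canDeg k L := canDeg_finset hD T hv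
  have hs3 : ∑ P ∈ T, P.ord y = 0 := sum_ord_finset y T hyT
  have hs4 : ∑ P ∈ T, P.ord G.leadingCoeff = 0 := sum_ord_finset _ T hlT
  have hs5 : ∑ P ∈ T, ∑ a ∈ fin u v, ct P G a = (fin u v).card * pht k x := by
    rw [Finset.sum_comm]
    have : ∀ a ∈ fin u v, ∑ P ∈ T, ct P G a = pht k x := by
      intro a ha
      unfold ct
      rw [Finset.sum_sub_distrib, sum_ord_finset _ T (haT a ha)]
      simp only [h.cnt_eq]
      rw [hs1]
      ring
    rw [Finset.sum_congr rfl this, Finset.sum_const, nsmul_eq_mul]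
  have h1 := Finset.sum_le_sum fun P (_ : P ∈ T) => hy P
  rw [Finset.sum_sub_distrib, Finset.sum_add_distrib, Finset.sum_add_distrib, ← Finset.mul_sum,
    ← Finset.mul_sum, Finset.sum_sub_distrib, hs1, hs2, hs3, hs4, hs5] at h1
  have h2 := card_fin huv
  have h3 : (q : ℤ) = (fin u v).card + (if ∃ i, u i = 0 then 1 else 0) := by
    exact_mod_cast h2
  rw [h3]
  linarith

open Classical in
/-- **The logarithmic height bound.** `N` is the number of the places in the finite set `B`. -/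
theorem bound_log {n q : ℕ} {u v : Fin q → k} (h0 : ∀ i, u i ≠ 0 ∨ v i ≠ 0)
    (huv : ∀ i j, i ≠ j → u i * v j ≠ u j * v i) {m : ℕ} {α : Fin q → ℕ} {β : ℕ}
    {g : Fin (n + 2) → L} (hg : ∃ j, g j ≠ 0)
    (hd : dsf n (pol g) ≠ 0) (hv : ∀ i, vl (u i) (v i) g ≠ 0) (B : Finset (Place k L))
    (hB : ∀ P, P ∉ B → (m : ℤ) * ((n : ℤ) + 1 - (zst P g).ncard +
      (Pool.Agent.H910.Ff.mt u v P g).card) ≤
      ∑ i, α i * (P.ord (vl (u i) (v i) g) - pord P g) +
        β * (P.ord (dsf n (pol g)) - 2 * n * pord P g)) :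
    ∃ n' : ℕ, n' ≤ n + 1 ∧ (m * (q - 2) - ((∑ i, α i + 2 * n * β : ℕ) : ℤ)) * pht k g ≤
      m * n' * (B.card + canDeg k L) := by
  have hchL : CharZero L := charZero_of_injective_algebraMap (algebraMap k L).injective
  obtain ⟨hsq, hdeg⟩ := disc_sqf hg hd
  obtain ⟨n', T0, hn', hloc', hT0⟩ := ineq' h0 huv hsq hdeg
  refine ⟨n', hn', ?_⟩
  obtain ⟨T1, hT1⟩ := exists_supp (k := k) Finset.univ g
  obtain ⟨T2, hT2⟩ := exists_supp (k := k) Finset.univ fun i => vl (u i) (v i) g
  obtain ⟨T3, hT3⟩ := exists_supp (k := k) (Finset.univ : Finset (Fin 1)) fun _ => dsf n (pol g)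
  obtain ⟨T, hT⟩ : ∃ T, T = T0 ∪ T1 ∪ T2 ∪ T3 ∪ B := ⟨_, rfl⟩
  have h1 := hT0 T (by
    rw [hT]
    intro P hP
    simp [hP])
  have hp : ∀ P : Place k L, pord P g ≠ 0 → P ∈ T := by
    intro P hP
    obtain ⟨j, _, hj⟩ := exists_pord P hg
    rw [← hj] at hP
    have := hT1 j (Finset.mem_univ _) P hP
    rw [hT]
    simp [this]
  have hvT : ∀ i, ∀ P : Place k L, P.ord (vl (u i) (v i) g) ≠ 0 → P ∈ T := by
    intro i P hP
    have := hT2 i (Finset.mem_univ _) P hP
    rw [hT]
    simp [this]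
  have hdT : ∀ P : Place k L, P.ord (dsf n (pol g)) ≠ 0 → P ∈ T := by
    intro P hP
    have := hT3 0 (Finset.mem_univ _) P hP
    rw [hT]
    simp [this]
  have hs1 : ∑ P ∈ T, pord P g = - pht k g := by
    unfold pht
    rw [neg_neg, finsum_eq_sum_of_support_subset (s := T)]
    intro P hP
    exact Finset.mem_coe.2 (hp P hP)
  have hs2 : ∀ i, ∑ P ∈ T, (P.ord (vl (u i) (v i) g) - pord P g) = pht k g := by
    intro i
    rw [Finset.sum_sub_distrib, sum_ord_finset _ T (hvT i), hs1]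
    ring
  have hs3 : ∑ P ∈ T, (P.ord (dsf n (pol g)) - 2 * n * pord P g) = 2 * n * pht k g := by
    rw [Finset.sum_sub_distrib, sum_ord_finset _ T hdT, ← Finset.mul_sum, hs1]
    ring
  have hs4 : ∑ P ∈ T, (∑ i, α i * (P.ord (vl (u i) (v i) g) - pord P g) +
        β * (P.ord (dsf n (pol g)) - 2 * n * pord P g)) =
      ((∑ i, α i + 2 * n * β : ℕ) : ℤ) * pht k g := by
    rw [Finset.sum_add_distrib, Finset.sum_comm, ← Finset.mul_sum, hs3]
    have : ∀ i ∈ (Finset.univ : Finset (Fin q)),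
        ∑ P ∈ T, (α i : ℤ) * (P.ord (vl (u i) (v i) g) - pord P g) = α i * pht k g := by
      intro i _
      rw [← Finset.mul_sum, hs2]
    rw [Finset.sum_congr rfl this, ← Finset.sum_mul]
    push_cast
    ring
  have hloc : ∀ P ∈ T, (m : ℤ) * (((n + 1 : ℕ) : ℤ) - (zst P g).ncard +
      (Pool.Agent.H910.Ff.mt u v P g).card) ≤
      (∑ i, α i * (P.ord (vl (u i) (v i) g) - pord P g) +
        β * (P.ord (dsf n (pol g)) - 2 * n * pord P g)) +
          if P ∈ B then (m : ℤ) * n' else 0 := by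
    intro P _
    by_cases hPB : P ∈ B
    · rw [if_pos hPB]
      have h3 : (0 : ℤ) ≤ ∑ i, α i * (P.ord (vl (u i) (v i) g) - pord P g) :=
        Finset.sum_nonneg fun i _ => mul_nonneg (Int.natCast_nonneg _)
          (sub_nonneg.2 (Pool.Agent.H910.Vf.pord_nonneg_contact P (hv i)))
      have h4 := zst_ge P hg hd
      have h5 := zst_le P hg
      have h6 : (0 : ℤ) ≤ β * (P.ord (dsf n (pol g)) - 2 * n * pord P g) := by
        refine mul_nonneg (Int.natCast_nonneg _) ?_
        omega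
      have h7 : (m : ℤ) * (((n + 1 : ℕ) : ℤ) - (zst P g).ncard +
          (Pool.Agent.H910.Ff.mt u v P g).card) ≤ m * n' :=
        mul_le_mul_of_nonneg_left (hloc' P) (Int.natCast_nonneg _)
      linarith
    · rw [if_neg hPB, add_zero]
      have := hB P hPB
      push_cast
      exact this
  have h2 := Finset.sum_le_sum hloc
  rw [Finset.sum_add_distrib, hs4, ← Finset.mul_sum] at h2
  have h3 : ∑ P ∈ T, (if P ∈ B then (m : ℤ) * n' else 0) = m * n' * B.card := by
    rw [← Finset.sum_filter, Finset.sum_const, nsmul_eq_mul]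
    have : T.filter (fun P => P ∈ B) = B := by
      ext P
      rw [Finset.mem_filter]
      refine ⟨fun h => h.2, fun h => ⟨?_, h⟩⟩
      rw [hT]
      simp [h]
    rw [this]
    ring
  rw [h3] at h2
  have h4 := mul_le_mul_of_nonneg_left h1 (Int.natCast_nonneg m)
  rw [mul_add] at h4
  linarith

end Pool.Agent.H910.Cf
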