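import Pool.Agent.H910.Cf.Stc
import Pool.Graph.R_seed8.Y221.PD.Imp

/-!
Holomorphic maps to the cyclic coverings.
-/

set_option autoImplicit false
set_option linter.unusedSectionVars false
set_option linter.unusedVariables false
set_option linter.overlappingInstances false

open Filter Topology Set Metric

namespace Pool.Agent.H910.Cf

open FF
open Pool.Agent.W602.GT
open Pool.Agent.Y221.PD
open Pool.Agent.Y221.BD (EntireCurve PseudoBrody)
open Pool.Agent.Y216 (OnVar CurveBound)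
open Pool.Agent.TH466.QG (SubOf)
open Pool.Agent.Q103.SF

variable {M : ℕ} {K : Type} [Field K] [Algebra ℂ K] {x : Fin (M + 1) → K}

/-- meromorphic images of affine spaces and entire curves, with the same closed subset -/
theorem mero_in {R : MvPolynomial (Fin (M + 1)) ℂ} {d : ℕ} (hR : R.IsHomogeneous d)
    (h : ∀ f, EntireCurve x f → ∀ t, MvPolynomial.eval (fun i => f i t) R = 0) {g : ℕ}
    {u : Fin (M + 1) → (Fin g → ℂ) → ℂ} (hu : MeroMap x g u) (t : Fin g → ℂ) :
    MvPolynomial.eval (fun i => u i t) R = 0 := by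
  by_contra hcon
  obtain ⟨i, j, a, b, hab⟩ := hu.nonconst
  have hane : ∃ k, u k a ≠ 0 := by
    by_contra hcon
    push Not at hcon
    apply hab
    simp only [hcon, zero_mul]
  obtain ⟨p, hp, k, hk⟩ : ∃ p, MvPolynomial.eval (fun i => u i p) R ≠ 0 ∧ ∃ k, u k p ≠ 0 := by
    by_cases h1 : ∃ k, u k t ≠ 0
    · exact ⟨t, hcon, h1⟩
    · push Not at h1
      refine ⟨a, fun h2 => hcon ?_, hane⟩
      rw [eval_scale hR 0 (v := fun i => u i a) (fun i => by rw [h1 i, zero_mul]), h2, mul_zero]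
  obtain ⟨q, i', j', hq⟩ : ∃ q i' j', u i' p * u j' q ≠ u j' p * u i' q := by
    by_contra hcon2
    push Not at hcon2
    apply hab
    have h1 : ∀ l c, u l c = u k c * u l p / u k p := by
      intro l c
      have := hcon2 c l k
      field_simp
      linear_combination -this
    rw [h1 i a, h1 j b, h1 j a, h1 i b]
    ring
  let ℓ : ℂ → Fin g → ℂ := fun s => p + s • (q - p)
  have hℓ : Differentiable ℂ ℓ := by
    simp only [ℓ]
    fun_prop
  have h0 : ℓ 0 = p := by simp [ℓ]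
  have h1 : ℓ 1 = q := by simp [ℓ]
  obtain ⟨f, hf, hfu⟩ := curve_of_entire (x := x) (u := fun i s => u i (ℓ s))
    (fun i => (hu.hol i).comp hℓ) (fun G hG hxG s => hu.mem G hG hxG (ℓ s)) (i := i') (j := j')
    (a := 0) (b := 1) (by
      simp only [h0, h1]
      exact hq)
  obtain ⟨c, -, hc⟩ := hfu 0 ⟨k, by simp only [h0]; exact hk⟩
  apply hp
  have h2 := eval_scale hR c hc
  rw [h f hf 0, mul_zero] at h2
  simp only [h0] at h2
  exact h2

section

variable {n r m : ℕ} {a : Fin (r + 1) → ℂ} {Y : Fin (n + 2) → MvPolynomial (Fin (r + 1)) ℂ}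

/-- **Punctured discs in cyclic coverings.** -/
theorem cyc_ess (hm : n + r + 2 < m * (r - 1)) (hc : Covering m a Y) (hr : n + 1 ≤ r)
    (hn : 1 ≤ n) {K : Type} [Field K] [Algebra ℂ K] {x : Fin (r + 2) → K}
    (hx : OnCyclic m a Y x) {f : ℂ → Fin (r + 2) → ℂ} (hf : EssentialDisc x f) :
    ∃ i, ∀ t ∈ ball (0 : ℂ) 1 \ {0}, f t i = 0 := by
  obtain ⟨E, i1, i2, z, t, hz, ht, ht1, hiff, -⟩ := disc_sub hf
  by_cases h0 : ∃ i, z i = 0
  · obtain ⟨i, hi⟩ := h0
    refine ⟨i, fun t ht => ?_⟩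
    have h1 := (hiff (MvPolynomial.X i) ⟨1, MvPolynomial.isHomogeneous_X _ _⟩).1 (by
      unfold Pool.Agent.W602.GT.val
      rw [MvPolynomial.aeval_X, hi]) t ht
    rwa [MvPolynomial.eval_X] at h1
  · exfalso
    push Not at h0
    have hcyc : OnCyclic m a Y z := hx.trans hc.2 (SubOf.on hz) h0
    obtain ⟨h1, h2⟩ := cyc_ram hm hc hr hn hcyc hz.gen
    obtain ⟨q, a', M', μ, c, cD, G1, hram⟩ := h1
    obtain ⟨G', hG', hGx', hP⟩ := hram.picard hz.ne hz.gen h2
    have h3 : ∃ t ∈ ball (0 : ℂ) 1 \ {0}, MvPolynomial.eval (f t) G' ≠ 0 := by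
      by_contra hcon
      push Not at hcon
      exact hGx' ((hiff G' hG').2 hcon)
    exact hf.ess (hP f ⟨hf.hol, hf.ne, fun G hG hGz => (hiff G hG).1 hGz,
      fun t _ => ⟨(), by simp⟩⟩ h3)

/-- **Entire curves and meromorphic images of affine spaces in cyclic coverings.** -/
theorem cyc_ent (hm : n + r + 2 < m * (r - 1)) (hc : Covering m a Y) (hr : n + 1 ≤ r)
    (hn : 1 ≤ n) {K : Type} [Field K] [Algebra ℂ K] {x : Fin (r + 2) → K}
    (hx : OnCyclic m a Y x) :
    (∀ f, EntireCurve x f → ∀ t, ∏ i, f i t = 0) ∧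
      ∀ g u, MeroMap x g u → ∀ t, ∏ i, u i t = 0 := by
  have h1 : ∀ f, EntireCurve x f → ∀ t, ∏ i, f i t = 0 := by
    intro f hf t
    obtain ⟨i, hi⟩ := cyc_ess hm hc hr hn hx (disc_of_entire hf)
    obtain ⟨w, hw, hws⟩ := Pool.Agent.W603.BP.sin_point t
    have h2 := hi w hw
    simp only [hws] at h2
    exact Finset.prod_eq_zero (Finset.mem_univ i) h2
  refine ⟨h1, fun g u hu t => ?_⟩
  have hform : ∃ d, (∏ i : Fin (r + 2), MvPolynomial.X (R := ℂ) i).IsHomogeneous d :=
    Pool.Agent.H916.isForm_prod0 fun i => ⟨1, MvPolynomial.isHomogeneous_X ℂ i⟩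
  obtain ⟨d, hd⟩ := hform
  have h2 := mero_in hd (fun f hf t => by
    rw [map_prod]
    simp only [MvPolynomial.eval_X]
    exact h1 f hf t) hu t
  rw [map_prod] at h2
  simp only [MvPolynomial.eval_X] at h2
  exact h2

end

/-- **Any dimension, modulo a proper closed subset.** -/
theorem pseudo_all (hx : x ≠ 0) (hgen : coords ℂ x = ⊤) {r : ℕ} {n : Fin r → ℕ}
    {z : ∀ l, Fin (n l + 2) → K} (hz : ∀ l, RamP ℂ x (z l))
    (halg : Algebra.IsAlgebraic ↥(⨆ l, coords ℂ (z l)) K) :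
    PseudoPicard x ∧ PseudoBrody x ∧ PseudoAbelian x := by
  have h := pseudo_multi hx hgen hz halg
  exact ⟨h, brody_of_picard h, abelian_of_brody (brody_of_picard h)⟩

end Pool.Agent.H910.Cf
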