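import Pool.Agent.H910.Vf.Ex

/-!
Rational maps from pairs over an algebraically closed field to the space of the binary forms which
are ramified over the discriminant hypersurface and hyperplanes.
-/

set_option autoImplicit false
set_option linter.unusedSectionVars false
set_option linter.unusedVariables false
set_option linter.overlappingInstances false

open FF MvPolynomial Pool.Agent.W603.LV Pool.Agent.W603.PV
open Pool.Agent.W602.GT (val IsForm coords val_smul)
open Pool.Agent.H916 (InClosure Meets RMap)
open Pool.Agent.Y216 (OnVar)
open Pool.Agent.H910.Vf (hyp dsc contact)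

namespace Pool.Agent.H910.Cf

/-- The contact numbers at the place `P` of the binary form `g` of degree `n + 1` with the hyperplanes
`H i` of the forms which vanish at `(1 : a i)` and with the discriminant hypersurface satisfy one of
the following conditions. Either the last one is zero, and each of the other ones is zero or at least
`M / (M - μ i)`; or the weighted sum with the weights `c i` and `cD` is at least `M`. -/
def ConC {k E : Type} [Field k] [Field E] [Algebra k E] {n q : ℕ} (a : Fin q → k) (M : ℕ)
    (μ c : Fin q → ℕ) (cD : ℕ) (g : Fin (n + 2) → E) (P : Place k E) : Prop :=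
  (contact (2 * n) (dsc k n) g P = 0 ∧ ∀ i, contact 1 (hyp k (n + 1) 1 (a i)) g P = 0 ∨
    (M : ℤ) ≤ ((M : ℤ) - μ i) * contact 1 (hyp k (n + 1) 1 (a i)) g P) ∨
  (M : ℤ) ≤ ∑ i, c i * contact 1 (hyp k (n + 1) 1 (a i)) g P +
    cD * contact (2 * n) (dsc k n) g P

/-- The binary form `g` has no multiple zero and does not vanish at the points `(1 : a i)`. -/
def Gen {k E : Type} [Field k] [Field E] [Algebra k E] {n q : ℕ} (a : Fin q → k)
    (g : Fin (n + 2) → E) : Prop :=
  aeval g (dsc k n) ≠ 0 ∧ ∀ i, aeval g (hyp k (n + 1) 1 (a i)) ≠ 0

/-- The numbers in the condition for the contact numbers are large enough. -/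
structure Num (n : ℕ) {q : ℕ} (M : ℕ) (μ c : Fin q → ℕ) (cD : ℕ) : Prop where
  le : ∀ i, μ i ≤ M
  bound : (n + 1) * (∑ i, c i + 2 * n * cD) + 2 * M < ∑ i, μ i

/-- **Ramified maps to the space of the binary forms**, for the pair `(X, D)` with the generic point
`x` and the forms `Q i`, and the rational map `y` from `X` to the space of the binary forms of degree
`n + 1`, with explicit data. At all places at which a point of `X`, outside of `G = 0`, over an
extension field `E` of `k` does not meet `D`, the contact numbers of its image satisfy the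
condition `ConC`. -/
structure RamAt {k K : Type} [Field k] [Field K] [Algebra k K] {N n q : ℕ} (x : Fin (N + 1) → K)
    {ι : Type} (Q : ι → MvPolynomial (Fin (N + 1)) k) (y : Fin (n + 2) → K) (a : Fin q → k) (M : ℕ)
    (μ c : Fin q → ℕ) (cD : ℕ) (G : MvPolynomial (Fin (N + 1)) k) : Prop where
  inj : Function.Injective a
  num : Num n M μ c cD
  gen : Gen a y
  form : IsForm G
  ne : val x G ≠ 0
  ram : ∀ (E : Type) [Field E] [Algebra k E] (f : Fin (N + 1) → E) (g : Fin (n + 2) → E),
    InClosure k x y f g → val f G ≠ 0 → Gen a g → ∀ P : Place k E, ¬ Meets Q f P →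
      ConC a M μ c cD g P

/-- The rational map `y` from the pair `(X, D)` to the space of the binary forms of degree `n + 1` is
ramified. -/
def Ram (k : Type) {K : Type} [Field k] [Field K] [Algebra k K] {N n : ℕ} (x : Fin (N + 1) → K)
    {ι : Type} (Q : ι → MvPolynomial (Fin (N + 1)) k) (y : Fin (n + 2) → K) : Prop :=
  ∃ (q : ℕ) (a : Fin q → k) (M : ℕ) (μ c : Fin q → ℕ) (cD : ℕ) (G : MvPolynomial (Fin (N + 1)) k),
    RamAt x Q y a M μ c cD G

end Pool.Agent.H910.Cf
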