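import Pool.Agent.H910.Cf.Alg
import Pool.Agent.H910.Cf.Crv

/-!
Bounds for the degrees of curves.
-/

set_option autoImplicit false
set_option linter.unusedSectionVars false
set_option linter.unusedVariables false
set_option linter.overlappingInstances false

open FF MvPolynomial Pool.Agent.W603.LV Pool.Agent.W603.PV
open Pool.Agent.W602.GT (val IsForm coords val_smul)
open Pool.Agent.H916
open Pool.Agent.Y216 (OnVar)
open Pool.Agent.H910.Vf

namespace Pool.Agent.H910.Cf

open Pool.Agent.Y216 Pool.Agent.H910.Dsc Pool.Agent.H910.Ff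

variable {k : Type} [Field k] [CharZero k] [IsAlgClosed k]

theorem meets_fin {L : Type} [Field L] [Algebra k L] [IsFF k L] {M : ℕ} {ι : Type}
    {Q : ι → MvPolynomial (Fin (M + 1)) k} {f : Fin (M + 1) → L} (hf : ∃ j, f j ≠ 0)
    (hfQ : ∃ i, aeval f (Q i) ≠ 0) : {P : Place k L | Meets Q f P}.Finite := by
  obtain ⟨i, hi⟩ := hfQ
  have h4 : ((⋃ j, {P : Place k L | P.ord (f j) ≠ 0}) ∪
      {P : Place k L | P.ord (aeval f (Q i)) ≠ 0}).Finite :=
    (Set.finite_iUnion fun j => finite_support _).union (finite_support _)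
  refine h4.subset fun P hP => ?_
  by_contra hcon
  rw [Set.mem_union, not_or] at hcon
  have h5 : P.ord (aeval f (Q i)) = 0 := not_not.1 hcon.2
  have h6 : ∀ j, P.ord (f j) = 0 := fun j => by
    by_contra h7
    exact hcon.1 (Set.mem_iUnion.2 ⟨j, h7⟩)
  have h7 := (hP i).resolve_left hi
  obtain ⟨l, hl, hlo⟩ := exists_pord P hf
  rw [h5, ← hlo, h6] at h7
  simp at h7

theorem distinct_of_inj {q : ℕ} {a : Fin q → k} (h : Function.Injective a) :
    (∀ i : Fin q, (1 : k) ≠ 0 ∨ a i ≠ 0) ∧ ∀ i j, i ≠ j → (1 : k) * a j ≠ 1 * a i := by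
  refine ⟨fun i => Or.inl one_ne_zero, fun i j hij h0 => hij ?_⟩
  rw [one_mul, one_mul] at h0
  exact (h h0).symm

/-- **Curves**, for the image in the space of the binary forms. -/
theorem RamAt.curve {K : Type} [Field K] [Algebra k K] {N n q : ℕ} {x : Fin (N + 1) → K} {ι : Type}
    {Q : ι → MvPolynomial (Fin (N + 1)) k} {y : Fin (n + 2) → K} {a : Fin q → k} {M : ℕ}
    {μ c : Fin q → ℕ} {cD : ℕ} {G : MvPolynomial (Fin (N + 1)) k}
    (h : RamAt x Q y a M μ c cD G) {L : Type} [Field L] [Algebra k L] [IsFF k L]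
    {f : Fin (N + 1) → L} {g : Fin (n + 2) → L} (hfg : InClosure k x y f g) (hfG : val f G ≠ 0)
    (hg : Gen a g) (hfQ : ∃ i, aeval f (Q i) ≠ 0) :
    ∃ n' : ℕ, n' ≤ n + 1 ∧
      ((∑ i, μ i : ℕ) - 2 * M - ((n + 1) * (∑ i, c i + 2 * n * cD) : ℕ) : ℤ) * pht k g ≤
        M * n' * ({P : Place k L | Meets Q f P}.ncard + canDeg k L) := by
  classical
  have hon := closure_on hfg
  have hon' := closure_on' hfg
  have hmfin := meets_fin (k := k) hon.1 hfQ
  have hd : dsf n (pol g) ≠ 0 := by
    rw [← dsc_eq (F := k)]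
    exact hg.1
  have hv : ∀ i, vl 1 (a i) g ≠ 0 := fun i => by
    rw [← hyp_eq (F := k)]
    exact hg.2 i
  obtain ⟨h0, huv⟩ := distinct_of_inj h.inj
  obtain ⟨n', hn', h1⟩ := bound_log (u := fun _ => 1) (v := a) (m := M)
    (α := fun i => (M - μ i) + (n + 1) * c i) (β := (n + 1) * cD) h0 huv hon'.1 hd hv
    hmfin.toFinset fun P hP => by
      rw [Set.Finite.mem_toFinset] at hP
      have h2 := h.ram L f g hfg hfG hg P hP
      have hz := zst_ge P hon'.1 hd
      have hz' := zst_le P hon'.1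
      have hmle := mt_le h0 huv P hon'.1
      have hs0 : ∀ i, 0 ≤ P.ord (vl 1 (a i) g) - pord P g := fun i =>
        sub_nonneg.2 (pord_nonneg_contact P (hv i))
      obtain ⟨s, hs⟩ : ∃ s : Fin q → ℕ, ∀ i, (s i : ℤ) = P.ord (vl 1 (a i) g) - pord P g :=
        ⟨fun i => (P.ord (vl 1 (a i) g) - pord P g).toNat, fun i => Int.toNat_of_nonneg (hs0 i)⟩
      obtain ⟨t, ht⟩ : ∃ t : ℕ, (t : ℤ) = P.ord (dsf n (pol g)) - 2 * n * pord P g :=
        ⟨(P.ord (dsf n (pol g)) - 2 * n * pord P g).toNat, Int.toNat_of_nonneg (by omega)⟩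
      have hcs : ∀ i, contact 1 (hyp k (n + 1) 1 (a i)) g P = s i := by
        intro i
        unfold contact
        rw [hyp_eq, hs]
        push_cast
        ring
      have hct : contact (2 * n) (dsc k n) g P = t := by
        unfold contact
        rw [dsc_eq, ht]
        push_cast
        ring
      unfold ConC at h2
      simp only [hcs, hct] at h2
      simp only [← hs, ← ht]
      rw [← ht] at hz
      have hμ : ∀ i, ((M - μ i : ℕ) : ℤ) = (M : ℤ) - μ i := fun i => Nat.cast_sub (h.num.le i)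
      have hsum : (0 : ℤ) ≤ ∑ i, ((M : ℤ) - μ i) * s i := Finset.sum_nonneg fun i _ => by
        rw [← hμ]
        positivity
      have hsum2 : ∑ i, (((M - μ i) + (n + 1) * c i : ℕ) : ℤ) * s i =
          ∑ i, ((M : ℤ) - μ i) * s i + (n + 1) * ∑ i, (c i : ℤ) * s i := by
        rw [Finset.mul_sum, ← Finset.sum_add_distrib]
        refine Finset.sum_congr rfl fun i _ => ?_
        rw [Nat.cast_add, hμ]
        push_cast
        ring
      rw [hsum2]
      rcases h2 with ⟨h3, h4⟩ | h3
      · have h5 : ((zst P g).ncard : ℤ) = n + 1 := by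
          push_cast at hz
          rw [h3] at hz
          omega
        rw [h5, sub_self, zero_add]
        have h6 : (M : ℤ) * ((Pool.Agent.H910.Ff.mt (fun _ => 1) a P g).card : ℤ) ≤
            ∑ i, ((M : ℤ) - μ i) * s i := by
          rw [Finset.card_eq_sum_ones]
          push_cast
          rw [Finset.mul_sum]
          refine (Finset.sum_le_sum fun i hi => ?_).trans
            (Finset.sum_le_sum_of_subset_of_nonneg (Finset.subset_univ _) fun i _ _ => ?_)
          · unfold Pool.Agent.H910.Ff.mt at hi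
            rw [Finset.mem_filter] at hi
            obtain ⟨-, -, h7⟩ := hi
            have h7' : pord P g < P.ord (vl 1 (a i) g) := h7
            rcases h4 i with h8 | h8
            · rw [hs] at h8
              omega
            · rw [mul_one]
              exact h8
          · rw [← hμ]
            positivity
        have h7 : (0 : ℤ) ≤ (n + 1) * ∑ i, (c i : ℤ) * s i := by positivity
        have h8 : (0 : ℤ) ≤ (((n + 1) * cD : ℕ) : ℤ) * t := by positivity
        linarith
      · have h5 : (M : ℤ) * ((n : ℤ) + 1 - (zst P g).ncard +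
            (Pool.Agent.H910.Ff.mt (fun _ => 1) a P g).card) ≤ M * (n + 1) := by
          refine mul_le_mul_of_nonneg_left ?_ (Int.natCast_nonneg M)
          omega
        have h6 := mul_le_mul_of_nonneg_left h3 (by positivity : (0 : ℤ) ≤ (n : ℤ) + 1)
        push_cast
        nlinarith
  refine ⟨n', hn', ?_⟩
  rw [← Set.ncard_eq_toFinset_card _ hmfin] at h1
  refine le_trans (le_of_eq ?_) h1
  congr 1
  have hμ : ∑ i, ((M - μ i : ℕ) : ℤ) = q * M - ∑ i, (μ i : ℤ) := by
    rw [Finset.sum_congr rfl fun i _ => Nat.cast_sub (h.num.le i), Finset.sum_sub_distrib,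
      Finset.sum_const, Finset.card_univ, Fintype.card_fin, nsmul_eq_mul]
  have h2 : ((∑ i, ((M - μ i) + (n + 1) * c i) + 2 * n * ((n + 1) * cD) : ℕ) : ℤ) =
      q * M - ∑ i, (μ i : ℤ) + (n + 1) * (∑ i, (c i : ℤ) + 2 * n * cD) := by
    push_cast
    rw [Finset.sum_add_distrib, ← Finset.mul_sum]
    rw [← hμ]
    ring
  rw [h2]
  push_cast
  ring

/-- a bound for the height of the image -/
theorem RamAt.curve' {K : Type} [Field K] [Algebra k K] {N n q : ℕ} {x : Fin (N + 1) → K} {ι : Type}
    {Q : ι → MvPolynomial (Fin (N + 1)) k} {y : Fin (n + 2) → K} {a : Fin q → k} {M : ℕ}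
    {μ c : Fin q → ℕ} {cD : ℕ} {G : MvPolynomial (Fin (N + 1)) k}
    (h : RamAt x Q y a M μ c cD G) {L : Type} [Field L] [Algebra k L] [IsFF k L]
    {f : Fin (N + 1) → L} {g : Fin (n + 2) → L} (hfg : InClosure k x y f g) (hfG : val f G ≠ 0)
    (hg : Gen a g) (hfQ : ∃ i, aeval f (Q i) ≠ 0) :
    pht k g ≤ M * (n + 1) * max (canDeg k L + {P : Place k L | Meets Q f P}.ncard) 0 := by
  obtain ⟨n', hn', h1⟩ := h.curve hfg hfG hg hfQ
  have hpos : (1 : ℤ) ≤ (∑ i, μ i : ℕ) - 2 * M - ((n + 1) * (∑ i, c i + 2 * n * cD) : ℕ) := by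
    have h2 := h.num.bound
    zify at h2 ⊢
    linarith
  have hh : 0 ≤ pht k g := pht_nonneg' (closure_on' hfg).1
  obtain ⟨w, hw⟩ : ∃ w : ℤ, w = canDeg k L + {P : Place k L | Meets Q f P}.ncard := ⟨_, rfl⟩
  have e1 : ({P : Place k L | Meets Q f P}.ncard : ℤ) + canDeg k L = w := by
    rw [hw]
    ring
  rw [e1] at h1
  rw [← hw]
  have h2 : (M : ℤ) * n' * w ≤ M * (n + 1) * max w 0 := by
    have h3 : (M : ℤ) * n' * w ≤ M * n' * max w 0 :=
      mul_le_mul_of_nonneg_left (le_max_left _ _) (by positivity)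
    refine h3.trans (mul_le_mul_of_nonneg_right ?_ (le_max_right _ _))
    exact mul_le_mul_of_nonneg_left (by exact_mod_cast hn') (by positivity)
  nlinarith

/-- constant points -/
theorem pht_of_const {L : Type} [Field L] [Algebra k L] [IsFF k L] {N : ℕ} {f : Fin (N + 1) → L}
    (hf : ∃ j, f j ≠ 0) (h : ∀ i j, f j ≠ 0 → IsAlgebraic k (f i / f j)) : pht k f ≤ 0 := by
  obtain ⟨j, hj⟩ := hf
  have h1 : ∀ i, ∃ c : k, f i = f j * algebraMap k L c := by
    intro i
    obtain ⟨c, hc⟩ := minpoly.mem_range_of_degree_eq_one k _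
      (IsAlgClosed.degree_eq_one_of_irreducible k (minpoly.irreducible (h i j hj).isIntegral))
    exact ⟨c, by rw [hc]; field_simp⟩
  choose c hc using h1
  have h2 : pht k f = pht k fun i => algebraMap k L (c i) := by
    rw [funext hc]
    refine pht_scale (f := fun i => algebraMap k L (c i)) ⟨j, ?_⟩ hj
    intro h0
    apply hj
    rw [hc j, h0, mul_zero]
  rw [h2]
  have h3 : ∀ P : Place k L, pord P (fun i => algebraMap k L (c i)) = 0 := by
    intro P
    have hne : ∃ i, algebraMap k L (c i) ≠ 0 := ⟨j, fun h0 => hj (by rw [hc j, h0, mul_zero])⟩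
    obtain ⟨i, hi, hio⟩ := exists_pord P hne
    rw [← hio]
    exact P.ord_const fun h0 => hi (by rw [h0, map_zero])
  unfold pht
  simp only [h3, finsum_zero, neg_zero, le_refl]

/-- if the height is zero then the ratios are constant -/
theorem const_of_pht {L : Type} [Field L] [Algebra k L] [IsFF k L] {N : ℕ} {g : Fin (N + 1) → L}
    (hg : ∃ j, g j ≠ 0) (h : pht k g ≤ 0) : coords k g = ⊥ := by
  have h1 : ∀ i j, g j ≠ 0 → hgt k (g i / g j) ≤ 0 := by
    intro i j hj
    refine le_trans ?_ h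
    classical
    obtain ⟨T, hT⟩ := exists_supp (k := k) Finset.univ g
    have hp : ∀ P : Place k L, pord P g ≠ 0 → P ∈ T := by
      intro P hP
      obtain ⟨l, _, hl⟩ := exists_pord P hg
      rw [← hl] at hP
      exact hT l (Finset.mem_univ _) P hP
    have hs1 : ∑ P ∈ T, pord P g = - pht k g := by
      unfold pht
      rw [neg_neg, finsum_eq_sum_of_support_subset (s := T)]
      intro P hP
      exact Finset.mem_coe.2 (hp P hP)
    by_cases hi : g i = 0
    · rw [hi, zero_div]
      have : hgt k (0 : L) = 0 := by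
        have h3 := hgt_finset (k := k) (0 : L) ∅ (fun P hP => absurd P.ord_zero hP)
        rw [h3, Finset.sum_empty]
      rw [this]
      exact pht_nonneg' hg
    have h3 : hgt k (g i / g j) = ∑ P ∈ T, max (-P.ord (g i / g j)) 0 := by
      refine hgt_finset _ T fun P hP => ?_
      rw [P.ord_div hi hj] at hP
      by_contra hcon
      apply hP
      have h4 : P.ord (g i) = 0 := by
        by_contra h5
        exact hcon (hT i (Finset.mem_univ _) P h5)
      have h5 : P.ord (g j) = 0 := by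
        by_contra h5
        exact hcon (hT j (Finset.mem_univ _) P h5)
      rw [h4, h5, sub_zero]
    rw [h3]
    have h4 := sum_ord_finset (g j) T fun P hP => hT j (Finset.mem_univ _) P hP
    have h5 : ∑ P ∈ T, max (-P.ord (g i / g j)) 0 ≤ ∑ P ∈ T, (P.ord (g j) - pord P g) := by
      refine Finset.sum_le_sum fun P _ => ?_
      rw [P.ord_div hi hj]
      have h6 := pord_le P hi
      have h7 := pord_le P hj
      omega
    rw [Finset.sum_sub_distrib, h4, hs1] at h5
    linarith
  rw [eq_bot_iff]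
  unfold Pool.Agent.W602.GT.coords
  rw [IntermediateField.adjoin_le_iff]
  rintro _ ⟨i, j, hj, rfl⟩
  obtain ⟨c, hc⟩ := Pool.Agent.W603.LV.const_of_hgt (h1 i j hj)
  rw [hc]
  exact IntermediateField.algebraMap_mem _ _

/-- **Linear bounds for the degrees of curves.** The degree of a curve in `X`, not contained in a
proper closed subset, is at most a multiple of its logarithmic Euler characteristic. -/
theorem degree_bound {K : Type} [Field K] [Algebra k K] {N n : ℕ} {x : Fin (N + 1) → K}
    (hx : x ≠ 0) (hgen : coords k x = ⊤) {ι : Type} [Finite ι]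
    {Q : ι → MvPolynomial (Fin (N + 1)) k} (hQ : ∀ i, IsForm (Q i)) (hQx : ∃ i, aeval x (Q i) ≠ 0)
    {y : Fin (n + 2) → K} (h : Ram k x Q y) (halg : Algebra.IsAlgebraic (coords k y) K) :
    ∃ G : MvPolynomial (Fin (N + 1)) k, IsForm G ∧ val x G ≠ 0 ∧ ∃ A : ℕ,
      ∀ (L : Type) [Field L] [Algebra k L] [IsFF k L] (f : Fin (N + 1) → L), OnVar k x f →
        val f G ≠ 0 → (∃ i, aeval f (Q i) ≠ 0) →
          pht k f ≤ A * max (canDeg k L + {P : Place k L | Meets Q f P}.ncard) 0 := by
  classical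
  obtain ⟨q, a, M, μ, c, cD, G1, h⟩ := h
  have hcK : CharZero K := charZero_of_injective_algebraMap (algebraMap k K).injective
  have hy : y ≠ 0 := by
    intro h0
    have hq : 0 < q := by
      by_contra hq
      have : q = 0 := by omega
      subst this
      have := h.num.bound
      simp at this
    refine h.gen.2 ⟨0, hq⟩ ?_
    unfold hyp
    rw [map_sum]
    refine Finset.sum_eq_zero fun l _ => ?_
    rw [map_mul, aeval_X, h0, Pi.zero_apply, mul_zero]
  obtain ⟨G2, hG2, hG2x, halgf⟩ := alg_close hx hgen hy halg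
  have hht : IntermediateField.adjoin k (Set.range (Fin.elim0 : Fin 0 → k)) = ⊤ := by
    rw [eq_top_iff]
    intro z _
    exact IntermediateField.algebraMap_mem _ z
  obtain ⟨j, e, H, hH, G3, hG3, hG3x, hGj, A, hA⟩ :=
    rel_log_rat (k := k) (k0 := k) (r := 1) (N := fun _ => n + 1) (y := fun _ => y) hht hx hgen
      (fun _ => hy) hQ hQx (by
        left
        rw [ciSup_const]
        exact halg)
  -- the forms for the image
  have hR := hH 0
  have hdf : IsForm (dsc k n) ∧ ∀ i, IsForm (hyp k (n + 1) 1 (a i)) :=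
    ⟨⟨2 * n, dsc_hom k n⟩, fun i => ⟨1, hyp_hom k (n + 1) _ _⟩⟩
  refine ⟨G1 * G2 * G3 * (aeval (H 0) (dsc k n) * ∏ i, aeval (H 0) (hyp k (n + 1) 1 (a i))),
    isForm_mul0 (isForm_mul0 (isForm_mul0 h.form hG2) hG3) (isForm_mul0
      (isForm_comp0 hR.hom hdf.1) (isForm_prod0 fun i => isForm_comp0 hR.hom (hdf.2 i))), ?_,
    A * (3 + M * (n + 1)), fun L _ _ _ f hf hfG hfQ => ?_⟩
  · rw [val_mul_ne0, val_mul_ne0, val_mul_ne0, val_mul_ne0, val_prod_ne0]
    exact ⟨⟨⟨h.ne, hG2x⟩, hG3x⟩, fun h0 => h.gen.1 ((hR.val_iff hdf.1).1 h0),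
      fun i h0 => h.gen.2 i ((hR.val_iff (hdf.2 i)).1 h0)⟩
  · rw [val_mul_ne0, val_mul_ne0, val_mul_ne0, val_mul_ne0, val_prod_ne0] at hfG
    obtain ⟨⟨⟨hf1, hf2⟩, hf3⟩, hf4, hf5⟩ := hfG
    obtain ⟨g, hg⟩ : ∃ g : Fin (n + 2) → L, g = fun i => aeval f (H 0 i) := ⟨_, rfl⟩
    obtain ⟨b, hb⟩ := hf.1
    have hgj : aeval f (H 0 (j 0)) ≠ 0 := hGj L f hf hf3 0
    have hgr := hR.graph hf hb hgj
    have hfg : InClosure k x y f g := ⟨b, j 0, hb, by rw [hg]; exact hgj, by
      rw [hg]
      exact hgr.2.2⟩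
    have hgG : Gen a g := by
      refine ⟨?_, fun i => ?_⟩
      · rw [val_comp0] at hf4
        rw [hg]
        exact hf4
      · have h1 := hf5 i
        rw [val_comp0] at h1
        rw [hg]
        exact h1
    have h1 := h.curve' hfg hf1 hgG hfQ
    obtain ⟨w, hw⟩ : ∃ w : ℤ, w = canDeg k L + {P : Place k L | Meets Q f P}.ncard := ⟨_, rfl⟩
    rw [← hw] at h1 ⊢
    rcases le_or_gt w 0 with hw0 | hw0
    · -- constant maps
      rw [max_eq_right hw0, mul_zero] at h1 ⊢
      have h2 := const_of_pht (closure_on' hfg).1 h1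
      refine pht_of_const hf.1 fun i l hl => ?_
      have h3 := halgf L f g hfg hf2 i l hl
      rw [h2] at h3
      have h4 : Algebra.IsAlgebraic k (⊥ : IntermediateField k L) :=
        (IntermediateField.botEquiv k L).symm.isAlgebraic
      exact h3.restrictScalars k
    · rw [max_eq_left hw0.le] at h1 ⊢
      have h2 := hA L f hf hf3
      rw [Fin.sum_univ_zero, add_zero] at h2
      have h3 : (∑ l : Fin 1, pht k fun i => aeval f (H l i)) = pht k g := by
        rw [Fin.sum_univ_one, hg]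
      rw [h3] at h2
      have hcan : -2 ≤ canDeg k L := canDeg_ge_neg_two
      have hN0 : (0 : ℤ) ≤ ({P : Place k L | Meets Q f P}.ncard : ℤ) := Int.natCast_nonneg _
      have h4 : max (canDeg k L) 0 + ({P : Place k L | Meets Q f P}.ncard : ℤ) ≤ 3 * w := by
        rcases le_or_gt (canDeg k L) 0 with h5 | h5
        · rw [max_eq_right h5]
          omega
        · rw [max_eq_left h5.le]
          omega
      refine h2.trans ?_
      have h5 : (0 : ℤ) ≤ A := Int.natCast_nonneg _
      have h6 := mul_le_mul_of_nonneg_left (add_le_add h4 h1) h5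
      refine h6.trans (le_of_eq ?_)
      push_cast
      ring

end Pool.Agent.H910.Cf
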