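import Pool.Agent.H910.Cf.Par

/-!
Curves in varieties of arbitrary dimension.
-/

set_option autoImplicit false
set_option linter.unusedSectionVars false
set_option linter.unusedVariables false
set_option linter.overlappingInstances false

namespace Pool.Agent.H910.Cf

open FF MvPolynomial
open Pool.Agent.W602.GT
open Pool.Agent.Y216 (OnVar)
open Pool.Agent.W603.LV (canDeg)
open Pool.Agent.W603.PV (pht)
open Pool.Agent.TH466.QG (SubOf)
open Pool.Agent.Q271.RC (IsGeneric Nonconst)
open Pool.Agent.Q96.HE (IsMap eul vanForms lowCurves SameCurve exists_curve curve_map sameCurve_of)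
open Pool.Agent.Q96.LS (CentreIn LiesIn nonconst_of pht_pos)

variable {M : ℕ}

theorem onVar_of_point {K L : Type} [Field K] [Algebra ℂ K] [Field L] [Algebra ℂ L]
    {x : Fin (M + 1) → K} {v : Fin (M + 1) → L} (hv : Pool.Agent.Q271.RC.IsPoint x v)
    (h0 : ∃ j, v j ≠ 0) : OnVar ℂ x v :=
  ⟨h0, fun G hG hGx => by
    obtain ⟨D, hD⟩ := hG
    exact hv G D hD hGx⟩

theorem point_of_onVar {K L : Type} [Field K] [Algebra ℂ K] [Field L] [Algebra ℂ L]
    {x : Fin (M + 1) → K} {v : Fin (M + 1) → L} (hv : OnVar ℂ x v) :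
    Pool.Agent.Q271.RC.IsPoint x v := fun G D hG hGx => hv.2 G ⟨D, hG⟩ hGx

theorem ne_of_nonconst {L : Type} [Field L] [Algebra ℂ L] {v : Fin (M + 1) → L}
    (hv : Nonconst v) : ∃ j, v j ≠ 0 := by
  obtain ⟨i, j, hj, -⟩ := hv
  exact ⟨j, hj⟩

/-- nonconstant points of a curve are dominant -/
theorem same_of_curve {K L : Type} [Field K] [Algebra ℂ K] {x : Fin (M + 1) → K} {d : ℕ}
    (hx : x ≠ 0) (hgen : coords ℂ x = ⊤) (htr : Algebra.trdeg ℂ K = d) (hd : d ≤ 1) [Field L]
    [Algebra ℂ L] [IsFF ℂ L] {v : Fin (M + 1) → L} (hv : Pool.Agent.Q271.RC.IsPoint x v)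
    (hn : Nonconst v) : d = 1 ∧ SameCurve x v := by
  obtain ⟨M0, i1, i2, i3, w, hw, hs⟩ := exists_curve hn
  have hbg : IsGeneric x := ⟨Function.ne_iff.1 hx, hgen⟩
  have hpt : Pool.Agent.Q271.RC.IsPoint x w := fun G E hG hGx => (hs G E hG).2 (hv G E hG hGx)
  have h1 : Algebra.trdeg ℂ M0 = (1 : ℕ) := by
    rw [IsFF.trdeg (k := ℂ) (K := M0)]
    simp
  obtain ⟨ht2, hiso⟩ := Pool.Agent.Q96.OS.gen_point' hbg htr M0 w 1 hpt hw h1
  have hd1 : d = 1 := by omega
  refine ⟨hd1, ?_⟩
  obtain ⟨σ, l, hl, hvl, -⟩ := hiso hd1.symm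
  have h2 := sameCurve_of σ hl hvl
  intro G E hG
  exact (h2 G E hG).trans (hs G E hG)

/-- **Curves in varieties of arbitrary dimension.** -/
theorem any_dim {D : Set (MvPolynomial (Fin (M + 1)) ℂ)} (hD : ∀ F ∈ D, ∃ e, F.IsHomogeneous e)
    (d : ℕ) : ∀ (K : Type) [Field K] [Algebra ℂ K] (x : Fin (M + 1) → K), x ≠ 0 →
      coords ℂ x = ⊤ → Algebra.trdeg ℂ K = d →
      (∀ (E : Type) [Field E] [Algebra ℂ E] (z : Fin (M + 1) → E) (t : ℕ), OnVar ℂ x z →
        coords ℂ z = ⊤ → Algebra.trdeg ℂ E = t → 2 ≤ t → ¬ LiesIn D z →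
        ∃ G : MvPolynomial (Fin (M + 1)) ℂ, IsForm G ∧ val z G ≠ 0 ∧ ∃ A : ℕ,
          ∀ (L : Type) [Field L] [Algebra ℂ L] [IsFF ℂ L] (v : Fin (M + 1) → L), IsMap z D v →
            aeval v G ≠ 0 → pht ℂ v ≤ A * eul D v) →
      (lowCurves x D).Finite ∧ ∃ A : ℕ, ∀ (L : Type) [Field L] [Algebra ℂ L] [IsFF ℂ L]
        (v : Fin (M + 1) → L), IsMap x D v →
          pht ℂ v ≤ A * eul D v ∨ vanForms v ∈ lowCurves x D := by
  induction d using Nat.strong_induction_on with
  | _ d ih =>
  intro K _ _ x hx hgen htr hyp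
  classical
  by_cases hlie : LiesIn D x
  · have hno : ∀ (L : Type) [Field L] [Algebra ℂ L] [IsFF ℂ L] (v : Fin (M + 1) → L),
        ¬ IsMap x D v := by
      intro L _ _ _ v hv
      apply hv.off
      intro F hF
      obtain ⟨e, he⟩ := hD F hF
      exact hv.point F e he (hlie F hF)
    refine ⟨?_, 0, fun L _ _ _ v hv => (hno L v hv).elim⟩
    have h1 : lowCurves x D = ∅ := by
      rw [Set.eq_empty_iff_forall_notMem]
      rintro V ⟨L, _, _, _, v, hv, -⟩
      exact hno L v hv
    rw [h1]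
    exact Set.finite_empty
  rcases le_or_gt d 1 with hd | hd
  · -- curves
    have hsame : ∀ (L : Type) [Field L] [Algebra ℂ L] [IsFF ℂ L] (v : Fin (M + 1) → L),
        IsMap x D v → d = 1 ∧ SameCurve x v := fun L _ _ _ v hv =>
      same_of_curve hx hgen htr hd hv.point hv.nonconst
    constructor
    · refine (Set.finite_singleton (vanForms x)).subset ?_
      rintro V ⟨L, _, _, _, v, hv, -, -, rfl⟩
      exact (hsame L v hv).2.van.symm
    · by_cases hd1 : d = 1
      · subst hd1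
        have hff : IsFF ℂ K := ⟨Pool.Agent.Q72.NA.ess_of_adjoin hgen, by rw [htr]; simp⟩
        have hbg : IsGeneric x := ⟨Function.ne_iff.1 hx, hgen⟩
        have hnc : Nonconst x := nonconst_of hbg htr
        refine ⟨(pht ℂ x).toNat, fun L _ _ _ v hv => ?_⟩
        obtain ⟨-, hs⟩ := hsame L v hv
        obtain ⟨r, hr, hr1, hr2⟩ := curve_map hbg (ne_of_nonconst hv.nonconst) hs D hD hv.off
        by_cases hle : eul D x ≤ 0
        · right
          exact ⟨K, inferInstance, inferInstance, hff, x, ⟨fun G E _ h => h, hlie, hnc⟩, hbg,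
            hle, hs.van.symm⟩
        · left
          rw [not_le] at hle
          have hp := pht_pos x hnc
          rw [Int.toNat_of_nonneg hp.le, hr1, mul_comm]
          have hr' : (0 : ℤ) < r := by exact_mod_cast hr
          have h3 : (r : ℤ) ≤ eul D v := by nlinarith
          exact mul_le_mul_of_nonneg_left h3 hp.le
      · exact ⟨0, fun L _ _ _ v hv => (hd1 (hsame L v hv).1).elim⟩
  · -- dimension at least two
    obtain ⟨G, hG, hGx, A, hA⟩ := hyp K x d ⟨Function.ne_iff.1 hx, fun H _ h => h⟩ hgen htr hd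
      hlie
    obtain ⟨ι, hι, E, i1, i2, z, hz, hall⟩ := exists_parts x G hG
    have hzne : ∀ j, z j ≠ 0 := fun j h0 => by
      obtain ⟨i, hi⟩ := (hz j).1.1
      exact hi (congrFun h0 i)
    have hzd : ∀ j, ∃ t, t < d ∧ Algebra.trdeg ℂ (E j) = (t : ℕ) := fun j =>
      trdeg_lt hx hgen htr hG hGx (hz j).1 (hz j).2.1 (hz j).2.2
    choose t htd htt using hzd
    have hih := fun j => ih (t j) (htd j) (E j) (z j) (hzne j) (hz j).2.1 (htt j)
      fun E' _ _ z' t' hz' hz'gen ht' h2 hl => hyp E' z' t' (onVar_trans (hz j).1 hz') hz'gen ht'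
        h2 hl
    choose hfin B hB using hih
    -- points of the components
    have hmap : ∀ (L : Type) [Field L] [Algebra ℂ L] [IsFF ℂ L] (v : Fin (M + 1) → L),
        IsMap x D v → aeval v G = 0 → ∃ j, IsMap (z j) D v := by
      intro L _ _ _ v hv hvG
      obtain ⟨j, hj⟩ := hall L v (onVar_of_point hv.point (ne_of_nonconst hv.nonconst)) hvG
      exact ⟨j, point_of_onVar hj, hv.off, hv.nonconst⟩
    have hmap' : ∀ j (L : Type) [Field L] [Algebra ℂ L] [IsFF ℂ L] (v : Fin (M + 1) → L),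
        IsMap (z j) D v → IsMap x D v := fun j L _ _ _ v hv =>
      ⟨fun H e hH hHx => hv.point H e hH ((hz j).1.2 H ⟨e, hH⟩ hHx), hv.off, hv.nonconst⟩
    have hpos : ∀ (L : Type) [Field L] [Algebra ℂ L] [IsFF ℂ L] (v : Fin (M + 1) → L) (A : ℕ),
        IsMap x D v → pht ℂ v ≤ A * eul D v → 0 < eul D v := by
      intro L _ _ _ v A hv h
      by_contra hcon
      rw [not_lt] at hcon
      have h1 := mul_nonpos_of_nonneg_of_nonpos (Int.natCast_nonneg A) hcon
      have h2 := pht_pos v hv.nonconst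
      linarith
    cases nonempty_fintype ι
    constructor
    · refine (Set.finite_iUnion hfin).subset ?_
      rintro V ⟨L, i3, i4, i5, v, hv, hvg, hlow, rfl⟩
      have hvG : aeval v G = 0 := by
        by_contra hvG
        have h1 := hA L v hv hvG
        exact absurd (hpos L v A hv h1) (not_lt.2 hlow)
      obtain ⟨j, hj⟩ := hmap L v hv hvG
      exact Set.mem_iUnion.2 ⟨j, L, i3, i4, i5, v, hj, hvg, hlow, rfl⟩
    · refine ⟨A + ∑ j, B j, fun L _ _ _ v hv => ?_⟩
      by_cases hvG : aeval v G = 0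
      · obtain ⟨j, hj⟩ := hmap L v hv hvG
        rcases hB j L v hj with h1 | h1
        · left
          have h2 := hpos L v (B j) hv h1
          refine h1.trans (mul_le_mul_of_nonneg_right ?_ h2.le)
          have h3 : B j ≤ A + ∑ j, B j :=
            (Finset.single_le_sum (f := B) (fun _ _ => Nat.zero_le _) (Finset.mem_univ j)).trans
              (Nat.le_add_left _ _)
          exact_mod_cast h3
        · right
          obtain ⟨L', i3, i4, i5, v', hv', hvg', hlow', heq⟩ := h1
          exact ⟨L', i3, i4, i5, v', hmap' j L' v' hv', hvg', hlow', heq⟩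
      · left
        have h1 := hA L v hv hvG
        have h2 := hpos L v A hv h1
        refine h1.trans (mul_le_mul_of_nonneg_right ?_ h2.le)
        have h3 : A ≤ A + ∑ j, B j := Nat.le_add_right _ _
        exact_mod_cast h3

end Pool.Agent.H910.Cf
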