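import Pool.Agent.H910.Cf.Stm
import Pool.Agent.H916.Tow

/-!
Projective varieties with ramified maps to the space of the binary forms.
-/

set_option autoImplicit false
set_option linter.unusedSectionVars false
set_option linter.unusedVariables false
set_option linter.overlappingInstances false

open FF MvPolynomial Pool.Agent.W603.LV Pool.Agent.W603.PV
open Pool.Agent.W602.GT (val IsForm coords VarPts val_smul LogGeneralType GeneralType)
open Pool.Agent.W602.RG (HasValue PointedMaps PseudoGeomHyp)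
open Pool.Agent.H916
open Pool.Agent.Y216 (OnVar canDeg_ratFunc CurveBound)
open Pool.Agent.R882.HY (PseudoBounded)
open Pool.Agent.H910.Vf (hyp dsc contact)
open scoped LinearAlgebra.Projectivization

namespace Pool.Agent.H910.Cf

variable {k : Type} [Field k]

theorem not_meets {E : Type} [Field E] [Algebra k E] {N : ℕ} {f : Fin (N + 1) → E}
    {P : Place k E} : ¬ Meets (fun _ : Unit => (1 : MvPolynomial (Fin (N + 1)) k)) f P := by
  intro h
  rcases h () with h | h
  · rw [map_one] at h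
    exact one_ne_zero h
  · rw [map_one, P.ord_one, totalDegree_one] at h
    simp at h

theorem meets_empty {E : Type} [Field E] [Algebra k E] {N : ℕ} {f : Fin (N + 1) → E} :
    {P : Place k E | Meets (fun _ : Unit => (1 : MvPolynomial (Fin (N + 1)) k)) f P} = ∅ := by
  ext P
  exact iff_of_false not_meets (Set.notMem_empty P)

theorem form_one {N : ℕ} : IsForm (1 : MvPolynomial (Fin (N + 1)) k) :=
  ⟨0, isHomogeneous_one _ _⟩

theorem gt_of_lgt {K : Type} [Field K] [Algebra k K] {w : ℕ} {Bd : Place k K → Prop}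
    (hBd : ∀ P, ¬ Bd P) (h : LogGeneralType k K w Bd) : GeneralType k K w := by
  obtain ⟨h1, N, hN, ω, h2, h3, h4, h5⟩ := h
  exact ⟨h1, N, hN, ω, h2, fun P hP j => h4 P hP (hBd P) j, h5⟩

theorem lgt_of_gt [CharZero k] {K : Type} [Field K] [Algebra k K] {w : ℕ} {Bd : Place k K → Prop}
    (h : GeneralType k K w) : LogGeneralType k K w Bd := by
  obtain ⟨h1, N, hN, ω, h2, h3, h4⟩ := h
  refine ⟨h1, N, hN, ω, h2, fun P hP j D hD => ?_, fun P hP _ j => h3 P hP j, h4⟩
  refine h3 P hP j D fun i f hf => ?_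
  by_cases hf0 : f = 0
  · rw [hf0, map_zero]
    exact Or.inl rfl
  have h6 := P.reg_mul (hD i f) hf
  rwa [div_mul_cancel₀ _ hf0] at h6

variable [CharZero k] [IsAlgClosed k]

section

variable {K : Type} [Field K] [Algebra k K] {N n : ℕ} {x : Fin (N + 1) → K}

theorem qone {E : Type} [Field E] [Algebra k E] (f : Fin (N + 1) → E) :
    ∃ i : Unit, aeval f ((fun _ : Unit => (1 : MvPolynomial (Fin (N + 1)) k)) i) ≠ 0 :=
  ⟨(), by simp⟩

/-- all closed subvarieties outside of `G = 0` are of general type, linear bounds -/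
theorem prj_all (hx : x ≠ 0) (hgen : coords k x = ⊤) {y : Fin (n + 2) → K} (h : RamP k x y)
    (halg : Algebra.IsAlgebraic (coords k y) K) :
    ∃ G : MvPolynomial (Fin (N + 1)) k, IsForm G ∧ val x G ≠ 0 ∧ ∃ A : ℕ,
      (∀ (E : Type) [Field E] [Algebra k E] (f : Fin (N + 1) → E), OnVar k x f → coords k f = ⊤ →
        val f G ≠ 0 → ∀ t : ℕ, 1 ≤ t → Algebra.trdeg k E = t → GeneralType k E t) ∧
      ∀ (L : Type) [Field L] [Algebra k L] [IsFF k L] (f : Fin (N + 1) → L), OnVar k x f →
        val f G ≠ 0 → pht k f ≤ A * max (canDeg k L) 0 := by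
  obtain ⟨G, hG, hGx, hL⟩ := lgt_all hx hgen h halg
  obtain ⟨G', hG', hGx', A, hA⟩ := degree_bound hx hgen (fun _ => form_one) (qone x) h halg
  refine ⟨G * G', isForm_mul0 hG hG', ?_, A, fun E _ _ f hf hfgen hfG t ht htr => ?_,
    fun L _ _ _ f hf hfG => ?_⟩
  · rw [val_mul_ne0]
    exact ⟨hGx, hGx'⟩
  · rw [val_mul_ne0] at hfG
    exact gt_of_lgt (fun P => not_meets) (hL E f hf hfgen hfG.1 t ht htr)
  · rw [val_mul_ne0] at hfG
    have h1 := hA L f hf hfG.2 (qone f)
    rw [meets_empty, Set.ncard_empty, Nat.cast_zero, add_zero] at h1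
    exact h1

/-- The height of the image is bounded linearly. -/
def HB1 (k : Type) {K : Type} [Field k] [Field K] [Algebra k K] {M N : ℕ}
    (x : Fin (M + 1) → K) (y : Fin (N + 1) → K) : Prop :=
  ∃ G : MvPolynomial (Fin (M + 1)) k, IsForm G ∧ val x G ≠ 0 ∧ ∃ A : ℕ,
    ∀ (E : Type) [Field E] [Algebra k E] [IsFF k E] (f : Fin (M + 1) → E) (g : Fin (N + 1) → E),
      InClosure k x y f g → val f G ≠ 0 → pht k g ≤ A * max (canDeg k E) 0

theorem RamP.hb (hx : x ≠ 0) (hgen : coords k x = ⊤) {y : Fin (n + 2) → K} (h : RamP k x y) :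
    HB1 k x y := by
  obtain ⟨G, hG, hGx, A, hA⟩ := Ram.hb hx hgen h
  refine ⟨G, hG, hGx, A, fun E _ _ _ f g hfg hfG => ?_⟩
  have h1 := hA E f g hfg hfG (qone f)
  rw [meets_empty, Set.ncard_empty, Nat.cast_zero, add_zero] at h1
  exact h1

theorem RamP.ne {y : Fin (n + 2) → K} (h : RamP k x y) : y ≠ 0 := by
  obtain ⟨q, a, M', μ, c, cD, G1, h⟩ := h
  exact h.ney

end

end Pool.Agent.H910.Cf
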