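import Pool.Agent.H910.Cf.Pic
import Pool.Agent.H910.Cf.Prj
import Pool.Graph.R_pool_sql_team_seeded_3997aac3.Q103.SF.Main

/-!
The image of an entire curve under a ramified map to the space of the binary forms is constant.
-/

set_option autoImplicit false
set_option linter.unusedSectionVars false
set_option linter.unusedVariables false
set_option linter.overlappingInstances false

open Filter Topology Set Metric

namespace Pool.Agent.H910.Cf

open FF Pool.Agent.W603.BP Pool.Agent.W601.PH Pool.Agent.Y216 Pool.Agent.Y190.BV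
  Pool.Agent.Y190.AN Pool.Agent.Y216.LG Pool.Agent.H910.Dsc Pool.Agent.W603.PV
open Pool.Agent.W602.GT (IsForm coords)
open Pool.Agent.H916 (InClosure Meets RMap)
open Pool.Agent.H910.Vf (dsc_eq hyp dsc)

variable {N n q : ℕ} {K : Type} [Field K] [Algebra ℂ K] {x : Fin (N + 1) → K} {ι : Type}
  {Q : ι → MvPolynomial (Fin (N + 1)) ℂ}

/-- the point over the field of the meromorphic functions -/
theorem exists_pt {f : ℂ → Fin (N + 1) → ℂ} (hf : PDisc x Q f) :
    ∃ ξ : Fin (N + 1) → MK (exD 1 one_pos), OnVar ℂ x ξ ∧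
      (∀ (P : MvPolynomial (Fin (N + 1)) ℂ), ∀ z0 ∈ ball (0 : ℂ) 1 \ {0},
        MvPolynomial.eval (f z0) P ≠ 0 → MvPolynomial.aeval ξ P ≠ 0) ∧
      (∀ (z : ℂ) (hz : z ∈ (exD 1 one_pos).U), ¬ Meets Q ξ (PL hz)) ∧
      ∀ P : MvPolynomial (Fin (N + 1)) ℂ, ∃ h : MeromorphicOn
        (fun z => MvPolynomial.eval (f z⁻¹) P) (exD 1 one_pos).U,
        MvPolynomial.aeval ξ P = cl (fun z => MvPolynomial.eval (f z⁻¹) P) h := by
  classical
  have hfan : ∀ j, AnalyticOnNhd ℂ (fun z => f z j) (PB 1) := by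
    intro i w hw
    exact (hf.hol i).analyticAt (disc_open.mem_nhds (mem_disc.mpr hw))
  have hinvE : ∀ z ∈ Ext 1, z⁻¹ ∈ PB 1 ∧ z ≠ 0 := by
    intro z hz
    have hz1 : 1 < ‖z‖ := hz
    have hz0 : z ≠ 0 := by
      rintro rfl
      rw [norm_zero] at hz1
      linarith
    exact ⟨⟨inv_ne_zero hz0, by rw [norm_inv]; exact inv_lt_one_of_one_lt₀ hz1⟩, hz0⟩
  obtain ⟨F, hF⟩ : ∃ F : Fin (N + 1) → ℂ → ℂ, ∀ i z, F i z = f z⁻¹ i := ⟨_, fun _ _ => rfl⟩
  have hFan : ∀ s, ∀ z ∈ Ext 1, AnalyticAt ℂ (F s) z := by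
    intro i z hz
    obtain ⟨h1, h2⟩ := hinvE z hz
    have h3 : F i = (fun w => f w i) ∘ fun z => z⁻¹ := by
      funext v
      exact hF i v
    rw [h3]
    exact (hfan i z⁻¹ h1).comp (g := fun w => f w i) (f := fun w : ℂ => w⁻¹) (analyticAt_inv h2)
  have hFM : ∀ s, MeromorphicOn (F s) (exD 1 one_pos).U := fun s z hz =>
    (hFan s z hz).meromorphicAt
  obtain ⟨ξ, hξ⟩ : ∃ ξ : Fin (N + 1) → MK (exD 1 one_pos), ξ = fun j => cl (F j) (hFM _) :=
    ⟨_, rfl⟩
  have hval : ∀ P : MvPolynomial (Fin (N + 1)) ℂ, ∃ h : MeromorphicOn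
      (fun z => MvPolynomial.eval (f z⁻¹) P) (exD 1 one_pos).U,
      MvPolynomial.aeval ξ P = cl (fun z => MvPolynomial.eval (f z⁻¹) P) h := by
    intro P
    have h1 := eval_mero' P hFM
    have h2 : (fun z => MvPolynomial.eval (fun i => F i z) P) =
        fun z => MvPolynomial.eval (f z⁻¹) P := by
      funext z
      have h3 : (fun i => F i z) = f z⁻¹ := by
        funext i
        exact hF i z
      rw [h3]
    have h4 := aeval_cl P hFM h1
    simp only [h2] at h1 h4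
    refine ⟨h1, ?_⟩
    rw [hξ]
    exact h4
  have hPan : ∀ P : MvPolynomial (Fin (N + 1)) ℂ, ∀ z ∈ Ext 1,
      AnalyticAt ℂ (fun z => MvPolynomial.eval (f z⁻¹) P) z := by
    intro P z hz
    have h2 : (fun z => MvPolynomial.eval (f z⁻¹) P) =
        fun z => MvPolynomial.eval (fun i => F i z) P := by
      funext z
      have h3 : (fun i => F i z) = f z⁻¹ := by
        funext i
        exact hF i z
      rw [h3]
    rw [h2]
    simp only [MvPolynomial.eval_eq']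
    apply Finset.analyticAt_fun_sum
    intro α _
    apply AnalyticAt.fun_mul analyticAt_const
    apply Finset.analyticAt_fun_prod
    intro s _
    exact (hFan s z hz).fun_pow _
  have hnz : ∀ (f : ℂ → ℂ) (hf : MeromorphicOn f (exD 1 one_pos).U), ∀ z ∈ Ext 1,
      AnalyticAt ℂ f z → f z ≠ 0 → cl f hf ≠ 0 := by
    intro f hf z hz hfa hfz h0
    have h2 := (hfa.frequently_zero_iff_eventually_zero.1 (cl_eq_zero.1 h0 z hz).frequently)
    exact hfz h2.self_of_nhds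
  have hpt : ∀ z0 ∈ ball (0 : ℂ) 1 \ {0}, z0⁻¹ ∈ Ext 1 := fun z0 hz0 =>
    inv_mem_ext (mem_disc.mp hz0)
  have h2 : (2 : ℂ)⁻¹ ∈ ball (0 : ℂ) 1 \ {0} := by
    refine ⟨?_, by simp⟩
    rw [mem_ball_zero_iff, norm_inv]
    norm_num
  refine ⟨ξ, ⟨?_, fun P hP hPx => ?_⟩, fun P z0 hz0 hP => ?_, fun z hz hM => ?_, hval⟩
  · obtain ⟨j, hj⟩ := Function.ne_iff.1 (hf.ne _ h2)
    refine ⟨j, ?_⟩
    rw [hξ]
    refine hnz _ (hFM j) _ (hpt _ h2) (hFan _ _ (hpt _ h2)) ?_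
    rw [hF, inv_inv]
    exact hj
  · obtain ⟨h1, h2⟩ := hval P
    unfold Pool.Agent.W602.GT.val
    rw [h2, cl_eq_zero]
    intro z hz
    filter_upwards [nhdsWithin_le_nhds ((Ext_open 1).mem_nhds hz)] with w hw
    exact hf.mem P hP hPx _ (mem_disc.mpr (hinvE w hw).1)
  · obtain ⟨h2, h3⟩ := hval P
    rw [h3]
    refine hnz _ h2 _ (hpt _ hz0) (hPan _ _ (hpt _ hz0)) ?_
    rw [inv_inv]
    exact hP
  · have hz' : z⁻¹ ∈ PB 1 := (hinvE z hz).1
    obtain ⟨i, hi⟩ := hf.off z⁻¹ (mem_disc.mpr hz')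
    obtain ⟨j, hj⟩ := Function.ne_iff.1 (hf.ne z⁻¹ (mem_disc.mpr hz'))
    have hord : ∀ (f : ℂ → ℂ) (hf : MeromorphicOn f (exD 1 one_pos).U), AnalyticAt ℂ f z →
        f z ≠ 0 → (PL hz).ord (cl f hf) = 0 := by
      intro f hf hfa hfz
      have h1 : analyticOrderAt f z = ((0 : ℕ) : ℕ∞) := by
        rw [Nat.cast_zero, hfa.analyticOrderAt_eq_zero]
        exact hfz
      have := ord_cl (hg := hf) hz hfa h1
      exact_mod_cast this
    have hfj : F j z ≠ 0 := by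
      rw [hF]
      exact hj
    have hon : ∃ j, ξ j ≠ 0 := ⟨j, by
      rw [hξ]
      exact hnz _ (hFM j) z hz (hFan j z hz) hfj⟩
    have hp : pord (PL hz) ξ = 0 := by
      apply le_antisymm
      · have h1 : ξ j ≠ 0 := by
          rw [hξ]
          exact hnz _ (hFM j) z hz (hFan j z hz) hfj
        have h2 := pord_le (PL hz) h1
        rw [hξ] at h2 ⊢
        rwa [hord _ (hFM j) (hFan j z hz) hfj] at h2
      · obtain ⟨l, hl, hlo⟩ := exists_pord (PL hz) hon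
        rw [← hlo]
        rw [hξ] at hl ⊢
        exact (ge_cl (hg := hFM l) hz (hFan l z hz)).resolve_left hl
    obtain ⟨h1, h2⟩ := hval (Q i)
    rcases hM i with h3 | h3
    · rw [h2] at h3
      exact hnz _ h1 z hz (hPan (Q i) z hz) hi h3
    · rw [h2, hp, mul_zero, hord _ h1 (hPan (Q i) z hz) hi] at h3
      exact lt_irrefl _ h3

/-- **The images of punctured discs extend.** -/
theorem Ram.minf {y : Fin (n + 2) → K} (h : Ram ℂ x Q y) {j0 : Fin (n + 2)} {e : ℕ}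
    {H : Fin (n + 2) → MvPolynomial (Fin (N + 1)) ℂ} (hR : RMap x y j0 e H) :
    ∃ G : MvPolynomial (Fin (N + 1)) ℂ, IsForm G ∧ Pool.Agent.W602.GT.val x G ≠ 0 ∧
      ∀ f, PDisc x Q f → (∃ t ∈ ball (0 : ℂ) 1 \ {0}, MvPolynomial.eval (f t) G ≠ 0) →
        ∃ t ∈ ball (0 : ℂ) 1 \ {0}, MvPolynomial.eval (f t) (H j0) ≠ 0 ∧
        ∀ ξ : Fin (N + 1) → MK (exD 1 one_pos), OnVar ℂ x ξ →
          (∀ (P : MvPolynomial (Fin (N + 1)) ℂ), ∀ z0 ∈ ball (0 : ℂ) 1 \ {0},
            MvPolynomial.eval (f z0) P ≠ 0 → MvPolynomial.aeval ξ P ≠ 0) →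
          (∀ (z : ℂ) (hz : z ∈ (exD 1 one_pos).U), ¬ Meets Q ξ (PL hz)) →
            coords ℂ (fun i => MvPolynomial.aeval ξ (H i)) ≤ Minf 1 one_pos := by
  classical
  obtain ⟨q, a, M, μ, c, cD, G1, h⟩ := h
  have hdf : IsForm (dsc ℂ n) ∧ ∀ i, IsForm (hyp ℂ (n + 1) 1 (a i)) :=
    ⟨⟨2 * n, Pool.Agent.H910.Vf.dsc_hom ℂ n⟩, fun i => ⟨1, Pool.Agent.H910.Vf.hyp_hom ℂ (n + 1) _ _⟩⟩
  refine ⟨G1 * H j0 * (MvPolynomial.aeval H (dsc ℂ n) * ∏ i, MvPolynomial.aeval H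
      (hyp ℂ (n + 1) 1 (a i))),
    Pool.Agent.H916.isForm_mul0 (Pool.Agent.H916.isForm_mul0 h.form ⟨e, hR.hom j0⟩)
      (Pool.Agent.H916.isForm_mul0 (Pool.Agent.H916.isForm_comp0 hR.hom hdf.1)
        (Pool.Agent.H916.isForm_prod0 fun i => Pool.Agent.H916.isForm_comp0 hR.hom (hdf.2 i))), ?_,
    fun f hf => ?_⟩
  · rw [Pool.Agent.H916.val_mul_ne0, Pool.Agent.H916.val_mul_ne0, Pool.Agent.H916.val_mul_ne0,
      Pool.Agent.H916.val_prod_ne0]
    exact ⟨⟨h.ne, hR.ne⟩, fun h0 => h.gen.1 ((hR.val_iff hdf.1).1 h0),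
      fun i h0 => h.gen.2 i ((hR.val_iff (hdf.2 i)).1 h0)⟩
  rintro ⟨z0, hz0, hne⟩
  rw [map_mul, map_mul, map_mul, map_prod] at hne
  have hne1 := left_ne_zero_of_mul hne
  have hne2 := right_ne_zero_of_mul hne
  refine ⟨z0, hz0, right_ne_zero_of_mul hne1, fun ξ hon hpoly hmeet => ?_⟩
  have hG0 : Pool.Agent.W602.GT.val ξ G1 ≠ 0 := hpoly G1 z0 hz0 (left_ne_zero_of_mul hne1)
  have hHj := hpoly (H j0) z0 hz0 (right_ne_zero_of_mul hne1)
  obtain ⟨b, hb⟩ := hon.1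
  obtain ⟨g, hg⟩ : ∃ g : Fin (n + 2) → MK (exD 1 one_pos), g = fun j =>
    MvPolynomial.aeval ξ (H j) := ⟨_, rfl⟩
  have hcl : InClosure ℂ x y ξ g := ⟨b, j0, hb, by rw [hg]; exact hHj, by
    rw [hg]
    exact (hR.graph hon hb hHj).2.2⟩
  have hgg : Gen a g := by
    constructor
    · have h4 := Pool.Agent.H916.val_comp0 ξ H (dsc ℂ n)
      unfold Pool.Agent.W602.GT.val at h4
      rw [hg, ← h4]
      exact hpoly _ z0 hz0 (left_ne_zero_of_mul hne2)
    · intro i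
      have h4 := Pool.Agent.H916.val_comp0 ξ H (hyp ℂ (n + 1) 1 (a i))
      unfold Pool.Agent.W602.GT.val at h4
      rw [hg, ← h4]
      exact hpoly _ z0 hz0 (Finset.prod_ne_zero_iff.1 (right_ne_zero_of_mul hne2) i
        (Finset.mem_univ i))
  have hg0 : g ≠ 0 := by
    obtain ⟨j, hj⟩ := (Pool.Agent.H910.Vf.closure_on' hcl).1
    exact fun h0 => hj (congrFun h0 j)
  obtain ⟨s, H', hs, hH'⟩ := an_dsc (r0 := 1) (hr0 := one_pos) h.inj h.num.le h.num.bound
    (pol_ne hg0) (natDegree_pol_le g) (by rw [← dsc_eq (F := ℂ)]; exact hgg.1)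
    (fun i => by rw [← hyp_ev]; exact hgg.2 i) fun z hz => h.disC hcl hG0 hgg (hmeet z hz)
  rw [← hg]
  exact coeff_minf hs hH'

/-- **The images of entire curves are constant.** -/
theorem Ram.entire {y : Fin (n + 2) → K} (h : Ram ℂ x Q y) {j0 : Fin (n + 2)} {e : ℕ}
    {H : Fin (n + 2) → MvPolynomial (Fin (N + 1)) ℂ} (hR : RMap x y j0 e H) :
    ∃ G : MvPolynomial (Fin (N + 1)) ℂ, IsForm G ∧ Pool.Agent.W602.GT.val x G ≠ 0 ∧
      ∀ f, Entire x Q f → (∃ t, MvPolynomial.eval (f t) G ≠ 0) →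
        (∃ t, MvPolynomial.eval (f t) (H j0) ≠ 0) ∧
        ∀ i j a b, MvPolynomial.eval (f a) (H i) * MvPolynomial.eval (f b) (H j) =
          MvPolynomial.eval (f a) (H j) * MvPolynomial.eval (f b) (H i) := by
  classical
  obtain ⟨G, hG, hGx, hD⟩ := Ram.minf h hR
  refine ⟨G, hG, hGx, fun f hf hfG => ?_⟩
  obtain ⟨z0, hz0⟩ := hfG
  obtain ⟨w0, hw0, hw0z⟩ := sin_point z0
  have hd : Differentiable ℂ f := differentiable_pi.2 hf.hol
  have hP : PDisc x Q fun w => f (Complex.sin w⁻¹) :=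
    ⟨fun i => differentiableOn_pi.1 (sin_diff hd) i, fun t _ => hf.ne _,
      fun G hG hx t _ => hf.mem G hG hx _, fun t _ => hf.off _⟩
  obtain ⟨t1, ht1, ht1H, hmain⟩ := hD _ hP ⟨w0, hw0, by simp only [hw0z]; exact hz0⟩
  refine ⟨⟨_, ht1H⟩, ?_⟩
  by_contra hcon
  push Not at hcon
  obtain ⟨i, j, a, b, hab⟩ := hcon
  obtain ⟨ξ, hon, hpoly, hmeet, hval⟩ := exists_pt hP
  have hco := hmain ξ hon hpoly hmeet
  -- the entire curve
  have hu : ∀ i, Differentiable ℂ fun t => MvPolynomial.eval (f t) (H i) := by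
    intro i
    have h1 := Pool.Agent.Q103.SF.diff_eval (n := 1) (h := fun i t => f (t 0) i)
      (fun i => (hf.hol i).comp (by fun_prop)) (H i)
    exact h1.comp (f := fun t : ℂ => fun _ : Fin 1 => t) (by fun_prop)
  obtain ⟨F, hF, hFu⟩ := Pool.Agent.Y221.PD.curve_of_entire (x := y)
    (u := fun i t => MvPolynomial.eval (f t) (H i)) hu (fun G hG hGy t => by
      have h1 := hf.mem _ (Pool.Agent.H916.isForm_comp0 hR.hom hG) ((hR.val_iff hG).2 hGy) t
      have h2 := Pool.Agent.H916.val_comp0 (f t) H G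
      unfold Pool.Agent.W602.GT.val at h2
      rw [MvPolynomial.aeval_eq_eval, MvPolynomial.aeval_eq_eval] at h2
      rw [h1] at h2
      exact h2.symm) hab
  have hE := Pool.Agent.Q103.SF.disc_of_entire hF
  apply hE.ess
  have hrat : ∀ i j t, F i t * MvPolynomial.eval (f t) (H j) =
      F j t * MvPolynomial.eval (f t) (H i) := by
    intro i j t
    by_cases hk : ∃ k, MvPolynomial.eval (f t) (H k) ≠ 0
    · obtain ⟨c, _, hc⟩ := hFu t hk
      rw [hc i, hc j]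
      ring
    · push Not at hk
      rw [hk, hk, mul_zero, mul_zero]
  have hFan : ∀ i, AnalyticOnNhd ℂ (fun w => F i (Complex.sin w⁻¹)) (PB 1) := by
    intro i w hw
    exact (hE.hol i).analyticAt (disc_open.mem_nhds (mem_disc.mpr hw))
  have hsin : ∀ i, (fun z : ℂ => F i (Complex.sin (z⁻¹)⁻¹)) = fun z => F i (Complex.sin z) := by
    intro i
    funext z
    rw [inv_inv]
  have hFe : ∀ i, Differentiable ℂ fun z => F i (Complex.sin z) := fun i =>
    (hF.hol i).comp Complex.differentiable_sin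
  have hFM : ∀ i, MeromorphicOn (fun z : ℂ => F i (Complex.sin (z⁻¹)⁻¹)) (exD 1 one_pos).U := by
    intro i z _
    rw [hsin]
    exact ((hFe i).analyticAt z).meromorphicAt
  refine extends_minf hFan (fun w hw => hE.ne w (mem_disc.mpr hw)) hFM fun i j hj => ?_
  choose hm hv using fun i => hval (H i)
  -- the relation of the classes
  have hrel : ∀ i j, cl _ (hFM i) * MvPolynomial.aeval ξ (H j) =
      cl _ (hFM j) * MvPolynomial.aeval ξ (H i) := by
    intro i j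
    rw [hv, hv, cl_mul, cl_mul, cl_eq]
    intro z _
    refine Filter.Eventually.of_forall fun w => ?_
    have h1 := hrat i j (Complex.sin w)
    change F i (Complex.sin (w⁻¹)⁻¹) * MvPolynomial.eval (f (Complex.sin (w⁻¹)⁻¹)) (H j) =
      F j (Complex.sin (w⁻¹)⁻¹) * MvPolynomial.eval (f (Complex.sin (w⁻¹)⁻¹)) (H i)
    rw [inv_inv]
    exact h1
  have hHj0 : MvPolynomial.aeval ξ (H j0) ≠ 0 := hpoly _ _ ht1 ht1H
  have hHj : MvPolynomial.aeval ξ (H j) ≠ 0 := by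
    intro h0
    have h1 := hrel j j0
    rw [h0, mul_zero] at h1
    exact (mul_ne_zero hj hHj0) h1
  have h2 : cl _ (hFM i) / cl _ (hFM j) =
      MvPolynomial.aeval ξ (H i) / MvPolynomial.aeval ξ (H j) := by
    rw [div_eq_div_iff hj hHj]
    rw [hrel i j]
    ring
  rw [h2]
  exact hco (IntermediateField.subset_adjoin _ _ ⟨i, j, hHj, rfl⟩)

end Pool.Agent.H910.Cf
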