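import Pool.Agent.H910.Cf.Pos
import Pool.Agent.H910.Cf.Bcl
import Pool.Agent.H910.Dsc.AnD

/-!
Families of hyperbolic varieties.
-/

set_option autoImplicit false
set_option linter.unusedSectionVars false
set_option linter.unusedVariables false
set_option linter.overlappingInstances false

open FF MvPolynomial Pool.Agent.W603.LV Pool.Agent.W603.PV
open Pool.Agent.W602.GT (val IsForm coords val_smul LogGeneralType GeneralType)
open Pool.Agent.H916
open Pool.Agent.Y216 (OnVar)
open Pool.Agent.TH466.QG (SubOf)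
open Pool.Agent.H910.Vf

namespace Pool.Agent.H910.Cf

open Pool.Agent.H910.Ff Pool.Agent.H910.Dsc Pool.Agent.Y216

section point

variable {k : Type} [Field k] [CharZero k] [IsAlgClosed k] {n m : ℕ} {a : Fin (n + 2) → k}
  {Y : Fin (n + 2) → MvPolynomial (Fin (n + 2)) k}

/-- binary forms without multiple zeros which do not vanish at given points -/
theorem exists_bin (a : Fin (n + 2) → k) : ∃ g : Fin (n + 2) → k, Gen a g := by
  classical
  obtain ⟨c, hc⟩ := ((Finset.univ.image fun i => a i ^ (n + 1)) ∪ {0} :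
    Finset k).exists_notMem
  rw [Finset.mem_union, not_or, Finset.mem_singleton] at hc
  obtain ⟨hc1, hc0⟩ := hc
  let F : Polynomial k := Polynomial.X ^ (n + 1) - Polynomial.C c
  have hF : F.natDegree = n + 1 := Polynomial.natDegree_X_pow_sub_C
  have hsq : Squarefree F :=
    (Polynomial.separable_X_pow_sub_C c (by exact_mod_cast Nat.succ_ne_zero n) hc0).squarefree
  have hpol : pol (fun j : Fin (n + 2) => F.coeff j) = F := (eq_pol (by omega)).symm
  refine ⟨fun j => F.coeff j, ?_, fun i => ?_⟩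
  · rw [dsc_eq, hpol]
    exact dsf_ne_of_sqf hsq hF
  · rw [hyp_ev, hpol]
    change Polynomial.eval (a i) (Polynomial.X ^ (n + 1) - Polynomial.C c) ≠ 0
    rw [Polynomial.eval_sub, Polynomial.eval_pow, Polynomial.eval_X, Polynomial.eval_C,
      sub_ne_zero]
    intro h
    exact hc1 (Finset.mem_image.2 ⟨i, Finset.mem_univ i, h⟩)

/-- a point outside of the branch locus -/
theorem exists_pnt (hm : 1 ≤ m) (hc : Covering m a Y)
    (hY : ∀ i, aeval Y (hyp k (n + 1) 1 (a i)) = X i ^ m) :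
    ∃ u : Fin (n + 2) → k, (∀ i, u i ≠ 0) ∧ aeval u (aeval Y (dsc k n)) ≠ 0 := by
  classical
  obtain ⟨g, hg1, hg2⟩ := exists_bin a
  have hroot : ∀ i, ∃ w : k, w ^ m = aeval g (hyp k (n + 1) 1 (a i)) := fun i =>
    IsAlgClosed.exists_pow_nat_eq _ (by omega)
  choose u hu using hroot
  have hu' : ∀ i, aeval u (aeval Y (hyp k (n + 1) 1 (a i))) = u i ^ m := fun i => by
    rw [hY, map_pow, aeval_X]
  have h1 := pow_hyp hu'
  have h2 : pol (fun j => aeval u (Y j)) = pol g := by
    rw [← sub_eq_zero]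
    refine Polynomial.eq_zero_of_natDegree_lt_card_of_eval_eq_zero _ hc.1 (fun i => ?_) ?_
    · have h3 := h1 i
      rw [hu, hyp_ev, hyp_ev] at h3
      rw [Polynomial.eval_sub, sub_eq_zero]
      exact h3
    · rw [Fintype.card_fin]
      refine lt_of_le_of_lt (Polynomial.natDegree_sub_le _ _) ?_
      have h3 := natDegree_pol_le fun j => aeval u (Y j)
      have h4 := natDegree_pol_le g
      rw [max_lt_iff]
      constructor <;> omega
  refine ⟨u, fun i h0 => ?_, ?_⟩
  · have h3 := hu i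
    rw [h0, zero_pow (by omega)] at h3
    exact hg2 i h3.symm
  · have h3 := val_comp0 u Y (dsc k n)
    unfold Pool.Agent.W602.GT.val at h3
    rw [h3, dsc_eq, h2, ← dsc_eq (F := k)]
    exact hg1

end point

theorem OnFib.trans {k : Type} [Field k] {n s m : ℕ}
    {Y : Fin (n + 2) → MvPolynomial (Fin (n + 2)) k} (hY : ∀ j, (Y j).IsHomogeneous m)
    {σ : Fin (s + 1) → Matrix (Fin (n + 2)) (Fin (n + 2)) k} {E : Type} [Field E] [Algebra k E]
    {f : Fin (n + 2 + s + 1) → E} (hf : OnFib m Y σ f) {L : Type} [Field L] [Algebra k L]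
    {g : Fin (n + 2 + s + 1) → L} (hg : OnVar k f g) : OnFib m Y σ g := by
  intro l
  let P : MvPolynomial (Fin (n + 2 + s + 1)) k := aeval (lf (σ l) xs) (aeval Y (dsc k n)) -
    X (ws l) ^ (2 * n * m)
  have hP : IsForm P := by
    refine ⟨2 * n * m, IsHomogeneous.sub ?_ ?_⟩
    · have h1 : ((aeval Y (dsc k n) : MvPolynomial (Fin (n + 2)) k)).IsHomogeneous (m * (2 * n)) :=
        (dsc_hom k n).aeval Y hY
      have h2 := h1.aeval (lf (σ l) (xs (s := s))) fun i => lf_hom _ _ i
      rwa [one_mul, mul_comm] at h2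
    · exact isHomogeneous_X_pow _ _
  have hPv : ∀ (L : Type) [Field L] [Algebra k L] (f : Fin (n + 2 + s + 1) → L), val f P =
      aeval (lin (σ l) fun j => f (xs j)) (aeval Y (dsc k n)) - f (ws l) ^ (2 * n * m) := by
    intro L _ _ f
    have h1 := val_comp0 f (lf (σ l) xs) (aeval Y (dsc k n))
    unfold Pool.Agent.W602.GT.val at h1 ⊢
    rw [map_sub, h1, map_pow, aeval_X]
    congr 3
    funext i
    exact aeval_lf _ _ _ _
  have h1 := hg.2 P hP (by rw [hPv, hf l, sub_self])
  rw [hPv, sub_eq_zero] at h1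
  exact h1

/-- **Hereditary fibre products.** -/
theorem fib_hered {n m s d : ℕ} (hn : 1 ≤ n) (hm : 2 * n + 3 < n * m) (hd : 1 ≤ d)
    (hs : n + 2 ≤ s + 1 + d) {a : Fin (n + 2) → ℂ}
    {Y : Fin (n + 2) → MvPolynomial (Fin (n + 2)) ℂ} (hc : Covering m a Y)
    (hY : ∀ i, aeval Y (hyp ℂ (n + 1) 1 (a i)) = X i ^ m) :
    ∃ σ : Fin (s + 1) → Matrix (Fin (n + 2)) (Fin (n + 2)) ℂ, (∀ l, (σ l).det ≠ 0) ∧
      ∀ (E : Type) [Field E] [Algebra ℂ E] (f : Fin (n + 2 + s + 1) → E), OnFib m Y σ f →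
        Hered d f := by
  classical
  have hm0 : 1 ≤ m := by
    by_contra h
    have : m = 0 := by omega
    rw [this, mul_zero] at hm
    omega
  obtain ⟨u, hu1, hu2⟩ := exists_pnt hm0 hc hY
  let B : MvPolynomial (Fin (n + 1 + 1)) ℂ := (∏ i, X i) * aeval Y (dsc ℂ n)
  have hBh : B.IsHomogeneous (∑ _i : Fin (n + 1 + 1), 1 + m * (2 * n)) :=
    (IsHomogeneous.prod _ _ _ fun i _ => isHomogeneous_X ℂ i).mul ((dsc_hom ℂ n).aeval Y hc.2)
  have hBe : ∀ (L : Type) [Field L] [Algebra ℂ L] (v : Fin (n + 1 + 1) → L),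
      aeval v B = (∏ i, v i) * aeval v (aeval Y (dsc ℂ n)) := by
    intro L _ _ v
    change aeval v ((∏ i, X i) * aeval Y (dsc ℂ n)) = _
    rw [map_mul, map_prod]
    simp only [aeval_X]
  have hBu : aeval u B ≠ 0 := by
    rw [hBe]
    exact mul_ne_zero (Finset.prod_ne_zero_iff.2 fun i _ => hu1 i) hu2
  obtain ⟨σ, hσ, hall⟩ := exists_sigma hBh hBu (s + 1)
  refine ⟨σ, hσ, fun E0 _ _ f hf E _ _ z t hz ht hdt => ?_⟩
  have hzf : OnFib m Y σ z := hf.trans hc.2 ⟨Function.ne_iff.1 hz.ne, hz.spec⟩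
  let v : Fin (n + 1 + 1) → E := fun j => z (xs j)
  have hv0 : ∃ j, v j ≠ 0 := by
    by_contra hcon
    push Not at hcon
    apply hz.ne
    funext i
    rcases xs_or_ws i with ⟨j, rfl⟩ | ⟨l, rfl⟩
    · exact hcon j
    · have h1 := hzf l
      have h2 : (lin (σ l) fun j : Fin (n + 2) => z (xs j)) =
          fun i => (0 : E) * (lin (σ l) fun j : Fin (n + 2) => z (xs j)) i := by
        funext i
        rw [zero_mul]
        unfold lin
        exact Finset.sum_eq_zero fun j _ => by
          have h3 : z (xs j) = 0 := hcon j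
          change _ * z (xs j) = 0
          rw [h3, mul_zero]
      have h4 : aeval (lin (σ l) fun j : Fin (n + 2) => z (xs j)) (aeval Y (dsc ℂ n)) =
          (0 : E) ^ (m * (2 * n)) * aeval (lin (σ l) fun j : Fin (n + 2) => z (xs j))
            (aeval Y (dsc ℂ n)) := by
        conv_lhs => rw [h2]
        exact val_smul ((dsc_hom ℂ n).aeval Y hc.2) _ _
      rw [zero_pow (by positivity), zero_mul] at h4
      rw [h4] at h1
      exact pow_eq_zero_iff (by positivity) |>.1 h1.symm
  obtain ⟨j0, hj0⟩ := hv0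
  obtain ⟨E2, i1, i2, φ, v2, hv1, hv2, hv3, hv4⟩ := exists_sub (k := ℂ) (z := v) (j0 := j0) hj0
  obtain ⟨t2, ht2⟩ := Pool.Agent.Q103.SF.exists_trdeg_of_gen hv3
  -- the coordinates are algebraic
  let _ : Algebra E2 E := φ.toRingHom.toAlgebra
  have htow : IsScalarTower ℂ E2 E := IsScalarTower.of_algebraMap_eq' φ.comp_algebraMap.symm
  have hφ : ∀ c : E2, algebraMap E2 E c = φ c := fun _ => rfl
  have hxa : ∀ j : Fin (n + 1 + 1), IsAlgebraic E2 (z (xs j) / v j0) := by
    intro j
    have h1 : z (xs j) / v j0 = algebraMap E2 E (v2 j) := by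
      rw [hφ, hv1]
    rw [h1]
    exact isAlgebraic_algebraMap _
  have hwa : ∀ l, IsAlgebraic E2 (z (ws l) / v j0) := by
    intro l
    refine IsAlgebraic.of_pow (n := 2 * n * m) (by positivity) ?_
    have h2 : (lin (σ l) fun j : Fin (n + 2) => z (xs j)) =
        fun i => v j0 * (lin (σ l) fun j : Fin (n + 2) => algebraMap E2 E (v2 j)) i := by
      rw [← lin_smul]
      congr 1
      funext j
      rw [hφ, hv1]
      change z (xs j) = v j0 * (z (xs j) / v j0)
      field_simp
    have h3 : aeval (lin (σ l) fun j : Fin (n + 2) => z (xs j)) (aeval Y (dsc ℂ n)) =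
        v j0 ^ (2 * n * m) * aeval (lin (σ l) fun j : Fin (n + 2) => algebraMap E2 E (v2 j))
          (aeval Y (dsc ℂ n)) := by
      rw [h2, mul_comm (2 * n) m]
      exact val_smul ((dsc_hom ℂ n).aeval Y hc.2) (v j0) _
    have h4 : (fun i => algebraMap E2 E (lin (σ l) v2 i)) =
        lin (σ l) fun j : Fin (n + 2) => algebraMap E2 E (v2 j) := lin_hom φ (σ l) v2
    rw [div_pow, ← hzf l, h3, mul_div_cancel_left₀ _ (pow_ne_zero _ hj0), ← h4]
    have h5 := aeval_algebraMap_apply (R := ℂ) E (lin (σ l) v2) (aeval Y (dsc ℂ n))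
    have h6 : (⇑(algebraMap E2 E) ∘ lin (σ l) v2) =
        fun i => algebraMap E2 E (lin (σ l) v2 i) := rfl
    rw [h6] at h5
    rw [h5]
    exact isAlgebraic_algebraMap _
  have halg : Algebra.IsAlgebraic E2 E := by
    refine ⟨fun w => ?_⟩
    have hle : coords ℂ z ≤ (algebraicClosure E2 E).restrictScalars ℂ := by
      unfold Pool.Agent.W602.GT.coords
      rw [IntermediateField.adjoin_le_iff]
      rintro _ ⟨i, j, hj, rfl⟩
      have h1 : z i / z j = (z i / v j0) / (z j / v j0) := by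
        rw [div_div_div_cancel_right₀ hj0]
      have h2 : ∀ i, z i / v j0 ∈ algebraicClosure E2 E := by
        intro i
        rw [mem_algebraicClosure_iff]
        rcases xs_or_ws i with ⟨j, rfl⟩ | ⟨l, rfl⟩
        · exact hxa j
        · exact hwa l
      rw [h1]
      exact div_mem (h2 i) (h2 j)
    have h3 : w ∈ coords ℂ z := by
      rw [hz.gen]
      exact IntermediateField.mem_top
    exact mem_algebraicClosure_iff.1 (hle h3)
  have htt : t2 = t := by
    have h1 : Algebra.trdeg ℂ E2 + Algebra.trdeg E2 E = Algebra.trdeg ℂ E := trdeg_add_eq ℂ E2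
    have h2 : Algebra.trdeg E2 E = 0 := trdeg_eq_zero
    rw [h2, add_zero, ht, ht2] at h1
    exact_mod_cast h1
  subst htt
  have hex : ∃ l, aeval (lin (σ l) v) B ≠ 0 := by
    by_contra hcon
    push Not at hcon
    have hv20 : v2 ≠ 0 := fun h => hv2 (congrFun h j0)
    have h1 := hall E2 v2 t2 hv20 hv3 ht2 (fun l => by
      have hG : IsForm (aeval (lf (σ l) id) B : MvPolynomial (Fin (n + 1 + 1)) ℂ) :=
        ⟨_, hBh.aeval (lf (σ l) (id : Fin (n + 1 + 1) → Fin (n + 1 + 1)))
          fun i => lf_hom (σ l) id i⟩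
      have hGv : ∀ (L : Type) [Field L] [Algebra ℂ L] (v : Fin (n + 1 + 1) → L),
          val v (aeval (lf (σ l) id) B : MvPolynomial (Fin (n + 1 + 1)) ℂ) =
            aeval (lin (σ l) v) B := by
        intro L _ _ v
        rw [val_comp0]
        unfold Pool.Agent.W602.GT.val
        congr 2
        funext i
        rw [aeval_lf]
        rfl
      rw [← hGv, hv4 _ hG, hGv]
      exact hcon l)
    omega
  obtain ⟨l, hl⟩ := hex
  rw [hBe] at hl
  have hl1 := Finset.prod_ne_zero_iff.1 (left_ne_zero_of_mul hl)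
  have hl2 := right_ne_zero_of_mul hl
  obtain ⟨y, hy1, hy2⟩ := fib_ram hm hn hc hY hzf hz.gen (l := l) (hσ l)
    (fun i => hl1 i (Finset.mem_univ i)) (fun h0 => by
      apply hl2
      have h1 := hzf l
      rw [h0, zero_pow (by positivity)] at h1
      exact h1)
  exact ⟨n, y, hy1, hy2⟩

end Pool.Agent.H910.Cf
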