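import Pool.Agent.H910.Cf.Res

/-!
Fibre products of cyclic coverings.
-/

set_option autoImplicit false
set_option linter.unusedSectionVars false
set_option linter.unusedVariables false
set_option linter.overlappingInstances false

open FF MvPolynomial Pool.Agent.W603.LV Pool.Agent.W603.PV
open Pool.Agent.W602.GT (val IsForm coords val_smul LogGeneralType GeneralType)
open Pool.Agent.H916
open Pool.Agent.Y216 (OnVar)
open Pool.Agent.H910.Vf

namespace Pool.Agent.H910.Cf

variable {k : Type} [Field k]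

theorem xs_or_ws {n s : ℕ} (i : Fin (n + 2 + s + 1)) :
    (∃ j, i = xs (s := s) j) ∨ ∃ l, i = ws (n := n) l := by
  rcases lt_or_ge i.1 (n + 2) with h | h
  · exact Or.inl ⟨⟨i.1, h⟩, rfl⟩
  · refine Or.inr ⟨⟨i.1 - (n + 2), by omega⟩, ?_⟩
    apply Fin.ext
    change i.1 = n + 2 + (i.1 - (n + 2))
    omega

section lin

variable {E : Type} [Field E] [Algebra k E] {N : ℕ}

theorem lin_smul (σ : Matrix (Fin N) (Fin N) k) (c : E) (v : Fin N → E) :
    lin σ (fun j => c * v j) = fun i => c * lin σ v i := by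
  funext i
  unfold lin
  rw [Finset.mul_sum]
  exact Finset.sum_congr rfl fun j _ => by ring

theorem lin_lin (τ σ : Matrix (Fin N) (Fin N) k) (v : Fin N → E) :
    lin τ (lin σ v) = lin (τ * σ) v := by
  have h1 : ∀ (σ : Matrix (Fin N) (Fin N) k) (v : Fin N → E),
      lin σ v = (σ.map (algebraMap k E)).mulVec v := fun σ v => rfl
  rw [h1, h1, h1, Matrix.mulVec_mulVec, Matrix.map_mul]

theorem lin_one (v : Fin N → E) : lin (1 : Matrix (Fin N) (Fin N) k) v = v := by
  funext i
  unfold lin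
  rw [Finset.sum_eq_single i]
  · rw [Matrix.one_apply_eq, map_one, one_mul]
  · intro j _ hj
    rw [Matrix.one_apply_ne' hj, map_zero, zero_mul]
  · intro h
    exact (h (Finset.mem_univ i)).elim

theorem lin_hom {L : Type} [Field L] [Algebra k L] (φ : E →ₐ[k] L) (σ : Matrix (Fin N) (Fin N) k)
    (v : Fin N → E) : (fun i => φ (lin σ v i)) = lin σ fun j => φ (v j) := by
  funext i
  unfold lin
  rw [map_sum]
  exact Finset.sum_congr rfl fun j _ => by rw [map_mul, AlgHom.commutes]

end lin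

/-- the linear forms -/
noncomputable def lf {N M : ℕ} (σ : Matrix (Fin N) (Fin N) k) (x : Fin N → Fin (M + 1))
    (i : Fin N) : MvPolynomial (Fin (M + 1)) k := ∑ j, C (σ i j) * X (x j)

theorem lf_hom {N M : ℕ} (σ : Matrix (Fin N) (Fin N) k) (x : Fin N → Fin (M + 1)) (i : Fin N) :
    (lf σ x i).IsHomogeneous 1 := by
  refine IsHomogeneous.sum _ _ _ fun j _ => ?_
  have h := (isHomogeneous_C (Fin (M + 1)) (σ i j)).mul (isHomogeneous_X k (x j))
  rwa [zero_add] at h

theorem aeval_lf {N M : ℕ} (σ : Matrix (Fin N) (Fin N) k) (x : Fin N → Fin (M + 1)) (i : Fin N)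
    {E : Type} [Field E] [Algebra k E] (f : Fin (M + 1) → E) :
    aeval f (lf σ x i) = lin σ (fun j => f (x j)) i := by
  unfold lf lin
  rw [map_sum]
  exact Finset.sum_congr rfl fun j _ => by rw [map_mul, aeval_C, aeval_X]

variable [CharZero k] [IsAlgClosed k] {n s m : ℕ} {a : Fin (n + 2) → k}
  {Y : Fin (n + 2) → MvPolynomial (Fin (n + 2)) k}
  {σ : Fin (s + 1) → Matrix (Fin (n + 2)) (Fin (n + 2)) k}

/-- **The fibre products have ramified maps.** -/
theorem fib_ram (hm : 2 * n + 3 < n * m) (hn : 1 ≤ n) (hc : Covering m a Y)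
    (hY : ∀ i, aeval Y (hyp k (n + 1) 1 (a i)) = X i ^ m) {E : Type} [Field E] [Algebra k E]
    {f : Fin (n + 2 + s + 1) → E} (hf : OnFib m Y σ f) (hgen : coords k f = ⊤) {l : Fin (s + 1)}
    (hdet : (σ l).det ≠ 0) (hu : ∀ i, lin (σ l) (fun j => f (xs j)) i ≠ 0)
    (hw : f (ws l) ≠ 0) :
    ∃ y : Fin (n + 2) → E, RamP k f y ∧ Algebra.IsAlgebraic (coords k y) E := by
  classical
  obtain ⟨u, hud⟩ : ∃ u : Fin (n + 2) → E, u = lin (σ l) fun j => f (xs j) := ⟨_, rfl⟩
  rw [← hud] at hu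
  have hm' : n + (n + 1) + 2 < m * (n + 1 - 1) := by
    rw [Nat.add_sub_cancel, mul_comm]
    omega
  have hm0 : 1 ≤ m := by
    by_contra h
    have : m = 0 := by omega
    rw [this, mul_zero] at hm
    omega
  let g : Fin (n + 1 + 2) → E := Fin.snoc (α := fun _ => E) u (f (ws l))
  have hg1 : ∀ i : Fin (n + 1 + 1), g i.castSucc = u i := fun i =>
    Fin.snoc_castSucc (α := fun _ => E) _ _ i
  have hg2 : g (Fin.last (n + 1 + 1)) = f (ws l) := Fin.snoc_last (α := fun _ => E) _ _
  have hgu : (fun i : Fin (n + 1 + 1) => g i.castSucc) = u := funext hg1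
  have hcyc : OnCyclic (r := n + 1) m a Y g := by
    refine ⟨fun i => ?_, fun i => ?_, ?_⟩
    · refine Fin.lastCases ?_ (fun i => ?_) i
      · rw [hg2]
        exact hw
      · rw [hg1]
        exact hu i
    · rw [hgu, hY, map_pow, aeval_X, hg1]
    · rw [hgu, hg2, hud]
      exact hf l
  obtain ⟨y, hy⟩ : ∃ y : Fin (n + 2) → E, y = fun j => aeval u (Y j) := ⟨_, rfl⟩
  have hram : RamP k g y := by
    have h1 := cyc_ramP (r := n + 1) hm' hc le_rfl hn hcyc
    rw [hgu] at h1
    rw [hy]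
    exact h1
  have hkey := cyc_key hn hm0 hcyc
  rw [hgu, ← hy] at hkey
  have hf0 : f ≠ 0 := fun h0 => hw (congrFun h0 _)
  -- the rational map
  let A : Fin (n + 1 + 2) → MvPolynomial (Fin (n + 2 + s + 1)) k :=
    Fin.snoc (α := fun _ => MvPolynomial (Fin (n + 2 + s + 1)) k) (lf (σ l) xs) (X (ws l))
  have hA1 : ∀ i : Fin (n + 1 + 1), A i.castSucc = lf (σ l) xs i := fun i =>
    Fin.snoc_castSucc (α := fun _ => MvPolynomial (Fin (n + 2 + s + 1)) k) _ _ i
  have hA2 : A (Fin.last (n + 1 + 1)) = X (ws l) :=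
    Fin.snoc_last (α := fun _ => MvPolynomial (Fin (n + 2 + s + 1)) k) _ _
  have hAf : ∀ i, aeval f (A i) = g i := by
    intro i
    refine Fin.lastCases ?_ (fun i => ?_) i
    · rw [hA2, aeval_X, hg2]
    · rw [hA1, aeval_lf, hg1, hud]
  have hAR : RMap f g (Fin.last (n + 1 + 1)) 1 A := by
    refine ⟨fun i => ?_, ?_, ?_, fun i => ?_⟩
    · refine Fin.lastCases ?_ (fun i => ?_) i
      · rw [hA2]
        exact isHomogeneous_X k _
      · rw [hA1]
        exact lf_hom _ _ _
    · rw [hAf, hg2]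
      exact hw
    · rw [hg2]
      exact hw
    · rw [hAf, hAf]
  refine ⟨y, RamP.pull hf0 hgen hAR hram, ?_⟩
  -- algebraic
  obtain ⟨Ω, hΩ⟩ : ∃ Ω : IntermediateField k E, Ω =
    (algebraicClosure (coords k y) E).restrictScalars k := ⟨_, rfl⟩
  have hmem : ∀ z, z ∈ Ω ↔ IsAlgebraic (coords k y) z := by
    intro z
    rw [hΩ]
    exact mem_algebraicClosure_iff
  have hu0 : u 0 ≠ 0 := hu 0
  have hu' : ∀ i, u i / u 0 ∈ Ω := by
    intro i
    rw [hmem, ← hg1 i, ← hg1 0]
    exact hkey 0 i.castSucc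
  have hx' : ∀ j : Fin (n + 2), f (xs j) / u 0 ∈ Ω := by
    intro j
    have h1 : (fun j : Fin (n + 2) => f (xs j)) = lin (σ l)⁻¹ u := by
      rw [hud, lin_lin, Matrix.nonsing_inv_mul _ (isUnit_iff_ne_zero.2 hdet), lin_one]
    have h2 : f (xs j) = lin (σ l)⁻¹ u j := congrFun h1 j
    rw [h2]
    unfold lin
    rw [Finset.sum_div]
    refine sum_mem fun i _ => ?_
    rw [mul_div_assoc]
    exact mul_mem (IntermediateField.algebraMap_mem _ _) (hu' i)
  have hpol : ∀ (τ : Matrix (Fin (n + 2)) (Fin (n + 2)) k) (P : MvPolynomial (Fin (n + 2)) k),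
      aeval (lin τ fun j : Fin (n + 2) => f (xs j) / u 0) P ∈ Ω := by
    intro τ P
    induction P using MvPolynomial.induction_on with
    | C c =>
      rw [aeval_C]
      exact IntermediateField.algebraMap_mem _ _
    | add p q hp hq =>
      rw [map_add]
      exact add_mem hp hq
    | mul_X p i hp =>
      rw [map_mul, aeval_X]
      refine mul_mem hp ?_
      unfold lin
      exact sum_mem fun j _ => mul_mem (IntermediateField.algebraMap_mem _ _) (hx' j)
  have hw' : ∀ l', f (ws l') / u 0 ∈ Ω := by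
    intro l'
    rw [hmem]
    refine IsAlgebraic.of_pow (n := 2 * n * m) (by positivity) ?_
    rw [← hmem, div_pow, ← hf l']
    have h1 : ((aeval Y (dsc k n) : MvPolynomial (Fin (n + 2)) k)).IsHomogeneous (m * (2 * n)) :=
      (dsc_hom k n).aeval Y hc.2
    have h2 : (lin (σ l') fun j => f (xs j)) =
        fun i => u 0 * (lin (σ l') fun j => f (xs j) / u 0) i := by
      rw [← lin_smul]
      congr 1
      funext j
      field_simp
    have h3 : aeval (lin (σ l') fun j => f (xs j)) (aeval Y (dsc k n)) =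
        u 0 ^ (2 * n * m) * aeval (lin (σ l') fun j => f (xs j) / u 0) (aeval Y (dsc k n)) := by
      rw [h2, mul_comm (2 * n) m]
      exact val_smul h1 (u 0) _
    rw [h3, mul_div_cancel_left₀ _ (pow_ne_zero _ hu0)]
    exact hpol _ _
  have hall : ∀ i, f i / u 0 ∈ Ω := by
    intro i
    rcases xs_or_ws i with ⟨j, rfl⟩ | ⟨l', rfl⟩
    · exact hx' j
    · exact hw' l'
  have hle : coords k f ≤ Ω := by
    unfold Pool.Agent.W602.GT.coords
    rw [IntermediateField.adjoin_le_iff]
    rintro _ ⟨i, j, hj, rfl⟩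
    have h1 : f i / f j = (f i / u 0) / (f j / u 0) := by
      rw [div_div_div_cancel_right₀ hu0]
    rw [h1]
    exact div_mem (hall i) (hall j)
  refine ⟨fun z => (hmem z).1 (hle ?_)⟩
  rw [hgen]
  exact IntermediateField.mem_top

end Pool.Agent.H910.Cf
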