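import Pool.Agent.H910.Cf.Deg
import Pool.Agent.H910.Dsc.Main

/-!
Log general type of the closed subvarieties.
-/

set_option autoImplicit false
set_option linter.unusedSectionVars false
set_option linter.unusedVariables false
set_option linter.overlappingInstances false

open FF MvPolynomial Pool.Agent.W603.LV Pool.Agent.W603.PV
open Pool.Agent.W602.GT (val IsForm coords val_smul LogGeneralType GeneralType)
open Pool.Agent.H916
open Pool.Agent.Y216 (OnVar)
open Pool.Agent.H910.Vf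

namespace Pool.Agent.H910.Cf

open Pool.Agent.Y216 Pool.Agent.H910.Dsc Pool.Agent.H910.Ff
open Pool.Agent.Y190.BV (cnt ct cnt_unique)
open Pool.Agent.Y216.LG (pol_ne)

variable {k : Type} [Field k] [CharZero k] [IsAlgClosed k]

theorem hyp_ev {E : Type} [Field E] [Algebra k E] {n : ℕ} (a : k) (g : Fin (n + 1) → E) :
    aeval g (hyp k n 1 a) = (pol g).eval (algebraMap k E a) := by
  rw [hyp_eq, vl_fin one_ne_zero, map_one, one_pow, one_mul, div_one]

theorem cnt_pol0 {E : Type} [Field E] [Algebra k E] (P : Place k E) {n : ℕ}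
    {g : Fin (n + 1) → E} (hg : ∃ j, g j ≠ 0) : cnt P (pol g) = pord P g := by
  apply cnt_unique
  · intro j
    by_cases hj : j < n + 1
    · rw [coeff_pol_lt _ hj]
      exact ge_pord P g _
    · rw [coeff_pol_ge _ (by omega)]
      exact Ge.zero
  · obtain ⟨j, hj, hjo⟩ := exists_pord P hg
    exact ⟨j, by rwa [coeff_pol], by rw [coeff_pol, hjo]⟩

section ram

variable {K : Type} [Field K] [Algebra k K] {N n q : ℕ} {x : Fin (N + 1) → K} {ι : Type}
    {Q : ι → MvPolynomial (Fin (N + 1)) k} {y : Fin (n + 2) → K} {a : Fin q → k} {M : ℕ}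
    {μ c : Fin q → ℕ} {cD : ℕ} {G : MvPolynomial (Fin (N + 1)) k}

theorem RamAt.disC (h : RamAt x Q y a M μ c cD G) {E : Type} [Field E] [Algebra k E]
    {f : Fin (N + 1) → E} {g : Fin (n + 2) → E} (hfg : InClosure k x y f g) (hfG : val f G ≠ 0)
    (hg : Gen a g) {P : Place k E} (hP : ¬ Meets Q f P) : DisC n M μ c cD a (pol g) P := by
  have h1 := h.ram E f g hfg hfG hg P hP
  have hg0 := (closure_on' hfg).1
  have hcs : ∀ i, contact 1 (hyp k (n + 1) 1 (a i)) g P = ct P (pol g) (a i) := by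
    intro i
    unfold contact ct
    rw [hyp_ev, cnt_pol0 P hg0]
    push_cast
    ring
  have hct : contact (2 * n) (dsc k n) g P = dct P n (pol g) := by
    unfold contact dct
    rw [dsc_eq, cnt_pol0 P hg0]
    push_cast
    ring
  unfold ConC at h1
  simp only [hcs, hct] at h1
  exact h1

/-- the coefficients generate -/
theorem alg_pol {E : Type} [Field E] [Algebra k E] {g : Fin (n + 2) → E}
    (h : Algebra.IsAlgebraic (coords k g) E) :
    Algebra.IsAlgebraic (Algebra.adjoin k {z | ∃ i j, z = (pol g).coeff i /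
        (pol g).coeff j}) E := by
  rw [← IntermediateField.isAlgebraic_adjoin_iff_top]
  have hle : coords k g ≤ IntermediateField.adjoin k {z | ∃ i j, z = (pol g).coeff i /
        (pol g).coeff j} := by
    unfold Pool.Agent.W602.GT.coords
    rw [IntermediateField.adjoin_le_iff]
    rintro _ ⟨i, j, hj, rfl⟩
    exact IntermediateField.subset_adjoin k _ ⟨(i : ℕ), (j : ℕ), by
      rw [coeff_pol, coeff_pol]⟩
  refine ⟨fun z => ?_⟩
  have h1 := h.isAlgebraic z
  obtain ⟨p, hp, hpz⟩ := h1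
  refine ⟨p.map (IntermediateField.inclusion hle).toRingHom, ?_, ?_⟩
  · rw [Ne, Polynomial.map_eq_zero]
    exact hp
  · rw [← hpz, Polynomial.aeval_def, Polynomial.eval₂_map, Polynomial.aeval_def]
    rfl

/-- **Log general type.** -/
theorem RamAt.lgt (h : RamAt x Q y a M μ c cD G) {E : Type} [Field E] [Algebra k E]
    {f : Fin (N + 1) → E} {g : Fin (n + 2) → E} (hfg : InClosure k x y f g) (hfG : val f G ≠ 0)
    (hg : Gen a g) (halg : Algebra.IsAlgebraic (coords k g) E) {t : ℕ}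
    (htr : Algebra.trdeg k E = t) (ht : 1 ≤ t) :
    LogGeneralType k E t fun P => Meets Q f P := by
  have hg0 : g ≠ 0 := by
    obtain ⟨j, hj⟩ := (closure_on' hfg).1
    exact fun h0 => hj (congrFun h0 j)
  exact core_dsc ht htr a h.inj h.num.le h.num.bound (pol g) (pol_ne hg0) (natDegree_pol_le g)
    (by rw [← dsc_eq (F := k)]; exact hg.1) (alg_pol halg)
    (fun i => by rw [← hyp_ev]; exact hg.2 i) _ fun P _ hP => h.disC hfg hfG hg hP

theorem RamAt.ney (h : RamAt x Q y a M μ c cD G) : y ≠ 0 := by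
  intro h0
  have hq : 0 < q := by
    by_contra hq
    have : q = 0 := by omega
    subst this
    have := h.num.bound
    simp at this
  refine h.gen.2 ⟨0, hq⟩ ?_
  unfold hyp
  rw [map_sum]
  refine Finset.sum_eq_zero fun l _ => ?_
  rw [map_mul, aeval_X, h0, Pi.zero_apply, mul_zero]

/-- **The exceptional set.** -/
theorem RamAt.good (h : RamAt x Q y a M μ c cD G) (hx : x ≠ 0) (hgen : coords k x = ⊤)
    (halg : Algebra.IsAlgebraic (coords k y) K) :
    ∃ (e : ℕ) (H : Fin (n + 2) → MvPolynomial (Fin (N + 1)) k) (G' : MvPolynomial (Fin (N + 1)) k),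
      (∀ j, (H j).IsHomogeneous e) ∧ IsForm G' ∧ val x G' ≠ 0 ∧
      ∀ (E : Type) [Field E] [Algebra k E] (f : Fin (N + 1) → E), OnVar k x f → val f G' ≠ 0 →
        InClosure k x y f (fun j => aeval f (H j)) ∧ val f G ≠ 0 ∧
        Gen a (fun j => aeval f (H j)) ∧
        ∀ i j, f j ≠ 0 → IsAlgebraic (coords k fun j => aeval f (H j)) (f i / f j) := by
  classical
  have hy := h.ney
  obtain ⟨i0, hi0⟩ := Function.ne_iff.1 hx
  have hi0 : x i0 ≠ 0 := hi0
  obtain ⟨j0, hj0⟩ := Function.ne_iff.1 hy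
  have hj0 : y j0 ≠ 0 := hj0
  obtain ⟨e, H, hH, hne, heq⟩ := exists_forms (k := k) hi0 hj0 (by rw [hgen]; exact le_top)
  have hR : RMap x y j0 e H := ⟨hH, hne, hj0, heq⟩
  obtain ⟨G2, hG2, hG2x, halgf⟩ := alg_close hx hgen hy halg
  have hdf : IsForm (dsc k n) ∧ ∀ i, IsForm (hyp k (n + 1) 1 (a i)) :=
    ⟨⟨2 * n, dsc_hom k n⟩, fun i => ⟨1, hyp_hom k (n + 1) _ _⟩⟩
  refine ⟨e, H, G * G2 * H j0 * (aeval H (dsc k n) * ∏ i, aeval H (hyp k (n + 1) 1 (a i))), hH,
    isForm_mul0 (isForm_mul0 (isForm_mul0 h.form hG2) ⟨e, hH j0⟩) (isForm_mul0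
      (isForm_comp0 hR.hom hdf.1) (isForm_prod0 fun i => isForm_comp0 hR.hom (hdf.2 i))), ?_,
    fun E _ _ f hf hfG => ?_⟩
  · rw [val_mul_ne0, val_mul_ne0, val_mul_ne0, val_mul_ne0, val_prod_ne0]
    exact ⟨⟨⟨h.ne, hG2x⟩, hne⟩, fun h0 => h.gen.1 ((hR.val_iff hdf.1).1 h0),
      fun i h0 => h.gen.2 i ((hR.val_iff (hdf.2 i)).1 h0)⟩
  · rw [val_mul_ne0, val_mul_ne0, val_mul_ne0, val_mul_ne0, val_prod_ne0] at hfG
    obtain ⟨⟨⟨hf1, hf2⟩, hf3⟩, hf4, hf5⟩ := hfG
    obtain ⟨b, hb⟩ := hf.1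
    have hgr := hR.graph hf hb hf3
    have hfg : InClosure k x y f fun i => aeval f (H i) := ⟨b, j0, hb, hf3, hgr.2.2⟩
    refine ⟨hfg, hf1, ⟨?_, fun i => ?_⟩, fun i j hj => ?_⟩
    · rw [val_comp0] at hf4
      exact hf4
    · have h1 := hf5 i
      rw [val_comp0] at h1
      exact h1
    · exact halgf E f _ hfg hf2 i j hj

/-- **Log general type of all subvarieties.** -/
theorem lgt_all (hx : x ≠ 0) (hgen : coords k x = ⊤) (h : Ram k x Q y)
    (halg : Algebra.IsAlgebraic (coords k y) K) :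
    ∃ G : MvPolynomial (Fin (N + 1)) k, IsForm G ∧ val x G ≠ 0 ∧
      ∀ (E : Type) [Field E] [Algebra k E] (f : Fin (N + 1) → E), OnVar k x f → coords k f = ⊤ →
        val f G ≠ 0 → ∀ t : ℕ, 1 ≤ t → Algebra.trdeg k E = t →
          LogGeneralType k E t fun P => Meets Q f P := by
  obtain ⟨q, a, M, μ, c, cD, G1, h⟩ := h
  obtain ⟨e, H, G', hH, hG', hx', hgood⟩ := h.good hx hgen halg
  refine ⟨G', hG', hx', fun E _ _ f hf hfgen hfG t ht htr => ?_⟩
  obtain ⟨h1, h2, h3, h4⟩ := hgood E f hf hfG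
  refine h.lgt h1 h2 h3 ?_ htr ht
  have h5 : ∀ z : E, z ∈ coords k f → IsAlgebraic (coords k fun j => aeval f (H j)) z := by
    intro z hz
    have h6 : coords k f ≤ (algebraicClosure (coords k fun j => aeval f (H j)) E).restrictScalars
        k := by
      unfold Pool.Agent.W602.GT.coords
      rw [IntermediateField.adjoin_le_iff]
      rintro _ ⟨i, j, hj, rfl⟩
      change f i / f j ∈ algebraicClosure (coords k fun j => aeval f (H j)) E
      rw [mem_algebraicClosure_iff]
      exact h4 i j hj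
    have h7 := h6 hz
    exact mem_algebraicClosure_iff.1 h7
  exact ⟨fun z => h5 z (by rw [hfgen]; exact IntermediateField.mem_top)⟩

end ram

end Pool.Agent.H910.Cf
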