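import Pool.Agent.H910.Cf.Dim
import Pool.Agent.H910.Cf.Bdf
import Pool.Agent.H910.Cf.Cyr

/-!
Projective varieties all of whose closed subvarieties of dimension at least two have generically
finite ramified maps to spaces of binary forms.
-/

set_option autoImplicit false
set_option linter.unusedSectionVars false
set_option linter.unusedVariables false
set_option linter.overlappingInstances false

open Filter Topology Set Metric

namespace Pool.Agent.H910.Cf

open FF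
open Pool.Agent.W602.GT
open Pool.Agent.Y221.PD
open Pool.Agent.Y221.BD (EntireCurve)
open Pool.Agent.Y216 (OnVar CurveBound)
open Pool.Agent.W603.LV (canDeg)
open Pool.Agent.W603.PV (pht)
open Pool.Agent.TH466.QG (SubOf)
open Pool.Agent.Q96.HE (IsMap eul vanForms surface)
open Pool.Agent.Q96.LS (CentreIn LiesIn nonconst_of Norm)
open Pool.Agent.Q271.RC (IsGeneric Nonconst)
open Pool.Agent.Q103.SF
open Pool.Agent.H916 (InClosure Meets RMap)
open Pool.Agent.W603.BP (sin_point)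

variable {M : ℕ} {K : Type} [Field K] [Algebra ℂ K] {x : Fin (M + 1) → K}

theorem SubOf.on {E : Type} [Field E] [Algebra ℂ E] {z : Fin (M + 1) → E} (h : SubOf ℂ x z) :
    OnVar ℂ x z := ⟨Function.ne_iff.1 h.ne, h.spec⟩

theorem sub_of_on {E : Type} [Field E] [Algebra ℂ E] {z : Fin (M + 1) → E} (h : OnVar ℂ x z)
    (hgen : coords ℂ z = ⊤) : SubOf ℂ x z :=
  ⟨Function.ne_iff.2 h.1, hgen, h.2⟩

theorem Hered.sub {d : ℕ} (h : Hered d x) {E : Type} [Field E] [Algebra ℂ E]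
    {z : Fin (M + 1) → E} (hz : SubOf ℂ x z) : Hered d z := fun E' _ _ z' t hz' ht hd =>
  h E' z' t (sub_of_on (onVar_trans (SubOf.on hz) (SubOf.on hz')) hz'.gen) ht hd

/-- **General type.** -/
theorem Hered.gt {d : ℕ} (h : Hered d x) (hd : 1 ≤ d) {E : Type} [Field E] [Algebra ℂ E]
    {z : Fin (M + 1) → E} {t : ℕ} (hz : SubOf ℂ x z) (ht : Algebra.trdeg ℂ E = t) (hdt : d ≤ t) :
    GeneralType ℂ E t := by
  obtain ⟨n, y, hy, halg⟩ := h E z t hz ht hdt
  obtain ⟨G, hG, hGz, A, hgt, -⟩ := prj_all hz.ne hz.gen hy halg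
  exact hgt E z ⟨Function.ne_iff.1 hz.ne, fun G _ h => h⟩ hz.gen hGz t (hd.trans hdt) ht

/-- **Curves.** -/
theorem Hered.curves (h : Hered 2 x) (hx : x ≠ 0) (hgen : coords ℂ x = ⊤) :
    (lowCurves x).Finite ∧
    (∃ A : ℕ, ∀ (L : Type) [Field L] [Algebra ℂ L] [IsFF ℂ L] (v : Fin (M + 1) → L),
      OnVar ℂ x v → Nonconst v → pht ℂ v ≤ A * canDeg ℂ L ∨ van v ∈ lowCurves x) := by
  classical
  obtain ⟨d, hd⟩ := exists_trdeg_of_gen hgen
  obtain ⟨h1, A', h2⟩ := any_dim (D := ({1} : Set (MvPolynomial (Fin (M + 1)) ℂ))) (by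
      intro F hF
      rw [Set.mem_singleton_iff] at hF
      rw [hF]
      exact ⟨0, MvPolynomial.isHomogeneous_one _ _⟩) d K x hx hgen hd (by
    intro E _ _ z t hz hzgen ht h2t _
    obtain ⟨n, y, hy, halg⟩ := h E z t (sub_of_on hz hzgen) ht h2t
    have hz0 : z ≠ 0 := Function.ne_iff.2 hz.1
    obtain ⟨G, hG, hGz, A, -, hA⟩ := prj_all hz0 hzgen hy halg
    refine ⟨G, hG, hGz, A, fun L _ _ _ v hv hvG => ?_⟩
    have hv0 := ne_of_nonconst hv.nonconst
    rw [eul_one hv0]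
    have h3 := hA L v (onVar_of_point hv.point hv0) hvG
    have h4 := Pool.Agent.Q96.LS.pht_pos v hv.nonconst
    rcases le_or_gt (canDeg ℂ L) 0 with h5 | h5
    · rw [max_eq_right h5, mul_zero] at h3
      omega
    · rwa [max_eq_left h5.le] at h3)
  refine ⟨by rw [low_eq]; exact h1, A', fun L _ _ _ v hv hnc => ?_⟩
  have hm : IsMap x ({1} : Set (MvPolynomial (Fin (M + 1)) ℂ)) v :=
    ⟨fun G D hG hGx => hv.2 G ⟨D, hG⟩ hGx, not_lies, hnc⟩
  rw [low_eq, van_eq]
  have h3 := h2 L v hm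
  rwa [eul_one hv.1] at h3

/-- the closure of the image of a punctured disc -/
theorem disc_sub {f : ℂ → Fin (M + 1) → ℂ} (hf : EssentialDisc x f) :
    ∃ (E : Type) (_ : Field E) (_ : Algebra ℂ E) (z : Fin (M + 1) → E) (t : ℕ), SubOf ℂ x z ∧
      Algebra.trdeg ℂ E = t ∧ 1 ≤ t ∧
      (∀ G : MvPolynomial (Fin (M + 1)) ℂ, IsForm G →
        (val z G = 0 ↔ ∀ t ∈ ball (0 : ℂ) 1 \ {0}, MvPolynomial.eval (f t) G = 0)) ∧
      (t = 1 → ∀ _ : IsFF ℂ E, canDeg ℂ E ≤ 0) := by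
  have hG1 : S_gpc := Pool.Agent.Q285.SFG.t_gpc
  obtain ⟨ξ, hξ, j, k, hk, hjk⟩ := exists_mk hf
  obtain ⟨E, i1, i2, φ, v, hv1, hv2, hv3, hv4⟩ := exists_sub (k := ℂ) hk
  obtain ⟨t, ht⟩ := exists_trdeg_of_gen hv3
  have hiff : ∀ G : MvPolynomial (Fin (M + 1)) ℂ, IsForm G →
        (val v G = 0 ↔ ∀ t ∈ ball (0 : ℂ) 1 \ {0}, MvPolynomial.eval (f t) G = 0) :=
    fun G hG => (hv4 G hG).trans (hξ G)
  refine ⟨E, i1, i2, v, t, sub_of_on ⟨⟨k, hv2⟩, fun G hG hGx => (hiff G hG).2 (hf.mem G hG hGx)⟩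
    hv3, ht, ?_, hiff, ?_⟩
  · rw [Nat.one_le_iff_ne_zero]
    intro h0
    rw [h0, Nat.cast_zero, trdeg_eq_zero_iff] at ht
    have hint : Algebra.IsIntegral ℂ E := Algebra.isAlgebraic_iff_isIntegral.1 ht
    obtain ⟨c, hc⟩ := (IsAlgClosed.algebraMap_bijective_of_isIntegral (k := ℂ)
      (K := E)).2 (v j)
    apply hjk
    have h2 : ξ j / ξ k = algebraMap ℂ Pool.Agent.Y221.AP.MK c := by
      rw [← hv1 j, ← hc, AlgHom.commutes]
    rw [h2]
    exact Pool.Agent.Y221.AP.MI.algebraMap_mem c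
  · intro ht1 hff
    by_contra hcon
    rw [not_le] at hcon
    let _ : Algebra E Pool.Agent.Y221.AP.MK := φ.toRingHom.toAlgebra
    have htow : IsScalarTower ℂ E Pool.Agent.Y221.AP.MK :=
      IsScalarTower.of_algebraMap_eq' φ.comp_algebraMap.symm
    have hess : Algebra.EssFiniteType ℂ E := Pool.Agent.Q72.NA.ess_of_adjoin hv3
    have h1 := hG1 E (gt_of_canDeg hcon) (v j)
    have h2 : algebraMap E Pool.Agent.Y221.AP.MK (v j) = φ (v j) := rfl
    rw [h2, hv1] at h1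
    exact hjk h1

/-- **Punctured discs.** -/
theorem Hered.disc (h : Hered 2 x) {f : ℂ → Fin (M + 1) → ℂ} (hf : EssentialDisc x f) :
    vanOn (ball (0 : ℂ) 1 \ {0}) f ∈ lowCurves x := by
  obtain ⟨E, i1, i2, z, t, hz, ht, ht1, hiff, hlow⟩ := disc_sub hf
  rcases (by omega : t = 1 ∨ 2 ≤ t) with h1 | h2
  · subst h1
    have hff : IsFF ℂ E := ⟨Pool.Agent.Q72.NA.ess_of_adjoin hz.gen, by rw [ht]; simp⟩
    refine ⟨E, i1, i2, hff, z, SubOf.on hz, hz.gen, hlow rfl hff, ?_⟩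
    ext G
    constructor
    · rintro ⟨hG, h⟩
      exact ⟨hG, (hiff G hG).2 h⟩
    · rintro ⟨hG, h⟩
      exact ⟨hG, (hiff G hG).1 h⟩
  · exfalso
    obtain ⟨n, y, hy, halg⟩ := h E z t hz ht h2
    obtain ⟨q, a, M', μ, c, cD, G1, hram⟩ := hy
    obtain ⟨G', hG', hGx', hP⟩ := hram.picard hz.ne hz.gen halg
    have h3 : ∃ t ∈ ball (0 : ℂ) 1 \ {0}, MvPolynomial.eval (f t) G' ≠ 0 := by
      by_contra hcon
      push Not at hcon
      exact hGx' ((hiff G' hG').2 hcon)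
    exact hf.ess (hP f ⟨hf.hol, hf.ne, fun G hG hGz => (hiff G hG).1 hGz,
      fun t _ => ⟨(), by simp⟩⟩ h3)

/-- **Entire curves.** -/
theorem Hered.entire (h : Hered 2 x) {f : Fin (M + 1) → ℂ → ℂ} (hf : EntireCurve x f) :
    vanOn Set.univ (fun t i => f i t) ∈ lowCurves x := by
  have h1 := h.disc (disc_of_entire hf)
  have h2 : vanOn (ball (0 : ℂ) 1 \ {0}) (fun w i => f i (Complex.sin w⁻¹)) =
      vanOn Set.univ (fun t i => f i t) := by
    ext G
    constructor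
    · rintro ⟨hG, h⟩
      refine ⟨hG, fun t _ => ?_⟩
      obtain ⟨w, hw, hws⟩ := sin_point t
      have h3 := h w hw
      simp only [hws] at h3
      exact h3
    · rintro ⟨hG, h⟩
      exact ⟨hG, fun t _ => h _ (Set.mem_univ _)⟩
  rwa [h2] at h1

/-- **Special sets.** -/
theorem Hered.special (h : Hered 2 x) (hx : x ≠ 0) (hgen : coords ℂ x = ⊤) : SpecialSets x := by
  have hlow : S_low := Pool.Agent.Q24.SF.low_curve Pool.Agent.Q95.SF.wei Pool.Agent.Q111.SF.cls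
  obtain ⟨h1, h2⟩ := h.curves hx hgen
  exact
    { finite := h1
      entire := fun f hf => h.entire hf
      curves := fun V hV => curve_of_low hlow hV
      elliptic := fun V hV => ell_of_low hV
      mero := fun g u hu => mero_low2 (fun f hf => h.entire hf) h1 hu
      disc := fun f hf => h.disc hf
      sub := fun E _ _ w z hz hw ht => by
        rcases (by omega : w = 1 ∨ 2 ≤ w) with rfl | hw2
        · have hff : IsFF ℂ E := ⟨Pool.Agent.Q72.NA.ess_of_adjoin hz.gen, by rw [ht]; simp⟩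
          rcases le_or_gt (canDeg ℂ E) 0 with h3 | h3
          · right
            exact ⟨E, inferInstance, inferInstance, hff, z, SubOf.on hz, hz.gen, h3, rfl⟩
          · left
            exact gt_of_canDeg h3
        · exact Or.inl (h.gt (by norm_num) hz ht hw2)
      degree := h2 }

/-- **Hyperbolicity.** -/
theorem SpecialSets.tfae (h : SpecialSets x) :
    List.TFAE [KobayashiHyp x, BrodyHyp x, PicardHyp x, NoMero x, NoElliptic x, AlgHyp x,
      AllGeneral x, GeomHyp x, lowCurves x = ∅] :=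
  Pool.Agent.Q103.SF.tfae Pool.Agent.Q95.SF.wei Pool.Agent.Q239.SF.ptd Pool.Agent.Q239.SF.kob h

/-- **Varieties without low curves.** -/
theorem Hered.hyp (h : Hered 1 x) (hx : x ≠ 0) (hgen : coords ℂ x = ⊤) : lowCurves x = ∅ := by
  rw [Set.eq_empty_iff_forall_notMem]
  rintro V ⟨L, _, _, _, v, hv, hvgen, hc, rfl⟩
  have h1 := h.gt le_rfl (sub_of_on hv hvgen) (t := 1) (by
    rw [IsFF.trdeg (k := ℂ) (K := L)]
    simp) le_rfl
  have h2 := pos_of_gt h1
  omega

end Pool.Agent.H910.Cf
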