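import Pool.Agent.H910.Cf.Prj

/-!
Rational maps to hyperbolic varieties together with ramified maps to spaces of binary forms.
-/

set_option autoImplicit false
set_option linter.unusedSectionVars false
set_option linter.unusedVariables false
set_option linter.overlappingInstances false

open FF MvPolynomial Pool.Agent.W603.LV Pool.Agent.W603.PV
open Pool.Agent.W602.GT (val IsForm coords VarPts val_smul LogGeneralType GeneralType)
open Pool.Agent.W602.RG (HasValue PointedMaps PseudoGeomHyp)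
open Pool.Agent.H916
open Pool.Agent.Y216 (OnVar canDeg_ratFunc CurveBound)
open Pool.Agent.R882.HY (PseudoBounded)
open scoped LinearAlgebra.Projectivization

namespace Pool.Agent.H910.Cf

variable {k : Type} [Field k] [CharZero k] [IsAlgClosed k] {K : Type} [Field K] [Algebra k K]
  {M : ℕ} {x : Fin (M + 1) → K}

/-- bounds for the image of pointed maps and of rational curves -/
def PB (k : Type) {K : Type} [Field k] [Field K] [Algebra k K] {M N : ℕ}
    (x : Fin (M + 1) → K) (j0 : Fin (N + 1)) (H : Fin (N + 1) → MvPolynomial (Fin (M + 1)) k) :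
    Prop :=
  ∃ G : MvPolynomial (Fin (M + 1)) k, IsForm G ∧ val x G ≠ 0 ∧
    (∀ (L : Type) [Field L] [Algebra k L] [IsFF k L] (c : Place k L), ∀ p ∈ VarPts k x,
      val p G ≠ 0 → val p (H j0) ≠ 0 → ∃ D : ℤ, ∀ f : Fin (M + 1) → L, OnVar k x f →
        HasValue c p f → val f G ≠ 0 → aeval f (H j0) ≠ 0 →
          pht k (fun i => aeval f (H i)) ≤ D) ∧
    ∀ g : Fin (M + 1) → RatFunc k, OnVar k x g → val g G ≠ 0 → aeval g (H j0) ≠ 0 →
      pht k (fun i => aeval g (H i)) ≤ 0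

theorem pb_of_pgh {N : ℕ} {y : Fin (N + 1) → K} {j0 : Fin (N + 1)} {e : ℕ}
    {H : Fin (N + 1) → MvPolynomial (Fin (M + 1)) k} (hR : RatMap x y j0 e H)
    (h : PseudoGeomHyp k y) : PB k x j0 H := by
  classical
  obtain ⟨G', hG', hGy, hB⟩ := h
  refine ⟨aeval H G', isForm_comp hR.hom hG', fun h0 => hGy ((hR.val_iff hG').1 h0),
    fun L _ _ _ c p hp hpG hpH => ?_, fun g hg hgG hgj => ?_⟩
  · have hpon : OnVar k x p := ⟨Function.ne_iff.1 hp.1, hp.2⟩
    obtain ⟨q, hq⟩ : ∃ q : Fin (N + 1) → k, q = fun i => val p (H i) := ⟨_, rfl⟩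
    have hq1 := hR.on hpon hpH
    have hqV : q ∈ VarPts k y := by
      refine ⟨?_, fun F hF hFy => ?_⟩
      · rw [hq]
        exact Function.ne_iff.2 hq1.1
      · rw [hq]
        exact hq1.2 F hF hFy
    have hqG : val q G' ≠ 0 := by
      have h1 := val_comp p H G'
      rw [hq]
      intro h0
      apply hpG
      exact h1.trans h0
    have hfin := hB L c q hqV hqG
    let ht : ℙ L (Fin (N + 1) → L) → ℤ := fun φ => pht k φ.rep
    obtain ⟨D, hD⟩ := (hfin.image ht).bddAbove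
    refine ⟨D, fun f hf hv hfG h1 => ?_⟩
    have h2 := hR.on hf h1
    have h3 := hR.value hp.1 hf.1 hv hpH
    have hne : (fun i => aeval f (H i)) ≠ 0 := Function.ne_iff.2 h2.1
    have h4 : Projectivization.mk L (fun i => aeval f (H i)) hne ∈ PointedMaps y c q := by
      refine ⟨_, hne, h2.2, ?_, rfl⟩
      rw [hq]
      exact h3
    have h5 := hD ⟨_, h4, rfl⟩
    obtain ⟨a, ha⟩ := Projectivization.exists_smul_eq_mk_rep L _ hne
    have h6 : ht (Projectivization.mk L (fun i => aeval f (H i)) hne) =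
        pht k fun i => aeval f (H i) := by
      change pht k (Projectivization.mk L (fun i => aeval f (H i)) hne).rep = _
      rw [← ha]
      exact pht_scale h2.1 a.ne_zero
    rw [h6] at h5
    exact h5
  · exact no_rat (x := y) hG' (fun c q hq hqG => hB (RatFunc k) c q hq hqG) (hR.on hg hgj) (by
      rw [← val_comp]
      exact hgG)

theorem graph_of {N : ℕ} {y : Fin (N + 1) → K} {j0 : Fin (N + 1)} {e : ℕ}
    {H : Fin (N + 1) → MvPolynomial (Fin (M + 1)) k} (hR : RatMap x y j0 e H) {E : Type} [Field E]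
    [Algebra k E] {f : Fin (M + 1) → E} (hf : OnVar k x f) (h1 : aeval f (H j0) ≠ 0) :
    InClosure k x y f fun i => aeval f (H i) := by
  have hR' : RMap x y j0 e H := ⟨hR.hom, hR.ne, hR.ny, hR.eq⟩
  obtain ⟨b, hb⟩ := hf.1
  exact ⟨b, j0, hb, h1, (hR'.graph hf hb h1).2.2⟩

theorem pb_of_hb {N : ℕ} {y : Fin (N + 1) → K} {j0 : Fin (N + 1)} {e : ℕ}
    {H : Fin (N + 1) → MvPolynomial (Fin (M + 1)) k} (hR : RatMap x y j0 e H)
    (h : HB1 k x y) : PB k x j0 H := by
  obtain ⟨G, hG, hGx, A, hA⟩ := h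
  refine ⟨G, hG, hGx, fun L _ _ _ c p hp hpG hpH => ⟨A * max (canDeg k L) 0,
    fun f hf _ hfG h1 => hA L f _ (graph_of hR hf h1) hfG⟩, fun g hg hgG hgj => ?_⟩
  have h1 := hA (RatFunc k) g _ (graph_of hR hg hgj) hgG
  rw [canDeg_ratFunc] at h1
  have h10 : max (-2 : ℤ) 0 = 0 := by norm_num
  rw [h10, mul_zero] at h1
  exact h1

variable {r : ℕ} {N : Fin r → ℕ}

/-- **Pseudo-geometric hyperbolicity.** -/
theorem pgh_mixed (hx : x ≠ 0) (hgen : coords k x = ⊤)
    {y : ∀ l : Fin r, Fin (N l + 1) → K} (hy : ∀ l, y l ≠ 0)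
    (hfib : HypFibres (⨆ l, coords k (y l)))
    (h : ∀ l, PseudoGeomHyp k (y l) ∨ HB1 k x (y l)) : PseudoGeomHyp k x := by
  classical
  obtain ⟨j, e, H, hR, G, hGf, hGx, hGH, A, hA⟩ := exists_multi hx hgen hy hfib
  have hPB : ∀ l, PB k x (j l) (H l) := fun l => by
    rcases h l with h | h
    · exact pb_of_pgh (hR l) h
    · exact pb_of_hb (hR l) h
  choose G' hG'f hG'x hB hC using hPB
  have hGG' : IsForm (G * ∏ l, G' l) := isForm_mul hGf (isForm_prod hG'f)
  refine ⟨G * ∏ l, G' l, hGG', ?_, fun L _ _ _ c p hp hpG => ?_⟩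
  · rw [val_mul_ne, val_prod_ne]
    exact ⟨hGx, hG'x⟩
  · have hpG' := hpG
    rw [val_mul_ne, val_prod_ne] at hpG
    have hpon : OnVar k x p := ⟨Function.ne_iff.1 hp.1, hp.2⟩
    have hDl : ∀ l, ∃ D : ℤ, ∀ f : Fin (M + 1) → L, OnVar k x f → HasValue c p f →
        pht k (fun i => aeval f (H l i)) ≤ D := by
      intro l
      obtain ⟨D, hD⟩ := hB l L c p hp (hpG.2 l) (hGH k p hpon hpG.1 l)
      refine ⟨D, fun f hf hv => ?_⟩
      have hfG := value_ne hp.1 hf.1 hv hGG' hpG'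
      rw [val_mul_ne, val_prod_ne] at hfG
      exact hD f hf hv (hfG.2 l) (hGH L f hf hfG.1 l)
    choose D hD using hDl
    rcases finite_or_rat (L := L) (c := c) hp (A * (max (canDeg k L) 0 + ∑ l, D l))
      (fun f hf hv => by
        have hfG := value_ne hp.1 hf.1 hv hGG' hpG'
        rw [val_mul_ne, val_prod_ne] at hfG
        refine (hA L f hf hfG.1).trans ?_
        exact mul_le_mul_of_nonneg_left (add_le_add le_rfl
          (Finset.sum_le_sum fun l _ => hD l f hf hv)) (Int.natCast_nonneg _)) with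
      h1 | ⟨g, hg, hgF, hgpos⟩
    · exact h1
    · exfalso
      have h2 := hgF _ hGG' hpG'
      rw [val_mul_ne, val_prod_ne] at h2
      have h5 := hA (RatFunc k) g hg h2.1
      have h7 : ∀ l, pht k (fun i => aeval g (H l i)) ≤ 0 := fun l =>
        hC l g hg (h2.2 l) (hGH (RatFunc k) g hg h2.1 l)
      rw [canDeg_ratFunc] at h5
      have h8 : (A : ℤ) * (max (-2) 0 + ∑ l, pht k fun i => aeval g (H l i)) ≤ 0 := by
        have h9 : (0 : ℤ) ≤ A := Int.natCast_nonneg _
        have h10 : max (-2 : ℤ) 0 = 0 := by norm_num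
        rw [h10, zero_add]
        exact mul_nonpos_of_nonneg_of_nonpos h9 (Finset.sum_nonpos fun l _ => h7 l)
      omega

/-- **Bounds for every curve.** -/
theorem bounded_mixed (hx : x ≠ 0) (hgen : coords k x = ⊤)
    {y : ∀ l : Fin r, Fin (N l + 1) → K} (hy : ∀ l, y l ≠ 0)
    (hfib : HypFibres (⨆ l, coords k (y l)))
    (h : ∀ l, PseudoBounded k (y l) ∨ HB1 k x (y l)) : PseudoBounded k x := by
  classical
  obtain ⟨j, e, H, hR, G, hGf, hGx, hGH, A, hA⟩ := exists_multi hx hgen hy hfib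
  have hPB : ∀ l, ∃ G' : MvPolynomial (Fin (M + 1)) k, IsForm G' ∧ val x G' ≠ 0 ∧
      ∀ (L : Type) [Field L] [Algebra k L] [IsFF k L], ∃ D : ℤ, ∀ f : Fin (M + 1) → L,
        OnVar k x f → val f G' ≠ 0 → aeval f (H l (j l)) ≠ 0 →
          pht k (fun i => aeval f (H l i)) ≤ D := fun l => by
    rcases h l with ⟨G', hG', hGy, hB⟩ | ⟨G', hG', hGx, A, hA⟩
    · refine ⟨aeval (H l) G', isForm_comp (hR l).hom hG', fun h0 => hGy (((hR l).val_iff hG').1 h0),
        fun L _ _ _ => ?_⟩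
      obtain ⟨D, hD⟩ := hB L
      refine ⟨D, fun f hf hfG hfj => hD _ ((hR l).on hf hfj) (by
        rw [← val_comp]
        exact hfG)⟩
    · exact ⟨G', hG', hGx, fun L _ _ _ => ⟨A * max (canDeg k L) 0, fun f hf hfG hfj =>
        hA L f _ (graph_of (hR l) hf hfj) hfG⟩⟩
  choose G' hG'f hG'x hB using hPB
  refine ⟨G * ∏ l, G' l, isForm_mul hGf (isForm_prod hG'f), ?_, fun E _ _ _ => ?_⟩
  · rw [val_mul_ne, val_prod_ne]
    exact ⟨hGx, hG'x⟩
  · choose D hD using fun l => hB l E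
    refine ⟨A * (max (canDeg k E) 0 + ∑ l, D l), fun f hf hfG => ?_⟩
    rw [val_mul_ne, val_prod_ne] at hfG
    have h3 := hA E f hf hfG.1
    exact h3.trans (mul_le_mul_of_nonneg_left
      (add_le_add le_rfl (Finset.sum_le_sum fun l _ =>
        hD l f hf (hfG.2 l) (hGH E f hf hfG.1 l))) (Int.natCast_nonneg _))

/-- **Linear bounds.** -/
theorem curveBound_mixed (hx : x ≠ 0) (hgen : coords k x = ⊤)
    {y : ∀ l : Fin r, Fin (N l + 1) → K} (hy : ∀ l, y l ≠ 0)
    (hfib : HypFibres (⨆ l, coords k (y l)))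
    (h : ∀ l, CurveBound k (y l) ∨ HB1 k x (y l)) : CurveBound k x := by
  classical
  obtain ⟨j, e, H, hR, G, hGf, hGx, hGH, A, hA⟩ := exists_multi hx hgen hy hfib
  have hPB : ∀ l, ∃ G' : MvPolynomial (Fin (M + 1)) k, IsForm G' ∧ val x G' ≠ 0 ∧ ∃ B : ℕ,
      ∀ (L : Type) [Field L] [Algebra k L] [IsFF k L], ∀ f : Fin (M + 1) → L,
        OnVar k x f → val f G' ≠ 0 → aeval f (H l (j l)) ≠ 0 →
          pht k (fun i => aeval f (H l i)) ≤ B * max (canDeg k L) 0 := fun l => by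
    rcases h l with ⟨G', hG', hGy, B, hB⟩ | ⟨G', hG', hGx, A, hA⟩
    · exact ⟨aeval (H l) G', isForm_comp (hR l).hom hG',
        fun h0 => hGy (((hR l).val_iff hG').1 h0), B, fun L _ _ _ f hf hfG hfj =>
        hB L _ ((hR l).on hf hfj) (by
          rw [← val_comp]
          exact hfG)⟩
    · exact ⟨G', hG', hGx, A, fun L _ _ _ f hf hfG hfj =>
        hA L f _ (graph_of (hR l) hf hfj) hfG⟩
  choose G' hG'f hG'x B hB using hPB
  refine ⟨G * ∏ l, G' l, isForm_mul hGf (isForm_prod hG'f), ?_, A * (1 + ∑ l, B l),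
    fun E _ _ _ f hf hfG => ?_⟩
  · rw [val_mul_ne, val_prod_ne]
    exact ⟨hGx, hG'x⟩
  · rw [val_mul_ne, val_prod_ne] at hfG
    have h3 := hA E f hf hfG.1
    calc pht k f ≤ A * (max (canDeg k E) 0 + ∑ l, pht k fun i => aeval f (H l i)) := h3
      _ ≤ A * (max (canDeg k E) 0 + ∑ l, B l * max (canDeg k E) 0) :=
        mul_le_mul_of_nonneg_left (add_le_add le_rfl (Finset.sum_le_sum fun l _ =>
          hB l E f hf (hfG.2 l) (hGH E f hf hfG.1 l))) (Int.natCast_nonneg _)
      _ = ((A * (1 + ∑ l, B l) : ℕ) : ℤ) * max (canDeg k E) 0 := by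
        rw [← Finset.sum_mul]
        push_cast
        ring

end Pool.Agent.H910.Cf
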