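import Pool.Agent.H910.Cf.Ent

/-!
Several ramified maps.
-/

set_option autoImplicit false
set_option linter.unusedSectionVars false
set_option linter.unusedVariables false
set_option linter.overlappingInstances false

open Filter Topology Set Metric

namespace Pool.Agent.H910.Cf

open FF Pool.Agent.W603.BP Pool.Agent.W601.PH Pool.Agent.Y216 Pool.Agent.Y190.BV
  Pool.Agent.Y190.AN Pool.Agent.Y216.LG Pool.Agent.H910.Dsc Pool.Agent.W603.PV
open Pool.Agent.W602.GT (IsForm coords)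
open Pool.Agent.H916 (InClosure Meets RMap)
open Pool.Agent.H910.Vf (dsc_eq hyp dsc)

/-- several rational maps as one -/
theorem exists_comb {k K : Type} [Field k] [CharZero k] [IsAlgClosed k] [Field K] [Algebra k K]
    {M r : ℕ} {N : Fin r → ℕ} {x : Fin (M + 1) → K} (hx : x ≠ 0) (hgen : coords k x = ⊤)
    {y : ∀ l : Fin r, Fin (N l + 1) → K} (hy : ∀ l, y l ≠ 0) :
    ∃ (R : ℕ) (y' : Fin (R + 1) → K) (e : ℕ) (H' : Fin (R + 1) → MvPolynomial (Fin (M + 1)) k)
      (c : ∀ l, Fin (N l + 1) → Fin (R + 1)) (j : ∀ l, Fin (N l + 1)),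
      y' 0 ≠ 0 ∧ coords k y' = ⨆ l, coords k (y l) ∧ RMap x y' 0 e H' ∧
      (∀ l, RMap x (y l) (j l) e fun a => H' (c l a)) ∧
      (∀ l, MvPolynomial.aeval x (H' (c l (j l))) = MvPolynomial.aeval x (H' 0)) ∧
      ∀ s, s = 0 ∨ ∃ l a, s = c l a := by
  classical
  obtain ⟨i0, hi0⟩ := Function.ne_iff.1 hx
  have hi0 : x i0 ≠ 0 := hi0
  have hj : ∀ l, ∃ j, y l j ≠ 0 := fun l => Function.ne_iff.1 (hy l)
  choose j hj using hj
  let S : Type := Σ l : Fin r, Fin (N l + 1)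
  let v : S → K := fun s => y s.1 s.2 / y s.1 (j s.1)
  let c : S ≃ Fin (Fintype.card S) := Fintype.equivFin S
  let y' : Fin (Fintype.card S + 1) → K := Fin.cons 1 fun s => v (c.symm s)
  have hy'0 : y' 0 = 1 := rfl
  have hy's : ∀ s : S, y' (c s).succ = v s := fun s => by
    change v (c.symm (c s)) = v s
    rw [Equiv.symm_apply_apply]
  have hy'ne : y' 0 ≠ 0 := by
    rw [hy'0]
    exact one_ne_zero
  have hC : coords k y' = ⨆ l, coords k (y l) := by
    apply le_antisymm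
    · rw [Pool.Agent.H916.coords_eq hy'ne, IntermediateField.adjoin_le_iff]
      rintro _ ⟨a, rfl⟩
      refine Fin.cases ?_ (fun s => ?_) a
      · change y' 0 / y' 0 ∈ _
        rw [div_self hy'ne]
        exact one_mem _
      · change v (c.symm s) / 1 ∈ _
        rw [div_one]
        have h1 : coords k (y (c.symm s).1) ≤ ⨆ l, coords k (y l) :=
          le_iSup (fun l => coords k (y l)) _
        exact h1 (IntermediateField.subset_adjoin _ _ ⟨_, _, hj _, rfl⟩)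
    · refine iSup_le fun l => ?_
      rw [Pool.Agent.H916.coords_eq (hj l), Pool.Agent.H916.coords_eq hy'ne,
        IntermediateField.adjoin_le_iff]
      rintro _ ⟨a, rfl⟩
      refine IntermediateField.subset_adjoin _ _ ⟨(c ⟨l, a⟩).succ, ?_⟩
      change y' (c ⟨l, a⟩).succ / y' 0 = _
      rw [hy's, hy'0, div_one]
  obtain ⟨e, H', hH', hne, heq⟩ := Pool.Agent.H916.exists_forms (k := k) hi0 hy'ne
    (by rw [hgen]; exact le_top)
  have heq' : ∀ s : S, v s = MvPolynomial.aeval x (H' (c s).succ) / MvPolynomial.aeval x (H' 0) :=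
    fun s => by rw [← heq, hy's, hy'0, div_one]
  have hvj : ∀ l, v ⟨l, j l⟩ = 1 := fun l => div_self (hj l)
  have hHj : ∀ l, MvPolynomial.aeval x (H' (c ⟨l, j l⟩).succ) =
      MvPolynomial.aeval x (H' 0) := by
    intro l
    have h1 := heq' ⟨l, j l⟩
    rw [hvj, eq_comm, div_eq_iff hne, one_mul] at h1
    exact h1
  refine ⟨Fintype.card S, y', e, H', fun l a => (c ⟨l, a⟩).succ, j, hy'ne, hC,
    ⟨hH', hne, hy'ne, heq⟩, fun l => ⟨fun a => hH' _, ?_, hj l, fun a => ?_⟩, hHj, fun s => ?_⟩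
  · rw [hHj]
    exact hne
  · change v ⟨l, a⟩ = _
    rw [heq', hHj]
  · refine Fin.cases (Or.inl rfl) (fun s => Or.inr ?_) s
    exact ⟨(c.symm s).1, (c.symm s).2, by
      change s.succ = (c (c.symm s)).succ
      rw [Equiv.apply_symm_apply]⟩

variable {N r : ℕ} {K : Type} [Field K] [Algebra ℂ K] {x : Fin (N + 1) → K} {ι : Type}
  {Q : ι → MvPolynomial (Fin (N + 1)) ℂ} {n : Fin r → ℕ} {z : ∀ l, Fin (n l + 2) → K}

theorem Ram.ne {k : Type} [Field k] {K : Type} [Field K] [Algebra k K] {N : ℕ}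
    {x : Fin (N + 1) → K} {ι : Type} {Q : ι → MvPolynomial (Fin (N + 1)) k} {n : ℕ}
    [CharZero k] [IsAlgClosed k] {y : Fin (n + 2) → K} (h : Ram k x Q y) : y ≠ 0 := by
  obtain ⟨q, a, M', μ, c, cD, G1, h⟩ := h
  exact h.ney

theorem fin_isForm_prod {k : Type} [Field k] {M : ℕ} {r : ℕ}
    {G : Fin r → MvPolynomial (Fin (M + 1)) k} (hG : ∀ l, IsForm (G l)) : IsForm (∏ l, G l) :=
  Pool.Agent.H916.isForm_prod0 hG

/-- **Picard's theorem for several ramified maps.** -/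
theorem picard_multi (hx : x ≠ 0) (hgen : coords ℂ x = ⊤) (hz : ∀ l, Ram ℂ x Q (z l))
    (halg : Algebra.IsAlgebraic ↥(⨆ l, coords ℂ (z l)) K) :
    ∃ G : MvPolynomial (Fin (N + 1)) ℂ, IsForm G ∧ Pool.Agent.W602.GT.val x G ≠ 0 ∧
      PicardOff x Q G := by
  classical
  obtain ⟨R, y', e, H', c, j, hy', hC, hR', hRl, hj0, hs⟩ := exists_comb hx hgen
    (N := fun l => n l + 1) (y := z) fun l => (hz l).ne
  rw [← hC] at halg
  obtain ⟨G2, hG2, hG2x, halgf⟩ := alg_close hx hgen (fun h0 => hy' (congrFun h0 0)) halg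
  choose G3 hG3 hG3x hm using fun l => Ram.minf (hz l) (hRl l)
  refine ⟨G2 * H' 0 * ∏ l, G3 l, Pool.Agent.H916.isForm_mul0
    (Pool.Agent.H916.isForm_mul0 hG2 ⟨e, hR'.hom 0⟩) (fin_isForm_prod hG3), ?_, fun f hf => ?_⟩
  · rw [Pool.Agent.H916.val_mul_ne0, Pool.Agent.H916.val_mul_ne0, Pool.Agent.H916.val_prod_ne0]
    exact ⟨⟨hG2x, hR'.ne⟩, hG3x⟩
  rintro ⟨z0, hz0, hne⟩
  rw [map_mul, map_mul, map_prod] at hne
  have hne1 := left_ne_zero_of_mul hne
  have hne2 := right_ne_zero_of_mul hne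
  obtain ⟨ξ, hon, hpoly, hmeet, hval⟩ := exists_pt hf
  have hle : ∀ l, coords ℂ (fun i => MvPolynomial.aeval ξ (H' (c l i))) ≤ Minf 1 one_pos := by
    intro l
    obtain ⟨t, ht, htH, h1⟩ := hm l f hf ⟨z0, hz0, Finset.prod_ne_zero_iff.1 hne2 l
      (Finset.mem_univ l)⟩
    exact h1 ξ hon hpoly hmeet
  have hH0 : MvPolynomial.aeval ξ (H' 0) ≠ 0 := hpoly _ z0 hz0 (right_ne_zero_of_mul hne1)
  have hj : ∀ l, MvPolynomial.aeval ξ (H' (c l (j l))) = MvPolynomial.aeval ξ (H' 0) := by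
    intro l
    have h1 := hon.2 (H' (c l (j l)) - H' 0) ⟨e, (hR'.hom _).sub (hR'.hom _)⟩ (by
      unfold Pool.Agent.W602.GT.val
      rw [map_sub, hj0, sub_self])
    unfold Pool.Agent.W602.GT.val at h1
    rw [map_sub, sub_eq_zero] at h1
    exact h1
  have hco : coords ℂ (fun s => MvPolynomial.aeval ξ (H' s)) ≤ Minf 1 one_pos := by
    rw [Pool.Agent.H916.coords_eq (x := fun s => MvPolynomial.aeval ξ (H' s)) (i0 := 0) hH0,
      IntermediateField.adjoin_le_iff]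
    rintro _ ⟨s, rfl⟩
    rcases hs s with rfl | ⟨l, a, rfl⟩
    · change MvPolynomial.aeval ξ (H' 0) / MvPolynomial.aeval ξ (H' 0) ∈ _
      rw [div_self hH0]
      exact one_mem _
    · change MvPolynomial.aeval ξ (H' (c l a)) / MvPolynomial.aeval ξ (H' 0) ∈ _
      rw [← hj l]
      exact hle l (IntermediateField.subset_adjoin _ _ ⟨a, j l, by
        change MvPolynomial.aeval ξ (H' (c l (j l))) ≠ 0
        rw [hj]
        exact hH0, rfl⟩)
  obtain ⟨b, hb⟩ := hon.1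
  have hcl : InClosure ℂ x y' ξ fun s => MvPolynomial.aeval ξ (H' s) :=
    ⟨b, 0, hb, hH0, (hR'.graph hon hb hH0).2.2⟩
  have hG2ξ : Pool.Agent.W602.GT.val ξ G2 ≠ 0 := hpoly _ z0 hz0 (left_ne_zero_of_mul hne1)
  have hX : ∀ i, ∃ h : MeromorphicOn (fun z => f z⁻¹ i) (exD 1 one_pos).U,
      ξ i = cl (fun z => f z⁻¹ i) h := by
    intro i
    obtain ⟨h1, h2⟩ := hval (MvPolynomial.X i)
    simp only [MvPolynomial.aeval_X, MvPolynomial.eval_X] at h1 h2
    exact ⟨h1, h2⟩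
  choose hM hMx using hX
  have hfan : ∀ j, AnalyticOnNhd ℂ (fun z => f z j) (PB 1) := by
    intro i w hw
    exact (hf.hol i).analyticAt (disc_open.mem_nhds (mem_disc.mpr hw))
  refine extends_minf hfan (fun w hw => hf.ne w (mem_disc.mpr hw)) hM fun i j hj => ?_
  rw [← hMx] at hj
  rw [← hMx, ← hMx]
  apply Minf_closed
  have h4 := halgf _ ξ _ hcl hG2ξ i j hj
  obtain ⟨p, hp, hpz⟩ := h4
  refine ⟨p.map (IntermediateField.inclusion hco).toRingHom, ?_, ?_⟩
  · rw [Ne, Polynomial.map_eq_zero]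
    exact hp
  · rw [← hpz, Polynomial.aeval_def, Polynomial.eval₂_map, Polynomial.aeval_def]
    rfl

end Pool.Agent.H910.Cf
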