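import Pool.Agent.H910.Cf.Srf

/-!
Closed subsets of projective varieties and their irreducible components.
-/

set_option autoImplicit false
set_option linter.unusedSectionVars false
set_option linter.unusedVariables false
set_option linter.overlappingInstances false

namespace Pool.Agent.H910.Cf

open FF MvPolynomial
open Pool.Agent.W602.GT
open Pool.Agent.Y216 (OnVar)
open Pool.Agent.TH466.QG (SubOf)
open Pool.Agent.Q271.RC (IsGeneric)

section

variable {k L : Type} [Field k] [Field L] [Algebra k L] {M : ℕ}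

/-- the field of a point -/
theorem exists_sub {z : Fin (M + 1) → L} {j0 : Fin (M + 1)} (hz : z j0 ≠ 0) :
    ∃ (E : Type) (_ : Field E) (_ : Algebra k E) (φ : E →ₐ[k] L) (v : Fin (M + 1) → E),
      (∀ i, φ (v i) = z i / z j0) ∧ v j0 ≠ 0 ∧ coords k v = ⊤ ∧
        ∀ G : MvPolynomial (Fin (M + 1)) k, IsForm G → (val v G = 0 ↔ val z G = 0) := by
  classical
  let E := coords k z
  have hmem : ∀ i, z i / z j0 ∈ E := fun i =>
    IntermediateField.subset_adjoin _ _ ⟨i, j0, hz, rfl⟩
  let v : Fin (M + 1) → E := fun i => ⟨z i / z j0, hmem i⟩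
  have hvz : ∀ i, E.val (v i) = z i / z j0 := fun i => rfl
  have hvk : v j0 ≠ 0 := by
    intro h0
    have h1 := congrArg E.val h0
    rw [hvz, map_zero, div_self hz] at h1
    exact one_ne_zero h1
  refine ⟨E, inferInstance, inferInstance, E.val, v, hvz, hvk, ?_, ?_⟩
  · have h1 : (coords k v).map (IntermediateField.val E) = (⊤ : IntermediateField k E).map
        (IntermediateField.val E) := by
      have h2 : (⊤ : IntermediateField k E).map (IntermediateField.val E) = E := by
        rw [← AlgHom.fieldRange_eq_map, IntermediateField.fieldRange_val]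
      rw [h2]
      change (IntermediateField.adjoin k _).map _ = coords k z
      rw [IntermediateField.adjoin_map]
      unfold coords
      congr 1
      ext u
      constructor
      · rintro ⟨_, ⟨a, b, hb, rfl⟩, rfl⟩
        have hzb : z b ≠ 0 := by
          intro h0
          apply hb
          have h3 : E.val (v b) = E.val 0 := by rw [hvz, h0, zero_div, map_zero]
          exact E.val.toRingHom.injective h3
        refine ⟨a, b, hzb, ?_⟩
        change E.val (v a / v b) = _
        rw [map_div₀, hvz, hvz]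
        field_simp
      · rintro ⟨a, b, hb, rfl⟩
        refine ⟨v a / v b, ⟨a, b, ?_, rfl⟩, ?_⟩
        · intro h0
          have h1 := congrArg E.val h0
          rw [hvz, map_zero, div_eq_zero_iff] at h1
          exact h1.elim hb hz
        · change E.val (v a / v b) = _
          rw [map_div₀, hvz, hvz]
          field_simp
    exact IntermediateField.map_injective _ h1
  · rintro G ⟨d, hd⟩
    have h1 : E.val (val v G) = val (fun i => z i / z j0) G := by
      unfold Pool.Agent.W602.GT.val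
      rw [MvPolynomial.comp_aeval_apply]
      rfl
    have h2 : val z G = z j0 ^ d * val (fun i => z i / z j0) G := by
      rw [← val_smul hd (z j0)]
      congr 1
      funext i
      field_simp
    rw [h2, mul_eq_zero, or_iff_right (pow_ne_zero _ hz), ← h1, map_eq_zero]

/-- **Irreducible components.** -/
theorem exists_parts {K : Type} [Field K] [Algebra k K] (x : Fin (M + 1) → K)
    (G : MvPolynomial (Fin (M + 1)) k) (hG : IsForm G) :
    ∃ (ι : Type) (_ : Finite ι) (E : ι → Type) (_ : ∀ j, Field (E j)) (_ : ∀ j, Algebra k (E j))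
      (z : ∀ j, Fin (M + 1) → E j), (∀ j, OnVar k x (z j) ∧ coords k (z j) = ⊤ ∧
        val (z j) G = 0) ∧
      ∀ (L : Type) [Field L] [Algebra k L] (v : Fin (M + 1) → L), OnVar k x v → val v G = 0 →
        ∃ j, OnVar k (z j) v := by
  classical
  let J : Ideal (MvPolynomial (Fin (M + 1)) k) := Ideal.span ({H | IsForm H ∧ val x H = 0} ∪ {G})
  have hfin := Ideal.finite_minimalPrimes_of_isNoetherianRing (MvPolynomial (Fin (M + 1)) k) J
  let ι : Type := {q : Ideal (MvPolynomial (Fin (M + 1)) k) // q ∈ J.minimalPrimes ∧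
    ∃ i, X i ∉ q}
  have hι : Finite ι := by
    have h1 : {q : Ideal (MvPolynomial (Fin (M + 1)) k) | q ∈ J.minimalPrimes ∧
      ∃ i, X i ∉ q}.Finite := hfin.subset fun q hq => hq.1
    exact h1.to_subtype
  -- the points
  have hpt : ∀ q : ι, ∃ (E : Type) (_ : Field E) (_ : Algebra k E) (v : Fin (M + 1) → E),
      (∃ j, v j ≠ 0) ∧ coords k v = ⊤ ∧
        ∀ H : MvPolynomial (Fin (M + 1)) k, IsForm H → (val v H = 0 ↔ H ∈ q.1) := by
    rintro ⟨q, hq, i, hi⟩
    have hqp : q.IsPrime := hq.1.1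
    let F := FractionRing (MvPolynomial (Fin (M + 1)) k ⧸ q)
    let φ : MvPolynomial (Fin (M + 1)) k →ₐ[k] F :=
      (IsScalarTower.toAlgHom k (MvPolynomial (Fin (M + 1)) k ⧸ q) F).comp
        (Ideal.Quotient.mkₐ k q)
    have hφ : ∀ H, φ H = 0 ↔ H ∈ q := by
      intro H
      change algebraMap (MvPolynomial (Fin (M + 1)) k ⧸ q) F (Ideal.Quotient.mk q H) = 0 ↔ _
      rw [FaithfulSMul.algebraMap_eq_zero_iff, Ideal.Quotient.eq_zero_iff_mem]
    have hφv : ∀ H, val (fun j => φ (X j)) H = φ H := by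
      intro H
      unfold Pool.Agent.W602.GT.val
      exact (DFunLike.congr_fun (aeval_unique φ) H).symm
    have hzi : φ (X i) ≠ 0 := fun h => hi ((hφ _).1 h)
    obtain ⟨E, i1, i2, ψ, v, -, hv2, hv3, hv4⟩ := exists_sub (k := k)
      (z := fun j => φ (X j)) (j0 := i) hzi
    refine ⟨E, i1, i2, v, ⟨i, hv2⟩, hv3, fun H hH => ?_⟩
    rw [hv4 H hH, hφv, hφ]
  choose E i1 i2 z hz1 hz2 hz3 using hpt
  refine ⟨ι, hι, E, i1, i2, z, fun q => ⟨⟨hz1 q, fun H hH hHx => ?_⟩, hz2 q, ?_⟩,
    fun L _ _ v hv hvG => ?_⟩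
  · rw [hz3 q H hH]
    exact q.2.1.1.2 (Ideal.subset_span (Or.inl ⟨hH, hHx⟩))
  · rw [hz3 q G hG]
    exact q.2.1.1.2 (Ideal.subset_span (Or.inr rfl))
  · -- the cone over the point
    obtain ⟨j, hj⟩ := hv.1
    let T : RatFunc L := RatFunc.X
    have hT : T ≠ 0 := RatFunc.X_ne_zero
    let v' : Fin (M + 1) → RatFunc L := fun i => T * algebraMap L (RatFunc L) (v i)
    let I : Ideal (MvPolynomial (Fin (M + 1)) k) :=
      RingHom.ker (aeval v' : MvPolynomial (Fin (M + 1)) k →ₐ[k] RatFunc L).toRingHom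
    have hIp : I.IsPrime := RingHom.ker_isPrime _
    have hmem : ∀ H : MvPolynomial (Fin (M + 1)) k, IsForm H → (H ∈ I ↔ val v H = 0) := by
      rintro H ⟨d, hd⟩
      have h1 : val v' H = T ^ d * algebraMap L (RatFunc L) (val v H) := by
        have h2 : val v' H = T ^ d * val (fun i => algebraMap L (RatFunc L) (v i)) H :=
          val_smul hd T _
        rw [h2]
        congr 1
        unfold Pool.Agent.W602.GT.val
        exact aeval_algebraMap_apply _ _ _
      change val v' H = 0 ↔ _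
      rw [h1, mul_eq_zero, or_iff_right (pow_ne_zero _ hT), map_eq_zero]
    have hJI : J ≤ I := by
      rw [Ideal.span_le]
      rintro H (⟨hH, hHx⟩ | rfl)
      · exact (hmem H hH).2 (hv.2 H hH hHx)
      · exact (hmem _ hG).2 hvG
    obtain ⟨q, hq, hqI⟩ := Ideal.exists_minimalPrimes_le hJI
    have hXj : X j ∉ q := by
      intro h
      have h1 := (hmem (X j) ⟨1, isHomogeneous_X _ _⟩).1 (hqI h)
      unfold Pool.Agent.W602.GT.val at h1
      rw [aeval_X] at h1
      exact hj h1
    refine ⟨⟨q, hq, j, hXj⟩, ⟨j, hj⟩, fun H hH hHz => ?_⟩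
    rw [hz3 _ H hH] at hHz
    exact (hmem H hH).1 (hqI hHz)

end

/-- proper closed subsets have smaller dimension -/
theorem trdeg_lt {M d : ℕ} {K : Type} [Field K] [Algebra ℂ K] {x : Fin (M + 1) → K} (hx : x ≠ 0)
    (hgen : coords ℂ x = ⊤) (htr : Algebra.trdeg ℂ K = d) {G : MvPolynomial (Fin (M + 1)) ℂ}
    (hG : IsForm G) (hGx : val x G ≠ 0) {E : Type} [Field E] [Algebra ℂ E] {z : Fin (M + 1) → E}
    (hz : OnVar ℂ x z) (hzgen : coords ℂ z = ⊤) (hzG : val z G = 0) :
    ∃ t, t < d ∧ Algebra.trdeg ℂ E = (t : ℕ) := by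
  obtain ⟨t, ht⟩ := Pool.Agent.Q103.SF.exists_trdeg_of_gen hzgen
  have hbg : IsGeneric x := ⟨Function.ne_iff.1 hx, hgen⟩
  have hvg : IsGeneric z := ⟨hz.1, hzgen⟩
  have hpt : Pool.Agent.Q271.RC.IsPoint x z := fun G D hG hGx => hz.2 G ⟨D, hG⟩ hGx
  obtain ⟨ht2, hiso⟩ := Pool.Agent.Q96.OS.gen_point' hbg htr E z t hpt hvg ht
  refine ⟨t, lt_of_le_of_ne ht2 fun h2 => ?_, ht⟩
  obtain ⟨σ, l, hl, hvl, -⟩ := hiso h2
  obtain ⟨e, he⟩ := hG
  have h1 : val z G = l ^ e * σ (val x G) := by
    have h2 : z = fun i => l * (fun i => σ (x i)) i := funext hvl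
    have h3 : val (fun i => σ (x i)) G = σ (val x G) := by
      unfold Pool.Agent.W602.GT.val
      rw [MvPolynomial.comp_aeval_apply]
    rw [h2, val_smul he, h3]
  rw [hzG] at h1
  exact mul_ne_zero (pow_ne_zero _ hl) ((map_ne_zero σ).2 hGx) h1.symm

end Pool.Agent.H910.Cf
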