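import Pool.Agent.H910.Cf.Mix

/-!
Cyclic coverings of the Fermat coverings of the space of the binary forms, which are ramified over the
discriminant hypersurface.
-/

set_option autoImplicit false
set_option linter.unusedSectionVars false
set_option linter.unusedVariables false
set_option linter.overlappingInstances false

open FF MvPolynomial Pool.Agent.W603.LV Pool.Agent.W603.PV
open Pool.Agent.W602.GT (val IsForm coords val_smul LogGeneralType GeneralType)
open Pool.Agent.H916
open Pool.Agent.Y216 (OnVar)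
open Pool.Agent.H910.Vf

namespace Pool.Agent.H910.Cf

open Pool.Agent.Y216 Pool.Agent.H910.Dsc Pool.Agent.H910.Ff
open Pool.Agent.Y190.BV (cnt ct cnt_unique)
open Pool.Agent.Y216.LG (pol_ne)

variable {k : Type} [Field k] [CharZero k] [IsAlgClosed k] {n r m : ℕ} {a : Fin (r + 1) → k}
  {Y : Fin (n + 2) → MvPolynomial (Fin (r + 1)) k}

section pt

variable {E : Type} [Field E] [Algebra k E] {f : Fin (r + 2) → E}

theorem cyc_disc (hf : OnCyclic m a Y f) :
    aeval (fun j => aeval (fun l : Fin (r + 1) => f l.castSucc) (Y j)) (dsc k n) =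
      f (Fin.last (r + 1)) ^ (2 * n * m) := by
  have h3 := val_comp0 (fun l : Fin (r + 1) => f l.castSucc) Y (dsc k n)
  unfold Pool.Agent.W602.GT.val at h3
  rw [← h3]
  exact hf.2.2

/-- the order of the discriminant -/
theorem cyc_ord (ha : Function.Injective a) (hr : n + 1 ≤ r) (hn : 1 ≤ n) (hm : 1 ≤ m)
    (hf : OnCyclic m a Y f) (P : Place k E) :
    pord P (fun j => aeval (fun l : Fin (r + 1) => f l.castSucc) (Y j)) =
        m * pord P (fun l : Fin (r + 1) => f l.castSucc) ∧
      pord P f = pord P (fun l : Fin (r + 1) => f l.castSucc) ∧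
      contact (2 * n) (dsc k n)
        (fun j => aeval (fun l : Fin (r + 1) => f l.castSucc) (Y j)) P =
          2 * n * m * (P.ord (f (Fin.last (r + 1))) - pord P f) ∧
      pord P f ≤ P.ord (f (Fin.last (r + 1))) := by
  obtain ⟨h0, h1, h2⟩ := hf
  have hp := pow_pord ha hr (fun i => h0 i.castSucc) h1 P
  have hd := cyc_disc ⟨h0, h1, h2⟩
  have hne : aeval (fun j => aeval (fun l : Fin (r + 1) => f l.castSucc) (Y j)) (dsc k n) ≠ 0 := by
    rw [hd]
    exact pow_ne_zero _ (h0 _)
  have h3 := contact_nonneg (P := P) (dsc_hom k n) hne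
  have h4 : contact (2 * n) (dsc k n)
        (fun j => aeval (fun l : Fin (r + 1) => f l.castSucc) (Y j)) P =
      2 * n * m * (P.ord (f (Fin.last (r + 1))) -
        pord P (fun l : Fin (r + 1) => f l.castSucc)) := by
    unfold contact
    rw [hd, hp, P.ord_pow]
    push_cast
    ring
  rw [h4] at h3
  have h5 : (0 : ℤ) < 2 * n * m := by positivity
  have h6 : pord P (fun l : Fin (r + 1) => f l.castSucc) ≤ P.ord (f (Fin.last (r + 1))) := by
    have := nonneg_of_mul_nonneg_right h3 h5
    linarith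
  have h7 : pord P f = pord P (fun l : Fin (r + 1) => f l.castSucc) := by
    apply le_antisymm
    · obtain ⟨j, _, hj⟩ := exists_pord P (f := fun l : Fin (r + 1) => f l.castSucc)
        ⟨0, h0 _⟩
      rw [← hj]
      exact pord_le P (h0 _)
    · obtain ⟨j, hj0, hj⟩ := exists_pord P (f := f) ⟨0, h0 0⟩
      rw [← hj]
      refine Fin.lastCases ?_ (fun i => ?_) j
      · exact h6
      · exact pord_le P (f := fun l : Fin (r + 1) => f l.castSucc) (h0 i.castSucc)
  refine ⟨hp, h7, ?_, ?_⟩
  · rw [h4, h7]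
  · rw [h7]
    exact h6

/-- the ratios of the coordinates are algebraic over the field of the image -/
theorem cyc_key (hn : 1 ≤ n) (hm : 1 ≤ m) (hf : OnCyclic m a Y f) :
    ∀ j : Fin (r + 1), ∀ i, IsAlgebraic (coords k fun j =>
      aeval (fun l : Fin (r + 1) => f l.castSucc) (Y j)) (f i / f j.castSucc) := by
  obtain ⟨h0, h1, h2⟩ := hf
  obtain ⟨g, hg⟩ : ∃ g : Fin (n + 2) → E, g = fun j =>
    aeval (fun l : Fin (r + 1) => f l.castSucc) (Y j) := ⟨_, rfl⟩
  have hgh := pow_hyp h1
  have hgne : ∃ j, g j ≠ 0 := by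
    rw [hg]
    exact pow_ne (fun i => h0 i.castSucc) h1
  have hgd := cyc_disc ⟨h0, h1, h2⟩
  rw [← hg]
  simp only [← hg] at hgh hgd
  obtain ⟨b, hb⟩ := hgne
  have hh : ∀ i, aeval g (hyp k (n + 1) 1 (a i)) / g b ∈ coords k g := by
    intro i
    unfold hyp
    rw [map_sum, Finset.sum_div]
    refine sum_mem fun l _ => ?_
    rw [map_mul, aeval_C, aeval_X, mul_div_assoc]
    exact mul_mem (IntermediateField.algebraMap_mem _ _)
      (IntermediateField.subset_adjoin _ _ ⟨l, b, hb, rfl⟩)
  have hdd : aeval g (dsc k n) / g b ^ (2 * n) ∈ coords k g := by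
    have h3 := aeval_div (dsc_hom k n) (u := g) hb
    rw [← h3]
    have h4 : ∀ p : MvPolynomial (Fin (n + 2)) k, aeval (fun c => g c / g b) p ∈ coords k g := by
      intro p
      induction p using MvPolynomial.induction_on with
      | C c =>
        rw [aeval_C]
        exact IntermediateField.algebraMap_mem _ _
      | add p q hp hq =>
        rw [map_add]
        exact add_mem hp hq
      | mul_X p i hp =>
        rw [map_mul, aeval_X]
        exact mul_mem hp (IntermediateField.subset_adjoin _ _ ⟨i, b, hb, rfl⟩)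
    exact h4 _
  intro j i
  refine Fin.lastCases ?_ (fun i => ?_) i
  · refine IsAlgebraic.of_pow (n := 2 * n * m) (by positivity) ?_
    have h3 : (f (Fin.last (r + 1)) / f j.castSucc) ^ (2 * n * m) =
        (aeval g (dsc k n) / g b ^ (2 * n)) /
          (aeval g (hyp k (n + 1) 1 (a j)) / g b) ^ (2 * n) := by
      rw [hgd, hgh, div_pow, div_pow, div_div_div_cancel_right₀ (pow_ne_zero _ hb), ← pow_mul]
      congr 2
      ring
    rw [h3]
    exact isAlgebraic_algebraMap (⟨_, div_mem hdd (pow_mem (hh j) _)⟩ : coords k g)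
  · refine IsAlgebraic.of_pow hm ?_
    have h3 : (f i.castSucc / f j.castSucc) ^ m = (aeval g (hyp k (n + 1) 1 (a i)) / g b) /
        (aeval g (hyp k (n + 1) 1 (a j)) / g b) := by
      rw [hgh, hgh, div_pow, div_div_div_cancel_right₀ hb]
    rw [h3]
    exact isAlgebraic_algebraMap (⟨_, div_mem (hh i) (hh j)⟩ : coords k g)

/-- the coordinates are algebraic over the field of the image -/
theorem cyc_alg (hn : 1 ≤ n) (hm : 1 ≤ m) (hf : OnCyclic m a Y f) (hgen : coords k f = ⊤) :
    Algebra.IsAlgebraic (coords k fun j => aeval (fun l : Fin (r + 1) => f l.castSucc) (Y j)) E := by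
  have key := cyc_key hn hm hf
  obtain ⟨h0, h1, h2⟩ := hf
  obtain ⟨g, hg⟩ : ∃ g : Fin (n + 2) → E, g = fun j =>
    aeval (fun l : Fin (r + 1) => f l.castSucc) (Y j) := ⟨_, rfl⟩
  rw [← hg] at key ⊢
  have h6 : coords k f ≤ (algebraicClosure (coords k g) E).restrictScalars k := by
    unfold Pool.Agent.W602.GT.coords
    rw [IntermediateField.adjoin_le_iff]
    rintro _ ⟨i, j, hj, rfl⟩
    change f i / f j ∈ algebraicClosure (coords k g) E
    have h7 : f i / f j = (f i / f (0 : Fin (r + 1)).castSucc) /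
        (f j / f (0 : Fin (r + 1)).castSucc) := by
      rw [div_div_div_cancel_right₀ (h0 _)]
    rw [h7, mem_algebraicClosure_iff, div_eq_mul_inv]
    exact (key 0 i).mul (key 0 j).inv
  refine ⟨fun z => ?_⟩
  have hz : z ∈ coords k f := by
    rw [hgen]
    exact IntermediateField.mem_top
  exact mem_algebraicClosure_iff.1 (h6 hz)

/-- **General type.** -/
theorem cyc_gt (hm : n + r + 2 < m * (r - 1)) (ha : Function.Injective a) (hr : n + 1 ≤ r)
    (hn : 1 ≤ n) (hf : OnCyclic m a Y f) (hgen : coords k f = ⊤) {t : ℕ}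
    (htr : Algebra.trdeg k E = t) (ht : 1 ≤ t) : GeneralType k E t := by
  classical
  have hr1 : 2 ≤ r := by omega
  have hm0 : 1 ≤ m := by
    by_contra h
    have : m = 0 := by omega
    rw [this, zero_mul] at hm
    omega
  have halg := cyc_alg hn hm0 hf hgen
  have hord := fun P : Place k E => cyc_ord ha hr hn hm0 hf P
  have hgd := cyc_disc hf
  have hf' := hf
  obtain ⟨h0, h1, h2⟩ := hf'
  have hgh := pow_hyp h1
  have hgne := pow_ne (fun i => h0 i.castSucc) h1
  obtain ⟨g, hg⟩ : ∃ g : Fin (n + 2) → E, g = fun j =>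
    aeval (fun l : Fin (r + 1) => f l.castSucc) (Y j) := ⟨_, rfl⟩
  simp only [← hg] at hgh hgd hgne hord
  rw [← hg] at halg
  have hgne : ∃ j, g j ≠ 0 := by
    rw [hg]
    exact hgne
  have hg0 : g ≠ 0 := by
    obtain ⟨j, hj⟩ := hgne
    exact fun h0 => hj (congrFun h0 j)
  have hgd0 : aeval g (dsc k n) ≠ 0 := by
    rw [hgd]
    exact pow_ne_zero _ (h0 _)
  have hnum : (n + 1) * (∑ _i : Fin (r + 1), 0 + 2 * n * 1) + 2 * (2 * n * m) <
      ∑ _i : Fin (r + 1), (2 * n * (m - 1)) := by
    rw [Finset.sum_const, Finset.sum_const, Finset.card_univ, Fintype.card_fin]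
    simp only [smul_eq_mul, mul_zero, zero_add, mul_one]
    obtain ⟨r', rfl⟩ : ∃ r', r = r' + 2 := ⟨r - 2, by omega⟩
    obtain ⟨m', rfl⟩ : ∃ m', m = m' + 1 := ⟨m - 1, by omega⟩
    have e1 : r' + 2 - 1 = r' + 1 := by omega
    rw [e1] at hm
    rw [Nat.add_sub_cancel]
    have h4 : (n + 1) + 2 * (m' + 1) < (r' + 2 + 1) * m' := by nlinarith
    calc (n + 1) * (2 * n) + 2 * (2 * n * (m' + 1)) = 2 * n * ((n + 1) + 2 * (m' + 1)) := by ring
      _ < 2 * n * ((r' + 2 + 1) * m') := Nat.mul_lt_mul_of_pos_left h4 (by omega)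
      _ = (r' + 2 + 1) * (2 * n * m') := by ring
  refine gt_of_lgt (Bd := fun _ => False) (fun _ => not_false) (core_dsc (M := 2 * n * m)
    (μ := fun _ => 2 * n * (m - 1)) (c := fun _ => 0) (cD := 1) ht htr a ha
    (fun _ => Nat.mul_le_mul_left _ (Nat.sub_le _ _)) hnum (pol g) (pol_ne hg0)
    (natDegree_pol_le g)
    (by rw [← dsc_eq (F := k)]; exact hgd0) (alg_pol halg)
    (fun i => by rw [← hyp_ev, hgh]; exact pow_ne_zero _ (h0 _)) _ fun P _ hP => ?_)
  obtain ⟨hp1, hp2, hp3, hp4⟩ := hord P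
  have hdct : dct P n (pol g) = 2 * n * m * (P.ord (f (Fin.last (r + 1))) - pord P f) := by
    rw [← hp3]
    unfold contact dct
    rw [← dsc_eq (F := k), cnt_pol0 P hgne]
    push_cast
    ring
  have hct : ∀ i, ct P (pol g) (a i) = m * (P.ord (f i.castSucc) - pord P f) := by
    intro i
    unfold ct
    rw [← hyp_ev, hgh, P.ord_pow, cnt_pol0 P hgne, hp1, hp2]
    ring
  have hM0 : (0 : ℤ) ≤ 2 * n * m := by positivity
  rcases eq_or_lt_of_le hp4 with h4 | h4
  · left
    refine ⟨by rw [hdct, h4, sub_self, mul_zero], fun i => ?_⟩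
    rw [hct]
    have h2 := pord_le P (f := f) (h0 i.castSucc)
    rcases eq_or_lt_of_le h2 with h3 | h3
    · left
      rw [h3, sub_self, mul_zero]
    · right
      have h5 : (1 : ℤ) ≤ P.ord (f i.castSucc) - pord P f := by linarith
      have h6 : ((2 * n * m : ℕ) : ℤ) - ((2 * n * (m - 1) : ℕ) : ℤ) = 2 * n := by
        push_cast [Nat.cast_sub hm0]
        ring
      rw [h6]
      push_cast
      calc (2 * n * m : ℤ) = 2 * n * m * 1 := by ring
        _ ≤ 2 * n * m * (P.ord (f i.castSucc) - pord P f) := mul_le_mul_of_nonneg_left h5 hM0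
        _ = _ := by ring
  · right
    rw [hdct]
    have h5 : (1 : ℤ) ≤ P.ord (f (Fin.last (r + 1))) - pord P f := by linarith
    have h7 : (2 * n * m : ℤ) * 1 ≤ 2 * n * m * (P.ord (f (Fin.last (r + 1))) - pord P f) :=
      mul_le_mul_of_nonneg_left h5 hM0
    simp only [Nat.cast_zero, zero_mul, Finset.sum_const_zero, zero_add]
    push_cast
    linarith

end pt

/-- **Curves.** -/
theorem cyc_curve (hm : 1 ≤ m) (ha : Function.Injective a) (hr : n + 1 ≤ r) (hn : 1 ≤ n)
    {L : Type} [Field L] [Algebra k L] [IsFF k L] {f : Fin (r + 2) → L}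
    (hf : OnCyclic m a Y f) :
    ((m : ℤ) * (r - 1) - (n + r + 1)) * pht k f ≤ (n + 1) * max (canDeg k L) 0 := by
  classical
  have hord := fun P : Place k L => cyc_ord ha hr hn hm hf P
  have hgd := cyc_disc hf
  have hf' := hf
  obtain ⟨h0, h1, h2⟩ := hf'
  have hgh := pow_hyp h1
  have hgne := pow_ne (fun i => h0 i.castSucc) h1
  obtain ⟨g, hg⟩ : ∃ g : Fin (n + 2) → L, g = fun j =>
    aeval (fun l : Fin (r + 1) => f l.castSucc) (Y j) := ⟨_, rfl⟩
  simp only [← hg] at hgh hgd hgne hord
  have hgne : ∃ j, g j ≠ 0 := by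
    rw [hg]
    exact hgne
  have hgd0 : dsf n (pol g) ≠ 0 := by
    rw [← dsc_eq (F := k), hgd]
    exact pow_ne_zero _ (h0 _)
  obtain ⟨h00, huv⟩ := distinct_of_inj ha
  have hgv : ∀ i, vl 1 (a i) g = f i.castSucc ^ m := fun i => by
    rw [← hyp_eq (F := k), hgh]
  have hgv0 : ∀ i, vl 1 (a i) g ≠ 0 := fun i => by
    rw [hgv]
    exact pow_ne_zero _ (h0 _)
  obtain ⟨n', hn', h3⟩ := bound_log (u := fun _ => 1) (v := a) (m := 2 * m) (α := fun _ => 2)
    (β := 1) h00 huv hgne hgd0 hgv0 ∅ fun P _ => by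
      obtain ⟨hp1, hp2, hp3, hp4⟩ := hord P
      have hct : P.ord (dsf n (pol g)) - 2 * n * pord P g =
          2 * n * m * (P.ord (f (Fin.last (r + 1))) - pord P f) := by
        rw [← hp3]
        unfold contact
        rw [dsc_eq]
        push_cast
        ring
      have hz := zst_ge P hgne hgd0
      have hz' := zst_le P hgne
      have hmt : (2 * m : ℤ) * ((Pool.Agent.H910.Ff.mt (fun _ => 1) a P g).card : ℤ) ≤
          ∑ i, ((2 : ℕ) : ℤ) * (P.ord (vl 1 (a i) g) - pord P g) := by
        rw [Finset.card_eq_sum_ones]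
        push_cast
        rw [Finset.mul_sum]
        refine (Finset.sum_le_sum fun i hi => ?_).trans
          (Finset.sum_le_sum_of_subset_of_nonneg (Finset.subset_univ _) fun i _ _ => ?_)
        · unfold Pool.Agent.H910.Ff.mt at hi
          rw [Finset.mem_filter] at hi
          obtain ⟨-, -, h4⟩ := hi
          have h4 : pord P g < P.ord (vl 1 (a i) g) := h4
          rw [hgv, P.ord_pow, hp1, ← hp2] at h4
          have h5 : pord P f < P.ord (f i.castSucc) :=
            lt_of_mul_lt_mul_left h4 (Int.natCast_nonneg _)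
          change (2 * m : ℤ) * 1 ≤ 2 * (P.ord (vl 1 (a i) g) - pord P g)
          rw [hgv, P.ord_pow, hp1, ← hp2, ← mul_sub, ← mul_assoc]
          refine mul_le_mul_of_nonneg_left ?_ (by positivity)
          linarith
        · exact mul_nonneg (by norm_num) (sub_nonneg.2 (pord_nonneg_contact P (hgv0 i)))
      have hzt : (2 * m : ℤ) * ((n : ℤ) + 1 - (zst P g).ncard) ≤
          P.ord (dsf n (pol g)) - 2 * n * pord P g := by
        rcases eq_or_lt_of_le hp4 with h4 | h4
        · rw [hct, ← h4, sub_self, mul_zero] at hz ⊢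
          push_cast at hz
          have h5 : (n : ℤ) + 1 - (zst P g).ncard ≤ 0 := by omega
          exact mul_nonpos_of_nonneg_of_nonpos (by positivity) h5
        · have h5 : (1 : ℤ) ≤ P.ord (f (Fin.last (r + 1))) - pord P f := by linarith
          have h6 : (n : ℤ) + 1 - (zst P g).ncard ≤ n := by
            have h7 := zst_pos P hgne
            omega
          rw [hct]
          calc (2 * m : ℤ) * ((n : ℤ) + 1 - (zst P g).ncard) ≤ 2 * m * n :=
                mul_le_mul_of_nonneg_left h6 (by positivity)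
            _ = 2 * n * m * 1 := by ring
            _ ≤ _ := mul_le_mul_of_nonneg_left h5 (by positivity)
      push_cast at hmt ⊢
      linarith
  have hht : pht k g = m * pht k f := by
    unfold pht
    have e0 : ∀ P : Place k L, pord P g = m * pord P f := fun P => by
      obtain ⟨hp1, hp2, -, -⟩ := hord P
      rw [hp1, hp2]
    simp only [e0]
    have h2 : ∑ᶠ P : Place k L, (m : ℤ) * pord P f = m * ∑ᶠ P : Place k L, pord P f := by
      obtain ⟨T, hT⟩ := exists_supp (k := k) Finset.univ f
      have hs : ∀ P : Place k L, pord P f ≠ 0 → P ∈ T := by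
        intro P hP
        obtain ⟨j, _, hj⟩ := exists_pord P (f := f) ⟨0, h0 0⟩
        rw [← hj] at hP
        exact hT j (Finset.mem_univ _) P hP
      rw [finsum_eq_sum_of_support_subset (s := T) _ fun P hP =>
        Finset.mem_coe.2 (hs P (right_ne_zero_of_mul hP)),
        finsum_eq_sum_of_support_subset (s := T) _ fun P hP => Finset.mem_coe.2 (hs P hP),
        Finset.mul_sum]
    rw [h2]
    ring
  rw [hht] at h3
  have hm0 : (0 : ℤ) < 2 * m * m := by
    have : (0 : ℤ) < m := by exact_mod_cast hm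
    positivity
  have h4 : (2 * m : ℤ) * (((m : ℤ) * (r - 1) - (n + r + 1)) * pht k f) ≤
      2 * m * ((n + 1) * max (canDeg k L) 0) := by
    have h5 : (2 * m : ℤ) * n' * canDeg k L ≤ 2 * m * ((n + 1) * max (canDeg k L) 0) := by
      rw [mul_assoc]
      refine mul_le_mul_of_nonneg_left ?_ (by positivity)
      calc (n' : ℤ) * canDeg k L ≤ n' * max (canDeg k L) 0 :=
            mul_le_mul_of_nonneg_left (le_max_left _ _) (Int.natCast_nonneg _)
        _ ≤ (n + 1) * max (canDeg k L) 0 :=
            mul_le_mul_of_nonneg_right (by exact_mod_cast hn') (le_max_right _ _)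
    refine le_trans (le_of_eq ?_) (h3.trans (le_trans (le_of_eq ?_) h5))
    · push_cast
      rw [Finset.sum_const, Finset.card_univ, Fintype.card_fin, nsmul_eq_mul]
      push_cast
      ring
    · push_cast
      rw [Finset.card_empty, Nat.cast_zero, zero_add]
  exact le_of_mul_le_mul_left h4 (by
    have : (0 : ℤ) < m := by exact_mod_cast hm
    positivity)

end Pool.Agent.H910.Cf
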