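import Pool.Agent.H910.Cf.Gt

/-!
Holomorphic maps from the punctured disc, and entire curves.
-/

set_option autoImplicit false
set_option linter.unusedSectionVars false
set_option linter.unusedVariables false
set_option linter.overlappingInstances false

open Filter Topology Set Metric

namespace Pool.Agent.H910.Cf

open FF Pool.Agent.W603.BP Pool.Agent.W601.PH Pool.Agent.Y216 Pool.Agent.Y190.BV
  Pool.Agent.Y190.AN Pool.Agent.Y216.LG Pool.Agent.H910.Dsc Pool.Agent.W603.PV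
open Pool.Agent.W602.GT (IsForm coords)
open Pool.Agent.H916 (InClosure Meets RMap)
open Pool.Agent.H910.Vf (dsc_eq hyp dsc)

/-- `t ↦ (f t 0 : ... : f t N)` is a holomorphic map from the punctured unit disc to `X ∖ D`, where
`X` is the projective variety with the generic point `x` and `D` is given by the forms `Q i`. -/
structure PDisc {N : ℕ} {K : Type} [Field K] [Algebra ℂ K] (x : Fin (N + 1) → K) {ι : Type}
    (Q : ι → MvPolynomial (Fin (N + 1)) ℂ) (f : ℂ → Fin (N + 1) → ℂ) : Prop where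
  hol : ∀ i, DifferentiableOn ℂ (fun t => f t i) (ball 0 1 \ {0})
  ne : ∀ t ∈ ball (0 : ℂ) 1 \ {0}, f t ≠ 0
  mem : ∀ G : MvPolynomial (Fin (N + 1)) ℂ, IsForm G → Pool.Agent.W602.GT.val x G = 0 →
    ∀ t ∈ ball (0 : ℂ) 1 \ {0}, MvPolynomial.eval (f t) G = 0
  off : ∀ t ∈ ball (0 : ℂ) 1 \ {0}, ∃ i, MvPolynomial.eval (f t) (Q i) ≠ 0

/-- `t ↦ (f t 0 : ... : f t N)` is a nonconstant entire curve in `X ∖ D`. -/
structure Entire {N : ℕ} {K : Type} [Field K] [Algebra ℂ K] (x : Fin (N + 1) → K) {ι : Type}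
    (Q : ι → MvPolynomial (Fin (N + 1)) ℂ) (f : ℂ → Fin (N + 1) → ℂ) : Prop where
  hol : ∀ i, Differentiable ℂ fun t => f t i
  ne : ∀ t, f t ≠ 0
  mem : ∀ G : MvPolynomial (Fin (N + 1)) ℂ, IsForm G → Pool.Agent.W602.GT.val x G = 0 →
    ∀ t, MvPolynomial.eval (f t) G = 0
  off : ∀ t, ∃ i, MvPolynomial.eval (f t) (Q i) ≠ 0
  nonconst : ∃ s t, ∀ c : ℂ, f s ≠ c • f t

/-- The holomorphic maps from the punctured disc to `X ∖ D`, with image not contained in `G = 0`,
extend to holomorphic maps from the disc to `X`. -/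
def PicardOff {N : ℕ} {K : Type} [Field K] [Algebra ℂ K] (x : Fin (N + 1) → K) {ι : Type}
    (Q : ι → MvPolynomial (Fin (N + 1)) ℂ) (G : MvPolynomial (Fin (N + 1)) ℂ) : Prop :=
  ∀ f, PDisc x Q f → (∃ t ∈ ball (0 : ℂ) 1 \ {0}, MvPolynomial.eval (f t) G ≠ 0) → Extends f

/-- The nonconstant entire curves in `X ∖ D` are contained in `G = 0`. -/
def BrodyOff {N : ℕ} {K : Type} [Field K] [Algebra ℂ K] (x : Fin (N + 1) → K) {ι : Type}
    (Q : ι → MvPolynomial (Fin (N + 1)) ℂ) (G : MvPolynomial (Fin (N + 1)) ℂ) : Prop :=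
  ∀ f, Entire x Q f → ∀ t, MvPolynomial.eval (f t) G = 0

section

variable {N n q : ℕ} {K : Type} [Field K] [Algebra ℂ K] {x : Fin (N + 1) → K} {ι : Type}
  {Q : ι → MvPolynomial (Fin (N + 1)) ℂ}

/-- **Picard implies Brody.** -/
theorem PicardOff.brody {G : MvPolynomial (Fin (N + 1)) ℂ} (h : PicardOff x Q G) :
    BrodyOff x Q G := by
  intro f hf z
  by_contra hz
  obtain ⟨w, hw, hwz⟩ := sin_point z
  have hd : Differentiable ℂ f := differentiable_pi.2 hf.hol
  have e1 := h (fun w => f (Complex.sin w⁻¹)) ⟨fun i => differentiableOn_pi.1 (sin_diff hd) i,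
    fun t _ => hf.ne _, fun G hG hx t _ => hf.mem G hG hx _, fun t _ => hf.off _⟩
    ⟨w, hw, by simp only [hwz]; exact hz⟩
  obtain ⟨z1, z2, h12⟩ := hf.nonconst
  exact sin_not hd hf.ne ⟨z1, z2, h12⟩ e1

/-- the ratios of the coefficients of the image are meromorphic at infinity -/
theorem coeff_minf {g : Fin (n + 2) → MK (exD 1 one_pos)} {s : MK (exD 1 one_pos)}
    {H' : Polynomial (Minf 1 one_pos)} (hs : s ≠ 0)
    (hH' : pol g = Polynomial.C s * H'.map (algebraMap (Minf 1 one_pos) (MK (exD 1 one_pos)))) :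
    coords ℂ g ≤ Minf 1 one_pos := by
  unfold Pool.Agent.W602.GT.coords
  rw [IntermediateField.adjoin_le_iff]
  rintro _ ⟨i, j, hj, rfl⟩
  have hco : ∀ l : Fin (n + 2), g l =
      s * algebraMap (Minf 1 one_pos) (MK (exD 1 one_pos)) (H'.coeff (l : ℕ)) := by
    intro l
    have h1 := coeff_pol g l
    rw [hH', Polynomial.coeff_C_mul, Polynomial.coeff_map] at h1
    exact h1.symm
  rw [hco i, hco j, mul_div_mul_left _ _ hs, ← map_div₀]
  exact (H'.coeff (i : ℕ) / H'.coeff (j : ℕ) : Minf 1 one_pos).2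

/-- **Picard's theorem.** -/
theorem RamAt.picard {y : Fin (n + 2) → K} {a : Fin q → ℂ} {M : ℕ} {μ c : Fin q → ℕ} {cD : ℕ}
    {G : MvPolynomial (Fin (N + 1)) ℂ} (h : RamAt x Q y a M μ c cD G) (hx : x ≠ 0)
    (hgen : coords ℂ x = ⊤) (halg : Algebra.IsAlgebraic (coords ℂ y) K) :
    ∃ G' : MvPolynomial (Fin (N + 1)) ℂ, IsForm G' ∧ Pool.Agent.W602.GT.val x G' ≠ 0 ∧
      PicardOff x Q G' := by
  classical
  obtain ⟨e, H, G', hH, hG', hGx', hgood⟩ := h.good hx hgen halg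
  refine ⟨G', hG', hGx', fun f hf => ?_⟩
  rintro ⟨z0, hz0, hne⟩
  have hz0' := mem_disc.mp hz0
  have hfan : ∀ j, AnalyticOnNhd ℂ (fun z => f z j) (PB 1) := by
    intro i w hw
    exact (hf.hol i).analyticAt (disc_open.mem_nhds (mem_disc.mpr hw))
  have hinvE : ∀ z ∈ Ext 1, z⁻¹ ∈ PB 1 ∧ z ≠ 0 := by
    intro z hz
    have hz1 : 1 < ‖z‖ := hz
    have hz0 : z ≠ 0 := by
      rintro rfl
      rw [norm_zero] at hz1
      linarith
    exact ⟨⟨inv_ne_zero hz0, by rw [norm_inv]; exact inv_lt_one_of_one_lt₀ hz1⟩, hz0⟩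
  obtain ⟨F, hF⟩ : ∃ F : Fin (N + 1) → ℂ → ℂ, ∀ i z, F i z = f z⁻¹ i := ⟨_, fun _ _ => rfl⟩
  have hFan : ∀ s, ∀ z ∈ Ext 1, AnalyticAt ℂ (F s) z := by
    intro i z hz
    obtain ⟨h1, h2⟩ := hinvE z hz
    have h3 : F i = (fun w => f w i) ∘ fun z => z⁻¹ := by
      funext v
      exact hF i v
    rw [h3]
    exact (hfan i z⁻¹ h1).comp (g := fun w => f w i) (f := fun w : ℂ => w⁻¹) (analyticAt_inv h2)
  have hFM : ∀ s, MeromorphicOn (F s) (exD 1 one_pos).U := fun s z hz =>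
    (hFan s z hz).meromorphicAt
  obtain ⟨ξ, hξ⟩ : ∃ ξ : Fin (N + 1) → MK (exD 1 one_pos), ξ = fun j => cl (F j) (hFM _) :=
    ⟨_, rfl⟩
  have hval : ∀ P : MvPolynomial (Fin (N + 1)) ℂ, ∃ h : MeromorphicOn
      (fun z => MvPolynomial.eval (f z⁻¹) P) (exD 1 one_pos).U,
      MvPolynomial.aeval ξ P = cl (fun z => MvPolynomial.eval (f z⁻¹) P) h := by
    intro P
    have h1 := eval_mero' P hFM
    have h2 : (fun z => MvPolynomial.eval (fun i => F i z) P) =
        fun z => MvPolynomial.eval (f z⁻¹) P := by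
      funext z
      have h3 : (fun i => F i z) = f z⁻¹ := by
        funext i
        exact hF i z
      rw [h3]
    have h4 := aeval_cl P hFM h1
    simp only [h2] at h1 h4
    refine ⟨h1, ?_⟩
    rw [hξ]
    exact h4
  have hPan : ∀ P : MvPolynomial (Fin (N + 1)) ℂ, ∀ z ∈ Ext 1,
      AnalyticAt ℂ (fun z => MvPolynomial.eval (f z⁻¹) P) z := by
    intro P z hz
    have h2 : (fun z => MvPolynomial.eval (f z⁻¹) P) =
        fun z => MvPolynomial.eval (fun i => F i z) P := by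
      funext z
      have h3 : (fun i => F i z) = f z⁻¹ := by
        funext i
        exact hF i z
      rw [h3]
    rw [h2]
    simp only [MvPolynomial.eval_eq']
    apply Finset.analyticAt_fun_sum
    intro α _
    apply AnalyticAt.fun_mul analyticAt_const
    apply Finset.analyticAt_fun_prod
    intro s _
    exact (hFan s z hz).fun_pow _
  have hnz : ∀ (f : ℂ → ℂ) (hf : MeromorphicOn f (exD 1 one_pos).U), ∀ z ∈ Ext 1,
      AnalyticAt ℂ f z → f z ≠ 0 → cl f hf ≠ 0 := by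
    intro f hf z hz hfa hfz h0
    have h2 := (hfa.frequently_zero_iff_eventually_zero.1 (cl_eq_zero.1 h0 z hz).frequently)
    exact hfz h2.self_of_nhds
  have h0P : z0⁻¹ ∈ Ext 1 := inv_mem_ext hz0'
  -- the point over the field of meromorphic functions
  have hon : OnVar ℂ x ξ := by
    refine ⟨?_, fun P hP hPx => ?_⟩
    · obtain ⟨j, hj⟩ := Function.ne_iff.1 (hf.ne z0 hz0)
      refine ⟨j, ?_⟩
      rw [hξ]
      refine hnz _ (hFM j) _ h0P (hFan _ _ h0P) ?_
      rw [hF, inv_inv]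
      exact hj
    · obtain ⟨h1, h2⟩ := hval P
      unfold Pool.Agent.W602.GT.val
      rw [h2, cl_eq_zero]
      intro z hz
      filter_upwards [nhdsWithin_le_nhds ((Ext_open 1).mem_nhds hz)] with w hw
      exact hf.mem P hP hPx _ (mem_disc.mpr (hinvE w hw).1)
  have hpoly : ∀ P : MvPolynomial (Fin (N + 1)) ℂ, MvPolynomial.eval (f z0) P ≠ 0 →
      MvPolynomial.aeval ξ P ≠ 0 := by
    intro P hP
    obtain ⟨h2, h3⟩ := hval P
    rw [h3]
    refine hnz _ h2 _ h0P (hPan _ _ h0P) ?_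
    rw [inv_inv]
    exact hP
  obtain ⟨hcl, hG0, hgg, hal⟩ := hgood (MK (exD 1 one_pos)) ξ hon (hpoly G' hne)
  obtain ⟨g, hg⟩ : ∃ g : Fin (n + 2) → MK (exD 1 one_pos), g = fun j =>
    MvPolynomial.aeval ξ (H j) := ⟨_, rfl⟩
  rw [← hg] at hcl hgg hal
  -- the places
  have hmeet : ∀ (z : ℂ) (hz : z ∈ (exD 1 one_pos).U), ¬ Meets Q ξ (PL hz) := by
    intro z hz hM
    have hz' : z⁻¹ ∈ PB 1 := (hinvE z hz).1
    obtain ⟨i, hi⟩ := hf.off z⁻¹ (mem_disc.mpr hz')
    obtain ⟨j, hj⟩ := Function.ne_iff.1 (hf.ne z⁻¹ (mem_disc.mpr hz'))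
    have hord : ∀ (f : ℂ → ℂ) (hf : MeromorphicOn f (exD 1 one_pos).U), AnalyticAt ℂ f z →
        f z ≠ 0 → (PL hz).ord (cl f hf) = 0 := by
      intro f hf hfa hfz
      have h1 : analyticOrderAt f z = ((0 : ℕ) : ℕ∞) := by
        rw [Nat.cast_zero, hfa.analyticOrderAt_eq_zero]
        exact hfz
      have := ord_cl (hg := hf) hz hfa h1
      exact_mod_cast this
    have hfj : F j z ≠ 0 := by
      rw [hF]
      exact hj
    have hp : pord (PL hz) ξ = 0 := by
      apply le_antisymm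
      · have h1 : ξ j ≠ 0 := by
          rw [hξ]
          exact hnz _ (hFM j) z hz (hFan j z hz) hfj
        have h2 := pord_le (PL hz) h1
        rw [hξ] at h2 ⊢
        rwa [hord _ (hFM j) (hFan j z hz) hfj] at h2
      · obtain ⟨l, hl, hlo⟩ := exists_pord (PL hz) hon.1
        rw [← hlo]
        rw [hξ] at hl ⊢
        exact (ge_cl (hg := hFM l) hz (hFan l z hz)).resolve_left hl
    obtain ⟨h1, h2⟩ := hval (Q i)
    rcases hM i with h3 | h3
    · rw [h2] at h3
      exact hnz _ h1 z hz (hPan (Q i) z hz) hi h3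
    · rw [h2, hp, mul_zero, hord _ h1 (hPan (Q i) z hz) hi] at h3
      exact lt_irrefl _ h3
  have hg0 : g ≠ 0 := by
    obtain ⟨j, hj⟩ := (Pool.Agent.H910.Vf.closure_on' hcl).1
    exact fun h0 => hj (congrFun h0 j)
  obtain ⟨s, H', hs, hH'⟩ := an_dsc (r0 := 1) (hr0 := one_pos) h.inj h.num.le h.num.bound
    (pol_ne hg0) (natDegree_pol_le g) (by rw [← dsc_eq (F := ℂ)]; exact hgg.1)
    (fun i => by rw [← hyp_ev]; exact hgg.2 i) fun z hz => h.disC hcl hG0 hgg (hmeet z hz)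
  have hle := coeff_minf hs hH'
  refine extends_minf hfan (fun w hw => hf.ne w (mem_disc.mpr hw)) (fun i => ?_) fun i j hj => ?_
  · have h3 : (fun z => f z⁻¹ i) = F i := by
      funext z
      exact (hF i z).symm
    rw [h3]
    exact hFM i
  · have h3 : ∀ i (h : MeromorphicOn (fun z => f z⁻¹ i) (exD 1 one_pos).U),
        cl (fun z => f z⁻¹ i) h = ξ i := by
      intro i h
      rw [hξ]
      change cl _ _ = cl (F i) _
      congr 1
      funext z
      exact (hF i z).symm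
    rw [h3] at hj
    rw [h3, h3]
    apply Minf_closed
    have h4 := hal i j hj
    obtain ⟨p, hp, hpz⟩ := h4
    refine ⟨p.map (IntermediateField.inclusion hle).toRingHom, ?_, ?_⟩
    · rw [Ne, Polynomial.map_eq_zero]
      exact hp
    · rw [← hpz, Polynomial.aeval_def, Polynomial.eval₂_map, Polynomial.aeval_def]
      rfl

end

end Pool.Agent.H910.Cf
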