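import Pool.Agent.H910.Cf.Fib
import Pool.Agent.H910.Cf.Par

/-!
General position.
-/

set_option autoImplicit false
set_option linter.unusedSectionVars false
set_option linter.unusedVariables false
set_option linter.overlappingInstances false

open FF MvPolynomial Pool.Agent.W603.LV Pool.Agent.W603.PV
open Pool.Agent.W602.GT (val IsForm coords val_smul LogGeneralType GeneralType)
open Pool.Agent.H916
open Pool.Agent.Y216 (OnVar)
open Pool.Agent.H910.Vf

namespace Pool.Agent.H910.Cf

/-- the dimension of a closed subvariety of `P^N` is at most `N` -/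
theorem trdeg_le_dim {k E : Type} [Field k] [Field E] [Algebra k E] {N t : ℕ}
    {v : Fin (N + 1) → E} (hv : v ≠ 0) (hgen : coords k v = ⊤) (ht : Algebra.trdeg k E = t) :
    t ≤ N := by
  classical
  obtain ⟨i0, hi0⟩ := Function.ne_iff.1 hv
  have hi0 : v i0 ≠ 0 := hi0
  let s : Set E := Set.range fun i : {i : Fin (N + 1) // i ≠ i0} => v i.1 / v i0
  have h1 : coords k v ≤ IntermediateField.adjoin k s := by
    rw [coords_eq hi0, IntermediateField.adjoin_le_iff]
    rintro _ ⟨i, rfl⟩
    by_cases hi : i = i0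
    · subst hi
      change v i / v i ∈ _
      rw [div_self hi0]
      exact one_mem _
    · exact IntermediateField.subset_adjoin _ _ ⟨⟨i, hi⟩, rfl⟩
  have h2 : Algebra.IsAlgebraic (IntermediateField.adjoin k s) E := by
    refine ⟨fun z => ?_⟩
    have h3 : z ∈ IntermediateField.adjoin k s := h1 (by
      rw [hgen]
      exact IntermediateField.mem_top)
    exact isAlgebraic_algebraMap (⟨z, h3⟩ : IntermediateField.adjoin k s)
  have h3 : Algebra.IsAlgebraic (Algebra.adjoin k s) E :=
    IntermediateField.isAlgebraic_adjoin_iff_top.1 h2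
  have h4 : Algebra.trdeg k E ≤ Cardinal.mk s := Algebra.IsAlgebraic.trdeg_le_cardinalMk k s
  have h5 : Cardinal.mk s ≤ (N : Cardinal) := by
    refine Cardinal.mk_range_le.trans ?_
    rw [Cardinal.mk_fintype, Fintype.card_subtype_compl, Fintype.card_fin,
      Fintype.card_subtype_eq]
    simp
  rw [ht] at h4
  exact_mod_cast h4.trans h5

section mat

variable {k : Type} [Field k] [Infinite k] {N : ℕ}

/-- the values of the parameter which are roots -/
theorem fin_bad {E : Type} [Field E] [Algebra k E] {p : Polynomial E} (hp : p ≠ 0) :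
    {c : k | p.eval (algebraMap k E c) = 0}.Finite := by
  classical
  refine Set.Finite.of_finite_image (f := algebraMap k E) ?_ (algebraMap k E).injective.injOn
  refine (p.roots.toFinset.finite_toSet).subset ?_
  rintro _ ⟨c, hc, rfl⟩
  simp only [Finset.mem_coe, Multiset.mem_toFinset]
  exact (Polynomial.mem_roots hp).2 hc

/-- **General matrices.** -/
theorem exists_mat {ι : Type} [Finite ι] {E : ι → Type} [∀ j, Field (E j)]
    [∀ j, Algebra k (E j)] {z : ∀ j, Fin (N + 1) → E j} (hz : ∀ j, z j ≠ 0)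
    {B : MvPolynomial (Fin (N + 1)) k} {d : ℕ} (hB : B.IsHomogeneous d) {u : Fin (N + 1) → k}
    (hu : aeval u B ≠ 0) :
    ∃ σ : Matrix (Fin (N + 1)) (Fin (N + 1)) k, σ.det ≠ 0 ∧
      ∀ j, aeval (lin σ (z j)) B ≠ 0 := by
  classical
  -- the linear form
  let p : ∀ j, Polynomial (E j) := fun j =>
    ∑ i : Fin (N + 1), Polynomial.C (z j i) * Polynomial.X ^ (i : ℕ)
  have hp : ∀ j, p j ≠ 0 := by
    intro j h0
    obtain ⟨i, hi⟩ := Function.ne_iff.1 (hz j)
    apply hi
    have h1 : (p j).coeff (i : ℕ) = z j i := by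
      change (∑ i : Fin (N + 1), Polynomial.C (z j i) * Polynomial.X ^ (i : ℕ)).coeff (i : ℕ) = _
      rw [Polynomial.finsetSum_coeff, Finset.sum_eq_single i]
      · rw [Polynomial.coeff_C_mul_X_pow, if_pos rfl]
      · intro b _ hb
        rw [Polynomial.coeff_C_mul_X_pow, if_neg]
        intro h
        exact hb (Fin.ext h.symm)
      · intro h
        exact (h (Finset.mem_univ i)).elim
    rw [← h1, h0, Polynomial.coeff_zero]
    rfl
  obtain ⟨T, hT⟩ := ((Set.finite_iUnion fun j => fin_bad (k := k) (hp j))).infinite_compl.nonempty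
  have hT' : ∀ j, (∑ i : Fin (N + 1), algebraMap k (E j) (T ^ (i : ℕ)) * z j i) ≠ 0 := by
    intro j h0
    apply hT
    refine Set.mem_iUnion.2 ⟨j, ?_⟩
    change (∑ i : Fin (N + 1), Polynomial.C (z j i) * Polynomial.X ^ (i : ℕ)).eval _ = 0
    rw [Polynomial.eval_finsetSum, ← h0]
    refine Finset.sum_congr rfl fun i _ => ?_
    rw [Polynomial.eval_mul, Polynomial.eval_C, Polynomial.eval_pow, Polynomial.eval_X, map_pow,
      mul_comm]
  -- the parameter
  let S : ∀ j, E j := fun j => ∑ i : Fin (N + 1), algebraMap k (E j) (T ^ (i : ℕ)) * z j i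
  let q : ∀ j, Polynomial (E j) := fun j =>
    aeval (fun i => Polynomial.C (algebraMap k (E j) (u i) * S j) +
      Polynomial.X * Polynomial.C (z j i)) B
  have hqe : ∀ j (c : E j), (q j).eval c =
      aeval (fun i => algebraMap k (E j) (u i) * S j + c * z j i) B := by
    intro j c
    have h1 : (q j).eval c = Polynomial.aeval c (q j) := (Polynomial.coe_aeval_eq_eval c ▸ rfl)
    have h2 : ((Polynomial.aeval c : Polynomial (E j) →ₐ[E j] E j).restrictScalars k) (q j) =
        aeval (fun i => ((Polynomial.aeval c : Polynomial (E j) →ₐ[E j] E j).restrictScalars k)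
          (Polynomial.C (algebraMap k (E j) (u i) * S j) +
            Polynomial.X * Polynomial.C (z j i))) B := by
      rw [MvPolynomial.comp_aeval_apply]
    rw [h1]
    change ((Polynomial.aeval c : Polynomial (E j) →ₐ[E j] E j).restrictScalars k) (q j) = _
    rw [h2]
    congr 2
    funext i
    simp only [AlgHom.restrictScalars_apply, map_add, map_mul, Polynomial.aeval_C,
      Polynomial.aeval_X, Algebra.algebraMap_self, RingHom.id_apply]
  have hq : ∀ j, q j ≠ 0 := by
    intro j h0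
    have h1 := hqe j 0
    rw [h0, Polynomial.eval_zero] at h1
    have h2 : (fun i => algebraMap k (E j) (u i) * S j + 0 * z j i) =
        fun i => S j * algebraMap k (E j) (u i) := by
      funext i
      ring
    rw [h2] at h1
    have h3 : aeval (fun i => S j * algebraMap k (E j) (u i)) B =
        S j ^ d * aeval (fun i => algebraMap k (E j) (u i)) B := val_smul hB _ _
    have h4 : aeval (fun i => algebraMap k (E j) (u i)) B = algebraMap k (E j) (aeval u B) :=
      aeval_algebraMap_apply _ _ _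
    rw [h3, h4] at h1
    exact mul_ne_zero (pow_ne_zero _ (hT' j)) ((map_ne_zero _).2 hu) h1.symm
  let D : Matrix (Fin (N + 1)) (Fin (N + 1)) k := Matrix.of fun i j => - (u i * T ^ (j : ℕ))
  have hdet : {c : k | D.charpoly.eval c = 0}.Finite :=
    fin_bad (k := k) (E := k) (Matrix.charpoly_monic D).ne_zero
  obtain ⟨c, hc⟩ := ((Set.finite_iUnion fun j => fin_bad (k := k) (hq j)).union
    hdet).infinite_compl.nonempty
  have hc1 : ∀ j, (q j).eval (algebraMap k (E j) c) ≠ 0 := fun j h0 =>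
    hc (Or.inl (Set.mem_iUnion.2 ⟨j, h0⟩))
  have hc2 : D.charpoly.eval c ≠ 0 := fun h0 => hc (Or.inr h0)
  refine ⟨Matrix.scalar (Fin (N + 1)) c - D, ?_, fun j => ?_⟩
  · rw [Matrix.eval_charpoly] at hc2
    exact hc2
  · have h1 := hc1 j
    rw [hqe] at h1
    have h2 : lin (Matrix.scalar (Fin (N + 1)) c - D) (z j) =
        fun i => algebraMap k (E j) (u i) * S j + algebraMap k (E j) c * z j i := by
      funext i
      unfold lin
      have h3 : ∀ l : Fin (N + 1), algebraMap k (E j) ((Matrix.scalar (Fin (N + 1)) c - D) i l) *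
          z j l = algebraMap k (E j) (u i) * (algebraMap k (E j) (T ^ (l : ℕ)) * z j l) +
            (if i = l then algebraMap k (E j) c * z j l else 0) := by
        intro l
        have h4 : (Matrix.scalar (Fin (N + 1)) c - D) i l =
            (if i = l then c else 0) + u i * T ^ (l : ℕ) := by
          rw [Matrix.sub_apply, Matrix.scalar_apply, Matrix.diagonal_apply]
          change _ - - (u i * T ^ (l : ℕ)) = _
          ring
        rw [h4, map_add, map_mul]
        split_ifs
        · ring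
        · rw [map_zero]
          ring
      rw [Finset.sum_congr rfl fun l _ => h3 l, Finset.sum_add_distrib, ← Finset.mul_sum,
        Finset.sum_ite_eq, if_pos (Finset.mem_univ i)]
    rw [h2]
    exact h1

end mat

/-- the generic point of the projective space -/
theorem exists_gen (N : ℕ) : ∃ (E : Type) (_ : Field E) (_ : Algebra ℂ E) (z : Fin (N + 1) → E),
    z ≠ 0 ∧ coords ℂ z = ⊤ ∧ ∀ G : MvPolynomial (Fin (N + 1)) ℂ, IsForm G → val z G = 0 →
      G = 0 := by
  let L := FractionRing (MvPolynomial (Fin (N + 1)) ℂ)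
  have h0 : algebraMap (MvPolynomial (Fin (N + 1)) ℂ) L (X 0) ≠ 0 := by
    rw [Ne, FaithfulSMul.algebraMap_eq_zero_iff]
    exact X_ne_zero 0
  obtain ⟨E, i1, i2, φ, v, hv1, hv2, hv3, hv4⟩ := exists_sub (k := ℂ)
    (z := fun i => algebraMap (MvPolynomial (Fin (N + 1)) ℂ) L (X i)) (j0 := 0) h0
  refine ⟨E, i1, i2, v, fun h => hv2 (congrFun h 0), hv3, fun G hG hGv => ?_⟩
  rw [hv4 G hG] at hGv
  have h1 : val (fun i => algebraMap (MvPolynomial (Fin (N + 1)) ℂ) L (X i)) G =
      algebraMap (MvPolynomial (Fin (N + 1)) ℂ) L G := by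
    unfold Pool.Agent.W602.GT.val
    have h2 := aeval_algebraMap_apply (R := ℂ) L (X : Fin (N + 1) → MvPolynomial (Fin (N + 1)) ℂ) G
    rw [aeval_X_left_apply] at h2
    exact h2
  rw [h1, FaithfulSMul.algebraMap_eq_zero_iff] at hGv
  exact hGv

/-- **Intersections of general translates of a hypersurface.** -/
theorem exists_general {N d : ℕ} {B : MvPolynomial (Fin (N + 1)) ℂ} (hB : B.IsHomogeneous d)
    {u : Fin (N + 1) → ℂ} (hu : aeval u B ≠ 0) (c : ℕ) :
    ∃ σ : Fin c → Matrix (Fin (N + 1)) (Fin (N + 1)) ℂ, (∀ l, (σ l).det ≠ 0) ∧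
      ∃ (ι : Type) (_ : Finite ι) (E : ι → Type) (_ : ∀ j, Field (E j))
        (_ : ∀ j, Algebra ℂ (E j)) (z : ∀ j, Fin (N + 1) → E j),
        (∀ j, z j ≠ 0 ∧ coords ℂ (z j) = ⊤ ∧ ∃ t : ℕ, Algebra.trdeg ℂ (E j) = t ∧ t + c ≤ N) ∧
        ∀ (L : Type) [Field L] [Algebra ℂ L] (v : Fin (N + 1) → L), v ≠ 0 →
          (∀ l, aeval (lin (σ l) v) B = 0) → ∃ j, OnVar ℂ (z j) v := by
  classical
  induction c with
  | zero =>
    obtain ⟨E, i1, i2, z, hz1, hz2, hz3⟩ := exists_gen N
    obtain ⟨t, ht⟩ := Pool.Agent.Q103.SF.exists_trdeg_of_gen hz2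
    refine ⟨fun l => l.elim0, fun l => l.elim0, Unit, inferInstance, fun _ => E, fun _ => i1,
      fun _ => i2, fun _ => z, fun _ => ⟨hz1, hz2, t, ht, ?_⟩, fun L _ _ v hv _ =>
        ⟨(), Function.ne_iff.1 hv, fun G hG hGz => ?_⟩⟩
    · rw [add_zero]
      exact trdeg_le_dim hz1 hz2 ht
    · rw [hz3 G hG hGz]
      unfold Pool.Agent.W602.GT.val
      rw [map_zero]
  | succ c ih =>
    obtain ⟨σ, hσ, ι, hι, E, i1, i2, z, hz, hall⟩ := ih
    obtain ⟨τ, hτ, hτz⟩ := exists_mat (fun j => (hz j).1) hB hu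
    let G : MvPolynomial (Fin (N + 1)) ℂ := aeval (lf τ id) B
    have hG : IsForm G := by
      have h1 := hB.aeval (lf τ (id : Fin (N + 1) → Fin (N + 1))) fun i => lf_hom τ id i
      exact ⟨_, h1⟩
    have hGv : ∀ (L : Type) [Field L] [Algebra ℂ L] (v : Fin (N + 1) → L),
        val v G = aeval (lin τ v) B := by
      intro L _ _ v
      rw [val_comp0]
      unfold Pool.Agent.W602.GT.val
      congr 2
      funext i
      rw [aeval_lf]
      rfl
    have hparts := fun j => exists_parts (k := ℂ) (z j) G hG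
    choose ι' hι' E' i1' i2' z' hz' hall' using hparts
    refine ⟨Fin.cons τ σ, fun l => ?_, Σ j, ι' j, inferInstance, fun j => E' j.1 j.2,
      fun j => i1' j.1 j.2, fun j => i2' j.1 j.2, fun j => z' j.1 j.2, fun j => ?_,
      fun L _ _ v hv hvB => ?_⟩
    · refine Fin.cases ?_ (fun l => ?_) l
      · exact hτ
      · exact hσ l
    · obtain ⟨h1, h2, h3⟩ := hz' j.1 j.2
      obtain ⟨h4, h5, t, ht, htc⟩ := hz j.1
      obtain ⟨t', ht', htt'⟩ := trdeg_lt h4 h5 ht hG (by rw [hGv]; exact hτz j.1) h1 h2 h3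
      refine ⟨fun h0 => ?_, h2, t', htt', by omega⟩
      obtain ⟨i, hi⟩ := h1.1
      exact hi (congrFun h0 i)
    · obtain ⟨j, hj⟩ := hall L v hv fun l => hvB l.succ
      have h1 := hvB 0
      obtain ⟨j', hj'⟩ := hall' j L v hj (by
        rw [hGv]
        exact h1)
      exact ⟨⟨j, j'⟩, hj'⟩

/-- the dimension of the common zero set -/
theorem exists_sigma {N d : ℕ} {B : MvPolynomial (Fin (N + 1)) ℂ} (hB : B.IsHomogeneous d)
    {u : Fin (N + 1) → ℂ} (hu : aeval u B ≠ 0) (c : ℕ) :
    ∃ σ : Fin c → Matrix (Fin (N + 1)) (Fin (N + 1)) ℂ, (∀ l, (σ l).det ≠ 0) ∧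
      ∀ (E : Type) [Field E] [Algebra ℂ E] (v : Fin (N + 1) → E) (t : ℕ), v ≠ 0 →
        coords ℂ v = ⊤ → Algebra.trdeg ℂ E = t → (∀ l, aeval (lin (σ l) v) B = 0) →
          t + c ≤ N := by
  obtain ⟨σ, hσ, ι, hι, E, i1, i2, z, hz, hall⟩ := exists_general hB hu c
  refine ⟨σ, hσ, fun L _ _ v t hv hgen ht hvB => ?_⟩
  obtain ⟨j, hj⟩ := hall L v hv hvB
  obtain ⟨h1, h2, t', ht', hc⟩ := hz j
  obtain ⟨h3, -⟩ := Pool.Agent.Q96.OS.gen_point' (b := z j)
    (show Pool.Agent.Q271.RC.IsGeneric (z j) from ⟨Function.ne_iff.1 h1, h2⟩) ht' L v t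
    (fun G D hG hGx => hj.2 G ⟨D, hG⟩ hGx) ⟨hj.1, hgen⟩ ht
  omega

end Pool.Agent.H910.Cf
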