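import Pool.Agent.H910.Cf.Cls
import Mathlib.LinearAlgebra.Vandermonde

/-!
Complements of the discriminant hypersurface in Fermat coverings of the space of the binary forms.
-/

set_option autoImplicit false
set_option linter.unusedSectionVars false
set_option linter.unusedVariables false
set_option linter.overlappingInstances false

open FF MvPolynomial Pool.Agent.W603.LV Pool.Agent.W603.PV
open Pool.Agent.W602.GT (val IsForm coords val_smul LogGeneralType GeneralType)
open Pool.Agent.H916
open Pool.Agent.Y216 (OnVar)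
open Pool.Agent.H910.Vf

namespace Pool.Agent.H910.Cf

open Pool.Agent.Y216 Pool.Agent.H910.Dsc Pool.Agent.H910.Ff
open Pool.Agent.Y190.BV (cnt ct cnt_unique)
open Pool.Agent.Y216.LG (pol_ne)

variable {k : Type} [Field k] [CharZero k] [IsAlgClosed k]

theorem ge_const {E : Type} [Field E] [Algebra k E] (P : Place k E) (c : k) :
    Ge P 0 (algebraMap k E c) := by
  by_cases hc : c = 0
  · exact Or.inl (by rw [hc, map_zero])
  · exact Or.inr (P.ord_const hc).ge

/-- A reduction of a binary form of degree `n + 1` does not vanish at `n + 2` points. -/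
theorem exists_nonzero {E : Type} [Field E] [Algebra k E] {n : ℕ} {a : Fin (n + 2) → k}
    (ha : Function.Injective a) {g : Fin (n + 2) → E} (hg : ∃ j, g j ≠ 0) (P : Place k E) :
    ∃ i, aeval g (hyp k (n + 1) 1 (a i)) ≠ 0 ∧
      P.ord (aeval g (hyp k (n + 1) 1 (a i))) = pord P g := by
  classical
  by_contra hcon
  push Not at hcon
  obtain ⟨A, hA⟩ : ∃ A : Matrix (Fin (n + 2)) (Fin (n + 2)) k, A = Matrix.vandermonde a :=
    ⟨_, rfl⟩
  have hdet : IsUnit A.det := by
    rw [hA, isUnit_iff_ne_zero, Matrix.det_vandermonde_ne_zero_iff]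
    exact ha
  have hmul := Matrix.nonsing_inv_mul A hdet
  have h1 : ∀ i, aeval g (hyp k (n + 1) 1 (a i)) = ∑ b, algebraMap k E (A i b) * g b := by
    intro i
    unfold hyp
    rw [map_sum]
    refine Finset.sum_congr rfl fun b _ => ?_
    rw [map_mul, aeval_C, aeval_X, hA, Matrix.vandermonde_apply, one_pow, one_mul]
    rfl
  have h2 : ∀ j, g j = ∑ i, algebraMap k E (A⁻¹ j i) * aeval g (hyp k (n + 1) 1 (a i)) := by
    intro j
    simp only [h1, Finset.mul_sum]
    rw [Finset.sum_comm]
    have h3 : ∀ b, ∑ i, algebraMap k E (A⁻¹ j i) * (algebraMap k E (A i b) * g b) =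
        algebraMap k E ((A⁻¹ * A) j b) * g b := by
      intro b
      rw [Matrix.mul_apply, map_sum, Finset.sum_mul]
      refine Finset.sum_congr rfl fun i _ => ?_
      rw [map_mul, mul_assoc]
    rw [Finset.sum_congr rfl fun b _ => h3 b, hmul, Finset.sum_eq_single j]
    · rw [Matrix.one_apply_eq, map_one, one_mul]
    · intro b _ hb
      rw [Matrix.one_apply_ne (Ne.symm hb), map_zero, zero_mul]
    · intro h
      exact absurd (Finset.mem_univ _) h
  have h4 : ∀ i, Ge P (pord P g + 1) (aeval g (hyp k (n + 1) 1 (a i))) := by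
    intro i
    by_cases h0 : aeval g (hyp k (n + 1) 1 (a i)) = 0
    · exact Or.inl h0
    · right
      have h5 := hcon i h0
      have h6 := contact_nonneg (P := P) (hyp_hom k (n + 1) (1 : k) (a i)) h0
      unfold contact at h6
      push_cast at h6
      omega
  obtain ⟨j, hj, hjo⟩ := exists_pord P hg
  have h5 : Ge P (pord P g + 1) (g j) := by
    rw [h2 j]
    refine Ge.sum _ _ fun i _ => ?_
    have := (ge_const P (A⁻¹ j i)).mul (h4 i)
    rwa [zero_add] at this
  have h6 := h5.resolve_left hj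
  omega

section pow

variable {n r m : ℕ} {a : Fin (r + 1) → k} {Y : Fin (n + 2) → MvPolynomial (Fin (r + 1)) k}

/-- the image point -/
theorem pow_hyp {E : Type} [Field E] [Algebra k E] {f : Fin (r + 1) → E}
    (hf : ∀ i, aeval f (aeval Y (hyp k (n + 1) 1 (a i))) = f i ^ m) (i : Fin (r + 1)) :
    aeval (fun j => aeval f (Y j)) (hyp k (n + 1) 1 (a i)) = f i ^ m := by
  have h3 := val_comp0 f Y (hyp k (n + 1) 1 (a i))
  unfold Pool.Agent.W602.GT.val at h3
  rw [← h3, hf]

theorem pow_ne {E : Type} [Field E] [Algebra k E] {f : Fin (r + 1) → E} (hf0 : ∀ i, f i ≠ 0)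
    (hf : ∀ i, aeval f (aeval Y (hyp k (n + 1) 1 (a i))) = f i ^ m) :
    ∃ j, aeval f (Y j) ≠ 0 := by
  by_contra hcon
  push Not at hcon
  have h1 := pow_hyp hf 0
  apply pow_ne_zero m (hf0 0)
  rw [← h1]
  unfold hyp
  rw [map_sum]
  exact Finset.sum_eq_zero fun l _ => by rw [map_mul, aeval_X, hcon, mul_zero]

theorem pow_pord (ha : Function.Injective a) (hr : n + 1 ≤ r) {E : Type} [Field E] [Algebra k E]
    {f : Fin (r + 1) → E} (hf0 : ∀ i, f i ≠ 0)
    (hf : ∀ i, aeval f (aeval Y (hyp k (n + 1) 1 (a i))) = f i ^ m) (P : Place k E) :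
    pord P (fun j => aeval f (Y j)) = m * pord P f := by
  have hg := pow_ne hf0 hf
  apply le_antisymm
  · obtain ⟨j, _, hj⟩ := exists_pord P (f := f) ⟨0, hf0 0⟩
    have h1 := contact_nonneg (P := P) (g := fun j => aeval f (Y j))
      (hyp_hom k (n + 1) (1 : k) (a j)) (by rw [pow_hyp hf]; exact pow_ne_zero _ (hf0 j))
    unfold contact at h1
    rw [pow_hyp hf, P.ord_pow, hj] at h1
    push_cast at h1
    linarith
  · obtain ⟨i, _, hi⟩ := exists_nonzero (a := fun i : Fin (n + 2) => a (Fin.castLE (by omega) i))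
      (fun i j hij => Fin.castLE_injective _ (ha hij)) hg P
    rw [← hi, pow_hyp hf, P.ord_pow]
    exact mul_le_mul_of_nonneg_left (pord_le P (hf0 _)) (Int.natCast_nonneg _)

/-- contact with the discriminant -/
theorem pow_dsc (ha : Function.Injective a) (hr : n + 1 ≤ r) (hY : ∀ j, (Y j).IsHomogeneous m)
    {E : Type} [Field E] [Algebra k E]
    {f : Fin (r + 1) → E} (hf0 : ∀ i, f i ≠ 0)
    (hf : ∀ i, aeval f (aeval Y (hyp k (n + 1) 1 (a i))) = f i ^ m)
    (hd : aeval f (aeval Y (dsc k n)) ≠ 0) {P : Place k E}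
    (hP : ¬ Meets (fun _ : Unit => aeval Y (dsc k n)) f P) :
    aeval (fun j => aeval f (Y j)) (dsc k n) ≠ 0 ∧
      contact (2 * n) (dsc k n) (fun j => aeval f (Y j)) P = 0 := by
  have h3 := val_comp0 f Y (dsc k n)
  unfold Pool.Agent.W602.GT.val at h3
  have h0 : aeval (fun j => aeval f (Y j)) (dsc k n) ≠ 0 := by
    rw [← h3]
    exact hd
  refine ⟨h0, ?_⟩
  have h1 := contact_nonneg (P := P) (dsc_hom k n) h0
  apply le_antisymm _ h1
  unfold Meets at hP
  push Not at hP
  obtain ⟨-, -, h4⟩ := hP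
  have h5 : aeval Y (dsc k n) ≠ 0 := fun h6 => hd (by rw [h6, map_zero])
  have h6 : (aeval Y (dsc k n) : MvPolynomial (Fin (r + 1)) k).IsHomogeneous (m * (2 * n)) :=
    (dsc_hom k n).aeval Y hY
  rw [h6.totalDegree h5, h3] at h4
  unfold contact
  rw [pow_pord ha hr hf0 hf]
  push_cast at h4 ⊢
  linarith

/-- **Subvarieties.** -/
theorem pow_lgt (hm : r + 1 < m * (r - 1)) (ha : Function.Injective a) (hr : n + 1 ≤ r)
    (hY : ∀ j, (Y j).IsHomogeneous m) {E : Type} [Field E] [Algebra k E]
    {f : Fin (r + 1) → E} (hf0 : ∀ i, f i ≠ 0)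
    (hf : ∀ i, aeval f (aeval Y (hyp k (n + 1) 1 (a i))) = f i ^ m)
    (hd : aeval f (aeval Y (dsc k n)) ≠ 0) (hgen : coords k f = ⊤) {t : ℕ}
    (htr : Algebra.trdeg k E = t) (ht : 1 ≤ t) :
    LogGeneralType k E t fun P => Meets (fun _ : Unit => aeval Y (dsc k n)) f P := by
  classical
  have hr1 : 2 ≤ r := by
    by_contra h
    have : r - 1 = 0 := by omega
    rw [this, mul_zero] at hm
    omega
  have hm0 : 1 ≤ m := by
    by_contra h
    have : m = 0 := by omega
    rw [this, zero_mul] at hm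
    omega
  obtain ⟨g, hg⟩ : ∃ g : Fin (n + 2) → E, g = fun j => aeval f (Y j) := ⟨_, rfl⟩
  have hgh := pow_hyp hf
  have hgne : ∃ j, g j ≠ 0 := by
    rw [hg]
    exact pow_ne hf0 hf
  have hpd := fun P => pow_pord ha hr hf0 hf (P := P)
  have hgd : aeval g (dsc k n) ≠ 0 := by
    have h3 := val_comp0 f Y (dsc k n)
    unfold Pool.Agent.W602.GT.val at h3
    rw [hg, ← h3]
    exact hd
  have hgs := fun P hP => (pow_dsc ha hr hY hf0 hf hd (P := P) hP).2
  simp only [← hg] at hgh hpd hgs
  have hg0 : g ≠ 0 := by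
    obtain ⟨j, hj⟩ := hgne
    exact fun h0 => hj (congrFun h0 j)
  have hgen' : Gen a g := ⟨hgd, fun i => by rw [hgh]; exact pow_ne_zero _ (hf0 i)⟩
  -- the coordinates are algebraic
  have halg : Algebra.IsAlgebraic (coords k g) E := by
    obtain ⟨b, hb⟩ := hgne
    have h1 : ∀ z : E, z ∈ coords k f → IsAlgebraic (coords k g) z := by
      intro z hz
      have h6 : coords k f ≤ (algebraicClosure (coords k g) E).restrictScalars k := by
        unfold Pool.Agent.W602.GT.coords
        rw [IntermediateField.adjoin_le_iff]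
        rintro _ ⟨i, j, hj, rfl⟩
        change f i / f j ∈ algebraicClosure (coords k g) E
        rw [mem_algebraicClosure_iff]
        refine IsAlgebraic.of_pow hm0 ?_
        have h2 : ∀ i, aeval g (hyp k (n + 1) 1 (a i)) / g b ∈ coords k g := by
          intro i
          unfold hyp
          rw [map_sum, Finset.sum_div]
          refine sum_mem fun l _ => ?_
          rw [map_mul, aeval_C, aeval_X, mul_div_assoc]
          exact mul_mem (IntermediateField.algebraMap_mem _ _)
            (IntermediateField.subset_adjoin _ _ ⟨l, b, hb, rfl⟩)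
        have h3 : (f i / f j) ^ m = (aeval g (hyp k (n + 1) 1 (a i)) / g b) /
            (aeval g (hyp k (n + 1) 1 (a j)) / g b) := by
          rw [hgh, hgh, div_pow, div_div_div_cancel_right₀ hb]
        rw [h3]
        exact isAlgebraic_algebraMap (⟨_, div_mem (h2 i) (h2 j)⟩ : coords k g)
      exact mem_algebraicClosure_iff.1 (h6 hz)
    exact ⟨fun z => h1 z (by rw [hgen]; exact IntermediateField.mem_top)⟩
  have hnum : (n + 1) * (∑ _i : Fin (r + 1), 0 + 2 * n * 0) + 2 * m <
      ∑ _i : Fin (r + 1), (m - 1) := by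
    rw [Finset.sum_const, Finset.sum_const, Finset.card_univ, Fintype.card_fin]
    simp only [smul_eq_mul, mul_zero, add_zero, zero_add]
    obtain ⟨r', rfl⟩ : ∃ r', r = r' + 2 := ⟨r - 2, by omega⟩
    obtain ⟨m', rfl⟩ : ∃ m', m = m' + 1 := ⟨m - 1, by omega⟩
    have e1 : r' + 2 - 1 = r' + 1 := by omega
    rw [e1] at hm
    rw [Nat.add_sub_cancel]
    nlinarith
  refine core_dsc (M := m) (μ := fun _ => m - 1) (c := fun _ => 0) (cD := 0) ht htr a ha
    (fun _ => Nat.sub_le _ _) hnum (pol g) (pol_ne hg0) (natDegree_pol_le g)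
    (by rw [← dsc_eq (F := k)]; exact hgd) (alg_pol halg)
    (fun i => by rw [← hyp_ev]; exact hgen'.2 i) _ fun P _ hP => ?_
  left
  constructor
  · have h1 := hgs P hP
    unfold contact at h1
    unfold dct
    rw [← dsc_eq (F := k), cnt_pol0 P hgne]
    push_cast at h1 ⊢
    linarith
  · intro i
    have h1 : ct P (pol g) (a i) = m * (P.ord (f i) - pord P f) := by
      unfold ct
      rw [← hyp_ev, hgh, P.ord_pow, cnt_pol0 P hgne, hpd]
      ring
    rw [h1]
    have h2 := pord_le P (hf0 i)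
    rcases eq_or_lt_of_le h2 with h3 | h3
    · left
      rw [h3, sub_self, mul_zero]
    · right
      have h4 : ((m - 1 : ℕ) : ℤ) = (m : ℤ) - 1 := by
        rw [Nat.cast_sub hm0, Nat.cast_one]
      rw [h4]
      have h5 : (1 : ℤ) ≤ P.ord (f i) - pord P f := by linarith
      have h6 : (0 : ℤ) ≤ m := Int.natCast_nonneg _
      nlinarith

/-- **Curves.** -/
theorem pow_curve (hm : 1 ≤ m) (ha : Function.Injective a) (hr : n + 1 ≤ r)
    (hY : ∀ j, (Y j).IsHomogeneous m) {L : Type} [Field L] [Algebra k L] [IsFF k L]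
    {f : Fin (r + 1) → L} (hf0 : ∀ i, f i ≠ 0)
    (hf : ∀ i, aeval f (aeval Y (hyp k (n + 1) 1 (a i))) = f i ^ m)
    (hd : aeval f (aeval Y (dsc k n)) ≠ 0) :
    ((m : ℤ) * (r - 1) - (r + 1)) * pht k f ≤ (n + 1) * max (canDeg k L +
      {P : Place k L | Meets (fun _ : Unit => aeval Y (dsc k n)) f P}.ncard) 0 := by
  classical
  obtain ⟨g, hg⟩ : ∃ g : Fin (n + 2) → L, g = fun j => aeval f (Y j) := ⟨_, rfl⟩
  have hgh := pow_hyp hf
  have hgne : ∃ j, g j ≠ 0 := by
    rw [hg]
    exact pow_ne hf0 hf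
  have hpd := fun P => pow_pord ha hr hf0 hf (P := P)
  have hgd : aeval g (dsc k n) ≠ 0 := by
    have h3 := val_comp0 f Y (dsc k n)
    unfold Pool.Agent.W602.GT.val at h3
    rw [hg, ← h3]
    exact hd
  have hgs := fun P hP => (pow_dsc ha hr hY hf0 hf hd (P := P) hP).2
  simp only [← hg] at hgh hpd hgs
  have hmfin : {P : Place k L | Meets (fun _ : Unit => aeval Y (dsc k n)) f P}.Finite :=
    meets_fin (k := k) ⟨0, hf0 0⟩ ⟨(), hd⟩
  obtain ⟨h0, huv⟩ := distinct_of_inj ha
  have hgd' : dsf n (pol g) ≠ 0 := by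
    rw [← dsc_eq (F := k)]
    exact hgd
  have hgv : ∀ i, vl 1 (a i) g = f i ^ m := fun i => by
    rw [← hyp_eq (F := k), hgh]
  have hgv0 : ∀ i, vl 1 (a i) g ≠ 0 := fun i => by
    rw [hgv]
    exact pow_ne_zero _ (hf0 i)
  obtain ⟨n', hn', h1⟩ := bound_log (u := fun _ => 1) (v := a) (m := m) (α := fun _ => 1) (β := 0)
    h0 huv hgne hgd' hgv0 hmfin.toFinset fun P hP => by
      rw [Set.Finite.mem_toFinset] at hP
      have hct : P.ord (dsf n (pol g)) - 2 * n * pord P g = 0 := by
        have h2 := hgs P hP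
        unfold contact at h2
        rw [dsc_eq] at h2
        push_cast at h2
        exact h2
      have hz := zst_ge P hgne hgd'
      have hz' := zst_le P hgne
      have h3 : ((zst P g).ncard : ℤ) = n + 1 := by
        push_cast at hz
        omega
      rw [h3, sub_self, zero_add]
      push_cast
      rw [zero_mul, add_zero]
      simp only [one_mul]
      rw [Finset.card_eq_sum_ones]
      push_cast
      rw [Finset.mul_sum]
      refine (Finset.sum_le_sum fun i hi => ?_).trans
        (Finset.sum_le_sum_of_subset_of_nonneg (Finset.subset_univ _) fun i _ _ => ?_)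
      · unfold Pool.Agent.H910.Ff.mt at hi
        rw [Finset.mem_filter] at hi
        obtain ⟨-, -, h4⟩ := hi
        have h4 : pord P g < P.ord (vl 1 (a i) g) := h4
        change (m : ℤ) * 1 ≤ P.ord (vl 1 (a i) g) - pord P g
        rw [hgv, P.ord_pow, hpd] at h4 ⊢
        have h5 : pord P f < P.ord (f i) := lt_of_mul_lt_mul_left h4 (Int.natCast_nonneg _)
        rw [← mul_sub]
        refine mul_le_mul_of_nonneg_left ?_ (Int.natCast_nonneg _)
        linarith
      · exact sub_nonneg.2 (pord_nonneg_contact P (hgv0 i))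
  rw [← Set.ncard_eq_toFinset_card _ hmfin] at h1
  have hht : pht k g = m * pht k f := by
    unfold pht
    simp only [hpd]
    have h2 : ∑ᶠ P : Place k L, (m : ℤ) * pord P f = m * ∑ᶠ P : Place k L, pord P f := by
      obtain ⟨T, hT⟩ := exists_supp (k := k) Finset.univ f
      have hs : ∀ P : Place k L, pord P f ≠ 0 → P ∈ T := by
        intro P hP
        obtain ⟨j, _, hj⟩ := exists_pord P (f := f) ⟨0, hf0 0⟩
        rw [← hj] at hP
        exact hT j (Finset.mem_univ _) P hP
      rw [finsum_eq_sum_of_support_subset (s := T) _ fun P hP =>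
        Finset.mem_coe.2 (hs P (right_ne_zero_of_mul hP)),
        finsum_eq_sum_of_support_subset (s := T) _ fun P hP => Finset.mem_coe.2 (hs P hP),
        Finset.mul_sum]
    rw [h2]
    ring
  rw [hht] at h1
  have hm0 : (0 : ℤ) < m := by exact_mod_cast hm
  have e1 : ((∑ _i : Fin (r + 1), 1 + 2 * n * 0 : ℕ) : ℤ) = r + 1 := by
    simp
  rw [e1] at h1
  obtain ⟨w, hw⟩ : ∃ w : ℤ, w = canDeg k L +
    {P : Place k L | Meets (fun _ : Unit => aeval Y (dsc k n)) f P}.ncard := ⟨_, rfl⟩
  have e2 : (({P : Place k L | Meets (fun _ : Unit => aeval Y (dsc k n)) f P}.ncard : ℕ) : ℤ) +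
    canDeg k L = w := by
    rw [hw]
    ring
  rw [e2] at h1
  rw [← hw]
  have h2 : (m : ℤ) * (((m : ℤ) * (r - 1) - (r + 1)) * pht k f) ≤ m * ((n + 1) * max w 0) := by
    have h3 : (m : ℤ) * n' * w ≤ m * ((n + 1) * max w 0) := by
      rw [mul_assoc]
      refine mul_le_mul_of_nonneg_left ?_ hm0.le
      calc (n' : ℤ) * w ≤ n' * max w 0 :=
            mul_le_mul_of_nonneg_left (le_max_left _ _) (Int.natCast_nonneg _)
        _ ≤ (n + 1) * max w 0 :=
            mul_le_mul_of_nonneg_right (by exact_mod_cast hn') (le_max_right _ _)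
    refine le_trans (le_of_eq ?_) (h1.trans h3)
    push_cast
    ring
  exact le_of_mul_le_mul_left h2 hm0

end pow

end Pool.Agent.H910.Cf
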