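import Pool.Agent.H910.Cf.Pcv

/-!
Statements for projective varieties.
-/

set_option autoImplicit false
set_option linter.unusedSectionVars false
set_option linter.unusedVariables false
set_option linter.overlappingInstances false

open FF MvPolynomial Pool.Agent.W603.LV Pool.Agent.W603.PV
open Pool.Agent.W602.GT (val IsForm coords VarPts val_smul LogGeneralType GeneralType)
open Pool.Agent.W602.RG (HasValue PointedMaps PseudoGeomHyp)
open Pool.Agent.H916
open Pool.Agent.Y216 (OnVar canDeg_ratFunc CurveBound)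
open Pool.Agent.R882.HY (PseudoBounded)
open Pool.Agent.H910.Vf (hyp dsc contact hyp_hom dsc_hom)

namespace Pool.Agent.H910.Cf

variable {k : Type} [Field k] [CharZero k] [IsAlgClosed k]

section

variable {K : Type} [Field K] [Algebra k K] {M : ℕ} {x : Fin (M + 1) → K}

omit [CharZero k] [IsAlgClosed k] in
theorem onVar_trans {E L : Type} [Field E] [Algebra k E] [Field L] [Algebra k L]
    {f : Fin (M + 1) → E} {g : Fin (M + 1) → L} (hf : OnVar k x f) (hg : OnVar k f g) :
    OnVar k x g :=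
  ⟨hg.1, fun G hG hGx => hg.2 G hG (hf.2 G hG hGx)⟩

/-- `X` and all its closed subvarieties which are not contained in `G = 0` are of general type and
pseudo-geometrically hyperbolic, with linear degree bounds. -/
theorem prj_single (hx : x ≠ 0) (hgen : coords k x = ⊤) {n : ℕ} {y : Fin (n + 2) → K}
    (h : RamP k x y) (halg : Algebra.IsAlgebraic (coords k y) K) :
    ∃ G : MvPolynomial (Fin (M + 1)) k, IsForm G ∧ val x G ≠ 0 ∧
      ∀ (E : Type) [Field E] [Algebra k E] (f : Fin (M + 1) → E), OnVar k x f → coords k f = ⊤ →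
        val f G ≠ 0 → ∀ t : ℕ, 1 ≤ t → Algebra.trdeg k E = t →
          GeneralType k E t ∧ PseudoGeomHyp k f ∧ CurveBound k f := by
  obtain ⟨G, hG, hGx, A, hgt, hA⟩ := prj_all hx hgen h halg
  refine ⟨G, hG, hGx, fun E _ _ f hf hfgen hfG t ht htr => ?_⟩
  have h1 : CurveBound k f := ⟨G, hG, hfG, A, fun L _ _ _ g hg hgG =>
    hA L g (onVar_trans hf hg) hgG⟩
  exact ⟨hgt E f hf hfgen hfG t ht htr, Pool.Agent.Y216.pointed_of_bound h1, h1⟩

/-- **General type and hyperbolicity.** -/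
theorem prj_mixed (hx : x ≠ 0) (hgen : coords k x = ⊤) (r r' : ℕ) (N : Fin r → ℕ)
    (y : ∀ l, Fin (N l + 1) → K) (n : Fin r' → ℕ) (z : ∀ l, Fin (n l + 2) → K)
    (hy : ∀ l, y l ≠ 0) (hz : ∀ l, RamP k x (z l))
    (htr : Algebra.trdeg k K ≤
      Algebra.trdeg k ↥((⨆ l, coords k (y l)) ⊔ ⨆ l, coords k (z l)) + 1) :
    ((∀ l, PseudoGeomHyp k (y l)) →
      ((∃ w, GeneralType k K w) → PseudoGeomHyp k x) ∧
      (PseudoGeomHyp k x ↔ HypFibres ((⨆ l, coords k (y l)) ⊔ ⨆ l, coords k (z l)))) ∧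
    ((∀ l, PseudoBounded k (y l)) →
      ((∃ w, GeneralType k K w) → PseudoBounded k x) ∧
      (PseudoBounded k x ↔ HypFibres ((⨆ l, coords k (y l)) ⊔ ⨆ l, coords k (z l)))) ∧
    ((∀ l, CurveBound k (y l)) →
      ((∃ w, GeneralType k K w) → CurveBound k x) ∧
      (CurveBound k x ↔ HypFibres ((⨆ l, coords k (y l)) ⊔ ⨆ l, coords k (z l)))) := by
  have hess := ess_coords hgen
  obtain ⟨w, hw⟩ := Cardinal.lt_aleph0.1 (trdeg_lt_aleph0 k K)
  -- the two families together
  let NN : Fin r ⊕ Fin r' → ℕ := Sum.elim N fun l => n l + 1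
  let YY : ∀ s : Fin r ⊕ Fin r', Fin (NN s + 1) → K :=
    fun s => Sum.rec (motive := fun s => Fin (NN s + 1) → K) (fun l => y l) (fun l => z l) s
  let e : Fin (Fintype.card (Fin r ⊕ Fin r')) ≃ Fin r ⊕ Fin r' := (Fintype.equivFin _).symm
  have hYY : ∀ s, YY s ≠ 0 := by
    rintro (l | l)
    · exact hy l
    · exact (hz l).ne
  have hsup : (⨆ s, coords k (YY (e s))) = (⨆ l, coords k (y l)) ⊔ ⨆ l, coords k (z l) := by
    rw [Equiv.iSup_comp (g := fun s => coords k (YY s)) e, iSup_sum]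
    rfl
  rw [← hsup] at htr ⊢
  have hgt : (∃ w, GeneralType k K w) → HypFibres (⨆ s, coords k (YY (e s))) := fun ⟨w, h⟩ =>
    hypFibres_of_gt hess h htr
  have hlow := hypFibres_of_low hess hx hgen hw htr
  refine ⟨fun h => ?_, fun h => ?_, fun h => ?_⟩
  · have h0 : ∀ s, PseudoGeomHyp k (YY s) ∨ HB1 k x (YY s) := by
      rintro (l | l)
      · exact Or.inl (h l)
      · exact Or.inr ((hz l).hb hx hgen)
    have h1 : HypFibres (⨆ s, coords k (YY (e s))) → PseudoGeomHyp k x := fun hf =>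
      pgh_mixed hx hgen (y := fun s => YY (e s)) (fun s => hYY _) hf fun s => h0 _
    exact ⟨fun hg => h1 (hgt hg),
      fun h2 => hlow (Or.inl (Pool.Agent.K4H62.EL.geom1_of h2)), h1⟩
  · have h0 : ∀ s, PseudoBounded k (YY s) ∨ HB1 k x (YY s) := by
      rintro (l | l)
      · exact Or.inl (h l)
      · exact Or.inr ((hz l).hb hx hgen)
    have h1 : HypFibres (⨆ s, coords k (YY (e s))) → PseudoBounded k x := fun hf =>
      bounded_mixed hx hgen (y := fun s => YY (e s)) (fun s => hYY _) hf fun s => h0 _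
    exact ⟨fun hg => h1 (hgt hg),
      fun h2 => hlow (Or.inr (Pool.Agent.K4H62.EL.bounded1_of h2)), h1⟩
  · have h0 : ∀ s, CurveBound k (YY s) ∨ HB1 k x (YY s) := by
      rintro (l | l)
      · exact Or.inl (h l)
      · exact Or.inr ((hz l).hb hx hgen)
    have h1 : HypFibres (⨆ s, coords k (YY (e s))) → CurveBound k x := fun hf =>
      curveBound_mixed hx hgen (y := fun s => YY (e s)) (fun s => hYY _) hf fun s => h0 _
    exact ⟨fun hg => h1 (hgt hg),
      fun h2 => hlow (Or.inr (Pool.Agent.K4H62.EL.bounded1_of (bounded_of_curveBound h2))), h1⟩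

/-- the numerical criterion -/
theorem ramP_criterion (hx : x ≠ 0) (hgen : coords k x = ⊤) {n q r : ℕ}
    {y : Fin (n + 2) → K} {a : Fin q → k} (ha : Function.Injective a) (hy : Gen a y)
    {m : Fin r → ℕ} {c : Fin r → Fin q → ℕ} {d : Fin r → ℕ}
    (hroot : ∀ l, Root a y (m l) (c l) (d l))
    (hnum : Wts n fun s t => ∀ l, m l ∣ ∑ i, c l i * s i + d l * t) : RamP k x y := by
  refine ram_of_numeric hx hgen (fun _ => form_one) ha hy hroot ∅ (fun i hi => hi.elim) False
    (fun h => h.elim) ?_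
  obtain ⟨M', μ, c', cD, h1, h2⟩ := hnum
  exact ⟨M', μ, c', cD, h1, fun s t hst => h2 s t hst.1⟩

end

section cyc

variable {n r m : ℕ} {a : Fin (r + 1) → k} {Y : Fin (n + 2) → MvPolynomial (Fin (r + 1)) k}

omit [CharZero k] [IsAlgClosed k] in
theorem aeval_cs {E : Type} [Field E] [Algebra k E] (f : Fin (r + 2) → E)
    (P : MvPolynomial (Fin (r + 1)) k) :
    aeval (fun l : Fin (r + 1) => f l.castSucc) P = aeval f (rename Fin.castSucc P) := by
  rw [aeval_rename]
  rfl

omit [CharZero k] [IsAlgClosed k] in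
theorem OnCyclic.trans (hY : ∀ j, (Y j).IsHomogeneous m) {E : Type} [Field E] [Algebra k E]
    {f : Fin (r + 2) → E} (hf : OnCyclic m a Y f) {L : Type} [Field L] [Algebra k L]
    {g : Fin (r + 2) → L} (hg : OnVar k f g) (hg0 : ∀ i, g i ≠ 0) : OnCyclic m a Y g := by
  have e1 : ∀ i, ((aeval Y (hyp k (n + 1) 1 (a i)) : MvPolynomial (Fin (r + 1)) k)).IsHomogeneous
      m := by
    intro i
    have h1 := (hyp_hom k (n + 1) (1 : k) (a i)).aeval Y hY
    rwa [mul_one] at h1
  have e2 : ((aeval Y (dsc k n) : MvPolynomial (Fin (r + 1)) k)).IsHomogeneous (2 * n * m) := by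
    have h1 := (dsc_hom k n).aeval Y hY
    rwa [mul_comm] at h1
  refine ⟨hg0, fun i => ?_, ?_⟩
  · have h1 := hg.2 (rename Fin.castSucc (aeval Y (hyp k (n + 1) 1 (a i))) - X i.castSucc ^ m)
      ⟨m, ((e1 i).rename_isHomogeneous).sub (by
        have := (isHomogeneous_X k i.castSucc).pow m
        rwa [one_mul] at this)⟩ (by
        unfold Pool.Agent.W602.GT.val
        rw [map_sub, ← aeval_cs, hf.2.1 i, map_pow, aeval_X, sub_self])
    unfold Pool.Agent.W602.GT.val at h1
    rw [map_sub, ← aeval_cs, map_pow, aeval_X, sub_eq_zero] at h1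
    exact h1
  · have h1 := hg.2 (rename Fin.castSucc (aeval Y (dsc k n)) - X (Fin.last (r + 1)) ^ (2 * n * m))
      ⟨2 * n * m, (e2.rename_isHomogeneous).sub (by
        have := (isHomogeneous_X k (Fin.last (r + 1))).pow (2 * n * m)
        rwa [one_mul] at this)⟩ (by
        unfold Pool.Agent.W602.GT.val
        rw [map_sub, ← aeval_cs, hf.2.2, map_pow, aeval_X, sub_self])
    unfold Pool.Agent.W602.GT.val at h1
    rw [map_sub, ← aeval_cs, map_pow, aeval_X, sub_eq_zero] at h1
    exact h1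

/-- **Cyclic coverings.** -/
theorem cyc_all (hc : Covering m a Y) (hr : n + 1 ≤ r) (hn : 1 ≤ n)
    (hm : n + r + 2 < m * (r - 1)) {E : Type} [Field E] [Algebra k E] {f : Fin (r + 2) → E}
    (hf : OnCyclic m a Y f) (hgen : coords k f = ⊤) {t : ℕ} (ht : 1 ≤ t)
    (htr : Algebra.trdeg k E = t) : GeneralType k E t ∧ PseudoGeomHyp k f := by
  refine ⟨cyc_gt hm hc.1 hr hn hf hgen htr ht, Pool.Agent.Y216.pointed_of_bound
    ⟨∏ i, X i, ?_, ?_, n + 1, fun L _ _ _ g hg hgG => ?_⟩⟩
  · exact isForm_prod0 fun i => ⟨1, isHomogeneous_X k i⟩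
  · rw [val_prod_ne0]
    intro i
    unfold Pool.Agent.W602.GT.val
    rw [aeval_X]
    exact hf.1 i
  · rw [val_prod_ne0] at hgG
    have hg0 : ∀ i, g i ≠ 0 := fun i => by
      have h1 := hgG i
      unfold Pool.Agent.W602.GT.val at h1
      rwa [aeval_X] at h1
    have hm0 : 1 ≤ m := by
      by_contra h
      have : m = 0 := by omega
      rw [this, zero_mul] at hm
      omega
    have h1 := cyc_curve hm0 hc.1 hr hn (hf.trans hc.2 hg hg0)
    have h2 : (1 : ℤ) ≤ (m : ℤ) * (r - 1) - (n + r + 1) := by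
      have h3 : ((r - 1 : ℕ) : ℤ) = (r : ℤ) - 1 := by
        rw [Nat.cast_sub (by omega), Nat.cast_one]
      zify at hm
      rw [h3] at hm
      linarith
    have h3 : 0 ≤ pht k g := Pool.Agent.H916.pht_nn ⟨0, hg0 0⟩
    push_cast
    nlinarith

end cyc

end Pool.Agent.H910.Cf
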