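import Pool.Agent.H910.Cf.Cyr

/-!
Restriction and pull-back of ramified maps.
-/

set_option autoImplicit false
set_option linter.unusedSectionVars false
set_option linter.unusedVariables false
set_option linter.overlappingInstances false

open FF MvPolynomial Pool.Agent.W603.LV Pool.Agent.W603.PV
open Pool.Agent.W602.GT (val IsForm coords val_smul LogGeneralType GeneralType)
open Pool.Agent.H916
open Pool.Agent.Y216 (OnVar)
open Pool.Agent.H910.Vf

namespace Pool.Agent.H910.Cf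

variable {k : Type} [Field k]

/-- a point of the closure of the graph over a point of the graph -/
theorem closure_trans {K E L : Type} [Field K] [Algebra k K] [Field E] [Algebra k E] [Field L]
    [Algebra k L] {M N : ℕ} {x : Fin (M + 1) → K} {y : Fin (N + 1) → K} {z : Fin (M + 1) → E}
    {g : Fin (N + 1) → E} {f : Fin (M + 1) → L} {h : Fin (N + 1) → L} {j0 : Fin (N + 1)} {e : ℕ}
    {H : Fin (N + 1) → MvPolynomial (Fin (M + 1)) k} (hR : RMap x y j0 e H)
    (h1 : InClosure k x y z g) (hz : aeval z (H j0) ≠ 0) (h2 : InClosure k z g f h) :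
    InClosure k x y f h := by
  obtain ⟨i, j, hi, hj, hrel⟩ := h2
  have hzi : z i ≠ 0 := by
    intro h0
    have h3 := hrel (X (Sum.inl i)) (by rw [aeval_X, Sum.elim_inl, h0, div_zero])
    rw [aeval_X, Sum.elim_inl, div_self hi] at h3
    exact one_ne_zero h3
  have hgj : g j ≠ 0 := by
    intro h0
    have h3 := hrel (X (Sum.inr j)) (by rw [aeval_X, Sum.elim_inr, h0, div_zero])
    rw [aeval_X, Sum.elim_inr, div_self hj] at h3
    exact one_ne_zero h3
  exact ⟨i, j, hi, hj, fun Φ hΦ => hrel Φ (closure_all h1 hR hz i j hzi hgj Φ hΦ)⟩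

/-- denominators -/
theorem exists_clear {M N R e1 e2 : ℕ} (A : Fin (N + 1) → MvPolynomial (Fin (M + 1)) k)
    (H : Fin (R + 1) → MvPolynomial (Fin (M + 1)) k) (hA : ∀ a, (A a).IsHomogeneous e1)
    (hH : ∀ b, (H b).IsHomogeneous e2) (i : Fin (N + 1)) (j : Fin (R + 1))
    (Φ : MvPolynomial (Fin (N + 1) ⊕ Fin (R + 1)) k) :
    ∃ D0 : ℕ, ∀ D, D0 ≤ D → ∃ Ψ : MvPolynomial (Fin (M + 1)) k,
      Ψ.IsHomogeneous (D * (e1 + e2)) ∧ ∀ (E : Type) [Field E] [Algebra k E] (f : Fin (M + 1) → E),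
        aeval f (A i) ≠ 0 → aeval f (H j) ≠ 0 → aeval f Ψ = (aeval f (A i) * aeval f (H j)) ^ D *
          aeval (Sum.elim (fun a => aeval f (A a) / aeval f (A i))
            fun b => aeval f (H b) / aeval f (H j)) Φ := by
  induction Φ using MvPolynomial.induction_on with
  | C c =>
    refine ⟨0, fun D _ => ⟨C c * (A i * H j) ^ D, ?_, fun E _ _ f h1 h2 => ?_⟩⟩
    · have h1 := (isHomogeneous_C (Fin (M + 1)) c).mul (((hA i).mul (hH j)).pow D)
      rwa [zero_add, mul_comm (e1 + e2)] at h1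
    · rw [map_mul, map_pow, map_mul, aeval_C, aeval_C, mul_comm]
  | add p q hp hq =>
    obtain ⟨D1, h1⟩ := hp
    obtain ⟨D2, h2⟩ := hq
    refine ⟨max D1 D2, fun D hD => ?_⟩
    obtain ⟨Ψ1, h3, h4⟩ := h1 D ((le_max_left _ _).trans hD)
    obtain ⟨Ψ2, h5, h6⟩ := h2 D ((le_max_right _ _).trans hD)
    refine ⟨Ψ1 + Ψ2, h3.add h5, fun E _ _ f h7 h8 => ?_⟩
    rw [map_add, map_add, h4 E f h7 h8, h6 E f h7 h8, mul_add]
  | mul_X p s hp =>
    obtain ⟨D1, h1⟩ := hp
    refine ⟨D1 + 1, fun D hD => ?_⟩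
    obtain ⟨D', rfl⟩ : ∃ D', D = D' + 1 := ⟨D - 1, by omega⟩
    obtain ⟨Ψ, h3, h4⟩ := h1 D' (by omega)
    rcases s with a | b
    · refine ⟨Ψ * (A a * H j), ?_, fun E _ _ f h7 h8 => ?_⟩
      · have h5 := h3.mul ((hA a).mul (hH j))
        rwa [← Nat.succ_mul] at h5
      · rw [map_mul, map_mul, map_mul, h4 E f h7 h8, aeval_X, Sum.elim_inl, pow_succ]
        field_simp
    · refine ⟨Ψ * (A i * H b), ?_, fun E _ _ f h7 h8 => ?_⟩
      · have h5 := h3.mul ((hA i).mul (hH b))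
        rwa [← Nat.succ_mul] at h5
      · rw [map_mul, map_mul, map_mul, h4 E f h7 h8, aeval_X, Sum.elim_inr, pow_succ]
        field_simp

/-- the image of a point of the closure of the graph -/
theorem closure_push {K L : Type} [Field K] [Algebra k K] [Field L] [Algebra k L] {M N R : ℕ}
    {x : Fin (M + 1) → K} {g : Fin (N + 1) → K} {y : Fin (R + 1) → K} {f : Fin (M + 1) → L}
    {h : Fin (R + 1) → L} {i0 : Fin (N + 1)} {e1 : ℕ}
    {A : Fin (N + 1) → MvPolynomial (Fin (M + 1)) k} (hA : RMap x g i0 e1 A) {j0 : Fin (R + 1)}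
    {e2 : ℕ} {H : Fin (R + 1) → MvPolynomial (Fin (M + 1)) k} (hH : RMap x y j0 e2 H)
    (hcl : InClosure k x y f h) (h1 : aeval f (A i0) ≠ 0) (h2 : aeval f (H j0) ≠ 0) :
    InClosure k g y (fun a => aeval f (A a)) h := by
  obtain ⟨c, hc0, hc⟩ := closure_smul hcl hH h2
  have hh : h j0 ≠ 0 := by
    rw [hc]
    exact mul_ne_zero hc0 h2
  refine ⟨i0, j0, h1, hh, fun Φ hΦ => ?_⟩
  obtain ⟨D, hD⟩ := exists_clear A H hA.hom hH.hom i0 j0 Φ
  obtain ⟨Ψ, hΨ, hΨe⟩ := hD D le_rfl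
  have h3 : (fun b => h b / h j0) = fun b => aeval f (H b) / aeval f (H j0) := by
    funext b
    rw [hc b, hc j0, mul_div_mul_left _ _ hc0]
  rw [h3]
  have h4 := hΨe K x hA.ne hH.ne
  have h5 : (fun a => g a / g i0) = fun a => aeval x (A a) / aeval x (A i0) := by
    funext a
    exact hA.eq a
  have h6 : (fun b => y b / y j0) = fun b => aeval x (H b) / aeval x (H j0) := by
    funext b
    exact hH.eq b
  rw [h5, h6] at hΦ
  rw [hΦ, mul_zero] at h4
  have h7 := (closure_on hcl).2 Ψ ⟨_, hΨ⟩ h4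
  have h8 := hΨe L f h1 h2
  have h9 : aeval f Ψ = 0 := h7
  rw [h9] at h8
  exact (mul_eq_zero.1 h8.symm).resolve_left (pow_ne_zero _ (mul_ne_zero h1 h2))

variable [CharZero k] [IsAlgClosed k]

/-- **Pull-back of ramified maps.** -/
theorem RamP.pull {K : Type} [Field K] [Algebra k K] {M N n : ℕ} {x : Fin (M + 1) → K}
    (hx : x ≠ 0) (hgen : coords k x = ⊤) {g : Fin (N + 1) → K} {y : Fin (n + 2) → K}
    {i0 : Fin (N + 1)} {e : ℕ} {A : Fin (N + 1) → MvPolynomial (Fin (M + 1)) k}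
    (hA : RMap x g i0 e A) (h : RamP k g y) : RamP k x y := by
  have hy := h.ne
  obtain ⟨b, hb⟩ := Function.ne_iff.1 hx
  have hb : x b ≠ 0 := hb
  obtain ⟨j0, hj0⟩ := Function.ne_iff.1 hy
  have hj0 : y j0 ≠ 0 := hj0
  obtain ⟨e', H, hH, hne, heq⟩ := exists_forms (k := k) hb hj0 (by rw [hgen]; exact le_top)
  have hR : RMap x y j0 e' H := ⟨hH, hne, hj0, heq⟩
  obtain ⟨q, a, M', μ, c, cD, G, h⟩ := h
  refine ⟨q, a, M', μ, c, cD, aeval A G * A i0 * H j0, h.inj, h.num, h.gen,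
    isForm_mul0 (isForm_mul0 (isForm_comp0 hA.hom h.form) ⟨e, hA.hom i0⟩) ⟨e', hH j0⟩, ?_, ?_⟩
  · rw [val_mul_ne0, val_mul_ne0]
    exact ⟨⟨fun h0 => h.ne ((hA.val_iff h.form).1 h0), hA.ne⟩, hne⟩
  · intro E _ _ f g' hcl hfG hg' P _
    rw [val_mul_ne0, val_mul_ne0] at hfG
    obtain ⟨⟨h1, h2⟩, h3⟩ := hfG
    refine h.ram E (fun a => aeval f (A a)) g' (closure_push hA hR hcl h2 h3) ?_ hg' P not_meets
    rw [val_comp0] at h1
    exact h1

/-- **Restriction of ramified maps.** -/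
theorem Ram.restrict {K : Type} [Field K] [Algebra k K] {M n : ℕ} {x : Fin (M + 1) → K}
    {ι : Type} {Q : ι → MvPolynomial (Fin (M + 1)) k} (hx : x ≠ 0) (hgen : coords k x = ⊤)
    {y : Fin (n + 2) → K} (h : Ram k x Q y) (halg : Algebra.IsAlgebraic (coords k y) K) :
    ∃ G : MvPolynomial (Fin (M + 1)) k, IsForm G ∧ val x G ≠ 0 ∧
      ∀ (E : Type) [Field E] [Algebra k E] (z : Fin (M + 1) → E), OnVar k x z → coords k z = ⊤ →
        val z G ≠ 0 → ∃ g : Fin (n + 2) → E, Ram k z Q g ∧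
          Algebra.IsAlgebraic (coords k g) E := by
  obtain ⟨q, a, M', μ, c, cD, G1, h⟩ := h
  obtain ⟨b, hb⟩ := Function.ne_iff.1 hx
  have hb : x b ≠ 0 := hb
  obtain ⟨j0, hj0⟩ := Function.ne_iff.1 h.ney
  have hj0 : y j0 ≠ 0 := hj0
  obtain ⟨e, H, G', hH, hG', hGx', hgood⟩ := h.good hx hgen halg
  have hxon : OnVar k x x := ⟨⟨b, hb⟩, fun G _ hGx => hGx⟩
  obtain ⟨e', H', hH', hne', heq'⟩ := exists_forms (k := k) hb hj0 (by rw [hgen]; exact le_top)
  have hR : RMap x y j0 e' H' := ⟨hH', hne', hj0, heq'⟩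
  refine ⟨G' * H' j0, isForm_mul0 hG' ⟨e', hH' j0⟩, ?_, fun E _ _ z hz hzgen hzG => ?_⟩
  · rw [val_mul_ne0]
    exact ⟨hGx', hne'⟩
  · rw [val_mul_ne0] at hzG
    obtain ⟨h1, h2, h3, h4⟩ := hgood E z hz hzG.1
    refine ⟨fun j => aeval z (H j), ⟨q, a, M', μ, c, cD, G1, h.inj, h.num, h3, h.form, h2,
      fun E' _ _ f' g' hcl hfG hg' P hP => ?_⟩, ?_⟩
    · exact h.ram E' f' g' (closure_trans hR h1 hzG.2 hcl) hfG hg' P hP
    · have h5 : ∀ w : E, w ∈ coords k z → IsAlgebraic (coords k fun j => aeval z (H j)) w := by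
        intro w hw
        have h6 : coords k z ≤
            (algebraicClosure (coords k fun j => aeval z (H j)) E).restrictScalars k := by
          unfold Pool.Agent.W602.GT.coords
          rw [IntermediateField.adjoin_le_iff]
          rintro _ ⟨i, j, hj, rfl⟩
          change z i / z j ∈ algebraicClosure (coords k fun j => aeval z (H j)) E
          rw [mem_algebraicClosure_iff]
          exact h4 i j hj
        have h7 := h6 hw
        exact mem_algebraicClosure_iff.1 h7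
      exact ⟨fun w => h5 w (by rw [hzgen]; exact IntermediateField.mem_top)⟩

end Pool.Agent.H910.Cf
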