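import Pool.Agent.H910.Cf.Ent
import Pool.Agent.H910.Cf.Pst
import Pool.Graph.R_pool_sql_team_seeded_3997aac3.Q103.SF.Fin2

/-!
Surfaces with ramified maps to the space of the binary forms.
-/

set_option autoImplicit false
set_option linter.unusedSectionVars false
set_option linter.unusedVariables false
set_option linter.overlappingInstances false

open Filter Topology Set Metric

namespace Pool.Agent.H910.Cf

open FF
open Pool.Agent.W602.GT
open Pool.Agent.Y221.PD
open Pool.Agent.Y221.BD (EntireCurve)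
open Pool.Agent.Y216 (OnVar CurveBound)
open Pool.Agent.W603.LV (canDeg)
open Pool.Agent.W603.PV (pht)
open Pool.Agent.TH466.QG (SubOf)
open Pool.Agent.Q96.HE (IsMap eul vanForms surface)
open Pool.Agent.Q96.LS (CentreIn LiesIn nonconst_of Norm)
open Pool.Agent.Q271.RC (IsGeneric Nonconst)
open Pool.Agent.Q103.SF
open Pool.Agent.H916 (InClosure Meets RMap)

variable {M : ℕ} {K : Type} [Field K] [Algebra ℂ K] {x : Fin (M + 1) → K}

/-- **Curves in surfaces.** -/
theorem alg2 (htr : Algebra.trdeg ℂ K = (2 : ℕ)) (hx : x ≠ 0) (hgen : coords ℂ x = ⊤)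
    (hgt : GeneralType ℂ K 2) (hR : CurveBound ℂ x) :
    (lowCurves x).Finite ∧
    (∃ A : ℕ, ∀ (L : Type) [Field L] [Algebra ℂ L] [IsFF ℂ L] (v : Fin (M + 1) → L),
      OnVar ℂ x v → Nonconst v → pht ℂ v ≤ A * canDeg ℂ L ∨ van v ∈ lowCurves x) ∧
    ∀ (E : Type) [Field E] [Algebra ℂ E] (w : ℕ) (z : Fin (M + 1) → E), SubOf ℂ x z → 1 ≤ w →
      Algebra.trdeg ℂ E = w → GeneralType ℂ E w ∨ van z ∈ lowCurves x := by
  classical
  obtain ⟨R, ⟨e, he⟩, hxR, A, hA⟩ := hR
  have hb : IsGeneric x := ⟨by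
    obtain ⟨i, hi⟩ := Function.ne_iff.1 hx
    exact ⟨i, hi⟩, hgen⟩
  have hon : ∀ (L : Type) [Field L] [Algebra ℂ L] (v : Fin (M + 1) → L),
      Pool.Agent.Q271.RC.IsPoint x v →
      (∃ j, v j ≠ 0) → OnVar ℂ x v := fun L _ _ v hv hv0 => ⟨hv0, fun G hG hGx => by
    obtain ⟨D, hD⟩ := hG
    exact hv G D hD hGx⟩
  -- points of transcendence degree two
  have htwo : ∀ (L : Type) [Field L] [Algebra ℂ L] (v : Fin (M + 1) → L),
      Pool.Agent.Q271.RC.IsPoint x v →
      IsGeneric v → Algebra.trdeg ℂ L = (2 : ℕ) → GeneralType ℂ L 2 := by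
    intro L _ _ v hv hvg ht
    obtain ⟨-, hiso⟩ := Pool.Agent.Q96.OS.gen_point' hb htr L v 2 hv hvg ht
    obtain ⟨σ, l, hl, hvl, hs⟩ := hiso rfl
    exact Pool.Agent.TH466.QG.general_of_equiv
      (AlgEquiv.ofBijective σ ⟨σ.toRingHom.injective, hs⟩) hgt
  obtain ⟨h1, ⟨A', h2⟩, -, -, -, -⟩ := surface (b := x) (d := 2) hb htr le_rfl
    (D := ({1} : Set (MvPolynomial (Fin (M + 1)) ℂ))) (by
      intro F hF
      rw [Set.mem_singleton_iff] at hF
      rw [hF]
      exact ⟨0, MvPolynomial.isHomogeneous_one _ _⟩) (by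
      intro L _ _ v hv hvg _ ht
      exact lgt_of_gt (htwo L v hv hvg ht)) (G := R) (E := e) (R := A) he hxR (by
      intro L _ _ _ v hv hvR
      have hv0 : ∃ j, v j ≠ 0 := by
        obtain ⟨i, j, hj, -⟩ := hv.nonconst
        exact ⟨j, hj⟩
      rw [eul_one hv0]
      have h3 := hA L v (hon L v hv.point hv0) hvR
      have h4 := Pool.Agent.Q96.LS.pht_pos v hv.nonconst
      rcases le_or_gt (canDeg ℂ L) 0 with h5 | h5
      · rw [max_eq_right h5, mul_zero] at h3
        omega
      · rwa [max_eq_left h5.le] at h3)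
  refine ⟨by rw [low_eq]; exact h1, ⟨A', fun L _ _ _ v hv hnc => ?_⟩, ?_⟩
  · have hm : IsMap x ({1} : Set (MvPolynomial (Fin (M + 1)) ℂ)) v :=
      ⟨fun G D hG hGx => hv.2 G ⟨D, hG⟩ hGx, not_lies, hnc⟩
    rw [low_eq, van_eq]
    have h3 := h2 L v hm
    rwa [eul_one hv.1] at h3
  · intro E _ _ w z hz hw ht
    have hz0 : ∃ j, z j ≠ 0 := by
      obtain ⟨i, hi⟩ := Function.ne_iff.1 hz.ne
      exact ⟨i, hi⟩
    have hzp : Pool.Agent.Q271.RC.IsPoint x z := fun G D hG hGx => hz.spec G ⟨D, hG⟩ hGx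
    have hzg : IsGeneric z := ⟨hz0, hz.gen⟩
    obtain ⟨hw2, -⟩ := Pool.Agent.Q96.OS.gen_point' hb htr E z w hzp hzg ht
    rcases (by omega : w = 1 ∨ w = 2) with rfl | rfl
    · have hff : IsFF ℂ E := ⟨Pool.Agent.Q72.NA.ess_of_adjoin hz.gen, by rw [ht]; simp⟩
      rcases le_or_gt (canDeg ℂ E) 0 with h3 | h3
      · right
        exact ⟨E, inferInstance, inferInstance, hff, z, ⟨hz0, hz.spec⟩, hz.gen, h3, rfl⟩
      · left
        exact Pool.Agent.Q103.SF.gt_of_canDeg h3
    · left
      exact htwo E z hzp hzg ht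

/-- **Meromorphic images of affine spaces in surfaces.** -/
theorem mero_low2 (hent : ∀ f, EntireCurve x f →
      vanOn Set.univ (fun t i => f i t) ∈ lowCurves x)
    (hfin : (lowCurves x).Finite) {g : ℕ} {u : Fin (M + 1) → (Fin g → ℂ) → ℂ}
    (hu : MeroMap x g u) : vanOn Set.univ (fun t i => u i t) ∈ lowCurves x := by
  classical
  by_contra hcon
  obtain ⟨i, j, a, b, hab⟩ := hu.nonconst
  obtain ⟨k0, hk0⟩ : ∃ k, u k a ≠ 0 := by
    by_contra hcon
    push Not at hcon
    apply hab
    simp only [hcon, zero_mul]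
  -- forms which vanish on the curves but not on the image
  have hsep : ∀ V ∈ lowCurves x, vanOn Set.univ (fun t i => u i t) ⊆ V →
      ∃ G ∈ V, IsForm G ∧ ∃ p, MvPolynomial.eval (fun i => u i p) G ≠ 0 := by
    intro V hV hle
    by_contra hno
    push Not at hno
    apply hcon
    have h1 : vanOn Set.univ (fun t i => u i t) = V := by
      refine Set.Subset.antisymm hle fun G hG => ?_
      have hGf : IsForm G := by
        obtain ⟨L, _, _, _, v, -, -, -, rfl⟩ := hV
        exact hG.1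
      exact ⟨hGf, fun t _ => hno G hG hGf t⟩
    rwa [h1]
  choose! G hGV hGf hGp using hsep
  -- a point where none of these forms vanishes
  let S := hfin.toFinset.filter fun V => vanOn Set.univ (fun t i => u i t) ⊆ V
  obtain ⟨p, hp⟩ := exists_common (insert none (S.image some))
    (fun o => match o with
      | none => u k0
      | some V => fun t => MvPolynomial.eval (fun i => u i t) (G V)) (by
      rintro (_ | V)
      · exact hu.hol k0
      · exact diff_eval hu.hol (G V)) (by
      intro o ho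
      rcases Finset.mem_insert.1 ho with rfl | ho
      · exact ⟨a, hk0⟩
      · obtain ⟨V, hV, rfl⟩ := Finset.mem_image.1 ho
        obtain ⟨h1, h2⟩ := Finset.mem_filter.1 hV
        exact hGp V (hfin.mem_toFinset.1 h1) h2)
  have hpk : u k0 p ≠ 0 := hp none (Finset.mem_insert_self _ _)
  -- a second point
  obtain ⟨q, i', j', hq⟩ : ∃ q i' j', u i' p * u j' q ≠ u j' p * u i' q := by
    by_contra hcon2
    push Not at hcon2
    apply hab
    have h1 : ∀ l c, u l c = u k0 c * u l p / u k0 p := by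
      intro l c
      have := hcon2 c l k0
      field_simp
      linear_combination -this
    rw [h1 i a, h1 j b, h1 j a, h1 i b]
    ring
  let ℓ : ℂ → Fin g → ℂ := fun s => p + s • (q - p)
  have hℓ : Differentiable ℂ ℓ := by
    simp only [ℓ]
    fun_prop
  have h0 : ℓ 0 = p := by simp [ℓ]
  have h1 : ℓ 1 = q := by simp [ℓ]
  obtain ⟨f, hf, hfu⟩ := curve_of_entire (x := x) (u := fun i s => u i (ℓ s))
    (fun i => (hu.hol i).comp hℓ) (fun G hG hxG s => hu.mem G hG hxG (ℓ s)) (i := i') (j := j')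
    (a := 0) (b := 1) (by
      simp only [h0, h1]
      exact hq)
  have hV := hent f hf
  set V := vanOn Set.univ (fun t i => f i t) with hVdef
  have hle : vanOn Set.univ (fun t i => u i t) ⊆ V := by
    rintro H ⟨hH, hH0⟩
    refine ⟨hH, fun t _ => ?_⟩
    obtain ⟨e, he⟩ := hH
    by_cases hne : ∃ k, u k (ℓ t) ≠ 0
    · obtain ⟨c, hc, hcf⟩ := hfu t hne
      have h2 := eval_scale he c hcf
      rw [hH0 (ℓ t) (Set.mem_univ _)] at h2
      exact (mul_eq_zero.1 h2.symm).resolve_left (pow_ne_zero _ hc)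
    · -- continuity
      have hcont : Continuous fun t => MvPolynomial.eval (fun i => f i t) H :=
        (MvPolynomial.continuous_eval H).comp (continuous_pi fun i => (hf.hol i).continuous)
      have hcl : AnalyticOnNhd ℂ (fun t => u k0 (ℓ t)) Set.univ :=
        ((hu.hol k0).comp hℓ).differentiableOn.analyticOnNhd isOpen_univ
      have hev : ∀ᶠ s in 𝓝[≠] t, u k0 (ℓ s) ≠ 0 := by
        rcases (hcl t (Set.mem_univ _)).eventually_eq_zero_or_eventually_ne_zero with h2 | h2
        · exfalso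
          have := hcl.eq_of_eventuallyEq (f := fun t => u k0 (ℓ t)) (g := fun _ => 0)
            analyticOnNhd_const h2
          apply hpk
          rw [← h0]
          exact congrFun this 0
        · exact h2
      have hev2 : ∀ᶠ s in 𝓝[≠] t, MvPolynomial.eval (fun i => f i s) H = 0 := by
        filter_upwards [hev] with s hs
        obtain ⟨c, hc, hcf⟩ := hfu s ⟨k0, hs⟩
        have h2 := eval_scale he c hcf
        rw [hH0 (ℓ s) (Set.mem_univ _)] at h2
        exact (mul_eq_zero.1 h2.symm).resolve_left (pow_ne_zero _ hc)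
      have h3 : Tendsto (fun s => MvPolynomial.eval (fun i => f i s) H) (𝓝[≠] t)
          (𝓝 (MvPolynomial.eval (fun i => f i t) H)) := hcont.continuousAt.mono_left
        nhdsWithin_le_nhds
      have h4 : Tendsto (fun s => MvPolynomial.eval (fun i => f i s) H) (𝓝[≠] t) (𝓝 0) :=
        tendsto_const_nhds.congr' (by
          filter_upwards [hev2] with s hs
          exact hs.symm)
      exact tendsto_nhds_unique h3 h4
  have hGV' := hGV V hV hle
  have hz : MvPolynomial.eval (fun i => f i 0) (G V) = 0 := hGV'.2 0 (Set.mem_univ _)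
  obtain ⟨c, hc, hcf⟩ := hfu 0 ⟨k0, by simp only [h0]; exact hpk⟩
  obtain ⟨e, he⟩ := hGf V hV hle
  have h2 := eval_scale he c hcf
  simp only [h0] at h2
  rw [hz, mul_zero] at h2
  exact hp (some V) (Finset.mem_insert_of_mem (Finset.mem_image_of_mem _
    (Finset.mem_filter.2 ⟨hfin.mem_toFinset.2 hV, hle⟩))) h2

/-- an entire curve in the projective variety -/
theorem entire_of {f : Fin (M + 1) → ℂ → ℂ} (hf : EntireCurve x f) :
    Entire x (fun _ : Unit => (1 : MvPolynomial (Fin (M + 1)) ℂ)) fun t i => f i t := by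
  refine ⟨fun i => hf.hol i, fun t h0 => ?_, fun G hG hGx t => hf.mem G hG hGx t,
    fun t => ⟨(), by simp⟩, ?_⟩
  · obtain ⟨i, hi⟩ := hf.ne t
    exact hi (congrFun h0 i)
  · obtain ⟨i, j, a, b, hab⟩ := hf.nonconst
    refine ⟨a, b, fun c hc => hab ?_⟩
    have h1 : ∀ l, f l a = c * f l b := fun l => by
      have := congrFun hc l
      simpa using this
    rw [h1 i, h1 j]
    ring

/-- **Entire curves in surfaces with a nonconstant ramified map.** -/
theorem entire_srf (htr : Algebra.trdeg ℂ K = (2 : ℕ)) (hx : x ≠ 0) (hgen : coords ℂ x = ⊤)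
    {n : ℕ} {y : Fin (n + 2) → K} (h : RamP ℂ x y) (hnc : coords ℂ y ≠ ⊥)
    {f : Fin (M + 1) → ℂ → ℂ} (hf : EntireCurve x f) :
    vanOn Set.univ (fun t i => f i t) ∈ lowCurves x := by
  classical
  have hG1 : S_gpc := Pool.Agent.Q285.SFG.t_gpc
  have hy := h.ne
  obtain ⟨i0, hi0⟩ := Function.ne_iff.1 hx
  have hi0 : x i0 ≠ 0 := hi0
  obtain ⟨j0, hj0⟩ := Function.ne_iff.1 hy
  have hj0 : y j0 ≠ 0 := hj0
  obtain ⟨e, H, hH, hne, heq⟩ := Pool.Agent.H916.exists_forms (k := ℂ) hi0 hj0
    (by rw [hgen]; exact le_top)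
  have hR : RMap x y j0 e H := ⟨hH, hne, hj0, heq⟩
  obtain ⟨G, hG, hGx, hmain⟩ := Ram.entire h hR
  by_cases hfG : ∀ t, MvPolynomial.eval (fun i => f i t) G = 0
  · exact entire_low hG1 htr hx hgen hG hGx hf hfG
  · push Not at hfG
    obtain ⟨⟨b, hb⟩, hc⟩ := hmain _ (entire_of hf) hfG
    -- a nonconstant coordinate
    obtain ⟨i, hi⟩ : ∃ i, ∀ c : ℂ, y i / y j0 ≠ algebraMap ℂ K c := by
      by_contra hcon
      push Not at hcon
      apply hnc
      rw [eq_bot_iff]
      unfold Pool.Agent.W602.GT.coords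
      rw [IntermediateField.adjoin_le_iff]
      rintro _ ⟨i, j, hj, rfl⟩
      obtain ⟨c, hc⟩ := hcon i
      obtain ⟨d, hd⟩ := hcon j
      have h1 : y i / y j = (y i / y j0) / (y j / y j0) := by
        rw [div_div_div_cancel_right₀ hj0]
      rw [h1, hc, hd, ← map_div₀]
      exact IntermediateField.algebraMap_mem _ _
    set c0 := MvPolynomial.eval (fun i => f i b) (H j0) with hc0
    set c1 := MvPolynomial.eval (fun i => f i b) (H i) with hc1
    refine entire_low hG1 htr hx hgen (R := MvPolynomial.C c0 * H i - MvPolynomial.C c1 * H j0)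
      ⟨e, ?_⟩ ?_ hf fun t => ?_
    · refine MvPolynomial.IsHomogeneous.sub ?_ ?_
      · have := (MvPolynomial.isHomogeneous_C (Fin (M + 1)) c0).mul (hH i)
        rwa [zero_add] at this
      · have := (MvPolynomial.isHomogeneous_C (Fin (M + 1)) c1).mul (hH j0)
        rwa [zero_add] at this
    · intro h0
      unfold Pool.Agent.W602.GT.val at h0
      rw [map_sub, map_mul, map_mul, MvPolynomial.aeval_C, MvPolynomial.aeval_C,
        sub_eq_zero] at h0
      apply hi (c1 / c0)
      rw [heq, map_div₀, div_eq_div_iff hne ((_root_.map_ne_zero _).2 hb)]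
      linear_combination h0
    · rw [map_sub, map_mul, map_mul, MvPolynomial.eval_C, MvPolynomial.eval_C]
      have h1 := hc i j0 t b
      linear_combination h1

/-- **Special sets of surfaces with a generically finite ramified map.** -/
theorem special_fin (htr : Algebra.trdeg ℂ K = (2 : ℕ)) (hx : x ≠ 0) (hgen : coords ℂ x = ⊤)
    {n : ℕ} {y : Fin (n + 2) → K} (h : RamP ℂ x y)
    (halg : Algebra.IsAlgebraic (coords ℂ y) K) : GeneralType ℂ K 2 ∧ SpecialSets x := by
  have hG1 : S_gpc := Pool.Agent.Q285.SFG.t_gpc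
  have hlow : S_low := Pool.Agent.Q24.SF.low_curve Pool.Agent.Q95.SF.wei Pool.Agent.Q111.SF.cls
  obtain ⟨G, hG, hGx, A, hgt, hA⟩ := prj_all hx hgen h halg
  have hxon : OnVar ℂ x x := ⟨Function.ne_iff.1 hx, fun G _ hGx => hGx⟩
  have hg2 := hgt K x hxon hgen hGx 2 (by norm_num) htr
  obtain ⟨h1, h2, h3⟩ := alg2 htr hx hgen hg2 ⟨G, hG, hGx, A, hA⟩
  have hnc : coords ℂ y ≠ ⊥ := by
    intro h0
    rw [h0] at halg
    have h4 : Algebra.IsAlgebraic ℂ (⊥ : IntermediateField ℂ K) :=
      (IntermediateField.botEquiv ℂ K).symm.isAlgebraic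
    have h5 : Algebra.IsAlgebraic ℂ K := Algebra.IsAlgebraic.trans ℂ (⊥ : IntermediateField ℂ K) K
    have h6 : Algebra.trdeg ℂ K = 0 := trdeg_eq_zero
    rw [h6] at htr
    norm_num at htr
  have hent : ∀ f, EntireCurve x f → vanOn Set.univ (fun t i => f i t) ∈ lowCurves x :=
    fun f hf => entire_srf htr hx hgen h hnc hf
  obtain ⟨q, a, M', μ, c, cD, G1, hram⟩ := h
  obtain ⟨G', hG', hGx', hP⟩ := hram.picard hx hgen halg
  exact ⟨hg2,
    { finite := h1
      entire := hent
      curves := fun V hV => curve_of_low hlow hV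
      elliptic := fun V hV => ell_of_low hV
      mero := fun g u hu => mero_low2 hent h1 hu
      disc := fun f hf => by
        refine disc_low hG1 htr hx hgen hG' hGx' hf fun t ht => ?_
        by_contra hcon
        exact hf.ess (hP f ⟨hf.hol, hf.ne, hf.mem, fun t _ => ⟨(), by simp⟩⟩ ⟨t, ht, hcon⟩)
      sub := h3
      degree := h2 }⟩

end Pool.Agent.H910.Cf
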