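import Pool.Agent.H910.Cf.Fam
import Pool.Agent.H910.Cf.Mul

/-!
Statements for varieties of arbitrary dimension.
-/

set_option autoImplicit false
set_option linter.unusedSectionVars false
set_option linter.unusedVariables false
set_option linter.overlappingInstances false

open Filter Topology Set Metric

namespace Pool.Agent.H910.Cf

open FF
open Pool.Agent.W602.GT
open Pool.Agent.Y221.PD
open Pool.Agent.Y221.BD (EntireCurve)
open Pool.Agent.Y216 (OnVar CurveBound)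
open Pool.Agent.W603.LV (canDeg)
open Pool.Agent.W603.PV (pht)
open Pool.Agent.TH466.QG (SubOf)
open Pool.Agent.Q271.RC (IsGeneric Nonconst)
open Pool.Agent.Q103.SF
open Pool.Agent.H916 (InClosure Meets RMap)

section

variable {M : ℕ} {K : Type} [Field K] [Algebra ℂ K] {x : Fin (M + 1) → K}

theorem Hered.binary (h : Hered 2 x) : BinaryClass x :=
  fun E _ _ z t hz ht h2 => Or.inl (h E z t hz ht h2)

theorem Hered.mono {d e : ℕ} (hde : d ≤ e) (h : Hered d x) : Hered e x :=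
  fun E _ _ z t hz ht h2 => h E z t hz ht (hde.trans h2)

/-- **Several ramified maps.** -/
theorem hered_of_maps (hx : x ≠ 0) (hgen : coords ℂ x = ⊤) {s : ℕ} {n : Fin s → ℕ}
    {y : ∀ l, Fin (n l + 2) → K} (hy : ∀ l, RamP ℂ x (y l))
    (halg : ∀ l, Algebra.IsAlgebraic (coords ℂ (y l)) K) :
    ∃ G : Fin s → MvPolynomial (Fin (M + 1)) ℂ, (∀ l, IsForm (G l) ∧ val x (G l) ≠ 0) ∧
      ∀ d, (∀ (E : Type) [Field E] [Algebra ℂ E] (z : Fin (M + 1) → E) (t : ℕ), SubOf ℂ x z →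
        Algebra.trdeg ℂ E = t → d ≤ t → ∃ l, val z (G l) ≠ 0) → Hered d x := by
  choose G hG hGx hres using fun l => Ram.restrict hx hgen (hy l) (halg l)
  refine ⟨G, fun l => ⟨hG l, hGx l⟩, fun d h E _ _ z t hz ht hdt => ?_⟩
  obtain ⟨l, hl⟩ := h E z t hz ht hdt
  obtain ⟨g, hg1, hg2⟩ := hres l E z (SubOf.on hz) hz.gen hl
  exact ⟨n l, g, hg1, hg2⟩

/-- ramified maps of isomorphic varieties -/
theorem RamP.iso {n : ℕ} {y : Fin (n + 2) → K} (h : RamP ℂ x y) {E : Type} [Field E]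
    [Algebra ℂ E] (σ : K →ₐ[ℂ] E) {l : E} (hl : l ≠ 0) {z : Fin (M + 1) → E}
    (hz : ∀ i, z i = l * σ (x i)) : RamP ℂ z (fun j => σ (y j)) := by
  obtain ⟨q, a, M', μ, c, cD, G, h⟩ := h
  have hcomp : ∀ {N : ℕ} (v : Fin N → K) (P : MvPolynomial (Fin N) ℂ),
      MvPolynomial.aeval (fun i => σ (v i)) P = σ (MvPolynomial.aeval v P) := by
    intro N v P
    rw [MvPolynomial.comp_aeval_apply]
  refine ⟨q, a, M', μ, c, cD, G, h.inj, h.num, ⟨?_, fun i => ?_⟩, h.form, ?_, ?_⟩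
  · rw [hcomp]
    exact (map_ne_zero σ).2 h.gen.1
  · rw [hcomp]
    exact (map_ne_zero σ).2 (h.gen.2 i)
  · obtain ⟨e, he⟩ := h.form
    have h1 : val z G = l ^ e * σ (val x G) := by
      have h2 : z = fun i => l * (fun i => σ (x i)) i := funext hz
      rw [h2, val_smul he]
      congr 1
      exact hcomp x G
    rw [h1]
    exact mul_ne_zero (pow_ne_zero _ hl) ((map_ne_zero σ).2 h.ne)
  · intro E' _ _ f g hcl hfG hg P hP
    refine h.ram E' f g ?_ hfG hg P hP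
    obtain ⟨i, j, hi, hj, hrel⟩ := hcl
    refine ⟨i, j, hi, hj, fun Φ hΦ => hrel Φ ?_⟩
    have h1 : (Sum.elim (fun a => z a / z i) fun b => σ (y b) / σ (y j)) =
        fun s => σ (Sum.elim (fun a => x a / x i) (fun b => y b / y j) s) := by
      funext s
      rcases s with a | b
      · simp only [Sum.elim_inl]
        rw [hz, hz, mul_div_mul_left _ _ hl, map_div₀]
      · simp only [Sum.elim_inr]
        rw [map_div₀]
    rw [h1]
    have h2 := MvPolynomial.comp_aeval_apply (fun s => Sum.elim (fun a => x a / x i)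
      (fun b => y b / y j) s) σ Φ
    rw [← h2, hΦ, map_zero]

theorem coords_iso {N : ℕ} {y : Fin (N + 1) → K} {E : Type} [Field E] [Algebra ℂ E]
    (σ : K →ₐ[ℂ] E) : coords ℂ (fun j => σ (y j)) = (coords ℂ y).map σ := by
  unfold coords
  rw [IntermediateField.adjoin_map]
  congr 1
  ext u
  constructor
  · rintro ⟨i, j, hj, rfl⟩
    exact ⟨y i / y j, ⟨i, j, fun h0 => hj (by
      change σ (y j) = 0
      rw [h0, map_zero]), rfl⟩, map_div₀ σ _ _⟩
  · rintro ⟨_, ⟨i, j, hj, rfl⟩, rfl⟩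
    exact ⟨i, j, (map_ne_zero σ).2 hj, map_div₀ σ _ _⟩

/-- the surfaces -/
theorem RamSurface.binary (h : RamSurface x) : BinaryClass x := by
  obtain ⟨hgt0, -, -⟩ := h.facts
  obtain ⟨hx, hgen, htr, n, y, hy, halg⟩ := h
  intro E _ _ z t hz ht h2
  have hbg : IsGeneric x := ⟨Function.ne_iff.1 hx, hgen⟩
  have hvg : IsGeneric z := ⟨Function.ne_iff.1 hz.ne, hz.gen⟩
  have hpt : Pool.Agent.Q271.RC.IsPoint x z := fun G D hG hGx => hz.spec G ⟨D, hG⟩ hGx
  obtain ⟨ht2, hiso⟩ := Pool.Agent.Q96.OS.gen_point' hbg htr E z t hpt hvg ht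
  obtain rfl : t = 2 := by omega
  obtain ⟨σ, l, hl, hvl, hs⟩ := hiso rfl
  have h1 := RamP.iso hy σ hl hvl
  have hc := coords_iso (y := y) σ
  have hgtE : GeneralType ℂ E 2 := Pool.Agent.TH466.QG.general_of_equiv
    (AlgEquiv.ofBijective σ ⟨σ.toRingHom.injective, hs⟩) hgt0
  right
  refine ⟨hgtE, 1, fun _ => n, fun _ j => σ (y j), fun _ => h1, ?_⟩
  rw [ciSup_const, hc]
  -- the image is not a point
  have hnc : coords ℂ y ≠ ⊥ := by
    rcases halg with halg | ⟨-, hnc⟩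
    · exact bot_ne htr halg
    · exact hnc
  have h3 : (1 : Cardinal) ≤ Algebra.trdeg ℂ ((coords ℂ y).map σ) := by
    rw [Cardinal.one_le_iff_ne_zero]
    intro h0
    rw [trdeg_eq_zero_iff] at h0
    apply hnc
    rw [eq_bot_iff]
    intro w hw
    have hw' : σ w ∈ (coords ℂ y).map σ := ⟨w, hw, rfl⟩
    have h4 : IsAlgebraic ℂ (⟨σ w, hw'⟩ : (coords ℂ y).map σ) := h0.isAlgebraic _
    have h5 : IsAlgebraic ℂ (algebraMap ((coords ℂ y).map σ) E ⟨σ w, hw'⟩) := h4.algebraMap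
    have h6 : IsAlgebraic ℂ (σ w) := h5
    have h7 : IsIntegral ℂ w := (isIntegral_algHom_iff σ σ.toRingHom.injective).1 h6.isIntegral
    have h8 := IsAlgClosed.degree_eq_one_of_irreducible ℂ (minpoly.irreducible h7)
    obtain ⟨c, hc⟩ := minpoly.mem_range_of_degree_eq_one ℂ _ h8
    rw [← hc]
    exact IntermediateField.algebraMap_mem _ c
  have h4 : ((2 : ℕ) : Cardinal) = 1 + 1 := by
    rw [Nat.cast_ofNat]
    exact one_add_one_eq_two.symm
  rw [h4]
  exact add_le_add_left h3 1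

/-- **Any dimension, modulo a proper closed subset.** -/
theorem pseudo_multi (hx : x ≠ 0) (hgen : coords ℂ x = ⊤) {r : ℕ} {n : Fin r → ℕ}
    {z : ∀ l, Fin (n l + 2) → K} (hz : ∀ l, RamP ℂ x (z l))
    (halg : Algebra.IsAlgebraic ↥(⨆ l, coords ℂ (z l)) K) : PseudoPicard x := by
  obtain ⟨G, hG, hGx, hP⟩ := picard_multi hx hgen hz halg
  refine ⟨G, hG, hGx, fun f hf t ht => ?_⟩
  by_contra hcon
  exact hf.ess (hP f ⟨hf.hol, hf.ne, hf.mem, fun t _ => ⟨(), by simp⟩⟩ ⟨t, ht, hcon⟩)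

end

/-- **The families.** -/
theorem fib_class {n m s d : ℕ} (hn : 1 ≤ n) (hm : 2 * n + 3 < n * m) (hd : 1 ≤ d)
    (hs : n + 2 ≤ s + 1 + d) {a : Fin (n + 2) → ℂ} (ha : Function.Injective a) :
    ∃ Y : Fin (n + 2) → MvPolynomial (Fin (n + 2)) ℂ, (∀ j, (Y j).IsHomogeneous m) ∧
      (∀ i, MvPolynomial.aeval Y (Pool.Agent.H910.Vf.hyp ℂ (n + 1) 1 (a i)) =
        MvPolynomial.X i ^ m) ∧
      ∃ σ : Fin (s + 1) → Matrix (Fin (n + 2)) (Fin (n + 2)) ℂ, (∀ l, (σ l).det ≠ 0) ∧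
        ∀ (E : Type) [Field E] [Algebra ℂ E] (f : Fin (n + 2 + s + 1) → E), OnFib m Y σ f →
          Hered d f := by
  obtain ⟨Y, hY1, hY2⟩ := exists_covering m ha
  obtain ⟨σ, hσ, h⟩ := fib_hered hn hm hd hs hY1 hY2
  exact ⟨Y, hY1.2, hY2, σ, hσ, h⟩

end Pool.Agent.H910.Cf
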