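import Pool.Agent.H910.Cf.Pow
import Pool.Agent.H910.Cf.Cdf

/-!
Definitions for the statements about maps to spaces of binary forms over an algebraically closed
field.
-/

set_option autoImplicit false
set_option linter.unusedSectionVars false
set_option linter.unusedVariables false
set_option linter.overlappingInstances false

open FF MvPolynomial Pool.Agent.W603.LV Pool.Agent.W603.PV
open Pool.Agent.W602.GT (val IsForm coords val_smul LogGeneralType GeneralType)
open Pool.Agent.H916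
open Pool.Agent.Y216 (OnVar)
open Pool.Agent.H910.Vf (hyp dsc contact)

namespace Pool.Agent.H910.Cf

/-- `x` is the generic point, in the function field `K`, of a projective variety `X` over `k` (the
ratios of the coordinates generate `K`), and the finitely many forms `Q i`, not all of which are zero
at `x`, define the proper closed subset `D` of `X`. -/
def Pair {k K : Type} [Field k] [Field K] [Algebra k K] {M : ℕ} (x : Fin (M + 1) → K) {ι : Type}
    (Q : ι → MvPolynomial (Fin (M + 1)) k) : Prop :=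
  x ≠ 0 ∧ coords k x = ⊤ ∧ Finite ι ∧ (∀ i, IsForm (Q i)) ∧ ∃ i, aeval x (Q i) ≠ 0

/-- All closed subvarieties of positive dimension of `X ∖ D` which are not contained in `G = 0` are
of log general type. -/
def LogOff (k : Type) {K : Type} [Field k] [Field K] [Algebra k K] {M : ℕ} (x : Fin (M + 1) → K)
    {ι : Type} (Q : ι → MvPolynomial (Fin (M + 1)) k) (G : MvPolynomial (Fin (M + 1)) k) : Prop :=
  ∀ (E : Type) [Field E] [Algebra k E] (f : Fin (M + 1) → E), OnVar k x f → coords k f = ⊤ →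
    (∃ i, aeval f (Q i) ≠ 0) → val f G ≠ 0 → ∀ t : ℕ, 1 ≤ t → Algebra.trdeg k E = t →
      LogGeneralType k E t fun P => Meets Q f P

/-- There are a proper closed subset `G = 0` of `X` and a number `A` such that all closed subvarieties
of positive dimension of `X ∖ D` which are not contained in `G = 0` are of log general type, and
`deg f ≤ A max (2 g - 2 + N, 0)` for all maps `f` from smooth projective curves of genus `g` to `X`,
with the image not contained in `D` or `G = 0`, where `N` is the number of the points of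
`f ⁻¹ (D)`. -/
def DegreesOff (k : Type) {K : Type} [Field k] [Field K] [Algebra k K] {M : ℕ}
    (x : Fin (M + 1) → K) {ι : Type} (Q : ι → MvPolynomial (Fin (M + 1)) k) : Prop :=
  ∃ G : MvPolynomial (Fin (M + 1)) k, IsForm G ∧ val x G ≠ 0 ∧ LogOff k x Q G ∧ ∃ A : ℕ,
    ∀ (E : Type) [Field E] [Algebra k E] [IsFF k E] (f : Fin (M + 1) → E), OnVar k x f →
      val f G ≠ 0 → (∃ i, aeval f (Q i) ≠ 0) →
        pht k f ≤ A * max (canDeg k E + {P : Place k E | Meets Q f P}.ncard) 0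

variable {k : Type} [Field k] [IsAlgClosed k] [CharZero k]

theorem degreesOff {K : Type} [Field K] [Algebra k K] {N n : ℕ} {x : Fin (N + 1) → K} {ι : Type}
    {Q : ι → MvPolynomial (Fin (N + 1)) k} (hp : Pair x Q) {y : Fin (n + 2) → K}
    (h : Ram k x Q y) (halg : Algebra.IsAlgebraic (coords k y) K) : DegreesOff k x Q := by
  obtain ⟨hx, hgen, hfin, hQ, hQx⟩ := hp
  obtain ⟨G, hG, hGx, hL⟩ := lgt_all hx hgen h halg
  obtain ⟨G', hG', hGx', A, hA⟩ := degree_bound hx hgen hQ hQx h halg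
  refine ⟨G * G', isForm_mul0 hG hG', ?_, fun E _ _ f hf hfgen _ hfG t ht htr => ?_, A,
    fun E _ _ _ f hf hfG hfQ => ?_⟩
  · rw [val_mul_ne0]
    exact ⟨hGx, hGx'⟩
  · rw [val_mul_ne0] at hfG
    exact hL E f hf hfgen hfG.1 t ht htr
  · rw [val_mul_ne0] at hfG
    exact hA E f hf hfG.2 hfQ

/-- **Ascent.** -/
theorem ascend_all {K : Type} [Field K] [Algebra k K] {M : ℕ} {x : Fin (M + 1) → K}
    {ι : Type} {Q : ι → MvPolynomial (Fin (M + 1)) k} (hp : Pair x Q)
    {r r' : ℕ} {B : Fin r → Type} [iB : ∀ l, Field (B l)] [iA : ∀ l, Algebra k (B l)]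
    {N : Fin r → ℕ} {y : ∀ l, Fin (N l + 1) → B l} {κ : Fin r → Type}
    {Q' : ∀ l, κ l → MvPolynomial (Fin (N l + 1)) k} {n : Fin r' → ℕ}
    {z : ∀ l, Fin (n l + 2) → K} (hY : ∀ l, Pair (y l) (Q' l)) (φ : ∀ l, B l →ₐ[k] K)
    (hmap : ∀ l, PairMap x Q (fun j => φ l (y l j)) (Q' l)) (hz : ∀ l, Ram k x Q (z l))
    (h : ((∃ w, LogGeneralType k K w fun P => Meets Q x P) ∧
        Algebra.trdeg k K ≤
          Algebra.trdeg k ↥((⨆ l, (φ l).fieldRange) ⊔ ⨆ l, coords k (z l)) + 1) ∨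
      LogHypFibres ((⨆ l, (φ l).fieldRange) ⊔ ⨆ l, coords k (z l)).toSubfield (cuspFun x Q)) :
    ((∀ l, LinearOff k (y l) (Q' l)) → LinearOff k x Q) ∧
      ((∀ l, Tower k (y l) (Q' l)) → Tower k x Q) := by
  obtain ⟨hx, hgen, hfin, hQ, hQx⟩ := hp
  have hfib : LogHypFibres ((⨆ l, (φ l).fieldRange) ⊔ ⨆ l, coords k (z l)).toSubfield
      (cuspFun x Q) := by
    rcases h with ⟨⟨w, hw⟩, htr⟩ | h
    · exact logHyp_of_lgt' hx hgen hQx hw htr
    · exact h
  exact ⟨fun hV => ascend hx hgen hQ hQx hY φ hmap hz hfib hV,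
    fun hI => Tower.step hx hgen hQ hQx hI φ hmap hz hfib⟩

/-- the numerical criterion -/
theorem ram_criterion {K : Type} [Field K] [Algebra k K] {M : ℕ} {x : Fin (M + 1) → K}
    {ι : Type} {Q : ι → MvPolynomial (Fin (M + 1)) k} (hp : Pair x Q) {n q r : ℕ}
    {y : Fin (n + 2) → K} {a : Fin q → k} (ha : Function.Injective a) (hy : Gen a y)
    {m : Fin r → ℕ} {c : Fin r → Fin q → ℕ} {d : Fin r → ℕ}
    (hroot : ∀ l, Root a y (m l) (c l) (d l))
    (J : Set (Fin q)) (hJ : ∀ i ∈ J, PairMap x Q y fun _ : Unit => hyp k (n + 1) 1 (a i))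
    (b : Prop) (hb : b → PairMap x Q y fun _ : Unit => dsc k n)
    (hnum : Wts n fun s t => (∀ l, m l ∣ ∑ i, c l i * s i + d l * t) ∧ (∀ i ∈ J, s i = 0) ∧
      (b → t = 0)) : Ram k x Q y := by
  obtain ⟨hx, hgen, hfin, hQ, hQx⟩ := hp
  exact ram_of_numeric hx hgen hQ ha hy hroot J hJ b hb hnum

/-- The point `f` with the nonzero coordinates `f i` is a point of the variety
`Y(x) (1 : a i) = x i ^ m`, where `Y(x)` is the binary form with the coefficients `Y j (x)`, and the
discriminant of `Y(f)` is not zero. -/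
def OnCovering {k E : Type} [Field k] [Field E] [Algebra k E] {n r : ℕ} (m : ℕ)
    (a : Fin (r + 1) → k) (Y : Fin (n + 2) → MvPolynomial (Fin (r + 1)) k)
    (f : Fin (r + 1) → E) : Prop :=
  (∀ i, f i ≠ 0) ∧ (∀ i, aeval f (aeval Y (hyp k (n + 1) 1 (a i))) = f i ^ m) ∧
    aeval f (aeval Y (dsc k n)) ≠ 0

theorem covering_lgt {n r m : ℕ} {a : Fin (r + 1) → k}
    {Y : Fin (n + 2) → MvPolynomial (Fin (r + 1)) k} (h : Covering m a Y) (hr : n + 1 ≤ r)
    (hm : r + 1 < m * (r - 1)) {E : Type} [Field E] [Algebra k E] {f : Fin (r + 1) → E}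
    (hf : OnCovering m a Y f) (hgen : coords k f = ⊤) {t : ℕ} (htr : Algebra.trdeg k E = t)
    (ht : 1 ≤ t) : LogGeneralType k E t fun P => Meets (fun _ : Unit => aeval Y (dsc k n)) f P :=
  pow_lgt hm h.1 hr h.2 hf.1 hf.2.1 hf.2.2 hgen htr ht

theorem covering_curve {n r m : ℕ} {a : Fin (r + 1) → k}
    {Y : Fin (n + 2) → MvPolynomial (Fin (r + 1)) k} (h : Covering m a Y) (hr : n + 1 ≤ r)
    (hm : 1 ≤ m) {L : Type} [Field L] [Algebra k L] [IsFF k L] {f : Fin (r + 1) → L}
    (hf : OnCovering m a Y f) :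
    ((m : ℤ) * (r - 1) - (r + 1)) * pht k f ≤ (n + 1) * max (canDeg k L +
      {P : Place k L | Meets (fun _ : Unit => aeval Y (dsc k n)) f P}.ncard) 0 :=
  pow_curve hm h.1 hr h.2 hf.1 hf.2.1 hf.2.2

omit [CharZero k] [IsAlgClosed k] in
/-- interpolation -/
theorem exists_covering {n : ℕ} (m : ℕ) {a : Fin (n + 2) → k} (ha : Function.Injective a) :
    ∃ Y : Fin (n + 2) → MvPolynomial (Fin (n + 2)) k, Covering m a Y ∧
      ∀ i, aeval Y (hyp k (n + 1) 1 (a i)) = X i ^ m := by
  classical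
  obtain ⟨A, hA⟩ : ∃ A : Matrix (Fin (n + 2)) (Fin (n + 2)) k, A = Matrix.vandermonde a :=
    ⟨_, rfl⟩
  have hdet : IsUnit A.det := by
    rw [hA, isUnit_iff_ne_zero, Matrix.det_vandermonde_ne_zero_iff]
    exact ha
  have hmul := Matrix.mul_nonsing_inv A hdet
  refine ⟨fun j => ∑ i, C (A⁻¹ j i) * X i ^ m, ⟨ha, fun j => ?_⟩, fun i => ?_⟩
  · refine IsHomogeneous.sum _ _ _ fun i _ => ?_
    have h1 := (isHomogeneous_C (Fin (n + 2)) (A⁻¹ j i)).mul ((isHomogeneous_X k i).pow m)
    rwa [zero_add, one_mul] at h1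
  · obtain ⟨Z, hZ⟩ : ∃ Z : Fin (n + 2) → MvPolynomial (Fin (n + 2)) k, Z = fun i => X i ^ m :=
      ⟨_, rfl⟩
    have hZi : ∀ i, X i ^ m = Z i := fun i => by rw [hZ]
    simp only [hZi]
    have h3 : aeval (fun j => ∑ i, C (A⁻¹ j i) * Z i) (hyp k (n + 1) 1 (a i)) =
        ∑ b : Fin (n + 2), C (A i b) * ∑ i, C (A⁻¹ b i) * Z i := by
      unfold hyp
      rw [map_sum]
      refine Finset.sum_congr rfl fun b _ => ?_
      rw [map_mul, aeval_C, aeval_X, MvPolynomial.algebraMap_eq, hA, Matrix.vandermonde_apply,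
        one_pow, one_mul]
      rfl
    rw [h3]
    simp only [Finset.mul_sum]
    rw [Finset.sum_comm]
    have h1 : ∀ a : Fin (n + 2), ∑ b : Fin (n + 2), C (A i b) * (C (A⁻¹ b a) * Z a) =
        C ((A * A⁻¹) i a) * Z a := by
      intro a
      rw [Matrix.mul_apply, map_sum, Finset.sum_mul]
      refine Finset.sum_congr rfl fun b _ => ?_
      rw [map_mul C, ← mul_assoc]
    rw [Finset.sum_congr rfl fun a _ => h1 a, hmul]
    rw [Finset.sum_eq_single i]
    · rw [Matrix.one_apply_eq, map_one, one_mul]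
    · intro a _ ha
      rw [Matrix.one_apply_ne (Ne.symm ha), map_zero, zero_mul]
    · intro h
      exact absurd (Finset.mem_univ _) h

end Pool.Agent.H910.Cf
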